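import Mathlib
import Pool.Agent.TH396.PS.Key4

set_option autoImplicit false
set_option linter.unusedSectionVars false

open Filter Topology MeasureTheory
open Pool.Agent.TH396.PS

namespace Pool.Agent.N477

variable {G : Type*} [Group G]

/-- abstract data attached to one side -/
structure ASide (m : Mean G) (D : BIM G) where
  C : G → Ultrafilter G → ℝ
  hC : ∀ b, BM (C b)
  C01 : ∀ b p, 0 ≤ C b p ∧ C b p ≤ 1
  q : G → Ultrafilter G → ℝ
  hq : ∀ b, BM (q b)
  q01 : ∀ b p, 0 ≤ q b p ∧ q b p ≤ 1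
  wm : ∀ φ : Ultrafilter G → ℝ, BM φ →
    m.M (fun b => |∫ p, φ p * (C b p - q b p) ∂(mu m)|) = 0
  lip : ∀ φ : Ultrafilter G → ℝ, BM φ → ∀ K : ℝ, 0 ≤ K → (∀ p, |φ p| ≤ K) → ∀ b c : G,
    |∫ p, φ p * (q b p - q c p) ∂(mu m)| ≤ K * D.d b c

namespace ASide

variable {m : Mean G} {D : BIM G}

theorem one_side (S : ASide m D) {φ : Ultrafilter G → ℝ} (hφ : BM φ)
    {K : ℝ} (hK0 : 0 ≤ K) (hK : ∀ p, |φ p| ≤ K) (b c : G) :
    ∫ p, φ p * S.C b p ∂(mu m) ≤
      ∫ p, φ p * S.q c p ∂(mu m) + K * D.d b c +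
      |∫ p, φ p * (S.C b p - S.q b p) ∂(mu m)| := by
  have i1 : Integrable (fun p => φ p * S.C b p) (mu m) := (hφ.mul (S.hC b)).integrable _
  have i2 : Integrable (fun p => φ p * S.q b p) (mu m) := (hφ.mul (S.hq b)).integrable _
  have i3 : Integrable (fun p => φ p * S.q c p) (mu m) := (hφ.mul (S.hq c)).integrable _
  have h1 := S.lip φ hφ K hK0 hK b c
  have e1 : ∫ p, φ p * (S.C b p - S.q b p) ∂(mu m) =
      ∫ p, φ p * S.C b p ∂(mu m) - ∫ p, φ p * S.q b p ∂(mu m) := by
    rw [← integral_sub i1 i2]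
    congr 1
    funext p
    ring
  have e2 : ∫ p, φ p * (S.q b p - S.q c p) ∂(mu m) =
      ∫ p, φ p * S.q b p ∂(mu m) - ∫ p, φ p * S.q c p ∂(mu m) := by
    rw [← integral_sub i2 i3]
    congr 1
    funext p
    ring
  have h2 := le_abs_self (∫ p, φ p * (S.C b p - S.q b p) ∂(mu m))
  have h3 := (le_abs_self _).trans h1
  rw [e2] at h3
  rw [e1] at h2 ⊢
  linarith

theorem err_bdd (S : ASide m D) {φ : Ultrafilter G → ℝ} (hφ : BM φ)
    {K : ℝ} (hK0 : 0 ≤ K) (hK : ∀ p, |φ p| ≤ K) :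
    Bdd (fun b => |∫ p, φ p * (S.C b p - S.q b p) ∂(mu m)|) := by
  refine ⟨K, fun b => ?_⟩
  rw [abs_abs]
  have hi : BM (fun p => φ p * (S.C b p - S.q b p)) := hφ.mul ((S.hC b).sub (S.hq b))
  calc |∫ p, φ p * (S.C b p - S.q b p) ∂(mu m)|
      ≤ ∫ p, |φ p * (S.C b p - S.q b p)| ∂(mu m) := abs_integral_le_integral_abs
    _ ≤ ∫ p, K ∂(mu m) := by
        apply integral_mono (hi.integrable _).abs (integrable_const _)
        intro p
        show |φ p * (S.C b p - S.q b p)| ≤ K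
        rw [abs_mul]
        have h1 : |S.C b p - S.q b p| ≤ 1 := by
          have h2 := S.q01 b p
          have h3 := S.C01 b p
          rw [abs_le]
          constructor <;> linarith
        calc |φ p| * |S.C b p - S.q b p| ≤ K * 1 :=
              mul_le_mul (hK p) h1 (abs_nonneg _) hK0
          _ = K := mul_one K
    _ = K := by simp

end ASide

section claim1

variable {m : Mean G} {D : BIM G} [Infinite G] {κ : Type*} [Fintype κ]

theorem claim1 (S : κ → ASide m D) (V : Set G) (E : Finset G)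
    (Bad : Set (Ultrafilter G))
    (hbad : ∀ b ∈ V, b ∉ E → ∀ p ∈ Bad, (1 : ℝ) ≤ ∑ j, (S j).C b p)
    {ρ : ℝ} (k : Kern m D ρ) (c : G) (hv : 0 < m.M (fun b => V.indicator 1 b * k.w (c⁻¹ * b)))
    {φ : Ultrafilter G → ℝ} (hφ : BM φ) (h0 : ∀ p, 0 ≤ φ p) {K : ℝ} (hK : ∀ p, φ p ≤ K)
    (hsupp : ∀ p ∉ Bad, φ p = 0) :
    ∫ p, φ p ∂(mu m) ≤ ∑ j, ∫ p, φ p * (S j).q c p ∂(mu m) + Fintype.card κ * K * ρ := by
  have hK0 : 0 ≤ K := (h0 (pure 1)).trans (hK (pure 1))
  have hKabs : ∀ p, |φ p| ≤ K := fun p => by rw [abs_of_nonneg (h0 p)]; exact hK p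
  set α : G → ℝ := fun b => V.indicator 1 b * k.w (c⁻¹ * b) with hα
  have hVb : Bdd (V.indicator (1 : G → ℝ)) := by
    refine ⟨1, fun x => ?_⟩
    by_cases hx : x ∈ V <;> simp [hx]
  have hαb : Bdd α := hVb.mul (k.bdd_l c)
  have hα0 : ∀ b, 0 ≤ α b := fun b =>
    mul_nonneg (Set.indicator_nonneg (fun _ _ => zero_le_one) _) (k.nonneg _)
  have hαB : ∀ b, α b ≤ k.B := by
    intro b
    by_cases hb : b ∈ V
    · simp only [hα, Set.indicator_of_mem hb, Pi.one_apply, one_mul]
      exact k.le _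
    · simp only [hα, Set.indicator_of_notMem hb, zero_mul]
      exact k.Bnn
  set e : κ → G → ℝ := fun j b => |∫ p, φ p * ((S j).C b p - (S j).q b p) ∂(mu m)| with he
  have heb : ∀ j, Bdd (e j) := fun j => (S j).err_bdd hφ hK0 hKabs
  have hes : Bdd (fun b => ∑ j, e j b) := Bdd.sum _ fun j _ => heb j
  set Y := ∑ j, ∫ p, φ p * (S j).q c p ∂(mu m) with hY
  set I := ∫ p, φ p ∂(mu m) with hI
  set n : ℝ := (Fintype.card κ : ℝ) with hn
  have hmain : m.M (fun b => I * α b) ≤
      m.M (fun b => (Y + n * K * ρ) * α b + k.B * ∑ j, e j b) := by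
    refine m.mono_off E (hαb.smul _) ((hαb.smul _).add (hes.smul _)) (fun b hb => ?_)
    have hsnn : 0 ≤ ∑ j, e j b := Finset.sum_nonneg fun j _ => abs_nonneg _
    by_cases hα' : α b = 0
    · rw [hα', mul_zero, mul_zero, zero_add]
      exact mul_nonneg k.Bnn hsnn
    · have hbV : b ∈ V := by
        by_contra hcon
        apply hα'
        simp only [hα, Set.indicator_of_notMem hcon, zero_mul]
      have hw : k.w (c⁻¹ * b) ≠ 0 := fun h => hα' (by simp only [hα, h, mul_zero])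
      have hd : D.d b c < ρ := by
        have := k.supp _ hw
        rwa [D.d_one_mul, D.symm] at this
      have hint : ∀ j, Integrable (fun p => φ p * (S j).C b p) (mu m) := fun j =>
        (hφ.mul ((S j).hC b)).integrable _
      have h1 : I ≤ ∑ j, ∫ p, φ p * (S j).C b p ∂(mu m) := by
        rw [← integral_finsetSum _ (fun j _ => hint j)]
        apply integral_mono (hφ.integrable _) (integrable_finsetSum _ (fun j _ => hint j))
        intro p
        show φ p ≤ ∑ j, φ p * (S j).C b p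
        rw [← Finset.mul_sum]
        by_cases hp : p ∈ Bad
        · have := mul_le_mul_of_nonneg_left (hbad b hbV hb p hp) (h0 p)
          linarith
        · rw [hsupp p hp, zero_mul]
      have h2 : ∑ j, ∫ p, φ p * (S j).C b p ∂(mu m) ≤
          ∑ j, (∫ p, φ p * (S j).q c p ∂(mu m) + K * D.d b c + e j b) :=
        Finset.sum_le_sum fun j _ => (S j).one_side hφ hK0 hKabs b c
      rw [Finset.sum_add_distrib, Finset.sum_add_distrib, Finset.sum_const, Finset.card_univ,
        nsmul_eq_mul] at h2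
      have h5 : n * (K * D.d b c) ≤ n * (K * ρ) :=
        mul_le_mul_of_nonneg_left (mul_le_mul_of_nonneg_left hd.le hK0) (Nat.cast_nonneg _)
      have h4 : I ≤ (Y + n * K * ρ) + ∑ j, e j b := by
        rw [hY]
        linarith
      calc I * α b ≤ ((Y + n * K * ρ) + ∑ j, e j b) * α b :=
            mul_le_mul_of_nonneg_right h4 (hα0 b)
        _ = (Y + n * K * ρ) * α b + α b * ∑ j, e j b := by ring
        _ ≤ (Y + n * K * ρ) * α b + k.B * ∑ j, e j b := by
            have : α b * ∑ j, e j b ≤ k.B * ∑ j, e j b :=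
              mul_le_mul_of_nonneg_right (hαB b) hsnn
            linarith
  have hzero : m.M (fun b => ∑ j, e j b) = 0 := by
    rw [m.sum _ (fun j _ => heb j)]
    exact Finset.sum_eq_zero fun j _ => (S j).wm φ hφ
  rw [m.smul' _ _ hαb, m.add' _ _ (hαb.smul _) (hes.smul _), m.smul' _ _ hαb,
    m.smul' _ _ hes, hzero, mul_zero, add_zero] at hmain
  exact le_of_mul_le_mul_right hmain hv

end claim1

section main

variable {m : Mean G} {D : BIM G} [Infinite G] {κ : Type*} [Fintype κ]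

theorem main_bound_aux (S : κ → ASide m D) {ι : Type*} [Fintype ι]
    (ℓ : G → ι) (E : Finset G) (Bad : ι → Set (Ultrafilter G)) (hmeas : ∀ i, MeasurableSet (Bad i))
    (hsub : ∀ i, ∀ p ∈ Bad i, ℓ ⁻¹' {i} ∈ p)
    (hbad : ∀ i, ∀ b ∈ ℓ ⁻¹' {i}, b ∉ E → ∀ p ∈ Bad i, (1 : ℝ) ≤ ∑ j, (S j).C b p)
    (ε : κ → ℝ)
    (hS : ∀ j (r : ℝ) (k : Kern m D r),
      m.M (fun c => ∫ p, (S j).q c p * k.W c p ∂(mu m)) ≤ ε j)
    {r ρ : ℝ} (hρ : 0 < ρ) (k : Kern m D r) (kρ : Kern m D ρ) :
    ∑ i, (mu m).real (Bad i) ≤ ∑ j, ε j + Fintype.card κ * (Fintype.card ι) * k.B * ρ +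
      ∑ i, m.M (fun c => |kρ.sm ({p : Ultrafilter G | ℓ ⁻¹' {i} ∈ p}.indicator 1) c -
        k.sm ({p : Ultrafilter G | ℓ ⁻¹' {i} ∈ p}.indicator 1) c|) := by
  classical
  set Vb : ι → Set (Ultrafilter G) := fun i => {p : Ultrafilter G | ℓ ⁻¹' {i} ∈ p} with hVb
  have hVm : ∀ i, MeasurableSet (Vb i) := fun i => meas_basic _
  have smb : ∀ (s : ℝ) (κ : Kern m D s) (Z : Set (Ultrafilter G)), MeasurableSet Z →
      Bdd (fun c => κ.sm (Z.indicator 1) c) := by
    intro s κ Z hZ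
    refine Bdd.of_mem 0 1 (fun c => κ.sm_mem (BM.ind hZ) (fun p => ?_) c)
    by_cases hp : p ∈ Z <;> simp [hp]
  have sqb : ∀ j, Bdd (fun c => ∫ p, (S j).q c p * k.W c p ∂(mu m)) := by
    intro j
    refine Bdd.of_mem 0 1 (fun c => ⟨integral_nonneg fun p =>
      mul_nonneg ((S j).q01 c p).1 (k.W_nonneg c p), ?_⟩)
    rw [← k.W_int c]
    apply integral_mono ((((S j).hq c).mul (k.W_BM c)).integrable _) ((k.W_BM c).integrable _)
    intro p
    show (S j).q c p * k.W c p ≤ k.W c p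
    have := mul_le_mul_of_nonneg_right ((S j).q01 c p).2 (k.W_nonneg c p)
    linarith
  set n : ℝ := (Fintype.card κ : ℝ) with hn
  have hn0 : 0 ≤ n := Nat.cast_nonneg _
  -- pointwise inequality
  have hpt : ∀ c, ∑ i, k.sm ((Bad i).indicator 1) c ≤
      ∑ j, (∫ p, (S j).q c p * k.W c p ∂(mu m)) + n * (Fintype.card ι) * k.B * ρ +
      ∑ i, |kρ.sm ((Vb i).indicator 1) c - k.sm ((Vb i).indicator 1) c| := by
    intro c
    set φ : ι → Ultrafilter G → ℝ := fun i p => (Bad i).indicator 1 p * k.W c p with hφ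
    have hφBM : ∀ i, BM (φ i) := fun i => (BM.ind (hmeas i)).mul (k.W_BM c)
    have hφ0 : ∀ i p, 0 ≤ φ i p := fun i p =>
      mul_nonneg (Set.indicator_nonneg (fun _ _ => zero_le_one) _) (k.W_nonneg c p)
    have hφle : ∀ i p, φ i p ≤ k.B := by
      intro i p
      by_cases hp : p ∈ Bad i
      · simp only [hφ, Set.indicator_of_mem hp, Pi.one_apply, one_mul]
        exact k.W_le c p
      · simp only [hφ, Set.indicator_of_notMem hp, zero_mul]
        exact k.Bnn
    have hφsupp : ∀ i, ∀ p ∉ Bad i, φ i p = 0 := by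
      intro i p hp
      simp only [hφ, Set.indicator_of_notMem hp, zero_mul]
    have hφint : ∀ i, k.sm ((Bad i).indicator 1) c = ∫ p, φ i p ∂(mu m) := fun i => rfl
    have hVsm : ∀ (s : ℝ) (κ : Kern m D s) (i : ι), 0 ≤ κ.sm ((Vb i).indicator 1) c := by
      intro s κ i
      refine (κ.sm_mem (BM.ind (hVm i)) (fun p => ?_) c).1
      by_cases hp : p ∈ Vb i <;> simp [hp]
    have hnn : ∀ i, 0 ≤ ∑ j, ∫ p, φ i p * (S j).q c p ∂(mu m) := fun i =>
      Finset.sum_nonneg fun j _ => integral_nonneg fun p => mul_nonneg (hφ0 i p) ((S j).q01 _ _).1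
    have hone : ∀ i, k.sm ((Bad i).indicator 1) c ≤
        ∑ j, ∫ p, φ i p * (S j).q c p ∂(mu m) +
        n * k.B * ρ + |kρ.sm ((Vb i).indicator 1) c - k.sm ((Vb i).indicator 1) c| := by
      intro i
      have hnn1 := hnn i
      have hnn3 : 0 ≤ n * k.B * ρ := by have := k.Bnn; positivity
      rcases (hVsm ρ kρ i).lt_or_eq with h | h
      · rw [kρ.sm_ind] at h
        have := claim1 S (ℓ ⁻¹' {i}) E (Bad i) (hbad i) kρ c h (hφBM i) (hφ0 i) (hφle i)
          (hφsupp i)
        rw [hφint]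
        have h2 := abs_nonneg (kρ.sm ((Vb i).indicator 1) c - k.sm ((Vb i).indicator 1) c)
        linarith
      · have h1 : k.sm ((Bad i).indicator 1) c ≤ k.sm ((Vb i).indicator 1) c := by
          unfold Kern.sm
          apply integral_mono (((BM.ind (hmeas i)).mul (k.W_BM c)).integrable _)
            (((BM.ind (hVm i)).mul (k.W_BM c)).integrable _)
          intro p
          show (Bad i).indicator 1 p * k.W c p ≤ (Vb i).indicator 1 p * k.W c p
          apply mul_le_mul_of_nonneg_right _ (k.W_nonneg c p)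
          by_cases hp : p ∈ Bad i
          · have hp' : p ∈ Vb i := hsub i p hp
            rw [Set.indicator_of_mem hp, Set.indicator_of_mem hp']
          · rw [Set.indicator_of_notMem hp]
            exact Set.indicator_nonneg (fun _ _ => zero_le_one) _
        have h2 : k.sm ((Vb i).indicator 1) c ≤
            |kρ.sm ((Vb i).indicator 1) c - k.sm ((Vb i).indicator 1) c| := by
          rw [← h, zero_sub, abs_neg]
          exact le_abs_self _
        linarith
    have hsum : ∑ i, k.sm ((Bad i).indicator 1) c ≤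
        ∑ i, (∑ j, ∫ p, φ i p * (S j).q c p ∂(mu m) +
        n * k.B * ρ + |kρ.sm ((Vb i).indicator 1) c - k.sm ((Vb i).indicator 1) c|) :=
      Finset.sum_le_sum fun i _ => hone i
    rw [Finset.sum_add_distrib, Finset.sum_add_distrib, Finset.sum_comm] at hsum
    have hφsum : ∀ p, ∑ i, φ i p ≤ k.W c p := by
      intro p
      by_cases hex : ∃ i, p ∈ Bad i
      · obtain ⟨i, hi⟩ := hex
        rw [Finset.sum_eq_single i]
        · simp only [hφ, Set.indicator_of_mem hi, Pi.one_apply, one_mul]; exact le_rfl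
        · intro j _ hj
          apply hφsupp
          intro hpj
          have h1 := hsub i p hi
          have h2 := hsub j p hpj
          have h3 := Filter.inter_mem h1 h2
          have h4 : ℓ ⁻¹' {i} ∩ ℓ ⁻¹' {j} = ∅ := by
            ext x
            simp only [Set.mem_inter_iff, Set.mem_preimage, Set.mem_singleton_iff,
              Set.mem_empty_iff_false, iff_false, not_and]
            intro h5 h6
            exact hj (h6.symm.trans h5)
          rw [h4] at h3
          exact p.empty_notMem h3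
        · intro h; exact absurd (Finset.mem_univ i) h
      · push Not at hex
        rw [Finset.sum_eq_zero (fun i _ => hφsupp i p (hex i))]
        exact k.W_nonneg c p
    have gen : ∀ j, ∑ i, ∫ p, φ i p * (S j).q c p ∂(mu m) ≤
        ∫ p, (S j).q c p * k.W c p ∂(mu m) := by
      intro j
      have hTq : BM (fun p => (S j).q c p) := (S j).hq c
      rw [← integral_finsetSum _ (fun i _ => ((hφBM i).mul hTq).integrable _)]
      apply integral_mono (integrable_finsetSum _ (fun i _ => ((hφBM i).mul hTq).integrable _))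
        ((hTq.mul (k.W_BM c)).integrable _)
      intro p
      show ∑ i, φ i p * (S j).q c p ≤ (S j).q c p * k.W c p
      rw [← Finset.sum_mul, mul_comm]
      exact mul_le_mul_of_nonneg_left (hφsum p) ((S j).q01 _ _).1
    have g1 : ∑ j, ∑ i, ∫ p, φ i p * (S j).q c p ∂(mu m) ≤
        ∑ j, ∫ p, (S j).q c p * k.W c p ∂(mu m) := Finset.sum_le_sum fun j _ => gen j
    have hc : ∑ _i : ι, n * k.B * ρ = n * (Fintype.card ι) * k.B * ρ := by
      rw [Finset.sum_const, Finset.card_univ, nsmul_eq_mul]; ring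
    rw [hc] at hsum
    linarith
  -- take the mean
  have hLHS : m.M (fun c => ∑ i, k.sm ((Bad i).indicator 1) c) = ∑ i, (mu m).real (Bad i) := by
    rw [m.sum _ (fun i _ => smb r k _ (hmeas i))]
    refine Finset.sum_congr rfl (fun i _ => ?_)
    have := k.exchange ((Bad i).indicator 1) ((BM.ind (hmeas i)).integrable _)
    rw [integral_indicator_one (hmeas i)] at this
    exact this
  rw [← hLHS]
  have b1 : Bdd (fun c => ∑ j, ∫ p, (S j).q c p * k.W c p ∂(mu m)) := Bdd.sum _ fun j _ => sqb j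
  have b3 : ∀ i ∈ (Finset.univ : Finset ι), Bdd (fun c => |kρ.sm ((Vb i).indicator 1) c -
      k.sm ((Vb i).indicator 1) c|) := fun i _ => ((smb ρ kρ _ (hVm i)).sub (smb r k _ (hVm i))).abs
  refine (m.mono' _ _ (Bdd.sum _ fun i _ => smb r k _ (hmeas i))
    ((b1.add (Bdd.const _)).add (Bdd.sum _ b3)) hpt).trans ?_
  rw [m.add' _ _ (b1.add (Bdd.const _)) (Bdd.sum _ b3), m.add' _ _ b1
    (Bdd.const _), m.sum _ (fun j _ => sqb j), m.const', m.sum _ b3]
  have : ∑ j, m.M (fun c => ∫ p, (S j).q c p * k.W c p ∂(mu m)) ≤ ∑ j, ε j :=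
    Finset.sum_le_sum fun j _ => hS j r k
  linarith

/-- union bound over sides -/
theorem main_bound (S : κ → ASide m D) {ι : Type*} [Fintype ι]
    (ℓ : G → ι) (E : Finset G) (Bad : ι → Set (Ultrafilter G)) (hmeas : ∀ i, MeasurableSet (Bad i))
    (hsub : ∀ i, ∀ p ∈ Bad i, ℓ ⁻¹' {i} ∈ p)
    (hbad : ∀ i, ∀ b ∈ ℓ ⁻¹' {i}, b ∉ E → ∀ p ∈ Bad i, (1 : ℝ) ≤ ∑ j, (S j).C b p)
    (ε : κ → ℝ)
    (hS : ∀ j (r : ℝ) (k : Kern m D r),
      m.M (fun c => ∫ p, (S j).q c p * k.W c p ∂(mu m)) ≤ ε j) :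
    ∑ i, (mu m).real (Bad i) ≤ ∑ j, ε j := by
  apply le_of_forall_pos_le_add
  intro κ' hκ
  set n : ℝ := (Fintype.card ι : ℝ) with hn
  have hn0 : 0 ≤ n := Nat.cast_nonneg _
  set n' : ℝ := (Fintype.card κ : ℝ) with hn'
  have hn'0 : 0 ≤ n' := Nat.cast_nonneg _
  set Vb : ι → Set (Ultrafilter G) := fun i => {p : Ultrafilter G | ℓ ⁻¹' {i} ∈ p} with hVb
  have hVm : ∀ i, MeasurableSet (Vb i) := fun i => meas_basic _
  have happ := fun i => approx_density m D ((Vb i).indicator 1) (BM.ind (hVm i))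
    (κ' / (8 * (n + 1))) (by positivity)
  choose f L hfb hL hfL using happ
  set Λ : ℝ := ∑ i, L i with hΛ
  have hΛ0 : 0 ≤ Λ := Finset.sum_nonneg fun i _ => hL i
  set r : ℝ := κ' / (8 * (Λ + 1)) with hr
  have hrp : 0 < r := by positivity
  obtain ⟨k⟩ := Kern.exists_kern m D r hrp
  have hB := k.Bnn
  set ρ : ℝ := min r (κ' / (4 * (n' + 1) * (n + 1) * (k.B + 1))) with hρdef
  have hρ : 0 < ρ := lt_min hrp (by positivity)
  obtain ⟨kρ⟩ := Kern.exists_kern m D ρ hρ
  have h := main_bound_aux S ℓ E Bad hmeas hsub hbad ε hS hρ k kρ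
  have smb : ∀ (s : ℝ) (κ : Kern m D s) (Z : Set (Ultrafilter G)), MeasurableSet Z →
      Bdd (fun c => κ.sm (Z.indicator 1) c) := by
    intro s κ Z hZ
    refine Bdd.of_mem 0 1 (fun c => κ.sm_mem (BM.ind hZ) (fun p => ?_) c)
    by_cases hp : p ∈ Z <;> simp [hp]
  have hterm : ∀ i, m.M (fun c => |kρ.sm ((Vb i).indicator 1) c - k.sm ((Vb i).indicator 1) c|) ≤
      2 * (κ' / (8 * (n + 1))) + 2 * (L i * r) := by
    intro i
    have c1 := hfL i ρ kρ
    have c2 := hfL i r k
    have bb1 := ((smb ρ kρ _ (hVm i)).sub (hfb i)).abs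
    have bb2 := ((smb r k _ (hVm i)).sub (hfb i)).abs
    have : m.M (fun c => |kρ.sm ((Vb i).indicator 1) c - k.sm ((Vb i).indicator 1) c|) ≤
        m.M (fun c => |kρ.sm ((Vb i).indicator 1) c - f i c| +
          |k.sm ((Vb i).indicator 1) c - f i c|) := by
      refine m.mono' _ _ ((smb ρ kρ _ (hVm i)).sub (smb r k _ (hVm i))).abs (bb1.add bb2)
        (fun c => ?_)
      have e : kρ.sm ((Vb i).indicator 1) c - k.sm ((Vb i).indicator 1) c =
        (kρ.sm ((Vb i).indicator 1) c - f i c) - (k.sm ((Vb i).indicator 1) c - f i c) := by ring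
      rw [e]
      exact abs_sub _ _
    rw [m.add' _ _ bb1 bb2] at this
    have h3 : L i * ρ ≤ L i * r := mul_le_mul_of_nonneg_left (min_le_left _ _) (hL i)
    linarith
  have hsum : ∑ i, m.M (fun c => |kρ.sm ((Vb i).indicator 1) c - k.sm ((Vb i).indicator 1) c|) ≤
      n * (2 * (κ' / (8 * (n + 1)))) + 2 * (Λ * r) := by
    refine (Finset.sum_le_sum fun i _ => hterm i).trans ?_
    rw [Finset.sum_add_distrib, Finset.sum_const, Finset.card_univ, nsmul_eq_mul,
      ← Finset.mul_sum, ← Finset.sum_mul]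
  have e1 : n * (2 * (κ' / (8 * (n + 1)))) ≤ κ' / 4 := by
    have : n * (2 * (κ' / (8 * (n + 1)))) = (κ' / 4) * (n / (n + 1)) := by field_simp; ring
    rw [this]
    have h1 : n / (n + 1) ≤ 1 := by rw [div_le_one (by positivity)]; linarith
    calc κ' / 4 * (n / (n + 1)) ≤ κ' / 4 * 1 := mul_le_mul_of_nonneg_left h1 (by positivity)
      _ = κ' / 4 := mul_one _
  have e2 : 2 * (Λ * r) ≤ κ' / 4 := by
    have : 2 * (Λ * r) = (κ' / 4) * (Λ / (Λ + 1)) := by rw [hr]; field_simp; ring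
    rw [this]
    have h1 : Λ / (Λ + 1) ≤ 1 := by rw [div_le_one (by positivity)]; linarith
    calc κ' / 4 * (Λ / (Λ + 1)) ≤ κ' / 4 * 1 := mul_le_mul_of_nonneg_left h1 (by positivity)
      _ = κ' / 4 := mul_one _
  have e3 : n' * n * k.B * ρ ≤ κ' / 4 := by
    have h1 : ρ ≤ κ' / (4 * (n' + 1) * (n + 1) * (k.B + 1)) := min_le_right _ _
    have h2 : n' * n * k.B * ρ ≤ n' * n * k.B * (κ' / (4 * (n' + 1) * (n + 1) * (k.B + 1))) :=
      mul_le_mul_of_nonneg_left h1 (by positivity)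
    refine h2.trans ?_
    have : n' * n * k.B * (κ' / (4 * (n' + 1) * (n + 1) * (k.B + 1))) =
      (κ' / 4) * ((n' / (n' + 1)) * ((n / (n + 1)) * (k.B / (k.B + 1)))) := by field_simp
    rw [this]
    have h3 : n / (n + 1) ≤ 1 := by rw [div_le_one (by positivity)]; linarith
    have h3' : n' / (n' + 1) ≤ 1 := by rw [div_le_one (by positivity)]; linarith
    have h4 : k.B / (k.B + 1) ≤ 1 := by rw [div_le_one (by positivity)]; linarith
    have h5 : (n / (n + 1)) * (k.B / (k.B + 1)) ≤ 1 * 1 :=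
      mul_le_mul h3 h4 (by positivity) zero_le_one
    have h6 : (n' / (n' + 1)) * ((n / (n + 1)) * (k.B / (k.B + 1))) ≤ 1 * (1 * 1) :=
      mul_le_mul h3' h5 (by positivity) zero_le_one
    calc κ' / 4 * ((n' / (n' + 1)) * ((n / (n + 1)) * (k.B / (k.B + 1)))) ≤ κ' / 4 * (1 * (1 * 1)) :=
          mul_le_mul_of_nonneg_left h6 (by positivity)
      _ = κ' / 4 := by ring
  have h' : ∑ i, (mu m).real (Bad i) ≤ ∑ j, ε j + n' * n * k.B * ρ +
      ∑ i, m.M (fun c => |kρ.sm ((Vb i).indicator 1) c - k.sm ((Vb i).indicator 1) c|) := h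
  linarith

end main

end Pool.Agent.N477
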