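import Mathlib
import Pool.Agent.N477.Abs

set_option autoImplicit false
set_option linter.unusedSectionVars false

open Filter Topology MeasureTheory
open Pool.Agent.TH396.PS

namespace Pool.Agent.N477

section meanOf

variable {G : Type*} [Group G] [DecidableEq G]

theorem bdd_avg (Φ : ℕ → Finset G) {f : G → ℝ} (hf : Bdd f) : Bdd (fun N => avg (Φ N) f) := by
  obtain ⟨C, hC⟩ := hf
  refine ⟨|C|, fun N => ?_⟩
  exact abs_avg_le _ (fun x => (hC x).trans (le_abs_self C)) (abs_nonneg _)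

theorem tendsto_avg_ulim (𝒰 : Ultrafilter ℕ) (Φ : ℕ → Finset G) {f : G → ℝ} (hf : Bdd f) :
    Tendsto (fun N => avg (Φ N) f) 𝒰 (𝓝 (limUnder (𝒰 : Filter ℕ) (fun N => avg (Φ N) f))) :=
  tendsto_ulim 𝒰 _ (bdd_avg Φ hf)

theorem shift_eq (𝒰 : Ultrafilter ℕ) (Φ : ℕ → Finset G)
    (hne : ∀ᶠ N in (𝒰 : Filter ℕ), (Φ N).Nonempty) (e : G ≃ G) (f : G → ℝ) (hf : Bdd f)
    (he : Tendsto (fun N => ((((Φ N).image e) ∩ Φ N).card : ℝ) / (Φ N).card) 𝒰 (𝓝 1)) :
    limUnder (𝒰 : Filter ℕ) (fun N => avg (Φ N) (fun x => f (e x))) =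
      limUnder (𝒰 : Filter ℕ) (fun N => avg (Φ N) f) := by
  obtain ⟨C, hC⟩ := hf
  have h1 : Tendsto (fun N => avg (Φ N) (fun x => f (e x)) - avg (Φ N) f) 𝒰 (𝓝 0) := by
    have h2 : Tendsto (fun N => 2 * C * (1 - ((((Φ N).image e) ∩ Φ N).card : ℝ) / (Φ N).card))
        𝒰 (𝓝 0) := by
      have := (he.const_sub 1).const_mul (2 * C)
      simpa using this
    refine squeeze_zero_norm' ?_ h2
    filter_upwards [hne] with N hN
    exact avg_shift e (Φ N) f hC hN
  have h3 := (tendsto_avg_ulim 𝒰 Φ (Bdd.comp ⟨C, hC⟩ e)).sub (tendsto_avg_ulim 𝒰 Φ ⟨C, hC⟩)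
  have h4 := tendsto_nhds_unique h3 h1
  linarith

/-- the mean defined by an ultrafilter along an asymptotically invariant sequence -/
noncomputable def meanOf (𝒰 : Ultrafilter ℕ) (Φ : ℕ → Finset G)
    (hne : ∀ᶠ N in (𝒰 : Filter ℕ), (Φ N).Nonempty)
    (hl : ∀ g : G, Tendsto (fun N => ((((Φ N).image (fun x => g * x)) ∩ Φ N).card : ℝ) / (Φ N).card)
      𝒰 (𝓝 1))
    (hr : ∀ g : G, Tendsto (fun N => ((((Φ N).image (fun x => x * g)) ∩ Φ N).card : ℝ) / (Φ N).card)
      𝒰 (𝓝 1)) : Mean G where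
  M f := limUnder (𝒰 : Filter ℕ) (fun N => avg (Φ N) f)
  add' f g hf hg := by
    refine tendsto_nhds_unique (tendsto_avg_ulim 𝒰 Φ (hf.add hg)) ?_
    simp only [avg_add]
    exact (tendsto_avg_ulim 𝒰 Φ hf).add (tendsto_avg_ulim 𝒰 Φ hg)
  smul' c f hf := by
    refine tendsto_nhds_unique (tendsto_avg_ulim 𝒰 Φ (hf.smul c)) ?_
    simp only [avg_smul]
    exact (tendsto_avg_ulim 𝒰 Φ hf).const_mul c
  mono' f g hf hg h := le_of_tendsto_of_tendsto' (tendsto_avg_ulim 𝒰 Φ hf)
    (tendsto_avg_ulim 𝒰 Φ hg) (fun N => avg_mono _ h)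
  const' c := by
    refine tendsto_nhds_unique (tendsto_avg_ulim 𝒰 Φ (Bdd.const c)) ?_
    refine tendsto_const_nhds.congr' ?_
    filter_upwards [hne] with N hN
    exact (avg_const hN c).symm
  left' a f hf := shift_eq 𝒰 Φ hne (Equiv.mulLeft a) f hf (hl a)
  right' a f hf := shift_eq 𝒰 Φ hne (Equiv.mulRight a) f hf (hr a)
  approx' S hS hSb η hη := by
    have : ∀ᶠ N in (𝒰 : Filter ℕ), ∀ f ∈ S,
        |avg (Φ N) f - limUnder (𝒰 : Filter ℕ) (fun N => avg (Φ N) f)| ≤ η := by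
      rw [Filter.eventually_all_finite hS]
      intro f hf
      have := tendsto_avg_ulim 𝒰 Φ (hSb f hf)
      rw [Metric.tendsto_nhds] at this
      filter_upwards [this η hη] with N hN
      exact hN.le
    obtain ⟨N, hN, hN'⟩ := (this.and hne).exists
    exact ⟨Φ N, hN', hN⟩

theorem meanOf_tendsto (𝒰 : Ultrafilter ℕ) (Φ : ℕ → Finset G)
    (hne : ∀ᶠ N in (𝒰 : Filter ℕ), (Φ N).Nonempty)
    (hl : ∀ g : G, Tendsto (fun N => ((((Φ N).image (fun x => g * x)) ∩ Φ N).card : ℝ) / (Φ N).card)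
      𝒰 (𝓝 1))
    (hr : ∀ g : G, Tendsto (fun N => ((((Φ N).image (fun x => x * g)) ∩ Φ N).card : ℝ) / (Φ N).card)
      𝒰 (𝓝 1)) {f : G → ℝ} (hf : Bdd f) :
    Tendsto (fun N => avg (Φ N) f) 𝒰 (𝓝 ((meanOf 𝒰 Φ hne hl hr).M f)) :=
  tendsto_avg_ulim 𝒰 Φ hf

end meanOf

/-- left invariant mean, no approximation property -/
structure LMean (G : Type*) [Group G] where
  M : (G → ℝ) → ℝ
  add' : ∀ f g, Bdd f → Bdd g → M (fun x => f x + g x) = M f + M g
  smul' : ∀ (c : ℝ) f, Bdd f → M (fun x => c * f x) = c * M f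
  mono' : ∀ f g, Bdd f → Bdd g → (∀ x, f x ≤ g x) → M f ≤ M g
  const' : ∀ c : ℝ, M (fun _ => c) = c
  left' : ∀ (a : G) f, Bdd f → M (fun x => f (a * x)) = M f

namespace LMean

variable {G : Type*} [Group G] (m : LMean G)

theorem sub {f g : G → ℝ} (hf : Bdd f) (hg : Bdd g) :
    m.M (fun x => f x - g x) = m.M f - m.M g := by
  have h1 := m.add' f (fun x => (-1) * g x) hf (hg.smul (-1))
  rw [m.smul' (-1) g hg] at h1
  have h2 : (fun x => f x - g x) = (fun x => f x + (-1) * g x) := by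
    funext x; ring
  rw [h2, h1]; ring

theorem sum {ι : Type*} (s : Finset ι) {f : ι → G → ℝ} (hf : ∀ i ∈ s, Bdd (f i)) :
    m.M (fun x => ∑ i ∈ s, f i x) = ∑ i ∈ s, m.M (f i) := by
  classical
  induction s using Finset.induction_on with
  | empty => simpa using m.const' 0
  | insert a s ha ih =>
    simp only [Finset.sum_insert ha]
    rw [m.add' (f a) (fun x => ∑ i ∈ s, f i x) (hf a (Finset.mem_insert_self _ _))
      (Bdd.sum s fun i hi => hf i (Finset.mem_insert_of_mem hi)),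
      ih fun i hi => hf i (Finset.mem_insert_of_mem hi)]

theorem bound {f : G → ℝ} {C : ℝ} (h : ∀ x, |f x| ≤ C) : |m.M f| ≤ C := by
  have hf : Bdd f := ⟨C, h⟩
  rw [abs_le]
  constructor
  · have := m.mono' (fun _ => -C) f (Bdd.const _) hf (fun x => (abs_le.mp (h x)).1)
    rwa [m.const'] at this
  · have := m.mono' f (fun _ => C) hf (Bdd.const _) (fun x => (abs_le.mp (h x)).2)
    rwa [m.const'] at this

end LMean

/-- almost periodicity of a function on a group -/
def AP {G : Type*} [Group G] (f : G → ℝ) : Prop :=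
  ∀ η : ℝ, 0 < η → ∃ N : Finset G, ∀ x, ∃ c ∈ N, ∀ b, |f (b * x) - f (b * c)| ≤ η

theorem mean_unique {G : Type*} [Group G] (m : Mean G) (m' : LMean G) (f : G → ℝ) (hf : Bdd f)
    (hAP : AP f) : m'.M f = m.M f := by
  have key : ∀ η : ℝ, 0 < η → |m'.M f - m.M f| ≤ 2 * η := by
    intro η hη
    obtain ⟨N, hN⟩ := hAP η hη
    obtain ⟨Q, hQ, hQ'⟩ := m.approx' ((fun s : G => fun c => f (c * s)) '' (N : Set G))
      (N.finite_toSet.image _) (by
        rintro g ⟨s, _, rfl⟩
        exact hf.comp _) η hη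
    have hcQ : (0 : ℝ) < Q.card := by exact_mod_cast hQ.card_pos
    have hunif : ∀ x, |avg Q (fun b => f (b * x)) - m.M f| ≤ 2 * η := by
      intro x
      obtain ⟨c, hc, hcs⟩ := hN x
      have h1 := hQ' _ ⟨c, hc, rfl⟩
      beta_reduce at h1
      rw [m.right' c f hf] at h1
      have h2 : |avg Q (fun b => f (b * x)) - avg Q (fun b => f (b * c))| ≤ η := by
        have e : avg Q (fun b => f (b * x)) - avg Q (fun b => f (b * c)) =
            avg Q (fun b => f (b * x) - f (b * c)) := by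
          simp only [avg, Finset.sum_sub_distrib, sub_div]
        rw [e]
        exact abs_avg_le _ hcs hη.le
      have h3 : avg Q (fun b => f (b * x)) - m.M f =
          (avg Q (fun b => f (b * x)) - avg Q (fun b => f (b * c))) +
          (avg Q (fun b => f (b * c)) - m.M f) := by ring
      rw [h3]
      refine (abs_add_le _ _).trans ?_
      linarith
    have hb : Bdd (fun x => avg Q (fun b => f (b * x))) := by
      obtain ⟨C, hC⟩ := hf
      exact ⟨|C|, fun x => abs_avg_le _ (fun b => (hC _).trans (le_abs_self _)) (abs_nonneg _)⟩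
    have h4 : m'.M (fun x => avg Q (fun b => f (b * x))) = m'.M f := by
      have e1 : (fun x => avg Q (fun b => f (b * x))) =
          fun x => (Q.card : ℝ)⁻¹ * ∑ b ∈ Q, f (b * x) := by
        funext x
        unfold avg
        rw [div_eq_inv_mul]
      rw [e1, m'.smul' _ _ (Bdd.sum _ fun b _ => hf.comp _),
        m'.sum Q (f := fun b x => f (b * x)) (fun b _ => hf.comp _),
        Finset.sum_congr rfl (fun b _ => m'.left' b f hf), Finset.sum_const, nsmul_eq_mul,
        ← mul_assoc, inv_mul_cancel₀ hcQ.ne', one_mul]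
    have h5 : m'.M f - m.M f = m'.M (fun x => avg Q (fun b => f (b * x)) - m.M f) := by
      rw [m'.sub hb (Bdd.const _), m'.const', h4]
    rw [h5]
    exact m'.bound hunif
  have h0 : |m'.M f - m.M f| ≤ 0 := by
    apply le_of_forall_pos_le_add
    intro ε hε
    have := key (ε / 2) (by positivity)
    linarith
  exact sub_eq_zero.mp (abs_nonpos_iff.mp h0)

end Pool.Agent.N477
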