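import Mathlib
import Pool.Agent.N477.MeanOf

set_option autoImplicit false
set_option linter.unusedSectionVars false

open Filter Topology MeasureTheory
open Pool.Agent.TH396.PS

namespace Pool.Agent.N477

/-- a finite transversal for the `n`-th powers, with unique `n`-th roots -/
structure PT (G : Type*) [CommGroup G] (n : ℕ) where
  R : Finset G
  one_mem : (1 : G) ∈ R
  inj : ∀ x y : G, ∀ r ∈ R, ∀ r' ∈ R, x ^ n * r = y ^ n * r' → x = y ∧ r = r'
  surj : ∀ v : G, ∃ x : G, ∃ r ∈ R, v = x ^ n * r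

namespace PT

variable {G : Type*} [CommGroup G] {n : ℕ} (T : PT G n)

/-- the root -/
noncomputable def rt (v : G) : G := (T.surj v).choose

/-- the remainder -/
noncomputable def rm (v : G) : G := (T.surj v).choose_spec.choose

theorem rm_mem (v : G) : T.rm v ∈ T.R := (T.surj v).choose_spec.choose_spec.1

theorem eq_rt_rm (v : G) : v = T.rt v ^ n * T.rm v := (T.surj v).choose_spec.choose_spec.2

theorem rt_eq (x r : G) (hr : r ∈ T.R) : T.rt (x ^ n * r) = x :=
  (T.inj _ _ _ (T.rm_mem _) _ hr (T.eq_rt_rm (x ^ n * r)).symm).1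

theorem rm_eq (x r : G) (hr : r ∈ T.R) : T.rm (x ^ n * r) = r :=
  (T.inj _ _ _ (T.rm_mem _) _ hr (T.eq_rt_rm (x ^ n * r)).symm).2

theorem card_pos : 0 < T.R.card := Finset.card_pos.mpr ⟨1, T.one_mem⟩

theorem card_pos' : (0 : ℝ) < T.R.card := by exact_mod_cast T.card_pos

theorem rm_injOn (a : G) : Set.InjOn (fun r => T.rm (a * r)) (T.R : Set G) := by
  intro r hr r' hr' h
  beta_reduce at h
  have h1 := T.eq_rt_rm (a * r)
  have h2 := T.eq_rt_rm (a * r')
  rw [h] at h1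
  have h3 : (1 : G) ^ n * r = (T.rt (a * r) * (T.rt (a * r'))⁻¹) ^ n * r' := by
    rw [mul_pow, inv_pow, one_pow, one_mul]
    have e1 : T.rt (a * r) ^ n = (a * r) * (T.rm (a * r'))⁻¹ := by rw [eq_mul_inv_iff_mul_eq]; exact h1.symm
    have e2 : T.rt (a * r') ^ n = (a * r') * (T.rm (a * r'))⁻¹ := by
      rw [eq_mul_inv_iff_mul_eq]; exact h2.symm
    rw [e1, e2]
    simp only [mul_inv_rev, inv_inv]
    have : a * r * (T.rm (a * r'))⁻¹ * (T.rm (a * r') * (r'⁻¹ * a⁻¹)) * r' = r := by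
      calc a * r * (T.rm (a * r'))⁻¹ * (T.rm (a * r') * (r'⁻¹ * a⁻¹)) * r' =
          (a * a⁻¹) * r * ((T.rm (a * r'))⁻¹ * T.rm (a * r')) * (r'⁻¹ * r') := by
            simp only [mul_comm, mul_left_comm, mul_assoc]
        _ = r := by simp
    exact this.symm
  exact (T.inj _ _ _ hr _ hr' h3).2

theorem image_rm [DecidableEq G] (a : G) : T.R.image (fun r => T.rm (a * r)) = T.R := by
  apply Finset.eq_of_subset_of_card_le
  · intro x hx
    rw [Finset.mem_image] at hx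
    obtain ⟨r, _, rfl⟩ := hx
    exact T.rm_mem _
  · rw [Finset.card_image_of_injOn (T.rm_injOn a)]

theorem sum_rm {M : Type*} [AddCommMonoid M] (a : G) (F : G → M) :
    ∑ r ∈ T.R, F (T.rm (a * r)) = ∑ r ∈ T.R, F r := by
  classical
  conv_rhs => rw [← T.image_rm a]
  rw [Finset.sum_image (T.rm_injOn a)]

theorem mul_root (a c r : G) : a * (c ^ n * r) = (c * T.rt (a * r)) ^ n * T.rm (a * r) := by
  rw [mul_pow, mul_assoc, ← T.eq_rt_rm (a * r)]
  simp only [mul_left_comm]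

/-- dilated mean -/
noncomputable def dil (m : Mean G) : LMean G where
  M f := (T.R.card : ℝ)⁻¹ * ∑ r ∈ T.R, m.M (fun c => f (c ^ n * r))
  add' f g hf hg := by
    rw [← mul_add, ← Finset.sum_add_distrib]
    congr 1
    exact Finset.sum_congr rfl fun r _ => m.add' _ _ (hf.comp _) (hg.comp _)
  smul' c f hf := by
    rw [Finset.sum_congr rfl (fun r _ => m.smul' c _ (hf.comp (fun x => x ^ n * r))),
      ← Finset.mul_sum]
    ring
  mono' f g hf hg h := by
    apply mul_le_mul_of_nonneg_left _ (inv_nonneg.mpr (Nat.cast_nonneg _))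
    exact Finset.sum_le_sum fun r _ => m.mono' _ _ (hf.comp _) (hg.comp _) (fun x => h _)
  const' c := by
    simp only [m.const', Finset.sum_const, nsmul_eq_mul]
    rw [← mul_assoc, inv_mul_cancel₀ T.card_pos'.ne', one_mul]
  left' a f hf := by
    congr 1
    rw [← T.sum_rm a (fun r' => m.M (fun c => f (c ^ n * r')))]
    refine Finset.sum_congr rfl fun r _ => ?_
    have h1 := m.right' (T.rt (a * r)) (fun c => f (c ^ n * T.rm (a * r)))
      (hf.comp (fun c => c ^ n * T.rm (a * r)))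
    rw [← h1]
    congr 1
    funext c
    show f (a * (c ^ n * r)) = _
    rw [T.mul_root]

theorem dil_apply (m : Mean G) (f : G → ℝ) :
    (T.dil m).M f = (T.R.card : ℝ)⁻¹ * ∑ r ∈ T.R, m.M (fun c => f (c ^ n * r)) := rfl

open Classical in
/-- the kernel transported to the powers -/
noncomputable def wt (w : G → ℝ) (v : G) : ℝ := if T.rm v = 1 then w (T.rt v) else 0

theorem wt_pow (w : G → ℝ) (x : G) : T.wt w (x ^ n) = w x := by
  have h1 := T.rm_eq x 1 T.one_mem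
  have h2 := T.rt_eq x 1 T.one_mem
  rw [mul_one] at h1 h2
  unfold wt
  rw [if_pos h1, h2]

theorem wt_nonneg {w : G → ℝ} (hw : ∀ x, 0 ≤ w x) (v : G) : 0 ≤ T.wt w v := by
  unfold wt
  split_ifs
  · exact hw _
  · exact le_rfl

theorem wt_bdd {w : G → ℝ} (hw : Bdd w) : Bdd (T.wt w) := by
  obtain ⟨C, hC⟩ := hw
  refine ⟨C, fun x => ?_⟩
  unfold wt
  split_ifs
  · exact hC _
  · rw [abs_zero]; exact (abs_nonneg _).trans (hC 1)

variable {m : Mean G} {D : BIM G} {ρ : ℝ} (k : Kern m D ρ)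

theorem wt_close (b x x' r : G) : |T.wt k.w (b * (x ^ n * r)) - T.wt k.w (b * (x' ^ n * r))| ≤
    k.L * D.d x x' := by
  have key : ∀ x, T.rm (b * (x ^ n * r)) = T.rm (b * r) ∧
      T.rt (b * (x ^ n * r)) = T.rt (b * r) * x := by
    intro x
    have h1 : b * (x ^ n * r) = (T.rt (b * r) * x) ^ n * T.rm (b * r) := by
      rw [mul_pow]
      calc b * (x ^ n * r) = x ^ n * (b * r) := by simp only [mul_left_comm]
        _ = x ^ n * (T.rt (b * r) ^ n * T.rm (b * r)) := by rw [← T.eq_rt_rm]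
        _ = _ := by simp only [mul_comm, mul_left_comm]
    rw [h1]
    exact ⟨T.rm_eq _ _ (T.rm_mem _), T.rt_eq _ _ (T.rm_mem _)⟩
  unfold wt
  rw [(key x).1, (key x).2, (key x').1, (key x').2]
  split_ifs
  · refine (k.lip _ _).trans ?_
    rw [D.left]
  · rw [sub_zero, abs_zero]
    exact mul_nonneg k.Lnn (D.nonneg _ _)

theorem wt_AP (η : ℝ) (hη : 0 < η) : ∃ N : Finset G, ∀ v, ∃ c ∈ N, ∀ b,
    |T.wt k.w (b * v) - T.wt k.w (b * c)| ≤ η := by
  classical
  have hL := k.Lnn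
  obtain ⟨s, hs⟩ := TB.net D.tb (η / (k.L + 1)) (by positivity)
  refine ⟨(s ×ˢ T.R).image (fun q => q.1 ^ n * q.2), fun v => ?_⟩
  obtain ⟨c, hc, hcx⟩ := hs (T.rt v)
  refine ⟨c ^ n * T.rm v, Finset.mem_image.mpr ⟨(c, T.rm v),
    Finset.mem_product.mpr ⟨hc, T.rm_mem v⟩, rfl⟩, fun b => ?_⟩
  have h1 := T.wt_close k b (T.rt v) c (T.rm v)
  rw [← T.eq_rt_rm v] at h1
  refine h1.trans ?_
  calc k.L * D.d (T.rt v) c ≤ k.L * (η / (k.L + 1)) := mul_le_mul_of_nonneg_left hcx.le hL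
    _ ≤ η := by
      rw [mul_div_assoc', div_le_iff₀ (by positivity)]
      nlinarith

theorem inv_AP (v : G) : AP (fun y => T.wt k.w (v * y⁻¹)) := by
  classical
  intro η hη
  obtain ⟨N, hN⟩ := T.wt_AP k η hη
  refine ⟨N.image (fun c => c⁻¹), fun x => ?_⟩
  obtain ⟨c, hc, hcx⟩ := hN x⁻¹
  refine ⟨c⁻¹, Finset.mem_image_of_mem _ hc, fun b => ?_⟩
  have h1 := hcx (v * b⁻¹)
  have e1 : v * (b * x)⁻¹ = v * b⁻¹ * x⁻¹ := by rw [mul_inv, mul_assoc]
  have e2 : v * (b * c⁻¹)⁻¹ = v * b⁻¹ * c := by rw [mul_inv, inv_inv, mul_assoc]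
  beta_reduce
  rw [e1, e2]
  exact h1

/-- mean of the transported kernel -/
theorem mean_wt (v : G) : m.M (fun y => T.wt k.w (v * y⁻¹)) = (T.R.card : ℝ)⁻¹ := by
  classical
  have hb : Bdd (fun y => T.wt k.w (v * y⁻¹)) := (T.wt_bdd k.bdd).comp _
  rw [← mean_unique m (T.dil m) _ hb (T.inv_AP k v), dil_apply]
  have hterm : ∀ r ∈ T.R, m.M (fun c => T.wt k.w (v * (c ^ n * r)⁻¹)) =
      if r = T.rm v then 1 else 0 := by
    intro r hr
    have e1 : ∀ c, v * (c ^ n * r)⁻¹ = (T.rt v * c⁻¹) ^ n * (T.rm v * r⁻¹) := by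
      intro c
      conv_lhs => rw [T.eq_rt_rm v]
      rw [mul_inv, mul_pow, inv_pow]
      simp only [mul_comm, mul_left_comm, mul_assoc]
    split_ifs with h
    · have e2 : (fun c => T.wt k.w (v * (c ^ n * r)⁻¹)) = fun c => k.w (c * (T.rt v)⁻¹) := by
        funext c
        rw [e1, h, mul_inv_cancel, mul_one, T.wt_pow, ← k.inv]
        congr 1
        rw [mul_inv, inv_inv, mul_comm]
      rw [e2, m.right' _ _ k.bdd, k.mean]
    · have e2 : (fun c => T.wt k.w (v * (c ^ n * r)⁻¹)) = fun _ => (0 : ℝ) := by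
        funext c
        rw [e1]
        unfold wt
        rw [if_neg]
        intro h1
        apply h
        have h2 := T.eq_rt_rm ((T.rt v * c⁻¹) ^ n * (T.rm v * r⁻¹))
        rw [h1, mul_one] at h2
        set z := T.rt ((T.rt v * c⁻¹) ^ n * (T.rm v * r⁻¹)) with hz
        have h3 : (1 : G) ^ n * T.rm v = (z * (T.rt v * c⁻¹)⁻¹) ^ n * r := by
          rw [mul_pow z, ← h2, one_pow, one_mul, inv_pow]
          calc T.rm v = ((T.rt v * c⁻¹) ^ n * ((T.rt v * c⁻¹) ^ n)⁻¹) * (T.rm v * (r⁻¹ * r)) := by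
                simp
            _ = _ := by simp only [mul_comm, mul_left_comm, mul_assoc]
        exact ((T.inj _ _ _ (T.rm_mem v) _ hr h3).2).symm
      rw [e2, m.const']
  rw [Finset.sum_congr rfl hterm, Finset.sum_ite_eq' T.R (T.rm v) (fun _ => (1 : ℝ)),
    if_pos (T.rm_mem v), mul_one]

/-- mean of the transported kernel along powers -/
theorem mean_wt_pow {n' : ℕ} (T' : PT G n') (v : G) :
    m.M (fun c => T.wt k.w (v * (c ^ n')⁻¹)) ≤ T'.R.card * (T.R.card : ℝ)⁻¹ := by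
  have hb : Bdd (fun y => T.wt k.w (v * y⁻¹)) := (T.wt_bdd k.bdd).comp _
  have h1 := mean_unique m (T'.dil m) _ hb (T.inv_AP k v)
  rw [T.mean_wt k v, dil_apply] at h1
  have h2 : m.M (fun c => T.wt k.w (v * (c ^ n')⁻¹)) ≤
      ∑ r ∈ T'.R, m.M (fun c => T.wt k.w (v * (c ^ n' * r)⁻¹)) := by
    have h3 := Finset.single_le_sum (s := T'.R)
      (f := fun r => m.M (fun c => T.wt k.w (v * (c ^ n' * r)⁻¹)))
      (fun r _ => m.nonneg (hb.comp (fun c => c ^ n' * r))
        (fun c => T.wt_nonneg k.nonneg _)) T'.one_mem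
    beta_reduce at h3
    simp only [mul_one] at h3
    exact h3
  have h4 := T'.card_pos'
  rw [inv_mul_eq_iff_eq_mul₀ h4.ne'] at h1
  linarith

/-- uniform averages -/
theorem exists_uniform {n' : ℕ} (T' : PT G n') (S : Set (G → ℝ)) (hS : S.Finite)
    (hSb : ∀ f ∈ S, Bdd f) (η : ℝ) (hη : 0 < η) :
    ∃ Q : Finset G, Q.Nonempty ∧ (∀ f ∈ S, |avg Q f - m.M f| ≤ η) ∧
      ∀ v, avg Q (fun c => T.wt k.w (v * (c ^ n')⁻¹)) ≤ T'.R.card * (T.R.card : ℝ)⁻¹ + η := by
  obtain ⟨N, hN⟩ := T.wt_AP k (η / 2) (by positivity)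
  obtain ⟨Q, hQ, hQ'⟩ := m.approx' (S ∪ (fun v : G => fun c => T.wt k.w (v * (c ^ n')⁻¹)) ''
    (N : Set G)) (hS.union (N.finite_toSet.image _)) (by
      rintro f (hf | ⟨s, _, rfl⟩)
      · exact hSb f hf
      · exact (T.wt_bdd k.bdd).comp _) (η / 2) (by positivity)
  refine ⟨Q, hQ, fun f hf => (hQ' f (Or.inl hf)).trans (by linarith), fun v => ?_⟩
  obtain ⟨c, hc, hcs⟩ := hN v
  have h1 := hQ' _ (Or.inr ⟨c, hc, rfl⟩)
  beta_reduce at h1
  have h2 := T.mean_wt_pow k T' c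
  have h3 : avg Q (fun x => T.wt k.w (v * (x ^ n')⁻¹)) ≤
      avg Q (fun x => T.wt k.w (c * (x ^ n')⁻¹) + η / 2) := by
    apply avg_mono
    intro x
    have := (abs_le.mp (hcs ((x ^ n')⁻¹))).2
    rw [mul_comm v, mul_comm c]
    linarith
  rw [avg_add, avg_const hQ] at h3
  have h4 := (abs_le.mp h1).2
  linarith

end PT

end Pool.Agent.N477
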