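import Mathlib
import Pool.Agent.N477.PT

set_option autoImplicit false
set_option linter.unusedSectionVars false

open Filter Topology MeasureTheory
open Pool.Agent.TH396.PS

namespace Pool.Agent.N477

section proj

variable {G : Type*} [Group G] {X : Type*} [MeasurableSpace X] {μ : Measure X}
  [IsProbabilityMeasure μ]

/-- structure theorem with orthogonality: compact part of an indicator -/
theorem compact_part' (t : MPAct G μ) (m : Mean G) (C : Set X) (hC : MeasurableSet C) :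
    ∃ (q : X → ℝ) (hq : BM q), (∀ x, 0 ≤ q x ∧ q x ≤ 1) ∧ (∫ x, q x ∂μ = μ.real C) ∧
      toL μ hq ∈ t.act.cpt ∧
      (∀ (φ : X → ℝ), BM φ →
        m.M (fun b => |∫ x, φ x * (C.indicator 1 (t.τ b x) - q (t.τ b x)) ∂μ|) = 0) ∧
      (∀ (g : X → ℝ) (hg : BM g), toL μ hg ∈ t.act.cpt →
        ∫ x, (C.indicator 1 x - q x) * g x ∂μ = 0) := by
  set K := t.act.cpt with hK
  have hcl : IsClosed (K : Set (Lp ℝ 2 μ)) := t.act.isClosed_cpt
  have : CompleteSpace K := hcl.completeSpace_coe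
  set g := toL μ (BM.ind hC) with hg
  set q0 := K.starProjection g with hq0
  have hq0K : q0 ∈ K := (K.orthogonalProjectionOnto g).2
  have hgpos : 0 ≤ᵐ[μ] g := by
    filter_upwards [coeFn_toL μ (BM.ind hC)] with x hx
    rw [hg, hx]
    exact Set.indicator_nonneg (fun _ _ => zero_le_one) _
  have hpos : 0 ≤ᵐ[μ] q0 := nonneg_of_posPart_eq μ _
    (proj_pos μ K (fun f hf => t.posPart_mem f hf) g (posPart_eq_of_nonneg μ g hgpos))
  set o := toL μ (BM.const (X := X) (1 : ℝ)) with ho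
  have hoK : o ∈ K := t.one_mem
  have hPo : K.starProjection o = o := Submodule.starProjection_eq_self_iff.mpr hoK
  have hle : 0 ≤ᵐ[μ] (o - q0 : Lp ℝ 2 μ) := by
    have h1 : K.starProjection (o - g) = o - q0 := by rw [map_sub, hPo]
    have h2 : 0 ≤ᵐ[μ] (o - g : Lp ℝ 2 μ) := by
      filter_upwards [coeFn_toL μ (BM.ind hC), coeFn_toL μ (BM.const (X := X) (1 : ℝ)),
        Lp.coeFn_sub o g] with x h1 h2 h3
      rw [h3, Pi.sub_apply, hg, ho, h1, h2]
      by_cases hx : x ∈ C <;> simp [hx]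
    rw [← h1]
    exact nonneg_of_posPart_eq μ _
      (proj_pos μ K (fun f hf => t.posPart_mem f hf) _ (posPart_eq_of_nonneg μ _ h2))
  have hsm : StronglyMeasurable (q0 : X → ℝ) := Lp.stronglyMeasurable q0
  set q : X → ℝ := fun x => max 0 (min 1 ((q0 : X → ℝ) x)) with hqdef
  have hq01 : ∀ x, 0 ≤ q x ∧ q x ≤ 1 := fun x =>
    ⟨le_max_left _ _, max_le zero_le_one (min_le_left _ _)⟩
  have hqBM : BM q := by
    refine ⟨?_, Bdd.of_mem 0 1 hq01⟩
    exact measurable_const.max (measurable_const.min hsm.measurable)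
  have hqeq : toL μ hqBM = q0 := by
    apply Lp.ext
    filter_upwards [coeFn_toL μ hqBM, hpos, hle, Lp.coeFn_sub o q0,
      coeFn_toL μ (BM.const (X := X) (1 : ℝ))] with x h1 h2 h3 h4 h5
    rw [h1]
    rw [h4, Pi.sub_apply, ho, h5] at h3
    simp only [Pi.zero_apply] at h2 h3
    show max 0 (min 1 (q0 x)) = q0 x
    rw [min_eq_right (by linarith), max_eq_right h2]
  refine ⟨q, hqBM, hq01, ?_, ?_, ?_, ?_⟩
  · have h1 : inner ℝ o q0 = inner ℝ o g := by
      have h2 : inner ℝ (g - q0) o = 0 := K.starProjection_inner_eq_zero g o hoK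
      rw [inner_sub_left, sub_eq_zero] at h2
      rw [real_inner_comm, ← h2, real_inner_comm]
    rw [← hqeq, ho, inner_toL, hg, inner_toL] at h1
    simp only [one_mul] at h1
    rw [h1, ← integral_indicator_one hC]
  · rw [hqeq]; exact hq0K
  · intro φ hφ
    have hf : ∀ k ∈ K, inner ℝ k (g - q0) = 0 := by
      intro k hk
      rw [real_inner_comm]
      exact K.starProjection_inner_eq_zero g k hk
    have h1 := t.act.wm_abs m (g - q0) hf (toL μ hφ)
    rw [← h1]
    congr 1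
    funext b
    congr 1
    rw [← hqeq, hg, toL_sub, t.U_toL, inner_toL]
  · intro g' hg' hmem
    have h1 : inner ℝ (g - q0) (toL μ hg') = 0 := K.starProjection_inner_eq_zero g _ hmem
    rw [← hqeq, hg, toL_sub, inner_toL] at h1
    exact h1

theorem norm_toL_mul_le {F F' : X → ℝ} (h : BM F) (h' : BM F') {C : ℝ} (hC : ∀ x, |F x| ≤ C)
    (hC0 : 0 ≤ C) : ‖toL μ (h.mul h')‖ ≤ C * ‖toL μ h'‖ := by
  have h1 : ‖toL μ (h.mul h')‖ ^ 2 ≤ (C * ‖toL μ h'‖) ^ 2 := by
    rw [mul_pow, ← real_inner_self_eq_norm_sq, ← real_inner_self_eq_norm_sq, inner_toL, inner_toL,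
      ← integral_const_mul]
    apply integral_mono (((h.mul h').mul (h.mul h')).integrable μ)
      (((h'.mul h').integrable μ).const_mul _)
    intro x
    show F x * F' x * (F x * F' x) ≤ C ^ 2 * (F' x * F' x)
    have h2 : F x * F x ≤ C ^ 2 := by
      calc F x * F x = |F x| ^ 2 := by rw [sq_abs]; ring
        _ ≤ C ^ 2 := pow_le_pow_left₀ (abs_nonneg _) (hC x) 2
    nlinarith [mul_self_nonneg (F' x)]
  exact (pow_le_pow_iff_left₀ (norm_nonneg _) (by positivity) two_ne_zero).mp h1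

/-- bounded compact functions form an algebra -/
theorem mul_mem_cpt (t : MPAct G μ) {F F' : X → ℝ} (h : BM F) (h' : BM F')
    (hF : toL μ h ∈ t.act.cpt) (hF' : toL μ h' ∈ t.act.cpt) : toL μ (h.mul h') ∈ t.act.cpt := by
  obtain ⟨C0, hC0⟩ := h.bdd
  obtain ⟨C0', hC0'⟩ := h'.bdd
  set C := |C0| with hCdef
  set C' := |C0'| with hCdef'
  have hC : ∀ x, |F x| ≤ C := fun x => (hC0 x).trans (le_abs_self _)
  have hC' : ∀ x, |F' x| ≤ C' := fun x => (hC0' x).trans (le_abs_self _)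
  have hCn : 0 ≤ C := abs_nonneg _
  have hCn' : 0 ≤ C' := abs_nonneg _
  rw [Act.mem_cpt] at hF hF' ⊢
  have hsum := (hF.mono C' hCn' (fun _ _ => le_rfl)).add (hF'.mono C hCn (fun _ _ => le_rfl))
  refine hsum.mono 1 zero_le_one (fun b c => ?_)
  rw [one_mul]
  simp only [t.U_toL, toL_sub]
  have hb := (t.mp b).measurable
  have hc := (t.mp c).measurable
  have e : toL μ (((h.mul h').comp hb).sub ((h.mul h').comp hc)) =
      toL μ ((h'.comp hb).mul ((h.comp hb).sub (h.comp hc))) +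
        toL μ ((h.comp hc).mul ((h'.comp hb).sub (h'.comp hc))) := by
    rw [toL_add]
    apply toL_congr
    funext x
    ring
  rw [e]
  refine (norm_add_le _ _).trans (add_le_add ?_ ?_)
  · exact norm_toL_mul_le (h'.comp hb) _ (fun x => hC' _) hCn'
  · exact norm_toL_mul_le (h.comp hc) _ (fun x => hC _) hCn

end proj

variable {G : Type*} [CommGroup G]

/-- sides for the left action with orthogonality -/
structure CSide (m : Mean G) (D : BIM G) (A : Set G) where
  q : Ultrafilter G → ℝ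
  hq : BM q
  q01 : ∀ p, 0 ≤ q p ∧ q p ≤ 1
  int : ∫ p, q p ∂(mu m) = m.M (A.indicator 1)
  cpt : toL (mu m) hq ∈ (actL m).act.cpt
  wm : ∀ φ : Ultrafilter G → ℝ, BM φ → m.M (fun b => |∫ p, φ p *
    ({p : Ultrafilter G | A ∈ p}.indicator 1 ((actL m).τ b p) - q ((actL m).τ b p)) ∂(mu m)|) = 0
  orth : ∀ (g : Ultrafilter G → ℝ) (hg : BM g), toL (mu m) hg ∈ (actL m).act.cpt →
    ∫ p, ({p : Ultrafilter G | A ∈ p}.indicator 1 p - q p) * g p ∂(mu m) = 0
  lip : ∀ φ : Ultrafilter G → ℝ, BM φ → ∀ K : ℝ, 0 ≤ K → (∀ p, |φ p| ≤ K) → ∀ b c : G,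
    |∫ p, φ p * (q ((actL m).τ b p) - q ((actL m).τ c p)) ∂(mu m)| ≤ K * D.d b c

namespace CSide

variable {m : Mean G} {D : BIM G} {A : Set G}

theorem exists_cside (m : Mean G) (A : Set G) : ∃ D : BIM G, Nonempty (CSide m D A) := by
  obtain ⟨q, hq, q01, hqi, hqc, hqw, hqo⟩ := compact_part' (actL m) m {p : Ultrafilter G | A ∈ p}
    (meas_basic A)
  refine ⟨(actL m).act.bim _ hqc, ⟨⟨q, hq, q01, ?_, hqc, hqw, hqo, ?_⟩⟩⟩
  · rw [hqi, mu_basic]
  intro φ hφ K hK0 hK b c
  have h1 : ∫ p, φ p * (q ((actL m).τ b p) - q ((actL m).τ c p)) ∂(mu m) =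
      inner ℝ (toL (mu m) hφ) ((actL m).act.U b (toL (mu m) hq) -
        (actL m).act.U c (toL (mu m) hq)) := by
    rw [MPAct.U_toL, MPAct.U_toL, toL_sub, inner_toL]
  rw [h1]
  refine (abs_real_inner_le_norm _ _).trans ?_
  apply mul_le_mul (norm_toL_le (mu m) hφ hK hK0) _ (norm_nonneg _) hK0
  exact (actL m).act.le_dist' _ b c

/-- change of metric -/
def mono (S : CSide m D A) {D' : BIM G} (h : ∀ x y, D.d x y ≤ D'.d x y) : CSide m D' A where
  q := S.q
  hq := S.hq
  q01 := S.q01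
  int := S.int
  cpt := S.cpt
  wm := S.wm
  orth := S.orth
  lip φ hφ K hK0 hK b c := (S.lip φ hφ K hK0 hK b c).trans
    (mul_le_mul_of_nonneg_left (h b c) hK0)

theorem hqτ (S : CSide m D A) (c : G) : BM (fun p => S.q ((actL m).τ c p)) :=
  S.hq.comp ((actL m).mp c).measurable

/-- the side of the complement -/
noncomputable def compl (S : CSide m D A) : ASide m D where
  C b p := 1 - {p : Ultrafilter G | A ∈ p}.indicator 1 ((actL m).τ b p)
  hC b := (BM.const 1).sub ((BM.ind (meas_basic A)).comp ((actL m).mp b).measurable)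
  C01 b p := by
    by_cases h : (actL m).τ b p ∈ {p : Ultrafilter G | A ∈ p} <;> simp [h]
  q b p := 1 - S.q ((actL m).τ b p)
  hq b := (BM.const 1).sub (S.hqτ b)
  q01 b p := by
    have := S.q01 ((actL m).τ b p)
    constructor <;> linarith
  wm φ hφ := by
    rw [← S.wm φ hφ]
    congr 1
    funext b
    rw [← abs_neg, ← integral_neg]
    congr 2
    funext p
    ring
  lip φ hφ K hK0 hK b c := by
    have h := S.lip φ hφ K hK0 hK c b
    rw [D.symm c b] at h
    refine le_trans (le_of_eq ?_) h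
    congr 2
    funext p
    ring

end CSide

section kern

variable {m : Mean G} {D : BIM G} {r : ℝ} (k : Kern m D r)

theorem W_tr (c b : G) (p : Ultrafilter G) : k.W c ((actL m).τ b p) = k.W (b⁻¹ * c) p := by
  show ext (fun s => k.w (c⁻¹ * s)) (p.map (fun x => b * x)) = _
  rw [ext_map]
  unfold Kern.W
  congr 1
  funext s
  congr 1
  group

theorem W_cpt (c : G) : toL (mu m) (k.W_BM c) ∈ (actL m).act.cpt := by
  rw [Act.mem_cpt]
  refine D.tb.mono k.L k.Lnn (fun b b' => ?_)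
  rw [MPAct.U_toL, MPAct.U_toL, toL_sub]
  apply norm_toL_le (mu m) _ _ (mul_nonneg k.Lnn (D.nonneg _ _))
  intro p
  show |k.W c ((actL m).τ b p) - k.W c ((actL m).τ b' p)| ≤ k.L * D.d b b'
  rw [W_tr, W_tr]
  refine (k.W_dist _ _ p).trans (le_of_eq ?_)
  rw [D.right, D.inv]

theorem AP_of_lip {f : G → ℝ} (L : ℝ) (hL0 : 0 ≤ L) (hL : ∀ x y, |f x - f y| ≤ L * D.d x y) :
    AP f := by
  intro η hη
  obtain ⟨N, hN⟩ := TB.net D.tb (η / (L + 1)) (by positivity)
  refine ⟨N, fun x => ?_⟩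
  obtain ⟨c, hc, hcs⟩ := hN x
  refine ⟨c, hc, fun b => ?_⟩
  refine (hL _ _).trans ?_
  rw [D.left]
  calc L * D.d x c ≤ L * (η / (L + 1)) := mul_le_mul_of_nonneg_left hcs.le hL0
    _ ≤ η := by
      rw [mul_div_assoc', div_le_iff₀ (by positivity)]
      nlinarith

/-- Lipschitz functions have the same mean along powers when the transversal is trivial -/
theorem mean_pow {n : ℕ} (T : PT G n) (hT : T.R = {1}) {f : G → ℝ} (hf : Bdd f) (L : ℝ)
    (hL0 : 0 ≤ L) (hL : ∀ x y, |f x - f y| ≤ L * D.d x y) :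
    m.M (fun c => f (c ^ n)) = m.M f := by
  have h := mean_unique m (T.dil m) f hf (AP_of_lip (D := D) L hL0 hL)
  rw [T.dil_apply, hT] at h
  simpa using h

end kern

end Pool.Agent.N477
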