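import Mathlib
import Pool.Agent.N477.Comp

set_option autoImplicit false
set_option linter.unusedSectionVars false

open Filter Topology MeasureTheory
open Pool.Agent.TH396.PS

namespace Pool.Agent.N477

variable {G : Type*} [CommGroup G]

/-- preimage under squaring -/
def half (A : Set G) : Set G := {x | x ^ 2 ∈ A}

/-- the good set for a finite window `H` -/
def good2 (A : Set G) (H : Finset G) : Set (Ultrafilter G) :=
  {p | half A ∈ p ∧ ∃ b, b ∉ H ∧ b ^ 2 ∈ A ∧ (∀ h ∈ H, {x | h * x ∈ A} ∈ p → h * b ∈ A) ∧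
    {x | b * x ∈ A} ∈ p}

theorem meas_imp2 (V : Set G) (P : Prop) : MeasurableSet {p : Ultrafilter G | V ∈ p → P} := by
  have : {p : Ultrafilter G | V ∈ p → P} = {p : Ultrafilter G | V ∈ p}ᶜ ∪ {_p : Ultrafilter G | P} := by
    ext p
    simp only [Set.mem_ofPred_eq, Set.mem_union, Set.mem_compl_iff]
    tauto
  rw [this]
  exact (meas_basic _).compl.union (MeasurableSet.const _)

theorem good2_measurable [Countable G] (A : Set G) (H : Finset G) :
    MeasurableSet (good2 A H) := by
  have : good2 A H = {p | half A ∈ p} ∩ ⋃ b : G, {p | b ∉ H ∧ b ^ 2 ∈ A ∧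
    (∀ h ∈ H, {x | h * x ∈ A} ∈ p → h * b ∈ A) ∧ {x | b * x ∈ A} ∈ p} := by
    ext p
    simp only [good2, Set.mem_ofPred_eq, Set.mem_iUnion, Set.mem_inter_iff]
  rw [this]
  refine (meas_basic _).inter (MeasurableSet.iUnion fun b => ?_)
  refine (MeasurableSet.const _).inter (MeasurableSet.inter (MeasurableSet.const _)
    (MeasurableSet.inter ?_ (meas_basic _)))
  have : {p : Ultrafilter G | ∀ h ∈ H, {x | h * x ∈ A} ∈ p → h * b ∈ A} =
      ⋂ h ∈ H, {p : Ultrafilter G | {x | h * x ∈ A} ∈ p → h * b ∈ A} := by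
    ext p
    simp
  show MeasurableSet {p : Ultrafilter G | ∀ h ∈ H, {x | h * x ∈ A} ∈ p → h * b ∈ A}
  rw [this]
  exact Finset.measurableSet_biInter _ fun h _ => meas_imp2 _ _

theorem extract2 (A : Set G) (p : Ultrafilter G) (hp : ∀ H : Finset G, p ∈ good2 A H) :
    ∃ B : Set G, B.Infinite ∧ ∀ x ∈ B, ∀ y ∈ B, x * y ∈ A := by
  classical
  obtain ⟨f, hf1, hf2⟩ := exists_seq_of_forall_finset_exists
    (fun b : G => b ^ 2 ∈ A ∧ {x | b * x ∈ A} ∈ p)
    (fun x y : G => x ≠ y ∧ ({z | x * z ∈ A} ∈ p → x * y ∈ A))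
    (by
      intro F _
      obtain ⟨_, b, hbH, hb2, hb1, hb3⟩ := hp F
      exact ⟨b, ⟨hb2, hb3⟩, fun x hx => ⟨fun h => hbH (h ▸ hx), hb1 x hx⟩⟩)
  have hinj : Function.Injective f := by
    intro i j hij
    by_contra hne
    rcases lt_or_gt_of_ne hne with h | h
    · exact (hf2 _ _ h).1 hij
    · exact (hf2 _ _ h).1 hij.symm
  refine ⟨Set.range f, Set.infinite_range_of_injective hinj, ?_⟩
  rintro _ ⟨i, rfl⟩ _ ⟨j, rfl⟩
  rcases lt_trichotomy i j with h | h | h
  · exact (hf2 _ _ h).2 (hf1 i).2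
  · subst h
    have := (hf1 i).1
    rwa [pow_two] at this
  · rw [mul_comm]
    exact (hf2 _ _ h).2 (hf1 j).2

/-- if there is no infinite `B` with `B * B ⊆ A` then the good sets are small -/
theorem exists_small [Countable G] (m : Mean G) (A : Set G)
    (hno : ¬ ∃ B : Set G, B.Infinite ∧ ∀ x ∈ B, ∀ y ∈ B, x * y ∈ A) (ε : ℝ) (hε : 0 < ε) :
    ∃ H : Finset G, (mu m).real (good2 A H) < ε := by
  classical
  have hanti : Antitone (fun H : Finset G => good2 A H) := by
    rintro H H' hHH p ⟨ha, b, hb, hb', hc, hd⟩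
    exact ⟨ha, b, fun h => hb (hHH h), hb', fun h hh => hc h (hHH hh), hd⟩
  have ht := tendsto_measure_iInter_atTop (μ := mu m)
    (fun H : Finset G => (good2_measurable A H).nullMeasurableSet) hanti
    ⟨∅, measure_ne_top _ _⟩
  have ht2 : Tendsto (fun H : Finset G => (mu m).real (good2 A H)) atTop
      (𝓝 ((mu m).real (⋂ H : Finset G, good2 A H))) :=
    (ENNReal.tendsto_toReal (measure_ne_top _ _)).comp ht
  have h4 : (⋂ H : Finset G, good2 A H) = ∅ := by
    by_contra hcon
    obtain ⟨p, hp⟩ := Set.nonempty_iff_ne_empty.mpr hcon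
    exact hno (extract2 A p fun H => Set.mem_iInter.mp hp H)
  rw [h4, measureReal_empty] at ht2
  exact (ht2.eventually_lt_const hε).exists

theorem star [Countable G] [Infinite G] {m : Mean G} {D : BIM G} {A : Set G} (S : CSide m D A)
    (hno : ¬ ∃ B : Set G, B.Infinite ∧ ∀ x ∈ B, ∀ y ∈ B, x * y ∈ A) (ε : ℝ) (hε : 0 < ε) :
    ∃ r0 : ℝ, 0 < r0 ∧ ∀ r ≤ r0, ∀ k : Kern m D r,
      m.M (fun c => ∫ p, {p : Ultrafilter G | half A ∈ p}.indicator 1 p *
        (k.W c p * S.q ((actL m).τ c p)) ∂(mu m)) ≤ ε := by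
  classical
  obtain ⟨H, hH⟩ := exists_small m A hno (ε / 4) (by positivity)
  set lab : G → (H → Bool) × Bool := fun x =>
    ((fun h => decide ((h : G) * x ∈ A)), decide (x ^ 2 ∈ A)) with hlab
  set n : ℝ := (Fintype.card ((H → Bool) × Bool) : ℝ) with hn
  have hn0 : 0 ≤ n := Nat.cast_nonneg _
  set Hf : Set (Ultrafilter G) := {p : Ultrafilter G | half A ∈ p} with hHf
  have hHfm : MeasurableSet Hf := meas_basic _
  have hGm : MeasurableSet (good2 A H) := good2_measurable A H
  set Vb : ((H → Bool) × Bool) → Set (Ultrafilter G) := fun i => {p : Ultrafilter G | lab ⁻¹' {i} ∈ p}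
    with hVb
  have hVm : ∀ i, MeasurableSet (Vb i) := fun i => meas_basic _
  set Bad : ((H → Bool) × Bool) → Set (Ultrafilter G) := fun i => Hf ∩ Vb i ∩ (good2 A H)ᶜ with hBad
  have hBm : ∀ i, MeasurableSet (Bad i) := fun i => (hHfm.inter (hVm i)).inter hGm.compl
  have hbad : ∀ i, ∀ b ∈ lab ⁻¹' {i}, b ∉ H → ∀ p ∈ Bad i,
      (1 : ℝ) ≤ ∑ _j : Unit, (S.compl).C b p := by
    intro i b hb hbH p hp
    have hpG : p ∉ good2 A H := hp.2
    have hpH : half A ∈ p := hp.1.1
    have hpV : lab ⁻¹' {i} ∈ p := hp.1.2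
    have hbi : lab b = i := hb
    have hnot : {x | b * x ∈ A} ∉ p := by
      intro hcon
      apply hpG
      refine ⟨hpH, b, hbH, ?_, fun h hh h1 => ?_, hcon⟩
      · obtain ⟨x, hx1, hx2⟩ := p.nonempty_of_mem (Filter.inter_mem hpV hpH)
        have e1 : lab x = lab b := by rw [hbi]; exact hx1
        have e2 := congrArg (fun z => z.2) e1
        simp only [hlab] at e2
        have e3 : x ^ 2 ∈ A := hx2
        have e4 : decide (x ^ 2 ∈ A) = true := decide_eq_true e3
        rw [e4] at e2
        exact of_decide_eq_true e2.symm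
      · obtain ⟨x, hx1, hx2⟩ := p.nonempty_of_mem (Filter.inter_mem hpV h1)
        have e1 : lab x = lab b := by rw [hbi]; exact hx1
        have e2 := congrArg (fun z => z.1 ⟨h, hh⟩) e1
        simp only [hlab] at e2
        have e3 : h * x ∈ A := hx2
        have e4 : decide (h * x ∈ A) = true := decide_eq_true e3
        rw [e4] at e2
        exact of_decide_eq_true e2.symm
    have hnot2 : (actL m).τ b p ∉ {p : Ultrafilter G | A ∈ p} := by
      intro hcon
      exact hnot hcon
    rw [Finset.sum_const, Finset.card_univ, Fintype.card_unit, one_smul]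
    show (1 : ℝ) ≤ 1 - {p : Ultrafilter G | A ∈ p}.indicator 1 ((actL m).τ b p)
    rw [Set.indicator_of_notMem hnot2, sub_zero]
  have happ := fun i => approx_density m D ((Vb i).indicator 1) (BM.ind (hVm i))
    (ε / (16 * (n + 1))) (by positivity)
  choose f L hfb hL hfL using happ
  set Λ : ℝ := ∑ i, L i with hΛ
  have hΛ0 : 0 ≤ Λ := Finset.sum_nonneg fun i _ => hL i
  set r0 : ℝ := ε / (16 * (Λ + 1)) with hr0
  have hr0p : 0 < r0 := by positivity
  refine ⟨r0, hr0p, fun r hr k => ?_⟩
  have hB := k.Bnn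
  set ρ : ℝ := min r0 (ε / (4 * (n + 1) * (k.B + 1))) with hρdef
  have hρ : 0 < ρ := lt_min hr0p (by positivity)
  obtain ⟨kρ⟩ := Kern.exists_kern m D ρ hρ
  have smb : ∀ (s : ℝ) (κ : Kern m D s) (Z : Set (Ultrafilter G)), MeasurableSet Z →
      Bdd (fun c => κ.sm (Z.indicator 1) c) := by
    intro s κ Z hZ
    refine Bdd.of_mem 0 1 (fun c => κ.sm_mem (BM.ind hZ) (fun p => ?_) c)
    by_cases hp : p ∈ Z <;> simp [hp]
  have hSq : ∀ c, BM (fun p => S.q ((actL m).τ c p)) := fun c => S.hqτ c
  -- pointwise inequality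
  have hone : ∀ c i, ∫ p, (Bad i).indicator 1 p * (k.W c p * S.q ((actL m).τ c p)) ∂(mu m) ≤
      k.B * ρ + |kρ.sm ((Vb i).indicator 1) c - k.sm ((Vb i).indicator 1) c| := by
    intro c i
    set φ : Ultrafilter G → ℝ := fun p => (Bad i).indicator 1 p * k.W c p with hφ
    have hφBM : BM φ := (BM.ind (hBm i)).mul (k.W_BM c)
    have hφ0 : ∀ p, 0 ≤ φ p := fun p =>
      mul_nonneg (Set.indicator_nonneg (fun _ _ => zero_le_one) _) (k.W_nonneg c p)
    have hφle : ∀ p, φ p ≤ k.B := by
      intro p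
      by_cases hp : p ∈ Bad i
      · simp only [hφ, Set.indicator_of_mem hp, Pi.one_apply, one_mul]
        exact k.W_le c p
      · simp only [hφ, Set.indicator_of_notMem hp, zero_mul]
        exact k.Bnn
    have hφsupp : ∀ p ∉ Bad i, φ p = 0 := by
      intro p hp
      simp only [hφ, Set.indicator_of_notMem hp, zero_mul]
    have e0 : ∫ p, (Bad i).indicator 1 p * (k.W c p * S.q ((actL m).τ c p)) ∂(mu m) =
        ∫ p, φ p * S.q ((actL m).τ c p) ∂(mu m) := by
      congr 1
      funext p
      simp only [hφ, mul_assoc]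
    rw [e0]
    have hVsm : 0 ≤ kρ.sm ((Vb i).indicator 1) c := by
      refine (kρ.sm_mem (BM.ind (hVm i)) (fun p => ?_) c).1
      by_cases hp : p ∈ Vb i <;> simp [hp]
    rcases hVsm.lt_or_eq with h | h
    · have h' := h
      rw [kρ.sm_ind] at h'
      have := claim1 (fun _ : Unit => S.compl) (lab ⁻¹' {i}) H (Bad i) (hbad i) kρ c h' hφBM hφ0
        hφle hφsupp
      rw [Finset.sum_const, Finset.card_univ, Fintype.card_unit, one_smul, Nat.cast_one,
        one_mul] at this
      have e1 : ∫ p, φ p * (S.compl).q c p ∂(mu m) =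
          ∫ p, φ p ∂(mu m) - ∫ p, φ p * S.q ((actL m).τ c p) ∂(mu m) := by
        rw [← integral_sub (hφBM.integrable _) ((hφBM.mul (hSq c)).integrable _)]
        congr 1
        funext p
        show φ p * (1 - S.q ((actL m).τ c p)) = _
        ring
      rw [e1] at this
      have h2 := abs_nonneg (kρ.sm ((Vb i).indicator 1) c - k.sm ((Vb i).indicator 1) c)
      linarith
    · have h0 : ∫ p, φ p * S.q ((actL m).τ c p) ∂(mu m) ≤ ∫ p, φ p ∂(mu m) := by
        apply integral_mono ((hφBM.mul (hSq c)).integrable _) (hφBM.integrable _)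
        intro p
        show φ p * S.q ((actL m).τ c p) ≤ φ p
        have := mul_le_mul_of_nonneg_left (S.q01 ((actL m).τ c p)).2 (hφ0 p)
        linarith
      have h1 : ∫ p, φ p ∂(mu m) ≤ k.sm ((Vb i).indicator 1) c := by
        unfold Kern.sm
        apply integral_mono (hφBM.integrable _)
          (((BM.ind (hVm i)).mul (k.W_BM c)).integrable _)
        intro p
        show (Bad i).indicator 1 p * k.W c p ≤ (Vb i).indicator 1 p * k.W c p
        apply mul_le_mul_of_nonneg_right _ (k.W_nonneg c p)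
        by_cases hp : p ∈ Bad i
        · have hp' : p ∈ Vb i := hp.1.2
          rw [Set.indicator_of_mem hp, Set.indicator_of_mem hp']
        · rw [Set.indicator_of_notMem hp]
          exact Set.indicator_nonneg (fun _ _ => zero_le_one) _
      have h2 : k.sm ((Vb i).indicator 1) c ≤
          |kρ.sm ((Vb i).indicator 1) c - k.sm ((Vb i).indicator 1) c| := by
        rw [← h, zero_sub, abs_neg]
        exact le_abs_self _
      have h3 : 0 ≤ k.B * ρ := by positivity
      linarith
  have hpt : ∀ c, ∫ p, Hf.indicator 1 p * (k.W c p * S.q ((actL m).τ c p)) ∂(mu m) ≤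
      k.sm ((good2 A H).indicator 1) c + (n * (k.B * ρ) +
      ∑ i, |kρ.sm ((Vb i).indicator 1) c - k.sm ((Vb i).indicator 1) c|) := by
    intro c
    have hWq : BM (fun p => k.W c p * S.q ((actL m).τ c p)) := (k.W_BM c).mul (hSq c)
    have hWq0 : ∀ p, 0 ≤ k.W c p * S.q ((actL m).τ c p) := fun p =>
      mul_nonneg (k.W_nonneg c p) (S.q01 _).1
    have iB : ∀ i, Integrable (fun p => (Bad i).indicator 1 p *
        (k.W c p * S.q ((actL m).τ c p))) (mu m) := fun i =>
      ((BM.ind (hBm i)).mul hWq).integrable _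
    have iG : Integrable (fun p => (good2 A H).indicator 1 p * k.W c p) (mu m) :=
      ((BM.ind hGm).mul (k.W_BM c)).integrable _
    calc ∫ p, Hf.indicator 1 p * (k.W c p * S.q ((actL m).τ c p)) ∂(mu m)
        ≤ ∫ p, ((good2 A H).indicator 1 p * k.W c p + ∑ i, (Bad i).indicator 1 p *
            (k.W c p * S.q ((actL m).τ c p))) ∂(mu m) := by
          apply integral_mono (((BM.ind hHfm).mul hWq).integrable _)
            (iG.add (integrable_finsetSum _ fun i _ => iB i))
          intro p
          show Hf.indicator 1 p * (k.W c p * S.q ((actL m).τ c p)) ≤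
            (good2 A H).indicator 1 p * k.W c p + ∑ i, (Bad i).indicator 1 p *
            (k.W c p * S.q ((actL m).τ c p))
          have hnn : 0 ≤ ∑ i, (Bad i).indicator (1 : Ultrafilter G → ℝ) p *
            (k.W c p * S.q ((actL m).τ c p)) :=
            Finset.sum_nonneg fun i _ => mul_nonneg
              (Set.indicator_nonneg (fun _ _ => zero_le_one) _) (hWq0 p)
          have hnn' : 0 ≤ (good2 A H).indicator (1 : Ultrafilter G → ℝ) p * k.W c p :=
            mul_nonneg (Set.indicator_nonneg (fun _ _ => zero_le_one) _) (k.W_nonneg c p)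
          by_cases hpH : p ∈ Hf
          · rw [Set.indicator_of_mem hpH, Pi.one_apply, one_mul]
            by_cases hpG : p ∈ good2 A H
            · rw [Set.indicator_of_mem hpG, Pi.one_apply, one_mul]
              have := mul_le_mul_of_nonneg_left (S.q01 ((actL m).τ c p)).2 (k.W_nonneg c p)
              linarith
            · obtain ⟨i, hi⟩ := exists_color lab p
              have hpB : p ∈ Bad i := ⟨⟨hpH, hi⟩, hpG⟩
              have h1 := Finset.single_le_sum (f := fun i =>
                (Bad i).indicator (1 : Ultrafilter G → ℝ) p * (k.W c p * S.q ((actL m).τ c p)))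
                (fun j _ => mul_nonneg (Set.indicator_nonneg (fun _ _ => zero_le_one) _) (hWq0 p))
                (Finset.mem_univ i)
              beta_reduce at h1
              rw [Set.indicator_of_mem hpB, Pi.one_apply, one_mul] at h1
              linarith
          · rw [Set.indicator_of_notMem hpH, zero_mul]
            linarith
      _ = k.sm ((good2 A H).indicator 1) c + ∑ i, ∫ p, (Bad i).indicator 1 p *
            (k.W c p * S.q ((actL m).τ c p)) ∂(mu m) := by
          rw [integral_add iG (integrable_finsetSum _ fun i _ => iB i),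
            integral_finsetSum _ (fun i _ => iB i)]
          rfl
      _ ≤ k.sm ((good2 A H).indicator 1) c + ∑ i, (k.B * ρ +
            |kρ.sm ((Vb i).indicator 1) c - k.sm ((Vb i).indicator 1) c|) := by
          gcongr with i
          exact hone c i
      _ = _ := by
          rw [Finset.sum_add_distrib, Finset.sum_const, Finset.card_univ, nsmul_eq_mul]
  have bL : Bdd (fun c => ∫ p, Hf.indicator 1 p * (k.W c p * S.q ((actL m).τ c p)) ∂(mu m)) := by
    refine Bdd.of_mem 0 1 (fun c => ⟨integral_nonneg fun p => mul_nonneg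
      (Set.indicator_nonneg (fun _ _ => zero_le_one) _) (mul_nonneg (k.W_nonneg c p) (S.q01 _).1),
      ?_⟩)
    rw [← k.W_int c]
    apply integral_mono (((BM.ind hHfm).mul ((k.W_BM c).mul (hSq c))).integrable _)
      ((k.W_BM c).integrable _)
    intro p
    show Hf.indicator 1 p * (k.W c p * S.q ((actL m).τ c p)) ≤ k.W c p
    have h1 := mul_le_mul_of_nonneg_left (S.q01 ((actL m).τ c p)).2 (k.W_nonneg c p)
    have h2 := mul_nonneg (k.W_nonneg c p) (S.q01 ((actL m).τ c p)).1
    by_cases hp : p ∈ Hf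
    · rw [Set.indicator_of_mem hp, Pi.one_apply, one_mul]
      linarith
    · rw [Set.indicator_of_notMem hp, zero_mul]
      exact k.W_nonneg c p
  have b3 : ∀ i ∈ (Finset.univ : Finset ((H → Bool) × Bool)),
      Bdd (fun c => |kρ.sm ((Vb i).indicator 1) c - k.sm ((Vb i).indicator 1) c|) :=
    fun i _ => ((smb ρ kρ _ (hVm i)).sub (smb r k _ (hVm i))).abs
  have hmain := m.mono' _ _ bL ((smb r k _ hGm).add ((Bdd.const (n * (k.B * ρ))).add
    (Bdd.sum _ b3))) hpt
  rw [m.add' _ _ (smb r k _ hGm) ((Bdd.const (n * (k.B * ρ))).add (Bdd.sum _ b3)),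
    m.add' _ _ (Bdd.const (n * (k.B * ρ))) (Bdd.sum _ b3), m.const', m.sum _ b3] at hmain
  have hexch : m.M (fun c => k.sm ((good2 A H).indicator 1) c) = (mu m).real (good2 A H) := by
    have := k.exchange ((good2 A H).indicator 1) ((BM.ind hGm).integrable _)
    rw [integral_indicator_one hGm] at this
    exact this
  rw [hexch] at hmain
  have hterm : ∀ i, m.M (fun c => |kρ.sm ((Vb i).indicator 1) c - k.sm ((Vb i).indicator 1) c|) ≤
      2 * (ε / (16 * (n + 1))) + 2 * (L i * r0) := by
    intro i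
    have c1 := hfL i ρ kρ
    have c2 := hfL i r k
    have bb1 := ((smb ρ kρ _ (hVm i)).sub (hfb i)).abs
    have bb2 := ((smb r k _ (hVm i)).sub (hfb i)).abs
    have : m.M (fun c => |kρ.sm ((Vb i).indicator 1) c - k.sm ((Vb i).indicator 1) c|) ≤
        m.M (fun c => |kρ.sm ((Vb i).indicator 1) c - f i c| +
          |k.sm ((Vb i).indicator 1) c - f i c|) := by
      refine m.mono' _ _ ((smb ρ kρ _ (hVm i)).sub (smb r k _ (hVm i))).abs (bb1.add bb2)
        (fun c => ?_)
      have e : kρ.sm ((Vb i).indicator 1) c - k.sm ((Vb i).indicator 1) c =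
        (kρ.sm ((Vb i).indicator 1) c - f i c) - (k.sm ((Vb i).indicator 1) c - f i c) := by ring
      rw [e]
      exact abs_sub _ _
    rw [m.add' _ _ bb1 bb2] at this
    have h3 : L i * ρ ≤ L i * r0 := mul_le_mul_of_nonneg_left (min_le_left _ _) (hL i)
    have h4 : L i * r ≤ L i * r0 := mul_le_mul_of_nonneg_left hr (hL i)
    linarith
  have hsum : ∑ i, m.M (fun c => |kρ.sm ((Vb i).indicator 1) c - k.sm ((Vb i).indicator 1) c|) ≤
      n * (2 * (ε / (16 * (n + 1)))) + 2 * (Λ * r0) := by
    refine (Finset.sum_le_sum fun i _ => hterm i).trans ?_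
    rw [Finset.sum_add_distrib, Finset.sum_const, Finset.card_univ, nsmul_eq_mul,
      ← Finset.mul_sum, ← Finset.sum_mul]
  have e1 : n * (2 * (ε / (16 * (n + 1)))) ≤ ε / 8 := by
    have : n * (2 * (ε / (16 * (n + 1)))) = (ε / 8) * (n / (n + 1)) := by field_simp; ring
    rw [this]
    have h1 : n / (n + 1) ≤ 1 := by rw [div_le_one (by positivity)]; linarith
    calc ε / 8 * (n / (n + 1)) ≤ ε / 8 * 1 := mul_le_mul_of_nonneg_left h1 (by positivity)
      _ = ε / 8 := mul_one _
  have e2 : 2 * (Λ * r0) ≤ ε / 8 := by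
    have : 2 * (Λ * r0) = (ε / 8) * (Λ / (Λ + 1)) := by rw [hr0]; field_simp; ring
    rw [this]
    have h1 : Λ / (Λ + 1) ≤ 1 := by rw [div_le_one (by positivity)]; linarith
    calc ε / 8 * (Λ / (Λ + 1)) ≤ ε / 8 * 1 := mul_le_mul_of_nonneg_left h1 (by positivity)
      _ = ε / 8 := mul_one _
  have e3 : n * (k.B * ρ) ≤ ε / 4 := by
    have h1 : ρ ≤ ε / (4 * (n + 1) * (k.B + 1)) := min_le_right _ _
    have h2 : n * (k.B * ρ) ≤ n * (k.B * (ε / (4 * (n + 1) * (k.B + 1)))) := by gcongr
    refine h2.trans ?_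
    have : n * (k.B * (ε / (4 * (n + 1) * (k.B + 1)))) =
      (ε / 4) * ((n / (n + 1)) * (k.B / (k.B + 1))) := by field_simp
    rw [this]
    have h3 : n / (n + 1) ≤ 1 := by rw [div_le_one (by positivity)]; linarith
    have h4 : k.B / (k.B + 1) ≤ 1 := by rw [div_le_one (by positivity)]; linarith
    have h5 : (n / (n + 1)) * (k.B / (k.B + 1)) ≤ 1 * 1 :=
      mul_le_mul h3 h4 (by positivity) zero_le_one
    calc ε / 4 * ((n / (n + 1)) * (k.B / (k.B + 1))) ≤ ε / 4 * (1 * 1) :=
          mul_le_mul_of_nonneg_left h5 (by positivity)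
      _ = ε / 4 := by ring
  linarith

end Pool.Agent.N477
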