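import Mathlib
import Pool.Agent.N477.Star

set_option autoImplicit false
set_option linter.unusedSectionVars false

open Filter Topology MeasureTheory
open Pool.Agent.TH396.PS

namespace Pool.Agent.N477

variable {G : Type*} [CommGroup G] {m : Mean G} {D : BIM G} {r : ℝ}

theorem τ_τ (b c : G) (p : Ultrafilter G) :
    (actL m).τ c ((actL m).τ b p) = (actL m).τ (c * b) p := congrFun ((actL m).comp b c) p

theorem τ_one (p : Ultrafilter G) : (actL m).τ 1 p = p := congrFun ((actL m).one) p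

theorem int_tr (b : G) {F : Ultrafilter G → ℝ} (hF : BM F) :
    ∫ p, F ((actL m).τ b p) ∂(mu m) = ∫ p, F p ∂(mu m) := by
  have h2 := ((actL m).mp b)
  have h3 := integral_map (μ := mu m) h2.measurable.aemeasurable (f := F)
    (hF.meas.aestronglyMeasurable)
  rw [h2.map_eq] at h3
  exact h3.symm

/-- correlation of two compact parts -/
noncomputable def cor (k : Kern m D r) (q q' : Ultrafilter G → ℝ) (c : G) : ℝ :=
  ∫ p, q p * (k.W c p * q' ((actL m).τ c p)) ∂(mu m)

theorem cor_BM (k : Kern m D r) {A A' : Set G} (S : CSide m D A) (S' : CSide m D A') (c : G) :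
    BM (fun p => S.q p * (k.W c p * S'.q ((actL m).τ c p))) :=
  S.hq.mul ((k.W_BM c).mul (S'.hqτ c))

theorem cor_mem (k : Kern m D r) {A A' : Set G} (S : CSide m D A) (S' : CSide m D A') (c : G) :
    0 ≤ cor k S.q S'.q c ∧ cor k S.q S'.q c ≤ 1 := by
  constructor
  · exact integral_nonneg fun p => mul_nonneg (S.q01 p).1 (mul_nonneg (k.W_nonneg c p) (S'.q01 _).1)
  · rw [← k.W_int c]
    apply integral_mono ((cor_BM k S S' c).integrable _) ((k.W_BM c).integrable _)
    intro p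
    show S.q p * (k.W c p * S'.q ((actL m).τ c p)) ≤ k.W c p
    have h1 := mul_le_mul_of_nonneg_left (S'.q01 ((actL m).τ c p)).2 (k.W_nonneg c p)
    have h2 := mul_nonneg (k.W_nonneg c p) (S'.q01 ((actL m).τ c p)).1
    have h3 := mul_le_mul_of_nonneg_right (S.q01 p).2 h2
    linarith

theorem cor_lip (k : Kern m D r) {A A' : Set G} (S : CSide m D A) (S' : CSide m D A') (c c' : G) :
    |cor k S.q S'.q c - cor k S.q S'.q c'| ≤ (k.L + k.B) * D.d c c' := by
  have b1 : BM (fun p => S.q p * ((k.W c p - k.W c' p) * S'.q ((actL m).τ c p))) :=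
    S.hq.mul (((k.W_BM c).sub (k.W_BM c')).mul (S'.hqτ c))
  have bφ : BM (fun p => S.q p * k.W c' p) := S.hq.mul (k.W_BM c')
  have b2 : BM (fun p => (S.q p * k.W c' p) *
      (S'.q ((actL m).τ c p) - S'.q ((actL m).τ c' p))) :=
    bφ.mul ((S'.hqτ c).sub (S'.hqτ c'))
  have e : cor k S.q S'.q c - cor k S.q S'.q c' =
      ∫ p, S.q p * ((k.W c p - k.W c' p) * S'.q ((actL m).τ c p)) ∂(mu m) +
      ∫ p, (S.q p * k.W c' p) * (S'.q ((actL m).τ c p) - S'.q ((actL m).τ c' p)) ∂(mu m) := by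
    unfold cor
    rw [← integral_sub ((cor_BM k S S' c).integrable _) ((cor_BM k S S' c').integrable _),
      ← integral_add (b1.integrable _) (b2.integrable _)]
    congr 1
    funext p
    ring
  rw [e, add_mul]
  refine (abs_add_le _ _).trans (add_le_add ?_ ?_)
  · calc |∫ p, S.q p * ((k.W c p - k.W c' p) * S'.q ((actL m).τ c p)) ∂(mu m)|
        ≤ ∫ p, |S.q p * ((k.W c p - k.W c' p) * S'.q ((actL m).τ c p))| ∂(mu m) :=
          abs_integral_le_integral_abs
      _ ≤ ∫ _p, k.L * D.d c c' ∂(mu m) := by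
          apply integral_mono (b1.integrable _).abs (integrable_const _)
          intro p
          show |S.q p * ((k.W c p - k.W c' p) * S'.q ((actL m).τ c p))| ≤ k.L * D.d c c'
          rw [abs_mul, abs_mul, abs_of_nonneg (S.q01 p).1, abs_of_nonneg (S'.q01 _).1]
          have h1 := k.W_dist c c' p
          have h2 := abs_nonneg (k.W c p - k.W c' p)
          have h3 := mul_le_mul_of_nonneg_left (S'.q01 ((actL m).τ c p)).2 h2
          have h4 := mul_nonneg h2 (S'.q01 ((actL m).τ c p)).1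
          have h5 := mul_le_mul_of_nonneg_right (S.q01 p).2 h4
          linarith
      _ = k.L * D.d c c' := by simp
  · apply S'.lip _ bφ k.B k.Bnn
    intro p
    rw [abs_mul, abs_of_nonneg (S.q01 p).1, abs_of_nonneg (k.W_nonneg c' p)]
    have h1 := mul_le_mul_of_nonneg_right (S.q01 p).2 (k.W_nonneg c' p)
    have h2 := k.W_le c' p
    linarith

theorem mean_cor_pow (k : Kern m D r) {A A' : Set G} (S : CSide m D A) (S' : CSide m D A')
    {n : ℕ} (T : PT G n) (hT : T.R = {1}) :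
    m.M (fun c => cor k S.q S'.q (c ^ n)) = m.M (fun c => cor k S.q S'.q c) :=
  mean_pow (D := D) T hT (f := fun c => cor k S.q S'.q c)
    (Bdd.of_mem 0 1 fun c => cor_mem k S S' c) (k.L + k.B) (add_nonneg k.Lnn k.Bnn)
    (fun x y => cor_lip k S S' x y)

theorem mean_sm_pow (k : Kern m D r) {A : Set G} (S : CSide m D A)
    {n : ℕ} (T : PT G n) (hT : T.R = {1}) :
    m.M (fun c => k.sm S.q (c ^ n)) = m.M (A.indicator 1) := by
  have h1 := mean_pow (m := m) (D := D) T hT (f := fun c => k.sm S.q c)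
    (Bdd.of_mem 0 1 fun c => k.sm_mem S.hq S.q01 c) k.L k.Lnn (fun x y => k.sm_lip S.hq S.q01 x y)
  rw [h1, ← S.int]
  exact k.exchange S.q (S.hq.integrable _)

/-- the pair correlation is small in mean -/
theorem star' [Countable G] [Infinite G] {A A' : Set G} (hA' : A' = half A) (S : CSide m D A)
    (S' : CSide m D A')
    (hno : ¬ ∃ B : Set G, B.Infinite ∧ ∀ x ∈ B, ∀ y ∈ B, x * y ∈ A) (ε : ℝ) (hε : 0 < ε) :
    ∃ r0 : ℝ, 0 < r0 ∧ ∀ r ≤ r0, ∀ k : Kern m D r, m.M (fun c => cor k S'.q S.q c) ≤ ε := by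
  obtain ⟨r0, hr0, h⟩ := star S hno ε hε
  refine ⟨r0, hr0, fun r hr k => ?_⟩
  refine le_trans (le_of_eq ?_) (h r hr k)
  congr 1
  funext c
  have hg : BM (fun p => k.W c p * S.q ((actL m).τ c p)) := (k.W_BM c).mul (S.hqτ c)
  have hcpt : toL (mu m) hg ∈ (actL m).act.cpt := by
    apply mul_mem_cpt (actL m) (k.W_BM c) (S.hqτ c) (W_cpt k c)
    have h1 := (actL m).act.cpt_inv S.cpt c
    rw [MPAct.U_toL] at h1
    exact h1
  have h1 := S'.orth _ hg hcpt
  rw [← hA']
  have i1 : Integrable (fun p => {p : Ultrafilter G | A' ∈ p}.indicator 1 p *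
      (k.W c p * S.q ((actL m).τ c p))) (mu m) := ((BM.ind (meas_basic A')).mul hg).integrable _
  have i2 := (cor_BM k S' S c).integrable (mu m)
  have e : ∫ p, ({p : Ultrafilter G | A' ∈ p}.indicator 1 p - S'.q p) *
      (k.W c p * S.q ((actL m).τ c p)) ∂(mu m) =
      ∫ p, {p : Ultrafilter G | A' ∈ p}.indicator 1 p *
      (k.W c p * S.q ((actL m).τ c p)) ∂(mu m) - cor k S'.q S.q c := by
    unfold cor
    rw [← integral_sub i1 i2]
    congr 1
    funext p
    ring
  rw [e] at h1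
  linarith

theorem no_half (hinj : Function.Injective (fun x : G => x ^ 2)) {A : Set G}
    (hno : ¬ ∃ B : Set G, B.Infinite ∧ ∀ x ∈ B, ∀ y ∈ B, x * y ∈ A) :
    ¬ ∃ B : Set G, B.Infinite ∧ ∀ x ∈ B, ∀ y ∈ B, x * y ∈ half A := by
  rintro ⟨B, hB, h⟩
  apply hno
  refine ⟨(fun x => x ^ 2) '' B, hB.image hinj.injOn, ?_⟩
  rintro _ ⟨x, hx, rfl⟩ _ ⟨y, hy, rfl⟩
  have := h x hx y hy
  show x ^ 2 * y ^ 2 ∈ A
  rw [← mul_pow]
  exact this

/-- the trivial transversal -/
def triv {n n' : ℕ} (h : ∀ x : G, (x ^ n) ^ n' = x) : PT G n where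
  R := {1}
  one_mem := Finset.mem_singleton_self 1
  inj x y r hr r' hr' hxy := by
    rw [Finset.mem_singleton] at hr hr'
    subst hr hr'
    rw [mul_one, mul_one] at hxy
    refine ⟨?_, rfl⟩
    rw [← h x, hxy, h y]
  surj v := ⟨v ^ n', 1, Finset.mem_singleton_self 1, by
    rw [mul_one, ← pow_mul, mul_comm, pow_mul, h]⟩

theorem ub3 [Countable G] [Infinite G] (m : Mean G) (h7 : ∀ x : G, x ^ 7 = 1) (A : Set G)
    (hno : ¬ ∃ B : Set G, B.Infinite ∧ ∀ x ∈ B, ∀ y ∈ B, x * y ∈ A) :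
    m.M (A.indicator 1) + m.M ((half A).indicator 1) + m.M ((half (half A)).indicator 1) ≤ 1 := by
  have h8 : ∀ x : G, x ^ 8 = x := fun x => by rw [pow_succ, h7, one_mul]
  have hinj : Function.Injective (fun x : G => x ^ 2) := by
    intro x y hxy
    beta_reduce at hxy
    rw [← h8 x, ← h8 y, show (8 : ℕ) = 2 * 4 from rfl, pow_mul, pow_mul, hxy]
  have hhh : A = half (half (half A)) := by
    ext x
    show x ∈ A ↔ ((x ^ 2) ^ 2) ^ 2 ∈ A
    rw [← pow_mul, ← pow_mul, h8]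
  have hno1 := no_half hinj hno
  have hno2 := no_half hinj hno1
  set T2 : PT G 2 := triv (n' := 4) (fun x => by rw [← pow_mul]; exact h8 x) with hT2
  set T4 : PT G 4 := triv (n' := 2) (fun x => by rw [← pow_mul]; exact h8 x) with hT4
  obtain ⟨D0, ⟨R0⟩⟩ := CSide.exists_cside m A
  obtain ⟨D1, ⟨R1⟩⟩ := CSide.exists_cside m (half A)
  obtain ⟨D2, ⟨R2⟩⟩ := CSide.exists_cside m (half (half A))
  set D : BIM G := (D0.add D1).add D2 with hD
  have hadd : ∀ x y, D.d x y = D0.d x y + D1.d x y + D2.d x y := fun x y => rfl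
  set S0 : CSide m D A := R0.mono (fun x y => by
    rw [hadd]
    have := D1.nonneg x y
    have := D2.nonneg x y
    linarith) with hS0
  set S1 : CSide m D (half A) := R1.mono (fun x y => by
    rw [hadd]
    have := D0.nonneg x y
    have := D2.nonneg x y
    linarith) with hS1
  set S2 : CSide m D (half (half A)) := R2.mono (fun x y => by
    rw [hadd]
    have := D1.nonneg x y
    have := D0.nonneg x y
    linarith) with hS2
  apply le_of_forall_pos_le_add
  intro ε hε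
  obtain ⟨r1, hr1, H1⟩ := star' rfl S0 S1 hno (ε / 3) (by positivity)
  obtain ⟨r2, hr2, H2⟩ := star' rfl S1 S2 hno1 (ε / 3) (by positivity)
  obtain ⟨r3, hr3, H3⟩ := star' hhh S2 S0 hno2 (ε / 3) (by positivity)
  set r : ℝ := min r1 (min r2 r3) with hr
  have hrp : 0 < r := lt_min hr1 (lt_min hr2 hr3)
  obtain ⟨k⟩ := Kern.exists_kern m D r hrp
  have K1 := H1 r (min_le_left _ _) k
  have K2 := H2 r ((min_le_right _ _).trans (min_le_left _ _)) k
  have K3 := H3 r ((min_le_right _ _).trans (min_le_right _ _)) k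
  have M0 : m.M (fun c => k.sm S0.q c) = m.M (A.indicator 1) := by
    rw [← S0.int]
    exact k.exchange S0.q (S0.hq.integrable _)
  have M1 := mean_sm_pow k S1 T4 rfl
  have M2 := mean_sm_pow k S2 T2 rfl
  have C1 := mean_cor_pow k S1 S0 T4 rfl
  have C2 := mean_cor_pow k S2 S1 T2 rfl
  -- change of variables
  have hW3 : ∀ c p, k.W (c ^ 4) ((actL m).τ (c ^ 3) p) = k.W c p := by
    intro c p
    rw [W_tr]
    congr 1
    rw [pow_succ c 3, inv_mul_cancel_left]
  have hW1 : ∀ c p, k.W (c ^ 2) ((actL m).τ c p) = k.W c p := by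
    intro c p
    rw [W_tr]
    congr 1
    rw [pow_two, inv_mul_cancel_left]
  have E1 : ∀ c, cor k S1.q S0.q (c ^ 4) =
      ∫ p, S1.q ((actL m).τ (c ^ 3) p) * (k.W c p * S0.q p) ∂(mu m) := by
    intro c
    unfold cor
    rw [← int_tr (c ^ 3) (cor_BM k S1 S0 (c ^ 4))]
    congr 1
    funext p
    rw [hW3, τ_τ]
    have : c ^ 4 * c ^ 3 = 1 := by rw [← pow_add]; exact h7 c
    rw [this, τ_one]
  have E2 : ∀ c, cor k S2.q S1.q (c ^ 2) =
      ∫ p, S2.q ((actL m).τ c p) * (k.W c p * S1.q ((actL m).τ (c ^ 3) p)) ∂(mu m) := by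
    intro c
    unfold cor
    rw [← int_tr c (cor_BM k S2 S1 (c ^ 2))]
    congr 1
    funext p
    rw [hW1, τ_τ, ← pow_succ]
  have F1 : ∀ c, k.sm S1.q (c ^ 4) = ∫ p, S1.q ((actL m).τ (c ^ 3) p) * k.W c p ∂(mu m) := by
    intro c
    unfold Kern.sm
    rw [← int_tr (c ^ 3) (S1.hq.mul (k.W_BM (c ^ 4)))]
    congr 1
    funext p
    rw [hW3]
  have F2 : ∀ c, k.sm S2.q (c ^ 2) = ∫ p, S2.q ((actL m).τ c p) * k.W c p ∂(mu m) := by
    intro c
    unfold Kern.sm
    rw [← int_tr c (S2.hq.mul (k.W_BM (c ^ 2)))]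
    congr 1
    funext p
    rw [hW1]
  have hpt : ∀ c, k.sm S0.q c + k.sm S1.q (c ^ 4) + k.sm S2.q (c ^ 2) ≤
      1 + (cor k S1.q S0.q (c ^ 4) + cor k S2.q S1.q (c ^ 2) + cor k S0.q S2.q c) := by
    intro c
    rw [E1, E2, F1, F2, ← k.W_int c]
    unfold cor Kern.sm
    have a0 : BM (fun p => S0.q p * k.W c p) := S0.hq.mul (k.W_BM c)
    have a1 : BM (fun p => S1.q ((actL m).τ (c ^ 3) p) * k.W c p) := (S1.hqτ _).mul (k.W_BM c)
    have a2 : BM (fun p => S2.q ((actL m).τ c p) * k.W c p) := (S2.hqτ _).mul (k.W_BM c)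
    have b1 : BM (fun p => S1.q ((actL m).τ (c ^ 3) p) * (k.W c p * S0.q p)) :=
      (S1.hqτ _).mul ((k.W_BM c).mul S0.hq)
    have b2 : BM (fun p => S2.q ((actL m).τ c p) * (k.W c p * S1.q ((actL m).τ (c ^ 3) p))) :=
      (S2.hqτ _).mul ((k.W_BM c).mul (S1.hqτ _))
    have b3 : BM (fun p => S0.q p * (k.W c p * S2.q ((actL m).τ c p))) :=
      S0.hq.mul ((k.W_BM c).mul (S2.hqτ _))
    rw [← integral_add (a0.integrable _) (a1.integrable _),
      ← integral_add ((a0.add a1).integrable _) (a2.integrable _),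
      ← integral_add (b1.integrable _) (b2.integrable _),
      ← integral_add ((b1.add b2).integrable _) (b3.integrable _),
      ← integral_add ((k.W_BM c).integrable _) (((b1.add b2).add b3).integrable _)]
    apply integral_mono (((a0.add a1).add a2).integrable _)
      (((k.W_BM c).add ((b1.add b2).add b3)).integrable _)
    intro p
    show S0.q p * k.W c p + S1.q ((actL m).τ (c ^ 3) p) * k.W c p +
      S2.q ((actL m).τ c p) * k.W c p ≤ k.W c p +
      (S1.q ((actL m).τ (c ^ 3) p) * (k.W c p * S0.q p) +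
      S2.q ((actL m).τ c p) * (k.W c p * S1.q ((actL m).τ (c ^ 3) p)) +
      S0.q p * (k.W c p * S2.q ((actL m).τ c p)))
    have hx := S0.q01 p
    have hy := S1.q01 ((actL m).τ (c ^ 3) p)
    have hz := S2.q01 ((actL m).τ c p)
    set x := S0.q p
    set y := S1.q ((actL m).τ (c ^ 3) p)
    set z := S2.q ((actL m).τ c p)
    have hW := k.W_nonneg c p
    set w := k.W c p
    have h1 : 0 ≤ (1 - x) * (1 - y) * (1 - z) :=
      mul_nonneg (mul_nonneg (by linarith) (by linarith)) (by linarith)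
    have h2 : 0 ≤ x * y * z := mul_nonneg (mul_nonneg hx.1 hy.1) hz.1
    have h3 : 0 ≤ w * ((1 - x) * (1 - y) * (1 - z) + x * y * z) := mul_nonneg hW (by linarith)
    nlinarith [h3]
  have s0 : Bdd (fun c => k.sm S0.q c) := Bdd.of_mem 0 1 fun c => k.sm_mem S0.hq S0.q01 c
  have s1 : Bdd (fun c => k.sm S1.q (c ^ 4)) := Bdd.of_mem 0 1 fun c => k.sm_mem S1.hq S1.q01 _
  have s2 : Bdd (fun c => k.sm S2.q (c ^ 2)) := Bdd.of_mem 0 1 fun c => k.sm_mem S2.hq S2.q01 _
  have t1 : Bdd (fun c => cor k S1.q S0.q (c ^ 4)) := Bdd.of_mem 0 1 fun c => cor_mem k S1 S0 _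
  have t2 : Bdd (fun c => cor k S2.q S1.q (c ^ 2)) := Bdd.of_mem 0 1 fun c => cor_mem k S2 S1 _
  have t3 : Bdd (fun c => cor k S0.q S2.q c) := Bdd.of_mem 0 1 fun c => cor_mem k S0 S2 _
  have hmain := m.mono' _ _ ((s0.add s1).add s2) ((Bdd.const 1).add ((t1.add t2).add t3)) hpt
  rw [m.add' _ _ (s0.add s1) s2, m.add' _ _ s0 s1,
    m.add' _ _ (Bdd.const 1) ((t1.add t2).add t3), m.add' _ _ (t1.add t2) t3,
    m.add' _ _ t1 t2, m.const', M0, M1, M2, C1, C2] at hmain
  linarith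

end Pool.Agent.N477
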