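import Mathlib
import Pool.Agent.N477.UB3

set_option autoImplicit false
set_option linter.unusedSectionVars false

open Filter Topology MeasureTheory
open Pool.Agent.TH396.PS

namespace Pool.Agent.N477

section gen

variable {G : Type*} [CommGroup G] [DecidableEq G]

theorem card_img_inter (Ψ : Finset G) (g : G) :
    (((Ψ.image (fun x => g * x)) ∩ Ψ).card : ℝ) =
      Ψ.card - ((Ψ.filter (fun x => g * x ∉ Ψ)).card : ℝ) := by
  have h1 : (Ψ.image (fun x => g * x)) ∩ Ψ = (Ψ.filter (fun x => g * x ∈ Ψ)).image (fun x => g * x) := by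
    ext y
    simp only [Finset.mem_inter, Finset.mem_image, Finset.mem_filter]
    constructor
    · rintro ⟨⟨x, hx, rfl⟩, hy⟩
      exact ⟨x, ⟨hx, hy⟩, rfl⟩
    · rintro ⟨x, ⟨hx, hy⟩, rfl⟩
      exact ⟨⟨x, hx, rfl⟩, hy⟩
  have h2 := Finset.card_filter_add_card_filter_not (s := Ψ) (fun x => g * x ∈ Ψ)
  rw [h1, Finset.card_image_of_injective _ (mul_right_injective g)]
  have h3 : (((Ψ.filter (fun x => g * x ∈ Ψ)).card : ℝ)) +
      ((Ψ.filter (fun x => g * x ∉ Ψ)).card : ℝ) = Ψ.card := by exact_mod_cast h2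
  linarith

/-- subsets of positive proportion with small boundary are Følner -/
theorem fol_sub (𝒰 : Ultrafilter ℕ) (Φ Ψ : ℕ → Finset G) (β : ℝ) (hβ : 0 < β)
    (hlim : Tendsto (fun N => ((Ψ N).card : ℝ) / (Φ N).card) 𝒰 (𝓝 β))
    (hdef : ∀ g : G, Tendsto (fun N => (((Ψ N).filter (fun x => g * x ∉ Ψ N)).card : ℝ) /
      (Φ N).card) 𝒰 (𝓝 0)) :
    (∀ᶠ N in (𝒰 : Filter ℕ), (Ψ N).Nonempty) ∧
    ∀ g : G, Tendsto (fun N => ((((Ψ N).image (fun x => g * x)) ∩ Ψ N).card : ℝ) / (Ψ N).card)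
      𝒰 (𝓝 1) := by
  have hpos : ∀ᶠ N in (𝒰 : Filter ℕ), 0 < ((Ψ N).card : ℝ) / (Φ N).card :=
    hlim.eventually_const_lt hβ
  have hne : ∀ᶠ N in (𝒰 : Filter ℕ), (0 : ℝ) < (Ψ N).card ∧ (0 : ℝ) < (Φ N).card := by
    filter_upwards [hpos] with N hN
    have h1 : (0 : ℝ) ≤ (Ψ N).card := Nat.cast_nonneg _
    have h2 : (0 : ℝ) ≤ (Φ N).card := Nat.cast_nonneg _
    constructor
    · rcases h1.lt_or_eq with h | h
      · exact h
      · rw [← h, zero_div] at hN
        exact absurd hN (lt_irrefl _)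
    · rcases h2.lt_or_eq with h | h
      · exact h
      · rw [← h, div_zero] at hN
        exact absurd hN (lt_irrefl _)
  refine ⟨?_, fun g => ?_⟩
  · filter_upwards [hne] with N hN
    exact Finset.card_pos.mp (by exact_mod_cast hN.1)
  · have h1 := ((hdef g).div hlim hβ.ne').const_sub 1
    rw [zero_div, sub_zero] at h1
    refine h1.congr' ?_
    filter_upwards [hne] with N hN
    rw [card_img_inter, Pi.div_apply]
    have := hN.1.ne'
    have := hN.2.ne'
    field_simp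

/-- comparison of the proportion of a function on `Ψ` with a bound for all means along `Ψ` -/
theorem limit_bound (𝒰 : Ultrafilter ℕ) (Φ Ψ : ℕ → Finset G) (β t : ℝ)
    (hlim : Tendsto (fun N => ((Ψ N).card : ℝ) / (Φ N).card) 𝒰 (𝓝 β))
    (hdef : ∀ g : G, Tendsto (fun N => (((Ψ N).filter (fun x => g * x ∉ Ψ N)).card : ℝ) /
      (Φ N).card) 𝒰 (𝓝 0)) (f : G → ℝ) (K : ℝ) (hf0 : ∀ x, 0 ≤ f x) (hfK : ∀ x, f x ≤ K)
    (ht : Tendsto (fun N => (∑ x ∈ Ψ N, f x) / (Φ N).card) 𝒰 (𝓝 t)) (C : ℝ)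
    (hmean : ∀ m : Mean G, (∀ h : G → ℝ, Bdd h → Tendsto (fun N => avg (Ψ N) h) 𝒰 (𝓝 (m.M h))) →
      m.M f ≤ C) : t ≤ C * β := by
  have hβ0 : 0 ≤ β := ge_of_tendsto' hlim (fun N => by positivity)
  rcases hβ0.lt_or_eq with hβ | hβ
  · obtain ⟨hne, hl⟩ := fol_sub 𝒰 Φ Ψ β hβ hlim hdef
    have hr : ∀ g : G, Tendsto (fun N => ((((Ψ N).image (fun x => x * g)) ∩ Ψ N).card : ℝ) /
        (Ψ N).card) 𝒰 (𝓝 1) := by
      intro g
      have := hl g
      simp only [mul_comm g] at this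
      exact this
    set m := meanOf 𝒰 Ψ hne hl hr with hm
    have h1 := hmean m (fun h hh => meanOf_tendsto 𝒰 Ψ hne hl hr hh)
    have hfb : Bdd f := Bdd.of_mem 0 K (fun x => ⟨hf0 x, hfK x⟩)
    have h2 : Tendsto (fun N => avg (Ψ N) f) 𝒰 (𝓝 (m.M f)) := meanOf_tendsto 𝒰 Ψ hne hl hr hfb
    have h3 := h2.mul hlim
    have h4 : Tendsto (fun N => (∑ x ∈ Ψ N, f x) / (Φ N).card) 𝒰 (𝓝 (m.M f * β)) := by
      refine h3.congr' ?_
      filter_upwards [hne] with N hN
      have : ((Ψ N).card : ℝ) ≠ 0 := by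
        have := Finset.card_pos.mpr hN
        positivity
      unfold avg
      field_simp
    have h5 := tendsto_nhds_unique ht h4
    rw [h5]
    exact mul_le_mul_of_nonneg_right h1 hβ0
  · rw [← hβ, mul_zero]
    rw [← hβ] at hlim
    have h1 := hlim.const_mul K
    rw [mul_zero] at h1
    refine le_of_tendsto_of_tendsto' ht h1 (fun N => ?_)
    rw [mul_div_assoc']
    apply div_le_div_of_nonneg_right _ (Nat.cast_nonneg _)
    calc ∑ x ∈ Ψ N, f x ≤ ∑ _x ∈ Ψ N, K := Finset.sum_le_sum fun x _ => hfK x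
      _ = K * (Ψ N).card := by rw [Finset.sum_const, nsmul_eq_mul, mul_comm]

end gen

section seven

variable {G : Type*} [CommGroup G] [DecidableEq G]

/-- elements with the full orbit inside -/
def F3 (F : Finset G) : Finset G := F.filter (fun x => x ^ 2 ∈ F ∧ x ^ 4 ∈ F)

/-- elements with the square but not the fourth power inside -/
def F2 (F : Finset G) : Finset G := F.filter (fun x => x ^ 2 ∈ F ∧ x ^ 4 ∉ F)

theorem mem_F3 {F : Finset G} {x : G} : x ∈ F3 F ↔ x ∈ F ∧ x ^ 2 ∈ F ∧ x ^ 4 ∈ F := by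
  unfold F3; rw [Finset.mem_filter]

theorem mem_F2 {F : Finset G} {x : G} : x ∈ F2 F ↔ x ∈ F ∧ x ^ 2 ∈ F ∧ x ^ 4 ∉ F := by
  unfold F2; rw [Finset.mem_filter]

/-- number of points leaving under translation -/
def df (F : Finset G) (g : G) : ℕ := (F.filter (fun x => g * x ∉ F)).card

variable (h8 : ∀ x : G, x ^ 8 = x)

include h8

theorem inj2 : Function.Injective (fun x : G => x ^ 2) := by
  intro x y hxy
  beta_reduce at hxy
  rw [← h8 x, ← h8 y, show (8 : ℕ) = 2 * 4 from rfl, pow_mul, pow_mul, hxy]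

theorem inj4 : Function.Injective (fun x : G => x ^ 4) := by
  intro x y hxy
  beta_reduce at hxy
  rw [← h8 x, ← h8 y, show (8 : ℕ) = 4 * 2 from rfl, pow_mul, pow_mul, hxy]

theorem df_F3 (F : Finset G) (g : G) :
    ((F3 F).filter (fun x => g * x ∉ F3 F)).card ≤ df F g + df F (g ^ 2) + df F (g ^ 4) := by
  have hsub : (F3 F).filter (fun x => g * x ∉ F3 F) ⊆
      (F.filter (fun x => g * x ∉ F) ∪ F.filter (fun x => x ^ 2 ∈ F ∧ g ^ 2 * x ^ 2 ∉ F)) ∪
        F.filter (fun x => x ^ 4 ∈ F ∧ g ^ 4 * x ^ 4 ∉ F) := by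
    intro x hx
    rw [Finset.mem_filter, mem_F3, mem_F3] at hx
    obtain ⟨⟨h1, h2, h3⟩, h4⟩ := hx
    simp only [Finset.mem_union, Finset.mem_filter]
    rw [mul_pow, mul_pow] at h4
    tauto
  have a2 : (F.filter (fun x => x ^ 2 ∈ F ∧ g ^ 2 * x ^ 2 ∉ F)).card ≤ df F (g ^ 2) := by
    unfold df
    apply Finset.card_le_card_of_injOn (fun x => x ^ 2)
    · intro x hx
      have hx' := Finset.mem_filter.mp (Finset.mem_coe.mp hx)
      exact Finset.mem_coe.mpr (Finset.mem_filter.mpr hx'.2)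
    · exact (inj2 h8).injOn
  have a4 : (F.filter (fun x => x ^ 4 ∈ F ∧ g ^ 4 * x ^ 4 ∉ F)).card ≤ df F (g ^ 4) := by
    unfold df
    apply Finset.card_le_card_of_injOn (fun x => x ^ 4)
    · intro x hx
      have hx' := Finset.mem_filter.mp (Finset.mem_coe.mp hx)
      exact Finset.mem_coe.mpr (Finset.mem_filter.mpr hx'.2)
    · exact (inj4 h8).injOn
  calc ((F3 F).filter (fun x => g * x ∉ F3 F)).card ≤ _ := Finset.card_le_card hsub
    _ ≤ _ := Finset.card_union_le _ _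
    _ ≤ (F.filter (fun x => g * x ∉ F)).card +
        (F.filter (fun x => x ^ 2 ∈ F ∧ g ^ 2 * x ^ 2 ∉ F)).card +
        (F.filter (fun x => x ^ 4 ∈ F ∧ g ^ 4 * x ^ 4 ∉ F)).card :=
        Nat.add_le_add_right (Finset.card_union_le _ _) _
    _ ≤ _ := by
        have a1 : (F.filter (fun x => g * x ∉ F)).card = df F g := rfl
        omega

theorem df_F2 (F : Finset G) (g : G) :
    ((F2 F).filter (fun x => g * x ∉ F2 F)).card ≤ df F g + df F (g ^ 2) + df F (g⁻¹ ^ 4) := by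
  have hsub : (F2 F).filter (fun x => g * x ∉ F2 F) ⊆
      (F.filter (fun x => g * x ∉ F) ∪ F.filter (fun x => x ^ 2 ∈ F ∧ g ^ 2 * x ^ 2 ∉ F)) ∪
        F.filter (fun x => x ^ 4 ∉ F ∧ g ^ 4 * x ^ 4 ∈ F) := by
    intro x hx
    rw [Finset.mem_filter, mem_F2, mem_F2] at hx
    obtain ⟨⟨h1, h2, h3⟩, h4⟩ := hx
    simp only [Finset.mem_union, Finset.mem_filter]
    rw [mul_pow, mul_pow] at h4
    tauto
  have a2 : (F.filter (fun x => x ^ 2 ∈ F ∧ g ^ 2 * x ^ 2 ∉ F)).card ≤ df F (g ^ 2) := by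
    unfold df
    apply Finset.card_le_card_of_injOn (fun x => x ^ 2)
    · intro x hx
      have hx' := Finset.mem_filter.mp (Finset.mem_coe.mp hx)
      exact Finset.mem_coe.mpr (Finset.mem_filter.mpr hx'.2)
    · exact (inj2 h8).injOn
  have a4 : (F.filter (fun x => x ^ 4 ∉ F ∧ g ^ 4 * x ^ 4 ∈ F)).card ≤ df F (g⁻¹ ^ 4) := by
    unfold df
    apply Finset.card_le_card_of_injOn (fun x => g ^ 4 * x ^ 4)
    · intro x hx
      have hx' := Finset.mem_filter.mp (Finset.mem_coe.mp hx)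
      refine Finset.mem_coe.mpr (Finset.mem_filter.mpr ⟨hx'.2.2, ?_⟩)
      rw [inv_pow, inv_mul_cancel_left]
      exact hx'.2.1
    · intro x _ y _ hxy
      exact inj4 h8 (mul_left_cancel hxy)
  calc ((F2 F).filter (fun x => g * x ∉ F2 F)).card ≤ _ := Finset.card_le_card hsub
    _ ≤ _ := Finset.card_union_le _ _
    _ ≤ (F.filter (fun x => g * x ∉ F)).card +
        (F.filter (fun x => x ^ 2 ∈ F ∧ g ^ 2 * x ^ 2 ∉ F)).card +
        (F.filter (fun x => x ^ 4 ∉ F ∧ g ^ 4 * x ^ 4 ∈ F)).card :=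
        Nat.add_le_add_right (Finset.card_union_le _ _) _
    _ ≤ _ := by
        have a1 : (F.filter (fun x => g * x ∉ F)).card = df F g := rfl
        omega

/-- the set `F3` is invariant under squaring -/
theorem F3_sq {F : Finset G} {x : G} (hx : x ∈ F3 F) : x ^ 2 ∈ F3 F := by
  rw [mem_F3] at hx ⊢
  refine ⟨hx.2.1, ?_, ?_⟩
  · rw [← pow_mul]; exact hx.2.2
  · rw [← pow_mul, h8]; exact hx.1

theorem sum_F3_sq (F : Finset G) (f : G → ℝ) : ∑ x ∈ F3 F, f (x ^ 2) = ∑ x ∈ F3 F, f x := by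
  have himg : (F3 F).image (fun x => x ^ 2) = F3 F := by
    apply Finset.eq_of_subset_of_card_le
    · intro y hy
      obtain ⟨x, hx, rfl⟩ := Finset.mem_image.mp hy
      exact F3_sq h8 hx
    · rw [Finset.card_image_of_injective _ (inj2 h8)]
  conv_rhs => rw [← himg]
  rw [Finset.sum_image (fun x _ y _ h => inj2 h8 h)]

/-- the basic counting inequality -/
theorem count (F : Finset G) (A : Set G) :
    ∑ x ∈ F, A.indicator (1 : G → ℝ) x + (F3 F).card + 2 * (F2 F).card ≤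
      F.card + ∑ x ∈ F3 F, A.indicator (1 : G → ℝ) x +
        ∑ x ∈ F2 F, (A.indicator (1 : G → ℝ) x + A.indicator (1 : G → ℝ) (x ^ 2)) := by
  set f : G → ℝ := fun x => 1 - A.indicator (1 : G → ℝ) x with hf
  have hf0 : ∀ x, 0 ≤ f x := by
    intro x
    by_cases hx : x ∈ A <;> simp [hf, hx]
  set E := (F2 F).image (fun x => x ^ 2) with hE
  have d1 : Disjoint (F3 F) (F2 F) := by
    rw [Finset.disjoint_left]
    intro x hx hx'
    exact (mem_F2.mp hx').2.2 (mem_F3.mp hx).2.2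
  have hEs : ∀ y ∈ E, y ∈ F ∧ y ^ 2 ∉ F := by
    intro y hy
    obtain ⟨x, hx, rfl⟩ := Finset.mem_image.mp hy
    have := mem_F2.mp hx
    refine ⟨this.2.1, ?_⟩
    show (x ^ 2) ^ 2 ∉ F
    rw [← pow_mul]
    exact this.2.2
  have d2 : Disjoint (F3 F ∪ F2 F) E := by
    rw [Finset.disjoint_left]
    intro x hx hx'
    have h1 := (hEs x hx').2
    rcases Finset.mem_union.mp hx with h | h
    · exact h1 (mem_F3.mp h).2.1
    · exact h1 (mem_F2.mp h).2.1
  have hsub : (F3 F ∪ F2 F) ∪ E ⊆ F := by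
    intro x hx
    rcases Finset.mem_union.mp hx with h | h
    · rcases Finset.mem_union.mp h with h | h
      · exact (mem_F3.mp h).1
      · exact (mem_F2.mp h).1
    · exact (hEs x h).1
  have h1 : ∑ x ∈ (F3 F ∪ F2 F) ∪ E, f x ≤ ∑ x ∈ F, f x :=
    Finset.sum_le_sum_of_subset_of_nonneg hsub (fun x _ _ => hf0 x)
  rw [Finset.sum_union d2, Finset.sum_union d1, hE,
    Finset.sum_image (fun x _ y _ h => inj2 h8 h)] at h1
  simp only [hf, Finset.sum_sub_distrib, Finset.sum_const, nsmul_eq_mul, mul_one] at h1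
  rw [Finset.sum_add_distrib]
  linarith

theorem card_sq (F : Finset G) : (F.filter (fun x => x ^ 2 ∈ F)).card = (F3 F).card + (F2 F).card := by
  rw [← Finset.card_union_of_disjoint]
  · congr 1
    ext x
    rw [Finset.mem_filter, Finset.mem_union, mem_F3, mem_F2]
    tauto
  · rw [Finset.disjoint_left]
    intro x hx hx'
    exact (mem_F2.mp hx').2.2 (mem_F3.mp hx).2.2

end seven

/-- the density bound for sets containing no `B * B` in a group of exponent seven -/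
theorem dens7 {G : Type*} [CommGroup G] [DecidableEq G] [Countable G] [Infinite G]
    (h7 : ∀ x : G, x ^ 7 = 1) (A : Set G)
    (hno : ¬ ∃ B : Set G, B.Infinite ∧ ∀ x ∈ B, ∀ y ∈ B, x * y ∈ A)
    (Φ : ℕ → Finset G) (𝒰 : Ultrafilter ℕ)
    (hΦ : ∀ g : G, Tendsto (fun N => ((((Φ N).image (fun x => g * x)) ∩ Φ N).card : ℝ) /
      (Φ N).card) 𝒰 (𝓝 1))
    (d α : ℝ) (hd : Tendsto (fun N => (∑ x ∈ Φ N, A.indicator (1 : G → ℝ) x) / (Φ N).card) 𝒰 (𝓝 d))
    (hα : Tendsto (fun N => (((Φ N).filter (fun x => x ^ 2 ∈ Φ N)).card : ℝ) / (Φ N).card) 𝒰 (𝓝 α)) :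
    d ≤ 1 - 2 / 3 * α := by
  classical
  have h8 : ∀ x : G, x ^ 8 = x := fun x => by rw [pow_succ, h7, one_mul]
  have hne : ∀ᶠ N in (𝒰 : Filter ℕ), (0 : ℝ) < (Φ N).card := by
    have h1 : ∀ᶠ N in (𝒰 : Filter ℕ), (0 : ℝ) <
        ((((Φ N).image (fun x => (1 : G) * x)) ∩ Φ N).card : ℝ) / (Φ N).card :=
      (hΦ 1).eventually_const_lt zero_lt_one
    filter_upwards [h1] with N hN
    rcases (Nat.cast_nonneg (Φ N).card : (0 : ℝ) ≤ _).lt_or_eq with h | h
    · exact h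
    · rw [← h, div_zero] at hN
      exact absurd hN (lt_irrefl _)
  have hdf : ∀ g : G, Tendsto (fun N => (df (Φ N) g : ℝ) / (Φ N).card) 𝒰 (𝓝 0) := by
    intro g
    have h1 := (hΦ g).const_sub 1
    rw [sub_self] at h1
    refine h1.congr' ?_
    filter_upwards [hne] with N hN
    rw [card_img_inter]
    have := hN.ne'
    unfold df
    field_simp
    ring
  have b01 : ∀ (Ψ : ℕ → Finset G), (∀ N, Ψ N ⊆ Φ N) → ∀ (f : G → ℝ) (K : ℝ), 0 ≤ K →
      (∀ x, 0 ≤ f x) → (∀ x, f x ≤ K) →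
      ∃ t, Tendsto (fun N => (∑ x ∈ Ψ N, f x) / (Φ N).card) 𝒰 (𝓝 t) := by
    intro Ψ hΨ f K hK hf0 hfK
    refine ⟨_, tendsto_ulim 𝒰 _ (Bdd.of_mem 0 K fun N => ⟨?_, ?_⟩)⟩
    · exact div_nonneg (Finset.sum_nonneg fun x _ => hf0 x) (Nat.cast_nonneg _)
    · rcases (Nat.cast_nonneg (Φ N).card : (0 : ℝ) ≤ _).lt_or_eq with h | h
      · rw [div_le_iff₀ h]
        calc ∑ x ∈ Ψ N, f x ≤ ∑ _x ∈ Ψ N, K := Finset.sum_le_sum fun x _ => hfK x
          _ = K * (Ψ N).card := by rw [Finset.sum_const, nsmul_eq_mul, mul_comm]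
          _ ≤ K * (Φ N).card := by
              apply mul_le_mul_of_nonneg_left _ hK
              exact_mod_cast Finset.card_le_card (hΨ N)
      · rw [← h, div_zero]
        exact hK
  have hs3 : ∀ N, F3 (Φ N) ⊆ Φ N := fun N => Finset.filter_subset _ _
  have hs2 : ∀ N, F2 (Φ N) ⊆ Φ N := fun N => Finset.filter_subset _ _
  obtain ⟨p3, hp3'⟩ := b01 _ hs3 (fun _ => 1) 1 zero_le_one (fun _ => zero_le_one) (fun _ => le_rfl)
  obtain ⟨p2, hp2'⟩ := b01 _ hs2 (fun _ => 1) 1 zero_le_one (fun _ => zero_le_one) (fun _ => le_rfl)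
  have hp3 : Tendsto (fun N => ((F3 (Φ N)).card : ℝ) / (Φ N).card) 𝒰 (𝓝 p3) := by
    simpa using hp3'
  have hp2 : Tendsto (fun N => ((F2 (Φ N)).card : ℝ) / (Φ N).card) 𝒰 (𝓝 p2) := by
    simpa using hp2'
  have i0 : ∀ (C : Set G) x, 0 ≤ C.indicator (1 : G → ℝ) x := fun C x =>
    Set.indicator_nonneg (fun _ _ => zero_le_one) _
  have i1 : ∀ (C : Set G) x, C.indicator (1 : G → ℝ) x ≤ 1 := fun C x => by
    by_cases hx : x ∈ C <;> simp [hx]
  obtain ⟨t3, ht3⟩ := b01 _ hs3 (A.indicator 1) 1 zero_le_one (i0 A) (i1 A)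
  obtain ⟨t2, ht2⟩ := b01 _ hs2 (fun x => A.indicator (1 : G → ℝ) x + A.indicator (1 : G → ℝ) (x ^ 2))
    2 zero_le_two (fun x => add_nonneg (i0 A _) (i0 A _)) (fun x => by
      have := i1 A x
      have := i1 A (x ^ 2)
      linarith)
  -- small boundary
  have sq : ∀ (a : ℕ → ℕ) (g1 g2 g3 : G), (∀ N, a N ≤ df (Φ N) g1 + df (Φ N) g2 + df (Φ N) g3) →
      Tendsto (fun N => (a N : ℝ) / (Φ N).card) 𝒰 (𝓝 0) := by
    intro a g1 g2 g3 ha
    have h1 := ((hdf g1).add (hdf g2)).add (hdf g3)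
    rw [add_zero, add_zero] at h1
    refine squeeze_zero (fun N => by positivity) (fun N => ?_) h1
    rw [← add_div, ← add_div]
    apply div_le_div_of_nonneg_right _ (Nat.cast_nonneg _)
    exact_mod_cast ha N
  have hb3 : t3 ≤ 1 / 3 * p3 := by
    refine limit_bound 𝒰 Φ (fun N => F3 (Φ N)) p3 t3 hp3
      (fun g => sq _ _ _ _ (fun N => df_F3 h8 (Φ N) g)) (A.indicator 1) 1 (i0 A) (i1 A) ht3 (1 / 3)
      (fun m hm => ?_)
    have hu := ub3 m h7 A hno
    have e1 : m.M ((half A).indicator 1) = m.M (A.indicator 1) := by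
      refine tendsto_nhds_unique (hm _ (bdd_indicator _)) ?_
      refine (hm _ (bdd_indicator A)).congr (fun N => ?_)
      unfold avg
      rw [← sum_F3_sq h8 (Φ N) (A.indicator 1)]
      rfl
    have e2 : m.M ((half (half A)).indicator 1) = m.M ((half A).indicator 1) := by
      refine tendsto_nhds_unique (hm _ (bdd_indicator _)) ?_
      refine (hm _ (bdd_indicator (half A))).congr (fun N => ?_)
      unfold avg
      rw [← sum_F3_sq h8 (Φ N) ((half A).indicator 1)]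
      rfl
    rw [e2, e1] at hu
    linarith
  have hb2 : t2 ≤ 1 * p2 := by
    refine limit_bound 𝒰 Φ (fun N => F2 (Φ N)) p2 t2 hp2
      (fun g => sq _ _ _ _ (fun N => df_F2 h8 (Φ N) g)) _ 2 (fun x => add_nonneg (i0 A _) (i0 A _))
      (fun x => by
        have := i1 A x
        have := i1 A (x ^ 2)
        linarith) ht2 1 (fun m _ => ?_)
    have hu := ub3 m h7 A hno
    have h3 := m.nonneg (bdd_indicator (half (half A))) (i0 _)
    have h4 := m.add' _ _ (bdd_indicator A) (bdd_indicator (half A))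
    have h5 : m.M (fun x => A.indicator (1 : G → ℝ) x + A.indicator (1 : G → ℝ) (x ^ 2)) =
        m.M (A.indicator 1) + m.M ((half A).indicator 1) := by
      rw [← h4]
      rfl
    rw [h5]
    linarith
  have hαeq : α = p3 + p2 := by
    refine tendsto_nhds_unique hα ?_
    refine (hp3.add hp2).congr (fun N => ?_)
    rw [card_sq h8, Nat.cast_add, add_div]
  have hp20 : 0 ≤ p2 := ge_of_tendsto' hp2 (fun N => by positivity)
  have hfin : d + p3 + 2 * p2 ≤ 1 + t3 + t2 := by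
    have l1 := (hd.add hp3).add (hp2.const_mul 2)
    have l2 : Tendsto (fun N => (1 : ℝ) + (∑ x ∈ F3 (Φ N), A.indicator (1 : G → ℝ) x) / (Φ N).card +
      (∑ x ∈ F2 (Φ N), (A.indicator (1 : G → ℝ) x + A.indicator (1 : G → ℝ) (x ^ 2))) /
        (Φ N).card) 𝒰 (𝓝 (1 + t3 + t2)) := (ht3.const_add 1).add ht2
    refine le_of_tendsto_of_tendsto l1 l2 ?_
    filter_upwards [hne] with N hN
    have hc := count h8 (Φ N) A
    have e : (1 : ℝ) = ((Φ N).card : ℝ) / (Φ N).card := (div_self hN.ne').symm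
    rw [mul_div_assoc', ← add_div, ← add_div]
    nth_rewrite 1 [e]
    rw [← add_div, ← add_div]
    exact div_le_div_of_nonneg_right hc (Nat.cast_nonneg _)
  rw [hαeq]
  linarith

end Pool.Agent.N477
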