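import Mathlib
import Pool.Agent.N477.PT

set_option autoImplicit false
set_option linter.unusedSectionVars false

open Filter Topology MeasureTheory
open Pool.Agent.TH396.PS
open scoped ENNReal

namespace Pool.Agent.N477

namespace PT

variable {G : Type*} [CommGroup G] {n : ℕ} (T : PT G n) (m : Mean G)

/-- `p ↦ p^n r` on ultrafilters -/
def pw (n : ℕ) (r : G) (p : Ultrafilter G) : Ultrafilter G := p.map (fun x => x ^ n * r)

/-- translation on ultrafilters -/
def tr (a : G) (p : Ultrafilter G) : Ultrafilter G := p.map (fun x => a * x)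

theorem pw_meas (n : ℕ) (r : G) : Measurable (pw n r) := (continuous_umap _).measurable

theorem tr_meas (a : G) : Measurable (tr a) := (continuous_umap _).measurable

/-- averaged image measure -/
noncomputable def nu : Measure (Ultrafilter G) :=
  (T.R.card : ℝ≥0∞)⁻¹ • ∑ r ∈ T.R, (mu m).map (pw n r)

theorem nu_apply {s : Set (Ultrafilter G)} (hs : MeasurableSet s) :
    T.nu m s = (T.R.card : ℝ≥0∞)⁻¹ * ∑ r ∈ T.R, (mu m) (pw n r ⁻¹' s) := by
  unfold nu
  rw [Measure.smul_apply, Measure.finset_sum_apply, smul_eq_mul]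
  congr 1
  exact Finset.sum_congr rfl fun r _ => Measure.map_apply (pw_meas n r) hs

theorem card_ne : (T.R.card : ℝ≥0∞) ≠ 0 := by exact_mod_cast T.card_pos.ne'

instance : IsProbabilityMeasure (T.nu m) := by
  constructor
  rw [T.nu_apply m MeasurableSet.univ]
  simp only [Set.preimage_univ, measure_univ, Finset.sum_const, nsmul_eq_mul, mul_one]
  exact ENNReal.inv_mul_cancel T.card_ne (ENNReal.natCast_ne_top _)

theorem tr_pw (a r : G) (p : Ultrafilter G) :
    tr a (pw n r p) = pw n (T.rm (a * r)) (uhomeo (Equiv.mulRight (T.rt (a * r))) p) := by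
  unfold tr pw
  rw [uhomeo_apply, Ultrafilter.map_map, Ultrafilter.map_map]
  congr 1
  funext x
  show a * (x ^ n * r) = (x * T.rt (a * r)) ^ n * T.rm (a * r)
  exact T.mul_root a x r

theorem mp_nu (a : G) : MeasurePreserving (tr a) (T.nu m) (T.nu m) := by
  refine ⟨tr_meas a, ?_⟩
  ext s hs
  rw [Measure.map_apply (tr_meas a) hs, T.nu_apply m (tr_meas a hs), T.nu_apply m hs]
  congr 1
  rw [← T.sum_rm a (fun r => (mu m) (pw n r ⁻¹' s))]
  refine Finset.sum_congr rfl fun r _ => ?_
  have h1 : pw n r ⁻¹' (tr a ⁻¹' s) =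
      (uhomeo (Equiv.mulRight (T.rt (a * r)))) ⁻¹' (pw n (T.rm (a * r)) ⁻¹' s) := by
    ext p
    simp only [Set.mem_preimage]
    rw [T.tr_pw]
  rw [h1]
  exact (mp_right m (T.rt (a * r))).measure_preimage (pw_meas n _ hs).nullMeasurableSet

theorem map_one_ac : (mu m).map (pw n (1 : G)) ≪ T.nu m := by
  refine Measure.AbsolutelyContinuous.mk fun s hs h => ?_
  rw [T.nu_apply m hs, mul_eq_zero] at h
  rw [Measure.map_apply (pw_meas n 1) hs]
  rcases h with h | h
  · exact absurd h (ENNReal.inv_ne_zero.mpr (ENNReal.natCast_ne_top _))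
  · rw [Finset.sum_eq_zero_iff] at h
    exact h 1 T.one_mem

theorem integral_nu {F : Ultrafilter G → ℝ} (hF : BM F) :
    ∫ u, F u ∂(T.nu m) = (T.R.card : ℝ)⁻¹ * ∑ r ∈ T.R, ∫ p, F (pw n r p) ∂(mu m) := by
  unfold nu
  rw [integral_smul_measure, integral_finset_sum_measure, smul_eq_mul]
  · congr 1
    · simp
    · refine Finset.sum_congr rfl fun r _ => ?_
      exact integral_map (pw_meas n r).aemeasurable hF.meas.aestronglyMeasurable
  · intro r _
    have : IsProbabilityMeasure ((mu m).map (pw n r)) :=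
      Measure.isProbabilityMeasure_map (pw_meas n r).aemeasurable
    exact hF.integrable _

/-- action by powers -/
noncomputable def actN (s : ℕ) : MPAct G (T.nu m) where
  τ b := tr (b ^ s)
  mp b := T.mp_nu m (b ^ s)
  mulc b c := c * b
  comp b c := by
    funext p
    show (p.map (fun x => b ^ s * x)).map (fun x => c ^ s * x) = p.map (fun x => (c * b) ^ s * x)
    rw [Ultrafilter.map_map]
    congr 1
    funext x
    simp [mul_assoc, mul_pow]
  one := by
    funext p
    show p.map (fun x => 1 ^ s * x) = p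
    simp only [one_pow, one_mul]
    exact p.map_id'
  hmul := Or.inr fun _ _ => rfl

/-- transport of functions from `p` to `p^n` -/
noncomputable def lift (φ : Ultrafilter G → ℝ) (u : Ultrafilter G) : ℝ :=
  T.R.card * ({u : Ultrafilter G | {v | T.rm v = 1} ∈ u}.indicator 1 u * φ (u.map T.rt))

theorem lift_BM {φ : Ultrafilter G → ℝ} (hφ : BM φ) : BM (T.lift φ) :=
  (BM.const _).mul ((BM.ind (meas_basic _)).mul (hφ.comp (continuous_umap _).measurable))

theorem lift_bound {φ : Ultrafilter G → ℝ} {K : ℝ} (hK : 0 ≤ K) (h : ∀ p, |φ p| ≤ K)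
    (u : Ultrafilter G) : |T.lift φ u| ≤ T.R.card * K := by
  unfold lift
  rw [abs_mul, abs_of_nonneg T.card_pos'.le]
  apply mul_le_mul_of_nonneg_left _ T.card_pos'.le
  by_cases hu : u ∈ {u : Ultrafilter G | {v | T.rm v = 1} ∈ u}
  · rw [Set.indicator_of_mem hu, Pi.one_apply, one_mul]; exact h _
  · rw [Set.indicator_of_notMem hu, zero_mul, abs_zero]; exact hK

theorem lift_pw_one (φ : Ultrafilter G → ℝ) (p : Ultrafilter G) :
    T.lift φ (pw n 1 p) = T.R.card * φ p := by
  unfold lift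
  have h1 : pw n 1 p ∈ {u : Ultrafilter G | {v | T.rm v = 1} ∈ u} := by
    show {v | T.rm v = 1} ∈ p.map (fun x => x ^ n * 1)
    rw [Ultrafilter.mem_map]
    have : (fun x => x ^ n * 1) ⁻¹' {v | T.rm v = 1} = Set.univ := by
      ext x
      simp only [Set.mem_preimage, Set.mem_ofPred_eq, Set.mem_univ, iff_true]
      exact T.rm_eq x 1 T.one_mem
    rw [this]
    exact Filter.univ_mem
  have h2 : (pw n 1 p).map T.rt = p := by
    unfold pw
    rw [Ultrafilter.map_map]
    have : T.rt ∘ (fun x => x ^ n * 1) = id := by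
      funext x
      exact T.rt_eq x 1 T.one_mem
    rw [this]
    exact p.map_id
  rw [Set.indicator_of_mem h1, Pi.one_apply, one_mul, h2]

theorem lift_pw_ne (φ : Ultrafilter G → ℝ) (p : Ultrafilter G) (r : G) (hr : r ∈ T.R)
    (hr1 : r ≠ 1) : T.lift φ (pw n r p) = 0 := by
  unfold lift
  have h1 : pw n r p ∉ {u : Ultrafilter G | {v | T.rm v = 1} ∈ u} := by
    show ¬ ({v | T.rm v = 1} ∈ p.map (fun x => x ^ n * r))
    rw [Ultrafilter.mem_map]
    have : (fun x => x ^ n * r) ⁻¹' {v | T.rm v = 1} = ∅ := by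
      ext x
      simp only [Set.mem_preimage, Set.mem_ofPred_eq, Set.mem_empty_iff_false, iff_false]
      rw [T.rm_eq x r hr]
      exact hr1
    rw [this]
    exact p.empty_notMem
  rw [Set.indicator_of_notMem h1, zero_mul, mul_zero]

theorem integral_lift {φ F : Ultrafilter G → ℝ} (hφ : BM φ) (hF : BM F) :
    ∫ u, T.lift φ u * F u ∂(T.nu m) = ∫ p, φ p * F (pw n 1 p) ∂(mu m) := by
  rw [T.integral_nu m ((T.lift_BM hφ).mul hF)]
  rw [Finset.sum_eq_single 1]
  · have : ∀ p, T.lift φ (pw n 1 p) * F (pw n 1 p) = T.R.card * (φ p * F (pw n 1 p)) := by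
      intro p
      rw [T.lift_pw_one, mul_assoc]
    simp_rw [this]
    rw [integral_const_mul, ← mul_assoc, inv_mul_cancel₀ T.card_pos'.ne', one_mul]
  · intro r hr hr1
    have : ∀ p, T.lift φ (pw n r p) * F (pw n r p) = 0 := by
      intro p
      rw [T.lift_pw_ne φ p r hr hr1, zero_mul]
    simp_rw [this]
    simp
  · intro h
    exact absurd T.one_mem h

/-- domination -/
theorem integral_pw_le {F : Ultrafilter G → ℝ} (hF : BM F) (h0 : ∀ u, 0 ≤ F u) :
    ∫ p, F (pw n 1 p) ∂(mu m) ≤ T.R.card * ∫ u, F u ∂(T.nu m) := by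
  rw [T.integral_nu m hF, ← mul_assoc, mul_inv_cancel₀ T.card_pos'.ne', one_mul]
  exact Finset.single_le_sum (s := T.R) (f := fun r => ∫ p, F (pw n r p) ∂(mu m))
    (fun r _ => integral_nonneg fun p => h0 _) T.one_mem

end PT

/-- scaling of a metric -/
def BIM.scale {G : Type*} [Group G] (D : BIM G) (c : ℝ) (hc : 0 ≤ c) : BIM G where
  d x y := c * D.d x y
  self x := by rw [D.self, mul_zero]
  symm x y := by rw [D.symm]
  tri x y z := by rw [← mul_add]; exact mul_le_mul_of_nonneg_left (D.tri x y z) hc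
  left a x y := by rw [D.left]
  right a x y := by rw [D.right]
  tb := D.tb.mono c hc (fun _ _ => le_rfl)

/-- data for a side on `ν`, for a given metric -/
structure QSide {G : Type*} [CommGroup G] {n : ℕ} (T : PT G n) (m : Mean G) (s : ℕ)
    (C : Set (Ultrafilter G)) (D : BIM G) where
  q : Ultrafilter G → ℝ
  hq : BM q
  q01 : ∀ p, 0 ≤ q p ∧ q p ≤ 1
  int : ∫ u, q u ∂(T.nu m) = (T.nu m).real C
  wm : ∀ φ : Ultrafilter G → ℝ, BM φ →
    m.M (fun b => |∫ u, φ u * (C.indicator 1 (PT.tr (b ^ s) u) - q (PT.tr (b ^ s) u)) ∂(T.nu m)|) = 0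
  lip : ∀ φ : Ultrafilter G → ℝ, BM φ → ∀ K : ℝ, 0 ≤ K → (∀ p, |φ p| ≤ K) → ∀ b c : G,
    |∫ u, φ u * (q (PT.tr (b ^ s) u) - q (PT.tr (c ^ s) u)) ∂(T.nu m)| ≤ K * D.d b c

namespace QSide

variable {G : Type*} [CommGroup G] {n : ℕ} {T : PT G n} {m : Mean G} {s : ℕ}
  {C : Set (Ultrafilter G)} {D : BIM G}

theorem exists_qside (T : PT G n) (m : Mean G) (s : ℕ) (C : Set (Ultrafilter G))
    (hC : MeasurableSet C) : ∃ D : BIM G, Nonempty (QSide T m s C D) := by
  obtain ⟨q, hq, q01, hqi, hqc, hqw⟩ := (T.actN m s).compact_part m C hC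
  refine ⟨(T.actN m s).act.bim _ hqc, ⟨⟨q, hq, q01, hqi, hqw, ?_⟩⟩⟩
  intro φ hφ K hK0 hK b c
  have h1 : ∫ p, φ p * (q (PT.tr (b ^ s) p) - q (PT.tr (c ^ s) p)) ∂(T.nu m) =
      inner ℝ (toL (T.nu m) hφ) ((T.actN m s).act.U b (toL (T.nu m) hq) -
        (T.actN m s).act.U c (toL (T.nu m) hq)) := by
    rw [MPAct.U_toL, MPAct.U_toL, toL_sub, inner_toL]
    rfl
  rw [h1]
  refine (abs_real_inner_le_norm _ _).trans ?_
  apply mul_le_mul (norm_toL_le (T.nu m) hφ hK hK0) _ (norm_nonneg _) hK0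
  exact (T.actN m s).act.le_dist' _ b c

/-- change of metric -/
def mono (S : QSide T m s C D) {D' : BIM G} (h : ∀ x y, D.d x y ≤ D'.d x y) :
    QSide T m s C D' where
  q := S.q
  hq := S.hq
  q01 := S.q01
  int := S.int
  wm := S.wm
  lip φ hφ K hK0 hK b c := (S.lip φ hφ K hK0 hK b c).trans
    (mul_le_mul_of_nonneg_left (h b c) hK0)

/-- the associated abstract side -/
noncomputable def toASide (S : QSide T m s C D) (hC : MeasurableSet C) (D' : BIM G)
    (hD : ∀ x y, T.R.card * D.d x y ≤ D'.d x y) : ASide m D' where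
  C b p := C.indicator 1 (PT.tr (b ^ s) (PT.pw n 1 p))
  hC b := ((BM.ind hC).comp (PT.tr_meas (b ^ s))).comp (PT.pw_meas n 1)
  C01 b p := by
    by_cases h : PT.tr (b ^ s) (PT.pw n 1 p) ∈ C <;> simp [h]
  q b p := S.q (PT.tr (b ^ s) (PT.pw n 1 p))
  hq b := (S.hq.comp (PT.tr_meas (b ^ s))).comp (PT.pw_meas n 1)
  q01 b p := S.q01 _
  wm φ hφ := by
    have h := S.wm (T.lift φ) (T.lift_BM hφ)
    rw [← h]
    congr 1
    funext b
    congr 1
    have hF : BM (fun u => C.indicator 1 (PT.tr (b ^ s) u) - S.q (PT.tr (b ^ s) u)) :=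
      ((BM.ind hC).comp (PT.tr_meas (b ^ s))).sub (S.hq.comp (PT.tr_meas (b ^ s)))
    exact (T.integral_lift m hφ hF).symm
  lip φ hφ K hK0 hK b c := by
    have hF : BM (fun u => S.q (PT.tr (b ^ s) u) - S.q (PT.tr (c ^ s) u)) :=
      (S.hq.comp (PT.tr_meas (b ^ s))).sub (S.hq.comp (PT.tr_meas (c ^ s)))
    have h1 := T.integral_lift m hφ hF
    rw [← h1]
    refine (S.lip (T.lift φ) (T.lift_BM hφ) (T.R.card * K) (mul_nonneg T.card_pos'.le hK0)
      (T.lift_bound hK0 hK) b c).trans ?_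
    have h2 := mul_le_mul_of_nonneg_left (hD b c) hK0
    calc T.R.card * K * D.d b c = K * (T.R.card * D.d b c) := by ring
      _ ≤ _ := h2

/-- the averaged bound for the compact part -/
theorem avg_bound (S : QSide T m s C D) (T' : PT G (n + s)) {D' : BIM G} {r : ℝ}
    (k : Kern m D' r) :
    m.M (fun c => ∫ p, S.q (PT.tr (c ^ s) (PT.pw n 1 p)) * k.W c p ∂(mu m)) ≤
      T'.R.card * (T.nu m).real C := by
  set h : G → G → ℝ := fun c v => T.wt k.w (v * (c ^ (n + s))⁻¹) with hh
  have hb : ∀ c, Bdd (h c) := fun c => (T.wt_bdd k.bdd).comp _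
  have hnn : ∀ c v, 0 ≤ h c v := fun c v => T.wt_nonneg k.nonneg _
  have hHBM : ∀ c, BM (ext (h c)) := fun c => ext_BM (hb c)
  have hH0 : ∀ c u, 0 ≤ ext (h c) u := fun c u => ext_nonneg (hb c) (hnn c) u
  have hqH : ∀ c, BM (fun u => S.q u * ext (h c) u) := fun c => S.hq.mul (hHBM c)
  have hW : ∀ c p, ext (h c) (PT.tr (c ^ s) (PT.pw n 1 p)) = k.W c p := by
    intro c p
    unfold PT.tr PT.pw Kern.W
    rw [ext_map, ext_map]
    congr 1
    funext x
    simp only [hh]
    have : c ^ s * (x ^ n * 1) * (c ^ (n + s))⁻¹ = (c⁻¹ * x) ^ n := by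
      rw [mul_one, pow_add, mul_pow, inv_pow, mul_inv]
      calc c ^ s * x ^ n * ((c ^ n)⁻¹ * (c ^ s)⁻¹) = (c ^ s * (c ^ s)⁻¹) * ((c ^ n)⁻¹ * x ^ n) := by
            simp only [mul_comm, mul_left_comm, mul_assoc]
        _ = _ := by rw [mul_inv_cancel, one_mul]
    rw [this, T.wt_pow]
  set F : G → ℝ := fun c => ∫ u, S.q u * ext (h c) u ∂(T.nu m) with hF
  have hF0 : ∀ c, 0 ≤ F c := fun c => integral_nonneg fun u => mul_nonneg (S.q01 u).1 (hH0 c u)
  have hhle : ∀ c v, h c v ≤ k.B := by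
    intro c v
    simp only [hh]
    unfold PT.wt
    split_ifs
    · exact k.le _
    · exact k.Bnn
  have hHle : ∀ c u, ext (h c) u ≤ k.B := by
    intro c u
    have := ext_mono (hb c) (Bdd.const k.B) (hhle c) u
    rwa [ext_const] at this
  have hFb : Bdd F := by
    refine Bdd.of_mem 0 k.B (fun c => ⟨hF0 c, ?_⟩)
    calc F c ≤ ∫ u, k.B ∂(T.nu m) := by
          apply integral_mono ((hqH c).integrable _) (integrable_const _)
          intro u
          show S.q u * ext (h c) u ≤ k.B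
          calc S.q u * ext (h c) u ≤ 1 * k.B :=
                mul_le_mul (S.q01 u).2 (hHle c u) (hH0 c u) zero_le_one
            _ = k.B := one_mul _
      _ = k.B := by simp
  -- step 1
  have hstep : ∀ c, ∫ p, S.q (PT.tr (c ^ s) (PT.pw n 1 p)) * k.W c p ∂(mu m) ≤
      T.R.card * F c := by
    intro c
    have h1 : ∀ p, S.q (PT.tr (c ^ s) (PT.pw n 1 p)) * k.W c p =
        (fun u => S.q (PT.tr (c ^ s) u) * ext (h c) (PT.tr (c ^ s) u)) (PT.pw n 1 p) := by
      intro p
      beta_reduce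
      rw [hW]
    simp_rw [h1]
    have hBM : BM (fun u => S.q (PT.tr (c ^ s) u) * ext (h c) (PT.tr (c ^ s) u)) :=
      (hqH c).comp (PT.tr_meas (c ^ s))
    refine (T.integral_pw_le m hBM (fun u => mul_nonneg (S.q01 _).1 (hH0 c _))).trans ?_
    apply mul_le_mul_of_nonneg_left _ T.card_pos'.le
    have h2 := T.mp_nu m (c ^ s)
    have h3 := integral_map (μ := T.nu m) h2.measurable.aemeasurable
      (f := fun u => S.q u * ext (h c) u) ((hqH c).meas.aestronglyMeasurable)
    rw [h2.map_eq] at h3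
    exact h3.symm.le
  have hlb : Bdd (fun c => ∫ p, S.q (PT.tr (c ^ s) (PT.pw n 1 p)) * k.W c p ∂(mu m)) := by
    refine Bdd.of_le (hFb.smul T.R.card) (fun c => ?_)
    rw [abs_of_nonneg (integral_nonneg fun p => mul_nonneg (S.q01 _).1 (k.W_nonneg c p))]
    exact hstep c
  have h5 : m.M (fun c => ∫ p, S.q (PT.tr (c ^ s) (PT.pw n 1 p)) * k.W c p ∂(mu m)) ≤
      T.R.card * m.M F := by
    rw [← m.smul' _ _ hFb]
    exact m.mono' _ _ hlb (hFb.smul _) hstep
  refine h5.trans ?_
  -- step 2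
  have hI : ∫ u, S.q u ∂(T.nu m) = (T.nu m).real C := S.int
  have hI0 : 0 ≤ (T.nu m).real C := measureReal_nonneg
  have hI1 : (T.nu m).real C ≤ 1 := measureReal_le_one
  have key : ∀ η > 0, m.M F ≤ (T'.R.card * (T.R.card : ℝ)⁻¹) * (T.nu m).real C + 2 * η := by
    intro η hη
    obtain ⟨Q, hQ, h1, h2⟩ := T.exists_uniform k T' {F} (Set.finite_singleton _)
      (by rintro f rfl; exact hFb) η hη
    have h3 := h1 F rfl
    have h4 : avg Q F = ∫ u, S.q u * avg Q (fun c => ext (h c) u) ∂(T.nu m) := by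
      unfold avg
      rw [← integral_finsetSum _ (fun c _ => (hqH c).integrable _), ← integral_div]
      congr 1
      funext u
      rw [← Finset.mul_sum, mul_div_assoc]
    have h6 : ∀ u, avg Q (fun c => ext (h c) u) ≤ T'.R.card * (T.R.card : ℝ)⁻¹ + η := by
      intro u
      have e1 : avg Q (fun c => ext (h c) u) = ext (fun v => avg Q (fun c => h c v)) u := by
        symm
        apply ext_eq
        unfold avg
        apply Tendsto.div_const
        apply tendsto_finsetSum
        intro c _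
        exact tendsto_ext (hb c) u
      have e2 : Bdd (fun v => avg Q (fun c => h c v)) := by
        refine ⟨k.B, fun v => abs_avg_le _ (fun c => ?_) k.Bnn⟩
        rw [abs_of_nonneg (hnn c v)]
        exact hhle c v
      have := ext_mono e2 (Bdd.const _) h2 u
      rw [ext_const] at this
      rw [e1]
      exact this
    have h7 : avg Q F ≤ (T'.R.card * (T.R.card : ℝ)⁻¹ + η) * (T.nu m).real C := by
      rw [h4, ← hI, ← integral_const_mul]
      have hintA : Integrable (fun u => S.q u * avg Q (fun c => ext (h c) u)) (T.nu m) := by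
        have : (fun u => S.q u * avg Q (fun c => ext (h c) u)) =
            fun u => (∑ c ∈ Q, S.q u * ext (h c) u) / Q.card := by
          funext u
          unfold avg
          rw [← Finset.mul_sum, mul_div_assoc]
        rw [this]
        exact (integrable_finsetSum _ (fun c _ => (hqH c).integrable _)).div_const _
      apply integral_mono hintA ((S.hq.integrable _).const_mul _)
      intro u
      show S.q u * avg Q (fun c => ext (h c) u) ≤ (T'.R.card * (T.R.card : ℝ)⁻¹ + η) * S.q u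
      rw [mul_comm]
      exact mul_le_mul_of_nonneg_right (h6 u) (S.q01 u).1
    have h8 := (abs_le.mp h3).1
    have h9 : η * (T.nu m).real C ≤ η * 1 := mul_le_mul_of_nonneg_left hI1 hη.le
    linarith [add_mul (T'.R.card * (T.R.card : ℝ)⁻¹) η ((T.nu m).real C)]
  have h10 : m.M F ≤ (T'.R.card * (T.R.card : ℝ)⁻¹) * (T.nu m).real C := by
    apply le_of_forall_pos_le_add
    intro ε hε
    have := key (ε / 2) (by positivity)
    linarith
  calc T.R.card * m.M F ≤ T.R.card * ((T'.R.card * (T.R.card : ℝ)⁻¹) * (T.nu m).real C) :=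
        mul_le_mul_of_nonneg_left h10 T.card_pos'.le
    _ = T'.R.card * (T.nu m).real C := by
        have := T.card_pos'.ne'
        field_simp

end QSide

end Pool.Agent.N477
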