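import Mathlib
import Pool.Agent.N477.Nu

set_option autoImplicit false
set_option linter.unusedSectionVars false

open Filter Topology MeasureTheory
open Pool.Agent.TH396.PS
open scoped ENNReal

namespace Pool.Agent.N477

variable {G : Type*} [CommGroup G] {n : ℕ} (T : PT G n) (m : Mean G)

/-- averages of `ψ` along powers of `g` -/
noncomputable def Av (g : G) (ψ : G → ℝ) (N : ℕ) (x : G) : ℝ :=
  (N : ℝ)⁻¹ * ∑ s ∈ Finset.range N, ψ (g ^ s * x)

theorem Av_bdd (g : G) {ψ : G → ℝ} (hψ : Bdd ψ) (N : ℕ) : Bdd (Av g ψ N) :=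
  Bdd.smul _ (Bdd.sum _ fun s _ => hψ.comp _)

theorem Av_mem (g : G) {ψ : G → ℝ} {C : ℝ} (h : ∀ x, 0 ≤ ψ x ∧ ψ x ≤ C) (N : ℕ) (x : G) :
    0 ≤ Av g ψ N x ∧ Av g ψ N x ≤ C := by
  have hC : 0 ≤ C := (h 1).1.trans (h 1).2
  unfold Av
  constructor
  · exact mul_nonneg (inv_nonneg.mpr (Nat.cast_nonneg _)) (Finset.sum_nonneg fun s _ => (h _).1)
  · rcases Nat.eq_zero_or_pos N with rfl | hN
    · simpa using hC
    · have hN' : (0 : ℝ) < N := by exact_mod_cast hN
      rw [inv_mul_le_iff₀ hN']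
      calc ∑ s ∈ Finset.range N, ψ (g ^ s * x) ≤ ∑ _s ∈ Finset.range N, C :=
            Finset.sum_le_sum fun s _ => (h _).2
        _ = N * C := by simp

theorem exists_erg0 (g : G) (hg : ∀ a : G, a ∈ Subgroup.zpowers g) (ψ : G → ℝ) (hψ : Bdd ψ) :
    ∃ ξ : Lp ℝ 2 (T.nu m), (∀ a, (T.actN m 1).act.U a ξ = ξ) ∧
      TendstoInMeasure (T.nu m) (fun N : ℕ => ext (Av g ψ N)) atTop ξ := by
  set A := (T.actN m 1).act with hA
  set U : Lp ℝ 2 (T.nu m) →L[ℝ] Lp ℝ 2 (T.nu m) := (A.U g).toContinuousLinearMap with hU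
  have hUn : ‖U‖ ≤ 1 := LinearIsometry.norm_toContinuousLinearMap_le _
  have hUa : ∀ x, U x = A.U g x := fun x => rfl
  set f0 := toL (T.nu m) (ext_BM hψ) with hf0
  have hlim := ContinuousLinearMap.tendsto_birkhoffAverage_orthogonalProjection U hUn f0
  set K := (U.eqLocus (1 : Lp ℝ 2 (T.nu m) →L[ℝ] Lp ℝ 2 (T.nu m))) with hK
  set ξ : Lp ℝ 2 (T.nu m) := ((K.orthogonalProjectionOnto f0 : K) : Lp ℝ 2 (T.nu m)) with hξ
  have hfix : A.U g ξ = ξ := by
    have h1 : ξ ∈ K := (K.orthogonalProjectionOnto f0).2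
    exact h1
  have hmulc : ∀ b c : G, A.mulc b c = c * b := fun b c => rfl
  -- invariance under all
  let H : Subgroup G :=
    { carrier := {a | A.U a ξ = ξ}
      one_mem' := A.one ξ
      mul_mem' := by
        intro a b ha hb
        show A.U (a * b) ξ = ξ
        have h1 : A.U b (A.U a ξ) = A.U (A.mulc b a) ξ := A.comp b a ξ
        rw [hmulc] at h1
        rw [← h1]
        have ha' : A.U a ξ = ξ := ha
        have hb' : A.U b ξ = ξ := hb
        rw [ha', hb']
      inv_mem' := by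
        intro a ha
        show A.U a⁻¹ ξ = ξ
        have ha' : A.U a ξ = ξ := ha
        have h1 : A.U a⁻¹ (A.U a ξ) = A.U (A.mulc a⁻¹ a) ξ := A.comp a⁻¹ a ξ
        rw [hmulc, mul_inv_cancel, A.one, ha'] at h1
        exact h1 }
  have hH : ∀ a, A.U a ξ = ξ := by
    intro a
    have h1 : Subgroup.zpowers g ≤ H := by
      rw [Subgroup.zpowers_le]
      exact hfix
    exact h1 (hg a)
  refine ⟨ξ, hH, ?_⟩
  have h2 := tendstoInMeasure_of_tendsto_Lp hlim
  have hiter : ∀ s : ℕ, (U^[s]) f0 = toL (T.nu m) (ext_BM (hψ.comp (fun x => g ^ s * x))) := by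
    intro s
    induction s with
    | zero =>
      rw [Function.iterate_zero, id]
      apply toL_congr
      congr 1
      funext x
      simp
    | succ s ih =>
      rw [Function.iterate_succ_apply', ih, hUa, hA, MPAct.U_toL]
      apply toL_congr
      funext u
      show ext (fun x => ψ (g ^ s * x)) (u.map (fun x => g ^ 1 * x)) = _
      rw [ext_map]
      congr 1
      funext x
      rw [pow_one, ← mul_assoc, ← pow_succ]
  have hav : ∀ N : ℕ, birkhoffAverage ℝ U id N f0 = toL (T.nu m) (ext_BM (Av_bdd g hψ N)) := by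
    intro N
    have hs : ∀ N : ℕ, ∑ s ∈ Finset.range N, toL (T.nu m) (ext_BM (hψ.comp (fun x => g ^ s * x))) =
        toL (T.nu m) (ext_BM (Bdd.sum (Finset.range N)
          (f := fun s x => ψ (g ^ s * x)) (fun s _ => hψ.comp (fun x => g ^ s * x)))) := by
      intro N
      induction N with
      | zero =>
        rw [Finset.sum_range_zero]
        have h1 : toL (T.nu m) (ext_BM (Bdd.sum (Finset.range 0)
          (f := fun s x => ψ (g ^ s * x)) (fun s _ => hψ.comp (fun x => g ^ s * x)))) =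
          toL (T.nu m) (BM.const 0) := by
          apply toL_congr
          funext p
          have : (fun x => ∑ i ∈ Finset.range 0, ψ (g ^ i * x)) = fun _ : G => (0 : ℝ) := by
            funext x; simp
          rw [this]
          exact ext_const 0 p
        rw [h1]
        rfl
      | succ N ih =>
        rw [Finset.sum_range_succ, ih, toL_add]
        apply toL_congr
        funext p
        rw [← ext_add (Bdd.sum (Finset.range N)
          (f := fun s x => ψ (g ^ s * x)) (fun s _ => hψ.comp (fun x => g ^ s * x)))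
          (hψ.comp (fun x => g ^ N * x))]
        congr 1
        funext x
        rw [Finset.sum_range_succ]
    unfold birkhoffAverage birkhoffSum
    simp only [id]
    rw [Finset.sum_congr rfl (fun s _ => hiter s), hs N]
    have hBM : BM (fun p : Ultrafilter G => (N : ℝ)⁻¹ * ext (fun x => ∑ s ∈ Finset.range N,
      ψ (g ^ s * x)) p) := (BM.const _).mul (ext_BM (Bdd.sum (Finset.range N)
          (f := fun s x => ψ (g ^ s * x)) (fun s _ => hψ.comp (fun x => g ^ s * x))))
    have h1 : (N : ℝ)⁻¹ • toL (T.nu m) (ext_BM (Bdd.sum (Finset.range N)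
          (f := fun s x => ψ (g ^ s * x)) (fun s _ => hψ.comp (fun x => g ^ s * x)))) =
          toL (T.nu m) hBM := rfl
    rw [h1]
    apply toL_congr
    funext p
    have := ext_mul (Bdd.const (α := G) (N : ℝ)⁻¹) (Bdd.sum (Finset.range N)
          (f := fun s x => ψ (g ^ s * x)) (fun s _ => hψ.comp (fun x => g ^ s * x))) p
    rw [ext_const] at this
    exact this.symm
  refine h2.congr_left (fun N => ?_)
  have : (birkhoffAverage ℝ U _root_.id N f0 : Lp ℝ 2 (T.nu m)) = _ := hav N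
  rw [this]
  exact coeFn_toL (T.nu m) (ext_BM (Av_bdd g hψ N))

/-- ergodic average with a bounded measurable representative -/
theorem exists_erg (g : G) (hg : ∀ a : G, a ∈ Subgroup.zpowers g) (ψ : G → ℝ) (C : ℝ)
    (hψ : ∀ x, 0 ≤ ψ x ∧ ψ x ≤ C) :
    ∃ ξ : Ultrafilter G → ℝ, BM ξ ∧ (∀ a, ∀ᵐ u ∂(T.nu m), ξ (PT.tr a u) = ξ u) ∧
      (∫ u, ξ u ∂(T.nu m) = ∫ u, ext ψ u ∂(T.nu m)) ∧
      (∀ ε, 0 < ε → Tendsto (fun N : ℕ => (T.nu m).real {u | ε ≤ |ext (Av g ψ N) u - ξ u|})
        atTop (𝓝 0)) := by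
  have hC : 0 ≤ C := (hψ 1).1.trans (hψ 1).2
  have hψb : Bdd ψ := Bdd.of_mem 0 C hψ
  obtain ⟨ξ0, hinv, hlim⟩ := exists_erg0 T m g hg ψ hψb
  have hsm : StronglyMeasurable (ξ0 : Ultrafilter G → ℝ) := Lp.stronglyMeasurable ξ0
  set ξ : Ultrafilter G → ℝ := fun u => max 0 (min C (ξ0 u)) with hξ
  have hξ01 : ∀ u, 0 ≤ ξ u ∧ ξ u ≤ C := fun u =>
    ⟨le_max_left _ _, max_le hC (min_le_left _ _)⟩
  have hξBM : BM ξ :=
    ⟨measurable_const.max (measurable_const.min hsm.measurable), Bdd.of_mem 0 C hξ01⟩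
  have hext01 : ∀ N u, 0 ≤ ext (Av g ψ N) u ∧ ext (Av g ψ N) u ≤ C := by
    intro N u
    constructor
    · exact ext_nonneg (Av_bdd g hψb N) (fun x => (Av_mem g hψ N x).1) u
    · have := ext_mono (Av_bdd g hψb N) (Bdd.const C) (fun x => (Av_mem g hψ N x).2) u
      rwa [ext_const] at this
  have hclose : ∀ N u, |ext (Av g ψ N) u - ξ u| ≤ |ext (Av g ψ N) u - ξ0 u| := by
    intro N u
    have h1 := hext01 N u
    set a := ext (Av g ψ N) u with ha
    set b := (ξ0 : Ultrafilter G → ℝ) u with hb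
    show |a - max 0 (min C b)| ≤ |a - b|
    rcases le_total b 0 with h | h
    · rw [min_eq_right (h.trans hC), max_eq_left h, sub_zero, abs_of_nonneg h1.1,
        abs_of_nonneg (by linarith)]
      linarith
    · rcases le_total b C with h' | h'
      · rw [min_eq_right h', max_eq_right h]
      · rw [min_eq_left h', max_eq_right hC, abs_of_nonpos (by linarith), abs_of_nonpos (by linarith)]
        linarith
  have hlim' : ∀ ε, 0 < ε → Tendsto (fun N : ℕ => (T.nu m).real {u | ε ≤ |ext (Av g ψ N) u - ξ u|})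
        atTop (𝓝 0) := by
    intro ε hε
    have h1 := tendstoInMeasure_iff_measureReal_norm.mp hlim ε hε
    refine squeeze_zero (fun N => measureReal_nonneg) (fun N => ?_) h1
    refine measureReal_mono ?_ (measure_ne_top _ _)
    intro u hu
    have hu' : ε ≤ |ext (Av g ψ N) u - ξ u| := hu
    show ε ≤ ‖ext (Av g ψ N) u - (ξ0 : Ultrafilter G → ℝ) u‖
    rw [Real.norm_eq_abs]
    exact hu'.trans (hclose N u)
  refine ⟨ξ, hξBM, ?_, ?_, hlim'⟩
  · intro a
    have h1 := (T.actN m 1).coeFn_U a ξ0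
    rw [hinv a] at h1
    filter_upwards [h1] with u hu
    have h2 : (ξ0 : Ultrafilter G → ℝ) u = ξ0 (PT.tr a u) := by
      rw [hu]
      show ξ0 (PT.tr (a ^ 1) u) = _
      rw [pow_one]
    simp only [hξ]
    rw [← h2]
  · -- integral
    have hintN : ∀ N : ℕ, 0 < N → ∫ u, ext (Av g ψ N) u ∂(T.nu m) = ∫ u, ext ψ u ∂(T.nu m) := by
      intro N hN
      have hN' : (0 : ℝ) < N := by exact_mod_cast hN
      have e1 : ∀ u, ext (Av g ψ N) u = (N : ℝ)⁻¹ * ∑ s ∈ Finset.range N,
          ext ψ (PT.tr (g ^ s) u) := by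
        intro u
        apply ext_eq
        unfold Av
        apply Tendsto.const_mul
        apply tendsto_finsetSum
        intro s _
        have := tendsto_ext (hψb.comp (fun x => g ^ s * x)) u
        unfold PT.tr
        rw [ext_map]
        exact this
      have e2 : ∀ s, ∫ u, ext ψ (PT.tr (g ^ s) u) ∂(T.nu m) = ∫ u, ext ψ u ∂(T.nu m) := by
        intro s
        have h2 := T.mp_nu m (g ^ s)
        have h3 := integral_map (μ := T.nu m) h2.measurable.aemeasurable
          (f := fun u => ext ψ u) ((ext_BM hψb).meas.aestronglyMeasurable)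
        rw [h2.map_eq] at h3
        exact h3.symm
      simp_rw [e1]
      rw [integral_const_mul, integral_finsetSum _ (fun s _ =>
        ((ext_BM hψb).comp (PT.tr_meas (g ^ s))).integrable _),
        Finset.sum_congr rfl (fun s _ => e2 s), Finset.sum_const, Finset.card_range, nsmul_eq_mul,
        ← mul_assoc, inv_mul_cancel₀ hN'.ne', one_mul]
    have hkey : ∀ ε, 0 < ε → |∫ u, ξ u ∂(T.nu m) - ∫ u, ext ψ u ∂(T.nu m)| ≤ ε * (1 + 2 * C) := by
      intro ε hε
      have h1 := hlim' ε hε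
      have h2 : ∀ᶠ N : ℕ in atTop, (T.nu m).real {u | ε ≤ |ext (Av g ψ N) u - ξ u|} < ε := by
        have := (Metric.tendsto_nhds.mp h1) ε hε
        filter_upwards [this] with N hN
        rw [Real.dist_eq, sub_zero, abs_of_nonneg measureReal_nonneg] at hN
        exact hN
      obtain ⟨N, hN1, hN2⟩ := (h2.and (eventually_gt_atTop 0)).exists
      rw [← hintN N hN2, ← integral_sub (hξBM.integrable _)
        ((ext_BM (Av_bdd g hψb N)).integrable _)]
      have hms : MeasurableSet {u | ε ≤ |ext (Av g ψ N) u - ξ u|} :=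
        measurableSet_le measurable_const
          (((ext_BM (Av_bdd g hψb N)).meas.sub hξBM.meas).abs)
      calc |∫ u, (ξ u - ext (Av g ψ N) u) ∂(T.nu m)|
          ≤ ∫ u, |ξ u - ext (Av g ψ N) u| ∂(T.nu m) := abs_integral_le_integral_abs
        _ ≤ ∫ u, (ε + 2 * C * {u | ε ≤ |ext (Av g ψ N) u - ξ u|}.indicator 1 u) ∂(T.nu m) := by
            apply integral_mono ((hξBM.sub (ext_BM (Av_bdd g hψb N))).integrable _).abs
              (((BM.const ε).add ((BM.const (2 * C)).mul (BM.ind hms))).integrable _)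
            intro u
            show |ξ u - ext (Av g ψ N) u| ≤
              ε + 2 * C * {u | ε ≤ |ext (Av g ψ N) u - ξ u|}.indicator 1 u
            have h3 := hext01 N u
            have h4 := hξ01 u
            by_cases hu : u ∈ {u | ε ≤ |ext (Av g ψ N) u - ξ u|}
            · rw [Set.indicator_of_mem hu, Pi.one_apply, mul_one]
              rw [abs_le]
              constructor <;> linarith
            · rw [Set.indicator_of_notMem hu, mul_zero, add_zero]
              rw [abs_sub_comm]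
              exact (not_le.mp hu).le
        _ = ε + 2 * C * (T.nu m).real {u | ε ≤ |ext (Av g ψ N) u - ξ u|} := by
            rw [integral_add ((BM.const ε).integrable _)
              (((BM.const (2 * C)).mul (BM.ind hms)).integrable _), integral_const_mul,
              integral_indicator_one hms]
            simp
        _ ≤ ε + 2 * C * ε := by
            have : 2 * C * (T.nu m).real {u | ε ≤ |ext (Av g ψ N) u - ξ u|} ≤ 2 * C * ε :=
              mul_le_mul_of_nonneg_left hN1.le (by positivity)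
            linarith
        _ = ε * (1 + 2 * C) := by ring
    have h0 : |∫ u, ξ u ∂(T.nu m) - ∫ u, ext ψ u ∂(T.nu m)| ≤ 0 := by
      apply le_of_forall_pos_le_add
      intro ε hε
      have := hkey (ε / (1 + 2 * C)) (by positivity)
      rw [div_mul_cancel₀ _ (by positivity)] at this
      linarith
    exact sub_eq_zero.mp (abs_nonpos_iff.mp h0)

/-- consequences at the level of `p` -/
theorem erg_pw [Countable G] {ξ : Ultrafilter G → ℝ} (hξ : BM ξ)
    (hinv : ∀ a, ∀ᵐ u ∂(T.nu m), ξ (PT.tr a u) = ξ u) :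
    (∀ᵐ p ∂(mu m), ∀ a, ξ (PT.tr a (PT.pw n 1 p)) = ξ (PT.pw n 1 p)) ∧
      ∫ p, ξ (PT.pw n 1 p) ∂(mu m) = ∫ u, ξ u ∂(T.nu m) := by
  have h1 : ∀ᵐ u ∂(T.nu m), ∀ a, ξ (PT.tr a u) = ξ u := ae_all_iff.mpr hinv
  have h2 : ∀ᵐ u ∂((mu m).map (PT.pw n (1 : G))), ∀ a, ξ (PT.tr a u) = ξ u :=
    (T.map_one_ac m).ae_le h1
  have h3 : ∀ᵐ p ∂(mu m), ∀ a, ξ (PT.tr a (PT.pw n 1 p)) = ξ (PT.pw n 1 p) :=
    ae_of_ae_map (PT.pw_meas n 1).aemeasurable h2
  refine ⟨h3, ?_⟩
  rw [T.integral_nu m hξ]
  have h4 : ∀ r ∈ T.R, ∫ p, ξ (PT.pw n r p) ∂(mu m) = ∫ p, ξ (PT.pw n 1 p) ∂(mu m) := by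
    intro r _
    apply integral_congr_ae
    filter_upwards [h3] with p hp
    rw [← hp r]
    congr 1
    unfold PT.tr PT.pw
    rw [Ultrafilter.map_map]
    congr 1
    funext x
    simp [mul_comm]
  rw [Finset.sum_congr rfl h4, Finset.sum_const, nsmul_eq_mul, ← mul_assoc,
    inv_mul_cancel₀ T.card_pos'.ne', one_mul]

/-- the integral of an extension with respect to `ν` -/
theorem integral_ext_nu {ψ : G → ℝ} (hψ : Bdd ψ) :
    ∫ u, ext ψ u ∂(T.nu m) = (T.R.card : ℝ)⁻¹ * ∑ r ∈ T.R, m.M (fun x => ψ (x ^ n * r)) := by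
  rw [T.integral_nu m (ext_BM hψ)]
  congr 1
  refine Finset.sum_congr rfl fun r _ => ?_
  rw [← integral_ext m (hψ.comp (fun x => x ^ n * r))]
  simp only [PT.pw, ext_map]

end Pool.Agent.N477
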