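import Mathlib
import Pool.Agent.N477.Erg

set_option autoImplicit false
set_option linter.unusedSectionVars false

open Filter Topology MeasureTheory
open Pool.Agent.TH396.PS
open scoped ENNReal

namespace Pool.Agent.N477

variable {G : Type*} [CommGroup G]

/-- the good set for a finite window `H` -/
def good (A Pos : Set G) (g : G) (ℓ k : ℕ) (S : Finset ℕ) (H : Finset G) : Set (Ultrafilter G) :=
  {p | ∃ b, b ∉ H ∧ b ∈ Pos ∧ (∀ h ∈ H, ({x | h * x ^ ℓ ∈ A} ∈ p → h * b ^ ℓ ∈ A) ∧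
    ({x | h * x ^ k ∈ A} ∈ p → h * b ^ k ∈ A)) ∧
    ∃ s ∈ S, {x | g ^ s * (b ^ k * x ^ ℓ) ∈ A} ∈ p ∧ {x | g ^ s * (b ^ ℓ * x ^ k) ∈ A} ∈ p}

theorem meas_imp (V : Set G) (P : Prop) : MeasurableSet {p : Ultrafilter G | V ∈ p → P} := by
  have : {p : Ultrafilter G | V ∈ p → P} = {p : Ultrafilter G | V ∈ p}ᶜ ∪ {_p : Ultrafilter G | P} := by
    ext p
    simp only [Set.mem_ofPred_eq, Set.mem_union, Set.mem_compl_iff]
    tauto
  rw [this]
  exact (meas_basic _).compl.union (MeasurableSet.const _)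

theorem good_measurable [Countable G] (A Pos : Set G) (g : G) (ℓ k : ℕ) (S : Finset ℕ)
    (H : Finset G) : MeasurableSet (good A Pos g ℓ k S H) := by
  have : good A Pos g ℓ k S H = ⋃ b : G, {p | b ∉ H ∧ b ∈ Pos ∧
    (∀ h ∈ H, ({x | h * x ^ ℓ ∈ A} ∈ p → h * b ^ ℓ ∈ A) ∧
    ({x | h * x ^ k ∈ A} ∈ p → h * b ^ k ∈ A)) ∧
    ∃ s ∈ S, {x | g ^ s * (b ^ k * x ^ ℓ) ∈ A} ∈ p ∧ {x | g ^ s * (b ^ ℓ * x ^ k) ∈ A} ∈ p} := by
    ext p
    simp only [good, Set.mem_ofPred_eq, Set.mem_iUnion]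
  rw [this]
  refine MeasurableSet.iUnion fun b => ?_
  refine (MeasurableSet.const _).inter (MeasurableSet.inter (MeasurableSet.const _)
    (MeasurableSet.inter ?_ ?_))
  · have : {p : Ultrafilter G | ∀ h ∈ H, ({x | h * x ^ ℓ ∈ A} ∈ p → h * b ^ ℓ ∈ A) ∧
      ({x | h * x ^ k ∈ A} ∈ p → h * b ^ k ∈ A)} =
      ⋂ h ∈ H, ({p : Ultrafilter G | {x | h * x ^ ℓ ∈ A} ∈ p → h * b ^ ℓ ∈ A} ∩
        {p : Ultrafilter G | {x | h * x ^ k ∈ A} ∈ p → h * b ^ k ∈ A}) := by
      ext p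
      simp
    show MeasurableSet {p : Ultrafilter G | ∀ h ∈ H, ({x | h * x ^ ℓ ∈ A} ∈ p → h * b ^ ℓ ∈ A) ∧
      ({x | h * x ^ k ∈ A} ∈ p → h * b ^ k ∈ A)}
    rw [this]
    exact Finset.measurableSet_biInter _ fun h _ => (meas_imp _ _).inter (meas_imp _ _)
  · have : {p : Ultrafilter G | ∃ s ∈ S, {x | g ^ s * (b ^ k * x ^ ℓ) ∈ A} ∈ p ∧
        {x | g ^ s * (b ^ ℓ * x ^ k) ∈ A} ∈ p} =
      ⋃ s ∈ S, ({p : Ultrafilter G | {x | g ^ s * (b ^ k * x ^ ℓ) ∈ A} ∈ p} ∩
        {p : Ultrafilter G | {x | g ^ s * (b ^ ℓ * x ^ k) ∈ A} ∈ p}) := by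
      ext p
      simp only [Set.mem_ofPred_eq, Set.mem_iUnion, Set.mem_inter_iff, exists_prop]
    show MeasurableSet {p : Ultrafilter G | ∃ s ∈ S, {x | g ^ s * (b ^ k * x ^ ℓ) ∈ A} ∈ p ∧
        {x | g ^ s * (b ^ ℓ * x ^ k) ∈ A} ∈ p}
    rw [this]
    exact Finset.measurableSet_biUnion _ fun s _ => (meas_basic _).inter (meas_basic _)

theorem ext_Av (g : G) {ψ : G → ℝ} (hψ : Bdd ψ) (N : ℕ) (u : Ultrafilter G) :
    ext (Av g ψ N) u = (N : ℝ)⁻¹ * ∑ s ∈ Finset.range N, ext ψ (PT.tr (g ^ s) u) := by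
  apply ext_eq
  unfold Av
  apply Tendsto.const_mul
  apply tendsto_finsetSum
  intro s _
  have := tendsto_ext (hψ.comp (fun x => g ^ s * x)) u
  unfold PT.tr
  rw [ext_map]
  exact this

theorem card_filter_dvd (q K : ℕ) (hq : 0 < q) :
    ((Finset.range (q * K)).filter (fun s => q ∣ s)).card = K := by
  have : (Finset.range (q * K)).filter (fun s => q ∣ s) =
      (Finset.range K).image (fun j => q * j) := by
    ext s
    simp only [Finset.mem_filter, Finset.mem_range, Finset.mem_image]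
    constructor
    · rintro ⟨h1, j, rfl⟩
      exact ⟨j, lt_of_mul_lt_mul_left h1 (Nat.zero_le _), rfl⟩
    · rintro ⟨j, hj, rfl⟩
      exact ⟨Nat.mul_lt_mul_of_pos_left hj hq, dvd_mul_right _ _⟩
  rw [this, Finset.card_image_of_injective, Finset.card_range]
  intro a b h
  exact Nat.eq_of_mul_eq_mul_left hq h

/-- the weighted indicator -/
noncomputable def psi (q : ℕ) (A Q : Set G) (x : G) : ℝ := q * (A ∩ Q).indicator 1 x

theorem psi_mem (q : ℕ) (A Q : Set G) (x : G) : 0 ≤ psi q A Q x ∧ psi q A Q x ≤ q := by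
  unfold psi
  by_cases hx : x ∈ A ∩ Q
  · rw [Set.indicator_of_mem hx]; simp
  · rw [Set.indicator_of_notMem hx]; simp

theorem psi_bdd (q : ℕ) (A Q : Set G) : Bdd (psi q A Q) := Bdd.of_mem 0 q (psi_mem q A Q)

open Classical in
theorem ext_psi (q : ℕ) (A Q : Set G) (u : Ultrafilter G) :
    ext (psi q A Q) u = q * (if A ∩ Q ∈ u then 1 else 0) := by
  have h1 : psi q A Q = fun x => (q : ℝ) * (A ∩ Q).indicator 1 x := rfl
  rw [h1, ext_mul (Bdd.const _) (bdd_indicator _), ext_const, ext_indicator]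
  by_cases h : A ∩ Q ∈ u
  · rw [if_pos h, Set.indicator_of_mem (show u ∈ {q : Ultrafilter G | A ∩ Q ∈ q} from h)]; rfl
  · rw [if_neg h, Set.indicator_of_notMem (show u ∉ {q : Ultrafilter G | A ∩ Q ∈ q} from h)]

/-- if the two averages sum to more than one, there is a common shift -/
theorem common_shift (g : G) (q : ℕ) (hq : 0 < q) (K : ℕ) (hK : 0 < K) (A Q : Set G)
    (hQ : ∀ u ∈ Q, ∀ s : ℕ, g ^ s * u ∈ Q → q ∣ s) (u1 u2 : Ultrafilter G) (h1 : Q ∈ u1)
    (h2 : Q ∈ u2)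
    (hs : 1 < ext (Av g (psi q A Q) (q * K)) u1 + ext (Av g (psi q A Q) (q * K)) u2) :
    ∃ s ∈ (Finset.range (q * K)).filter (fun s => q ∣ s),
      A ∈ PT.tr (g ^ s) u1 ∧ A ∈ PT.tr (g ^ s) u2 := by
  classical
  by_contra hcon
  push Not at hcon
  rw [ext_Av g (psi_bdd q A Q), ext_Av g (psi_bdd q A Q), ← mul_add, ← Finset.sum_add_distrib] at hs
  have hN : (0 : ℝ) < ((q * K : ℕ) : ℝ) := by exact_mod_cast Nat.mul_pos hq hK
  have hq0 : (0 : ℝ) ≤ q := Nat.cast_nonneg _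
  have hterm : ∀ s ∈ Finset.range (q * K),
      ext (psi q A Q) (PT.tr (g ^ s) u1) + ext (psi q A Q) (PT.tr (g ^ s) u2) ≤
        if q ∣ s then (q : ℝ) else 0 := by
    intro s hs
    rw [ext_psi, ext_psi]
    have hno : ∀ u : Ultrafilter G, Q ∈ u → ¬ q ∣ s → ¬ (A ∩ Q ∈ PT.tr (g ^ s) u) := by
      intro u hu hd hmem
      have h3 : Q ∈ PT.tr (g ^ s) u := Filter.mem_of_superset hmem Set.inter_subset_right
      have h4 : {x | g ^ s * x ∈ Q} ∈ u := h3
      obtain ⟨x, hx1, hx2⟩ := u.nonempty_of_mem (Filter.inter_mem hu h4)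
      exact hd (hQ x hx1 s hx2)
    have hA : ∀ u : Ultrafilter G, A ∩ Q ∈ PT.tr (g ^ s) u → A ∈ PT.tr (g ^ s) u :=
      fun u h => Filter.mem_of_superset h Set.inter_subset_left
    split_ifs with ha hb hd hd hb hd hd
    · exact absurd (hA _ hb) (hcon s (Finset.mem_filter.mpr ⟨hs, hd⟩) (hA _ ha))
    · exact absurd ha (hno u1 h1 hd)
    · simp
    · exact absurd ha (hno u1 h1 hd)
    · simp
    · exact absurd hb (hno u2 h2 hd)
    · simp
    · simp
  have hsum := Finset.sum_le_sum hterm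
  rw [← Finset.sum_filter, Finset.sum_const, card_filter_dvd q K hq, nsmul_eq_mul] at hsum
  have : ((q * K : ℕ) : ℝ)⁻¹ * ∑ s ∈ Finset.range (q * K),
      (ext (psi q A Q) (PT.tr (g ^ s) u1) + ext (psi q A Q) (PT.tr (g ^ s) u2)) ≤ 1 := by
    rw [inv_mul_le_iff₀ hN, mul_one]
    push_cast
    linarith
  linarith

/-- existence of a good ultrafilter -/
theorem exists_good [Countable G] [Infinite G] (m : Mean G) {ℓ k : ℕ} (T1 : PT G ℓ) (T2 : PT G k)
    (T1' : PT G (ℓ + k)) (T2' : PT G (k + ℓ)) (g : G) (hg : ∀ a : G, a ∈ Subgroup.zpowers g)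
    (A Pos Q : Set G) (hPos : m.M (Pos.indicator 1) = 1) (q : ℕ) (hq : 0 < q)
    (hQ : ∀ u ∈ Q, ∀ s : ℕ, g ^ s * u ∈ Q → q ∣ s) {ι : Type*} [Finite ι] (κ : G → ι)
    (hκ : ∀ x b, κ x = κ b → b ^ k * x ^ ℓ ∈ Q ∧ b ^ ℓ * x ^ k ∈ Q)
    (hI : 1 < (T1.R.card : ℝ)⁻¹ * ∑ r ∈ T1.R, m.M (fun x => psi q A Q (x ^ ℓ * r)) +
      (T2.R.card : ℝ)⁻¹ * ∑ r ∈ T2.R, m.M (fun x => psi q A Q (x ^ k * r))) :
    ∃ (S : Finset ℕ) (p : Ultrafilter G), (∀ s ∈ S, q ∣ s) ∧
      ∀ H : Finset G, p ∈ good A Pos g ℓ k S H := by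
  classical
  cases nonempty_fintype ι
  set ψ := psi q A Q with hψdef
  have hψb : Bdd ψ := psi_bdd q A Q
  obtain ⟨ξ1, hξ1, hinv1, hint1, hlim1⟩ := exists_erg T1 m g hg ψ q (psi_mem q A Q)
  obtain ⟨ξ2, hξ2, hinv2, hint2, hlim2⟩ := exists_erg T2 m g hg ψ q (psi_mem q A Q)
  obtain ⟨hae1, hpi1⟩ := erg_pw T1 m hξ1 hinv1
  obtain ⟨hae2, hpi2⟩ := erg_pw T2 m hξ2 hinv2
  rw [hint1, integral_ext_nu T1 m hψb] at hpi1
  rw [hint2, integral_ext_nu T2 m hψb] at hpi2
  set I := (T1.R.card : ℝ)⁻¹ * ∑ r ∈ T1.R, m.M (fun x => ψ (x ^ ℓ * r)) +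
      (T2.R.card : ℝ)⁻¹ * ∑ r ∈ T2.R, m.M (fun x => ψ (x ^ k * r)) with hIdef
  set κ0 : ℝ := (I - 1) / 4 with hκ0
  have hκ0p : 0 < κ0 := by rw [hκ0]; linarith
  set f : Ultrafilter G → ℝ := fun p => ξ1 (PT.pw ℓ 1 p) + ξ2 (PT.pw k 1 p) with hf
  have hfBM : BM f := (hξ1.comp (PT.pw_meas ℓ 1)).add (hξ2.comp (PT.pw_meas k 1))
  have hfint : ∫ p, f p ∂(mu m) = I := by
    rw [hf, integral_add ((hξ1.comp (PT.pw_meas ℓ 1)).integrable _)
      ((hξ2.comp (PT.pw_meas k 1)).integrable _), hpi1, hpi2]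
  set E0 : Set (Ultrafilter G) := {p | 1 + 2 * κ0 < f p} with hE0
  have hE0m : MeasurableSet E0 := measurableSet_lt measurable_const hfBM.meas
  set E1 : Set (Ultrafilter G) := {p | (∀ a, ξ1 (PT.tr a (PT.pw ℓ 1 p)) = ξ1 (PT.pw ℓ 1 p)) ∧
    (∀ a, ξ2 (PT.tr a (PT.pw k 1 p)) = ξ2 (PT.pw k 1 p))} with hE1
  have hE1m : MeasurableSet E1 := by
    have : E1 = (⋂ a, {p | ξ1 (PT.tr a (PT.pw ℓ 1 p)) = ξ1 (PT.pw ℓ 1 p)}) ∩
      (⋂ a, {p | ξ2 (PT.tr a (PT.pw k 1 p)) = ξ2 (PT.pw k 1 p)}) := by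
      ext p
      simp [hE1]
    rw [this]
    refine (MeasurableSet.iInter fun a => ?_).inter (MeasurableSet.iInter fun a => ?_)
    · exact measurableSet_eq_fun ((hξ1.comp (PT.tr_meas a)).comp (PT.pw_meas ℓ 1)).meas
        (hξ1.comp (PT.pw_meas ℓ 1)).meas
    · exact measurableSet_eq_fun ((hξ2.comp (PT.tr_meas a)).comp (PT.pw_meas k 1)).meas
        (hξ2.comp (PT.pw_meas k 1)).meas
  set E2 : Set (Ultrafilter G) := {p | Pos ∈ p} with hE2
  have hE2m : MeasurableSet E2 := meas_basic _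
  have hE2a : ∀ᵐ p ∂(mu m), p ∈ E2 := by
    have h1 : (mu m).real {p : Ultrafilter G | Pos ∈ p} = 1 := by rw [mu_basic, hPos]
    have h2 : (mu m).real E2ᶜ = 0 := by
      have := probReal_compl_eq_one_sub (μ := mu m) hE2m
      rw [this, h1]; norm_num
    rw [measureReal_eq_zero_iff] at h2
    exact h2
  set E : Set (Ultrafilter G) := E0 ∩ E1 ∩ E2 with hE
  have hEm : MeasurableSet E := (hE0m.inter hE1m).inter hE2m
  have hEpos : 0 < (mu m).real E := by
    refine ENNReal.toReal_pos ?_ (measure_ne_top _ _)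
    intro h0
    have h1 : ∀ᵐ p ∂(mu m), p ∉ E := measure_eq_zero_iff_ae_notMem.mp h0
    have h2 : ∀ᵐ p ∂(mu m), f p ≤ 1 + 2 * κ0 := by
      filter_upwards [h1, hae1, hae2, hE2a] with p hp ha hb hc
      by_contra h3
      exact hp ⟨⟨not_le.mp h3, ha, hb⟩, hc⟩
    have h3 : ∫ p, f p ∂(mu m) ≤ ∫ _p, (1 + 2 * κ0) ∂(mu m) :=
      integral_mono_ae (hfBM.integrable _) (integrable_const _) h2
    rw [hfint] at h3
    simp only [integral_const, probReal_univ, smul_eq_mul, one_mul] at h3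
    rw [hκ0] at h3
    linarith
  set δ := (mu m).real E with hδ
  set k1 : ℝ := (T1'.R.card : ℝ) with hk1
  set k2 : ℝ := (T2'.R.card : ℝ) with hk2
  have hk1p : 0 < k1 := T1'.card_pos'
  have hk2p : 0 < k2 := T2'.card_pos'
  -- choice of the length
  obtain ⟨K, hK0, hK1, hK2⟩ : ∃ K : ℕ, 0 < K ∧
      (T1.nu m).real {u | κ0 ≤ |ext (Av g ψ (q * K)) u - ξ1 u|} < δ / (4 * k1) ∧
      (T2.nu m).real {u | κ0 ≤ |ext (Av g ψ (q * K)) u - ξ2 u|} < δ / (4 * k2) := by
    have e1 : ∀ᶠ N : ℕ in atTop, (T1.nu m).real {u | κ0 ≤ |ext (Av g ψ N) u - ξ1 u|} <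
        δ / (4 * k1) := (hlim1 κ0 hκ0p).eventually_lt_const (by positivity)
    have e2 : ∀ᶠ N : ℕ in atTop, (T2.nu m).real {u | κ0 ≤ |ext (Av g ψ N) u - ξ2 u|} <
        δ / (4 * k2) := (hlim2 κ0 hκ0p).eventually_lt_const (by positivity)
    obtain ⟨N0, hN0⟩ := eventually_atTop.mp (e1.and e2)
    refine ⟨N0 + 1, Nat.succ_pos _, ?_⟩
    exact hN0 (q * (N0 + 1)) (by nlinarith)
  set C1 : Set (Ultrafilter G) := {u | κ0 ≤ |ext (Av g ψ (q * K)) u - ξ1 u|} with hC1
  set C2 : Set (Ultrafilter G) := {u | κ0 ≤ |ext (Av g ψ (q * K)) u - ξ2 u|} with hC2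
  have hC1m : MeasurableSet C1 := measurableSet_le measurable_const
    (((ext_BM (Av_bdd g hψb _)).meas.sub hξ1.meas).abs)
  have hC2m : MeasurableSet C2 := measurableSet_le measurable_const
    (((ext_BM (Av_bdd g hψb _)).meas.sub hξ2.meas).abs)
  -- sides
  obtain ⟨D1, ⟨Q1⟩⟩ := QSide.exists_qside T1 m k C1 hC1m
  obtain ⟨D2, ⟨Q2⟩⟩ := QSide.exists_qside T2 m ℓ C2 hC2m
  set D : BIM G := (BIM.scale D1 T1.R.card T1.card_pos'.le).add
    (BIM.scale D2 T2.R.card T2.card_pos'.le) with hD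
  have hDD1 : ∀ x y, T1.R.card * D1.d x y ≤ D.d x y := by
    intro x y
    show (T1.R.card : ℝ) * D1.d x y ≤ T1.R.card * D1.d x y + T2.R.card * D2.d x y
    have := mul_nonneg T2.card_pos'.le (D2.nonneg x y)
    linarith
  have hDD2 : ∀ x y, T2.R.card * D2.d x y ≤ D.d x y := by
    intro x y
    show (T2.R.card : ℝ) * D2.d x y ≤ T1.R.card * D1.d x y + T2.R.card * D2.d x y
    have := mul_nonneg T1.card_pos'.le (D1.nonneg x y)
    linarith
  set S1 : ASide m D := Q1.toASide hC1m D hDD1 with hS1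
  set S2 : ASide m D := Q2.toASide hC2m D hDD2 with hS2
  set SS : Fin 2 → ASide m D := ![S1, S2] with hSS
  set ε : Fin 2 → ℝ := ![k1 * (T1.nu m).real C1, k2 * (T2.nu m).real C2] with hε
  have hSε : ∀ j (r : ℝ) (kr : Kern m D r),
      m.M (fun c => ∫ p, (SS j).q c p * kr.W c p ∂(mu m)) ≤ ε j := by
    intro j r kr
    fin_cases j
    · exact Q1.avg_bound T1' kr
    · exact Q2.avg_bound T2' kr
  set Sf : Finset ℕ := (Finset.range (q * K)).filter (fun s => q ∣ s) with hSf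
  have hkey : ∀ H : Finset G, δ / 2 ≤ (mu m).real (good A Pos g ℓ k Sf H) := by
    intro H
    set lab : G → ((H → Bool × Bool) × Bool) × ι := fun x =>
      ((fun h => (decide ((h : G) * x ^ ℓ ∈ A), decide ((h : G) * x ^ k ∈ A)),
        decide (x ∈ Pos)), κ x) with hlab
    set Bad : (((H → Bool × Bool) × Bool) × ι) → Set (Ultrafilter G) := fun i =>
      E ∩ {p | lab ⁻¹' {i} ∈ p} ∩ ⋂ b : G, {p | b ∉ H → lab b = i →
        ¬ (∃ s ∈ Sf, {x | g ^ s * (b ^ k * x ^ ℓ) ∈ A} ∈ p ∧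
          {x | g ^ s * (b ^ ℓ * x ^ k) ∈ A} ∈ p)} with hBad
    have hmeas : ∀ i, MeasurableSet (Bad i) := by
      intro i
      refine (hEm.inter (meas_basic _)).inter (MeasurableSet.iInter fun b => ?_)
      by_cases h1 : b ∉ H ∧ lab b = i
      · have : {p : Ultrafilter G | b ∉ H → lab b = i →
          ¬ (∃ s ∈ Sf, {x | g ^ s * (b ^ k * x ^ ℓ) ∈ A} ∈ p ∧
            {x | g ^ s * (b ^ ℓ * x ^ k) ∈ A} ∈ p)} =
          (⋃ s ∈ Sf, ({p : Ultrafilter G | {x | g ^ s * (b ^ k * x ^ ℓ) ∈ A} ∈ p} ∩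
            {p : Ultrafilter G | {x | g ^ s * (b ^ ℓ * x ^ k) ∈ A} ∈ p}))ᶜ := by
          ext p
          simp only [Set.mem_ofPred_eq, h1.1, h1.2, not_false_eq_true, true_imp_iff,
            Set.mem_compl_iff, Set.mem_inter_iff, Set.mem_iUnion, exists_prop]
        rw [this]
        exact (Finset.measurableSet_biUnion _ fun t _ => (meas_basic _).inter (meas_basic _)).compl
      · have : {p : Ultrafilter G | b ∉ H → lab b = i →
          ¬ (∃ s ∈ Sf, {x | g ^ s * (b ^ k * x ^ ℓ) ∈ A} ∈ p ∧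
            {x | g ^ s * (b ^ ℓ * x ^ k) ∈ A} ∈ p)} = Set.univ := by
          ext p
          simp only [Set.mem_ofPred_eq, Set.mem_univ, iff_true]
          intro h2 h3
          exact absurd ⟨h2, h3⟩ h1
        rw [this]
        exact MeasurableSet.univ
    have hbound := main_bound SS lab H Bad hmeas (fun i p hp => hp.1.2) (by
      intro i b hb hbH p hp
      have hpE : p ∈ E := hp.1.1
      have hlp : lab ⁻¹' {i} ∈ p := hp.1.2
      have h2 := Set.mem_iInter.mp hp.2 b hbH hb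
      set u1 := PT.tr (b ^ k) (PT.pw ℓ 1 p) with hu1
      set u2 := PT.tr (b ^ ℓ) (PT.pw k 1 p) with hu2
      have hQ12 : Q ∈ u1 ∧ Q ∈ u2 := by
        constructor
        · rw [hu1]
          unfold PT.tr PT.pw
          rw [Ultrafilter.map_map, Ultrafilter.mem_map]
          refine Filter.mem_of_superset hlp (fun x hx => ?_)
          have hx' : lab x = i := hx
          have hb' : lab b = i := hb
          have e1 : κ x = κ b := by
            have := hx'.trans hb'.symm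
            exact congrArg Prod.snd this
          have := (hκ x b e1).1
          show b ^ k * (x ^ ℓ * 1) ∈ Q
          rwa [mul_one]
        · rw [hu2]
          unfold PT.tr PT.pw
          rw [Ultrafilter.map_map, Ultrafilter.mem_map]
          refine Filter.mem_of_superset hlp (fun x hx => ?_)
          have hx' : lab x = i := hx
          have hb' : lab b = i := hb
          have e1 : κ x = κ b := by
            have := hx'.trans hb'.symm
            exact congrArg Prod.snd this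
          have := (hκ x b e1).2
          show b ^ ℓ * (x ^ k * 1) ∈ Q
          rwa [mul_one]
      rw [Fin.sum_univ_two]
      show (1 : ℝ) ≤ C1.indicator 1 u1 + C2.indicator 1 u2
      by_contra hcon
      have hn1 : u1 ∉ C1 := by
        intro h
        apply hcon
        rw [Set.indicator_of_mem h, Pi.one_apply]
        have := Set.indicator_nonneg (s := C2) (f := (1 : Ultrafilter G → ℝ))
          (fun _ _ => zero_le_one) u2
        linarith
      have hn2 : u2 ∉ C2 := by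
        intro h
        apply hcon
        rw [Set.indicator_of_mem h, Pi.one_apply]
        have := Set.indicator_nonneg (s := C1) (f := (1 : Ultrafilter G → ℝ))
          (fun _ _ => zero_le_one) u1
        linarith
      have hn1' : |ext (Av g ψ (q * K)) u1 - ξ1 u1| < κ0 := not_le.mp hn1
      have hn2' : |ext (Av g ψ (q * K)) u2 - ξ2 u2| < κ0 := not_le.mp hn2
      have hi1 : ξ1 u1 = ξ1 (PT.pw ℓ 1 p) := hpE.1.2.1 _
      have hi2 : ξ2 u2 = ξ2 (PT.pw k 1 p) := hpE.1.2.2 _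
      have hE0' : 1 + 2 * κ0 < ξ1 (PT.pw ℓ 1 p) + ξ2 (PT.pw k 1 p) := hpE.1.1
      have hsum : 1 < ext (Av g ψ (q * K)) u1 + ext (Av g ψ (q * K)) u2 := by
        have a1 := (abs_lt.mp hn1').1
        have a2 := (abs_lt.mp hn2').1
        rw [hi1] at a1
        rw [hi2] at a2
        linarith
      obtain ⟨s, hs, hs1, hs2⟩ := common_shift g q hq K hK0 A Q hQ u1 u2 hQ12.1 hQ12.2 hsum
      apply h2
      refine ⟨s, hs, ?_, ?_⟩
      · rw [hu1] at hs1
        unfold PT.tr PT.pw at hs1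
        rw [Ultrafilter.map_map, Ultrafilter.map_map, Ultrafilter.mem_map] at hs1
        refine Filter.mem_of_superset hs1 (fun x hx => ?_)
        have hx' : g ^ s * (b ^ k * (x ^ ℓ * 1)) ∈ A := hx
        rwa [mul_one] at hx'
      · rw [hu2] at hs2
        unfold PT.tr PT.pw at hs2
        rw [Ultrafilter.map_map, Ultrafilter.map_map, Ultrafilter.mem_map] at hs2
        refine Filter.mem_of_superset hs2 (fun x hx => ?_)
        have hx' : g ^ s * (b ^ ℓ * (x ^ k * 1)) ∈ A := hx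
        rwa [mul_one] at hx') ε hSε
    have hcover : E ⊆ good A Pos g ℓ k Sf H ∪ ⋃ i, Bad i := by
      intro p hp
      by_cases hg : p ∈ good A Pos g ℓ k Sf H
      · exact Or.inl hg
      · right
        obtain ⟨i, hi⟩ := exists_color lab p
        refine Set.mem_iUnion.mpr ⟨i, ⟨hp, hi⟩, ?_⟩
        refine Set.mem_iInter.mpr fun b => ?_
        intro hbH hbi hcon
        apply hg
        refine ⟨b, hbH, ?_, fun h hh => ⟨fun h1 => ?_, fun h1 => ?_⟩, hcon⟩
        · obtain ⟨x, hx1, hx2⟩ := p.nonempty_of_mem (Filter.inter_mem hi hp.2)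
          have e1 : lab x = lab b := by rw [hbi]; exact hx1
          have e2 := congrArg (fun z => z.1.2) e1
          simp only [hlab] at e2
          have e3 : x ∈ Pos := hx2
          have e4 : decide (x ∈ Pos) = true := decide_eq_true e3
          rw [e4] at e2
          exact of_decide_eq_true e2.symm
        · obtain ⟨x, hx1, hx2⟩ := p.nonempty_of_mem (Filter.inter_mem hi h1)
          have e1 : lab x = lab b := by rw [hbi]; exact hx1
          have e2 := congrArg (fun z => (z.1.1 ⟨h, hh⟩).1) e1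
          simp only [hlab] at e2
          have e3 : h * x ^ ℓ ∈ A := hx2
          have e4 : decide (h * x ^ ℓ ∈ A) = true := decide_eq_true e3
          rw [e4] at e2
          exact of_decide_eq_true e2.symm
        · obtain ⟨x, hx1, hx2⟩ := p.nonempty_of_mem (Filter.inter_mem hi h1)
          have e1 : lab x = lab b := by rw [hbi]; exact hx1
          have e2 := congrArg (fun z => (z.1.1 ⟨h, hh⟩).2) e1
          simp only [hlab] at e2
          have e3 : h * x ^ k ∈ A := hx2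
          have e4 : decide (h * x ^ k ∈ A) = true := decide_eq_true e3
          rw [e4] at e2
          exact of_decide_eq_true e2.symm
    have h1 : δ ≤ (mu m).real (good A Pos g ℓ k Sf H) + ∑ i, (mu m).real (Bad i) := by
      calc (mu m).real E ≤ (mu m).real (good A Pos g ℓ k Sf H ∪ ⋃ i, Bad i) :=
            measureReal_mono hcover
        _ ≤ (mu m).real (good A Pos g ℓ k Sf H) + (mu m).real (⋃ i, Bad i) :=
            measureReal_union_le _ _
        _ ≤ _ := by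
            gcongr
            exact measureReal_iUnion_fintype_le _
    rw [Fin.sum_univ_two] at hbound
    have hb2 : ∑ i, (mu m).real (Bad i) ≤ k1 * (T1.nu m).real C1 + k2 * (T2.nu m).real C2 := hbound
    have hb3 : k1 * (T1.nu m).real C1 ≤ δ / 4 := by
      have := mul_le_mul_of_nonneg_left hK1.le hk1p.le
      calc _ ≤ _ := this
        _ = δ / 4 := by field_simp
    have hb4 : k2 * (T2.nu m).real C2 ≤ δ / 4 := by
      have := mul_le_mul_of_nonneg_left hK2.le hk2p.le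
      calc _ ≤ _ := this
        _ = δ / 4 := by field_simp
    linarith
  have hanti : Antitone (fun H : Finset G => good A Pos g ℓ k Sf H) := by
    rintro H H' hHH p ⟨b, hb, hb', hc, hd⟩
    exact ⟨b, fun h => hb (hHH h), hb', fun h hh => hc h (hHH hh), hd⟩
  have ht := tendsto_measure_iInter_atTop (μ := mu m)
    (fun H : Finset G => (good_measurable A Pos g ℓ k Sf H).nullMeasurableSet) hanti
    ⟨∅, measure_ne_top _ _⟩
  have ht2 : Tendsto (fun H : Finset G => (mu m).real (good A Pos g ℓ k Sf H)) atTop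
      (𝓝 ((mu m).real (⋂ H : Finset G, good A Pos g ℓ k Sf H))) :=
    (ENNReal.tendsto_toReal (measure_ne_top _ _)).comp ht
  have h3 : δ / 2 ≤ (mu m).real (⋂ H : Finset G, good A Pos g ℓ k Sf H) :=
    ge_of_tendsto' ht2 hkey
  have h4 : (⋂ H : Finset G, good A Pos g ℓ k Sf H).Nonempty := by
    by_contra hcon
    rw [Set.not_nonempty_iff_eq_empty] at hcon
    rw [hcon, measureReal_empty] at h3
    linarith
  obtain ⟨p, hp⟩ := h4
  exact ⟨Sf, p, fun s hs => (Finset.mem_filter.mp hs).2, fun H => Set.mem_iInter.mp hp H⟩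

end Pool.Agent.N477
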