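import Mathlib
import Pool.Agent.N477.Good

set_option autoImplicit false
set_option linter.unusedSectionVars false

open Filter Topology MeasureTheory
open Pool.Agent.TH396.PS

namespace Pool.Agent.N477

/-- extraction of the sequence -/
theorem extract {G : Type*} [CommGroup G] [Infinite G] (A Pos : Set G) (g : G) (ℓ k : ℕ)
    (S : Finset ℕ) (p : Ultrafilter G) (hp : ∀ H : Finset G, p ∈ good A Pos g ℓ k S H) :
    ∃ (b : ℕ → G) (s : ℕ), s ∈ S ∧ Function.Injective b ∧ (∀ i, b i ∈ Pos) ∧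
      ∀ i j, i < j → g ^ s * (b i ^ k * b j ^ ℓ) ∈ A ∧ g ^ s * (b i ^ ℓ * b j ^ k) ∈ A := by
  classical
  obtain ⟨f, hf1, hf2⟩ := exists_seq_of_forall_finset_exists
    (fun b : G => b ∈ Pos ∧ ∃ s ∈ S, {x | g ^ s * (b ^ k * x ^ ℓ) ∈ A} ∈ p ∧
      {x | g ^ s * (b ^ ℓ * x ^ k) ∈ A} ∈ p)
    (fun x y : G => x ≠ y ∧ ∀ s ∈ S,
      ({z | g ^ s * (x ^ k * z ^ ℓ) ∈ A} ∈ p → g ^ s * (x ^ k * y ^ ℓ) ∈ A) ∧
      ({z | g ^ s * (x ^ ℓ * z ^ k) ∈ A} ∈ p → g ^ s * (x ^ ℓ * y ^ k) ∈ A))
    (by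
      intro F _
      obtain ⟨b, hbH, hbP, hb1, hb2⟩ := hp (F ∪ (S ×ˢ F).image (fun q => g ^ q.1 * q.2 ^ k) ∪
        (S ×ˢ F).image (fun q => g ^ q.1 * q.2 ^ ℓ))
      refine ⟨b, ⟨hbP, hb2⟩, fun x hx => ⟨?_, fun s hs => ⟨fun h1 => ?_, fun h1 => ?_⟩⟩⟩
      · rintro rfl
        apply hbH
        simp [hx]
      · have hmem : g ^ s * x ^ k ∈ (F ∪ (S ×ˢ F).image (fun q => g ^ q.1 * q.2 ^ k) ∪
          (S ×ˢ F).image (fun q => g ^ q.1 * q.2 ^ ℓ) : Finset G) := by
          apply Finset.mem_union_left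
          apply Finset.mem_union_right
          exact Finset.mem_image.mpr ⟨(s, x), Finset.mem_product.mpr ⟨hs, hx⟩, rfl⟩
        have := (hb1 _ hmem).1 (by simpa [mul_assoc] using h1)
        simpa [mul_assoc] using this
      · have hmem : g ^ s * x ^ ℓ ∈ (F ∪ (S ×ˢ F).image (fun q => g ^ q.1 * q.2 ^ k) ∪
          (S ×ˢ F).image (fun q => g ^ q.1 * q.2 ^ ℓ) : Finset G) := by
          apply Finset.mem_union_right
          exact Finset.mem_image.mpr ⟨(s, x), Finset.mem_product.mpr ⟨hs, hx⟩, rfl⟩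
        have := (hb1 _ hmem).2 (by simpa [mul_assoc] using h1)
        simpa [mul_assoc] using this)
  have ht : ∀ n, ∃ s : S, {x | g ^ (s : ℕ) * (f n ^ k * x ^ ℓ) ∈ A} ∈ p ∧
      {x | g ^ (s : ℕ) * (f n ^ ℓ * x ^ k) ∈ A} ∈ p := by
    intro n
    obtain ⟨_, s, hs, h⟩ := hf1 n
    exact ⟨⟨s, hs⟩, h⟩
  choose τ hτ using ht
  obtain ⟨s, hfib⟩ := Finite.exists_infinite_fiber τ
  have hinf : ((τ ⁻¹' {s}) : Set ℕ).Infinite := Set.infinite_coe_iff.mp hfib
  set e := Nat.orderEmbeddingOfSet (τ ⁻¹' {s}) with he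
  have hemem : ∀ n, τ (e n) = s := by
    intro n
    have h1 : e n ∈ Set.range e := ⟨n, rfl⟩
    rw [he, Nat.orderEmbeddingOfSet_range] at h1
    exact h1
  refine ⟨fun n => f (e n), s, s.2, ?_, fun i => (hf1 _).1, fun i j hij => ?_⟩
  · intro i j hij
    by_contra hne
    rcases lt_or_gt_of_ne hne with h | h
    · exact (hf2 _ _ (e.strictMono h)).1 hij
    · exact (hf2 _ _ (e.strictMono h)).1 hij.symm
  · have h1 := hf2 _ _ (e.strictMono hij)
    have h2 := hτ (e i)
    rw [hemem i] at h2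
    exact ⟨(h1.2 s s.2).1 h2.1, (h1.2 s s.2).2 h2.2⟩

/-- integers written multiplicatively -/
abbrev Zm := Multiplicative ℤ

/-- embedding of the naturals -/
def io (n : ℕ) : Zm := Multiplicative.ofAdd (n : ℤ)

theorem io_inj : Function.Injective io := by
  intro a b h
  have : (a : ℤ) = b := Multiplicative.ofAdd.injective h
  exact_mod_cast this

theorem io_mul (a b : ℕ) : io a * io b = io (a + b) := by
  unfold io
  rw [← ofAdd_add]
  push_cast
  rfl

theorem io_pow (a n : ℕ) : io a ^ n = io (n * a) := by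
  unfold io
  rw [← ofAdd_nsmul]
  push_cast
  simp

theorem toAdd_pow_mul (x r : Zm) (n : ℕ) :
    Multiplicative.toAdd (x ^ n * r) = n * Multiplicative.toAdd x + Multiplicative.toAdd r := by
  rw [toAdd_mul, toAdd_pow]
  simp

/-- the transversal for the integers -/
noncomputable def zPT (n : ℕ) (hn : 0 < n) : PT Zm n where
  R := (Finset.range n).map ⟨io, io_inj⟩
  one_mem := by
    rw [Finset.mem_map]
    exact ⟨0, Finset.mem_range.mpr hn, rfl⟩
  inj x y r hr r' hr' h := by
    rw [Finset.mem_map] at hr hr'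
    obtain ⟨a, ha, rfl⟩ := hr
    obtain ⟨b, hb, rfl⟩ := hr'
    rw [Finset.mem_range] at ha hb
    have h1 := congrArg Multiplicative.toAdd h
    rw [toAdd_pow_mul, toAdd_pow_mul] at h1
    have ha' : Multiplicative.toAdd (io a) = (a : ℤ) := rfl
    have hb' : Multiplicative.toAdd (io b) = (b : ℤ) := rfl
    simp only [Function.Embedding.coeFn_mk] at h1 ⊢
    rw [ha', hb'] at h1
    have hn' : (0 : ℤ) < n := by exact_mod_cast hn
    have e1 : (a : ℤ) % n = a := Int.emod_eq_of_lt (by positivity) (by exact_mod_cast ha)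
    have e2 : (b : ℤ) % n = b := Int.emod_eq_of_lt (by positivity) (by exact_mod_cast hb)
    have e3 : ((n : ℤ) * Multiplicative.toAdd x + a) % n = ((n : ℤ) * Multiplicative.toAdd y + b) % n := by
      rw [h1]
    rw [Int.mul_add_emod_self_left, Int.mul_add_emod_self_left, e1, e2] at e3
    have e4 : a = b := by exact_mod_cast e3
    subst e4
    refine ⟨?_, rfl⟩
    have e5 : (n : ℤ) * Multiplicative.toAdd x = n * Multiplicative.toAdd y := by linarith
    have e6 : Multiplicative.toAdd x = Multiplicative.toAdd y := mul_left_cancel₀ hn'.ne' e5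
    exact Multiplicative.toAdd.injective e6
  surj v := by
    have hn' : (0 : ℤ) < n := by exact_mod_cast hn
    refine ⟨Multiplicative.ofAdd (Multiplicative.toAdd v / n),
      io (Multiplicative.toAdd v % n).toNat, ?_, ?_⟩
    · rw [Finset.mem_map]
      refine ⟨(Multiplicative.toAdd v % n).toNat, ?_, rfl⟩
      rw [Finset.mem_range]
      have h1 := Int.emod_lt_of_pos (Multiplicative.toAdd v) hn'
      have h2 := Int.emod_nonneg (Multiplicative.toAdd v) hn'.ne'
      omega
    · apply Multiplicative.toAdd.injective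
      rw [toAdd_pow_mul]
      have h2 := Int.emod_nonneg (Multiplicative.toAdd v) hn'.ne'
      have h3 : Multiplicative.toAdd (io (Multiplicative.toAdd v % n).toNat) =
          Multiplicative.toAdd v % n := by
        show (((Multiplicative.toAdd v % n).toNat : ℕ) : ℤ) = _
        exact Int.toNat_of_nonneg h2
      rw [h3, toAdd_ofAdd]
      exact (Int.mul_ediv_add_emod _ _).symm

theorem zPT_card (n : ℕ) (hn : 0 < n) : (zPT n hn).R.card = n := by
  show ((Finset.range n).map ⟨io, io_inj⟩).card = n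
  rw [Finset.card_map, Finset.card_range]

theorem zPT_sum (n : ℕ) (hn : 0 < n) (F : Zm → ℝ) :
    ∑ r ∈ (zPT n hn).R, F r = ∑ r ∈ Finset.range n, F (io r) := by
  show ∑ r ∈ (Finset.range n).map ⟨io, io_inj⟩, F r = _
  rw [Finset.sum_map]
  rfl

/-- windows -/
def win (N : ℕ) : Finset Zm := (Finset.range N).map ⟨io, io_inj⟩

theorem win_card (N : ℕ) : (win N).card = N := by
  unfold win
  rw [Finset.card_map, Finset.card_range]

theorem avg_win (N : ℕ) (F : Zm → ℝ) : avg (win N) F = (∑ w ∈ Finset.range N, F (io w)) / N := by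
  unfold avg
  rw [win_card]
  congr 1
  unfold win
  rw [Finset.sum_map]
  rfl

theorem mem_win (N : ℕ) (x : Zm) :
    x ∈ win N ↔ 0 ≤ Multiplicative.toAdd x ∧ Multiplicative.toAdd x < N := by
  unfold win
  rw [Finset.mem_map]
  constructor
  · rintro ⟨w, hw, rfl⟩
    rw [Finset.mem_range] at hw
    show (0 : ℤ) ≤ (w : ℤ) ∧ (w : ℤ) < N
    omega
  · rintro ⟨h1, h2⟩
    refine ⟨(Multiplicative.toAdd x).toNat, ?_, ?_⟩
    · rw [Finset.mem_range]; omega
    · show Multiplicative.ofAdd (((Multiplicative.toAdd x).toNat : ℕ) : ℤ) = x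
      rw [Int.toNat_of_nonneg h1]
      rfl

theorem win_shift (a : Zm) (N : ℕ) :
    (N : ℝ) - |((Multiplicative.toAdd a : ℤ) : ℝ)| ≤
      ((((win N).image (fun x => a * x)) ∩ win N).card : ℝ) := by
  set z : ℤ := Multiplicative.toAdd a with hz
  -- elements of the window whose preimage is in the window
  have hsub : (win N).filter (fun x => a⁻¹ * x ∈ win N) ⊆ ((win N).image (fun x => a * x)) ∩ win N := by
    intro x hx
    rw [Finset.mem_filter] at hx
    rw [Finset.mem_inter, Finset.mem_image]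
    exact ⟨⟨a⁻¹ * x, hx.2, by simp⟩, hx.1⟩
  have hcard : N ≤ ((win N).filter (fun x => a⁻¹ * x ∈ win N)).card + z.natAbs := by
    have hcompl : ((win N).filter (fun x => ¬ (a⁻¹ * x ∈ win N))).card ≤ z.natAbs := by
      rcases le_or_gt 0 z with hz0 | hz0
      · have h1 : (win N).filter (fun x => ¬ (a⁻¹ * x ∈ win N)) ⊆ win z.natAbs := by
          intro x hx
          rw [Finset.mem_filter] at hx
          obtain ⟨h2, h3⟩ := hx
          rw [mem_win] at h2 h3 ⊢
          rw [toAdd_mul, toAdd_inv, ← hz] at h3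
          omega
        exact (Finset.card_le_card h1).trans (win_card _).le
      · have h1 : (win N).filter (fun x => ¬ (a⁻¹ * x ∈ win N)) ⊆
            (win z.natAbs).map ⟨fun x => (io N) * x⁻¹ * (io 1)⁻¹, fun x y h => by
              simpa using h⟩ := by
          intro x hx
          rw [Finset.mem_filter] at hx
          obtain ⟨h2, h3⟩ := hx
          rw [mem_win] at h2 h3
          rw [toAdd_mul, toAdd_inv, ← hz] at h3
          rw [Finset.mem_map]
          refine ⟨io N * x⁻¹ * (io 1)⁻¹, ?_, ?_⟩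
          · rw [mem_win]
            have : Multiplicative.toAdd (io N * x⁻¹ * (io 1)⁻¹) =
                (N : ℤ) - Multiplicative.toAdd x - 1 := by
              rw [toAdd_mul, toAdd_mul, toAdd_inv, toAdd_inv]
              show (N : ℤ) + -(Multiplicative.toAdd x) + -(1 : ℤ) = _
              ring
            rw [this]
            omega
          · apply Multiplicative.toAdd.injective
            simp only [Function.Embedding.coeFn_mk, toAdd_mul, toAdd_inv]
            ring
        refine (Finset.card_le_card h1).trans ?_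
        rw [Finset.card_map, win_card]
    have hsum := Finset.card_filter_add_card_filter_not (s := win N) (fun x => a⁻¹ * x ∈ win N)
    rw [win_card] at hsum
    omega
  have h1 : (N : ℝ) ≤ ((((win N).image (fun x => a * x)) ∩ win N).card : ℝ) + z.natAbs := by
    have := Finset.card_le_card hsub
    exact_mod_cast hcard.trans (Nat.add_le_add_right this _)
  have h2 : ((z.natAbs : ℕ) : ℝ) = |(z : ℝ)| := by
    rw [Nat.cast_natAbs, Int.cast_abs]
  rw [h2] at h1
  linarith

theorem win_folner (a : Zm) :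
    Tendsto (fun N => ((((win N).image (fun x => a * x)) ∩ win N).card : ℝ) / (win N).card)
      atTop (𝓝 1) := by
  have h1 : Tendsto (fun N : ℕ => (1 : ℝ) - |((Multiplicative.toAdd a : ℤ) : ℝ)| / N) atTop (𝓝 1) := by
    have := (tendsto_const_div_atTop_nhds_zero_nat |((Multiplicative.toAdd a : ℤ) : ℝ)|).const_sub 1
    simpa using this
  refine tendsto_of_tendsto_of_tendsto_of_le_of_le' h1 tendsto_const_nhds ?_ ?_
  · filter_upwards [eventually_gt_atTop 0] with N hN
    have hN' : (0 : ℝ) < N := by exact_mod_cast hN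
    rw [win_card, le_div_iff₀ hN']
    have := win_shift a N
    have e : (1 - |((Multiplicative.toAdd a : ℤ) : ℝ)| / N) * N =
        N - |((Multiplicative.toAdd a : ℤ) : ℝ)| := by
      field_simp
    rw [e]
    exact this
  · filter_upwards with N
    have : ((((win N).image (fun x => a * x)) ∩ win N).card : ℝ) ≤ (win N).card := by
      exact_mod_cast Finset.card_le_card Finset.inter_subset_right
    exact div_le_one_of_le₀ this (Nat.cast_nonneg _)

theorem sum_range_mul (ℓ n : ℕ) (F : ℕ → ℝ) :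
    ∑ r ∈ Finset.range ℓ, ∑ w ∈ Finset.range n, F (ℓ * w + r) = ∑ v ∈ Finset.range (ℓ * n), F v := by
  rw [Finset.sum_comm]
  induction n with
  | zero => simp
  | succ n ih =>
    rw [Finset.sum_range_succ, ih, Nat.mul_succ, Finset.sum_range_add]

open Classical in
/-- number of multiples of `q` in `A` below `N` -/
noncomputable def cnt (A : Set ℕ) (q N : ℕ) : ℕ :=
  ((Finset.range N).filter (fun v => v ∈ A ∧ q ∣ v)).card

theorem main_nat (ℓ k q : ℕ) (hℓ : 0 < ℓ) (hk : 0 < k) (hq : 0 < q) (hdvd : q ∣ ℓ + k)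
    (A : Set ℕ) (ε : ℝ) (hε : 0 < ε)
    (hfreq : ∃ᶠ n : ℕ in atTop, 1 + ε ≤ q * (cnt A q (ℓ * n) : ℝ) / ((ℓ * n : ℕ) : ℝ) +
      q * (cnt A q (k * n) : ℝ) / ((k * n : ℕ) : ℝ)) :
    ∃ (B : Set ℕ) (s : ℕ), B.Infinite ∧ (∀ b ∈ B, 0 < b) ∧ q ∣ s ∧
      ∀ b₁ ∈ B, ∀ b₂ ∈ B, b₁ ≠ b₂ → k * b₁ + ℓ * b₂ + s ∈ A := by
  classical
  set P : ℕ → Prop := fun n => 1 + ε ≤ q * (cnt A q (ℓ * n) : ℝ) / ((ℓ * n : ℕ) : ℝ) +
      q * (cnt A q (k * n) : ℝ) / ((k * n : ℕ) : ℝ) with hP
  have hneBot : NeBot (atTop ⊓ 𝓟 {n | P n}) := by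
    rw [Filter.inf_principal_neBot_iff]
    intro U hU
    obtain ⟨N, hN1, hN2⟩ := (hfreq.and_eventually hU).exists
    exact ⟨N, hN2, hN1⟩
  obtain ⟨𝒰, h𝒰⟩ := Ultrafilter.exists_le (atTop ⊓ 𝓟 {n | P n})
  have h𝒰1 : (𝒰 : Filter ℕ) ≤ atTop := h𝒰.trans inf_le_left
  have h𝒰2 : ∀ᶠ n in (𝒰 : Filter ℕ), P n := by
    have : (𝒰 : Filter ℕ) ≤ 𝓟 {n | P n} := h𝒰.trans inf_le_right
    exact Filter.le_principal_iff.mp this
  have hne : ∀ᶠ N in (𝒰 : Filter ℕ), (win N).Nonempty := by
    filter_upwards [h𝒰1 (eventually_gt_atTop 0)] with N hN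
    rw [← Finset.card_pos, win_card]
    exact hN
  have hl : ∀ g : Zm, Tendsto (fun N => ((((win N).image (fun x => g * x)) ∩ win N).card : ℝ) /
      (win N).card) 𝒰 (𝓝 1) := fun g => (win_folner g).mono_left h𝒰1
  have hr : ∀ g : Zm, Tendsto (fun N => ((((win N).image (fun x => x * g)) ∩ win N).card : ℝ) /
      (win N).card) 𝒰 (𝓝 1) := by
    intro g
    have := hl g
    simpa only [mul_comm] using this
  set m : Mean Zm := meanOf 𝒰 win hne hl hr with hm
  have hmt : ∀ f : Zm → ℝ, Bdd f → Tendsto (fun N => avg (win N) f) 𝒰 (𝓝 (m.M f)) :=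
    fun f hf => meanOf_tendsto 𝒰 win hne hl hr hf
  set A' : Set Zm := io '' A with hA'
  set Pos : Set Zm := {x | 0 < Multiplicative.toAdd x} with hPos
  set Q : Set Zm := {x | (q : ℤ) ∣ Multiplicative.toAdd x} with hQ
  have hPos1 : m.M (Pos.indicator 1) = 1 := by
    have h1 := hmt _ (bdd_indicator Pos)
    have h2 : Tendsto (fun N => avg (win N) (Pos.indicator (1 : Zm → ℝ))) 𝒰 (𝓝 1) := by
      have h3 : Tendsto (fun N : ℕ => (1 : ℝ) - 1 / N) atTop (𝓝 1) := by
        have := (tendsto_const_div_atTop_nhds_zero_nat (1 : ℝ)).const_sub 1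
        simpa using this
      refine (h3.mono_left h𝒰1).congr' ?_
      filter_upwards [h𝒰1 (eventually_gt_atTop 0)] with N hN
      rw [avg_win]
      have hN' : (0 : ℝ) < N := by exact_mod_cast hN
      have e1 : ∑ w ∈ Finset.range N, Pos.indicator (1 : Zm → ℝ) (io w) = N - 1 := by
        obtain ⟨M, rfl⟩ : ∃ M, N = M + 1 := ⟨N - 1, by omega⟩
        rw [Finset.sum_range_succ']
        have e2 : ∀ w ∈ Finset.range M, Pos.indicator (1 : Zm → ℝ) (io (w + 1)) = 1 := by
          intro w _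
          have : io (w + 1) ∈ Pos := by
            show (0 : ℤ) < ((w + 1 : ℕ) : ℤ)
            omega
          rw [Set.indicator_of_mem this]; rfl
        have e3 : Pos.indicator (1 : Zm → ℝ) (io 0) = 0 := by
          have : io 0 ∉ Pos := by
            show ¬ ((0 : ℤ) < ((0 : ℕ) : ℤ))
            simp
          rw [Set.indicator_of_notMem this]
        rw [Finset.sum_congr rfl e2, e3]
        simp
      rw [e1]
      field_simp
    exact tendsto_nhds_unique h1 h2
  have hψsum : ∀ N : ℕ, ∑ v ∈ Finset.range N, psi q A' Q (io v) = q * (cnt A q N : ℝ) := by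
    intro N
    unfold psi cnt
    rw [← Finset.mul_sum, Finset.card_filter]
    push_cast
    congr 1
    refine Finset.sum_congr rfl fun v _ => ?_
    by_cases h : v ∈ A ∧ q ∣ v
    · rw [if_pos h]
      have : io v ∈ A' ∩ Q := ⟨⟨v, h.1, rfl⟩, by
        show (q : ℤ) ∣ (v : ℤ)
        exact_mod_cast h.2⟩
      rw [Set.indicator_of_mem this]; rfl
    · rw [if_neg h]
      have : io v ∉ A' ∩ Q := by
        rintro ⟨⟨a, ha, hav⟩, hv⟩
        have := io_inj hav
        subst this
        apply h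
        refine ⟨ha, ?_⟩
        have hv' : (q : ℤ) ∣ (a : ℤ) := hv
        exact_mod_cast hv'
      rw [Set.indicator_of_notMem this]
  have hside : ∀ (L : ℕ) (hL : 0 < L), Tendsto (fun n : ℕ => q * (cnt A q (L * n) : ℝ) /
      ((L * n : ℕ) : ℝ)) 𝒰 (𝓝 (((zPT L hL).R.card : ℝ)⁻¹ * ∑ r ∈ (zPT L hL).R,
        m.M (fun x => psi q A' Q (x ^ L * r)))) := by
    intro L hL
    have h1 : Tendsto (fun n : ℕ => ((zPT L hL).R.card : ℝ)⁻¹ * ∑ r ∈ (zPT L hL).R,
        avg (win n) (fun x => psi q A' Q (x ^ L * r))) 𝒰 (𝓝 (((zPT L hL).R.card : ℝ)⁻¹ *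
        ∑ r ∈ (zPT L hL).R, m.M (fun x => psi q A' Q (x ^ L * r)))) := by
      apply Tendsto.const_mul
      apply tendsto_finsetSum
      intro r _
      exact hmt _ ((psi_bdd q A' Q).comp _)
    refine h1.congr' ?_
    filter_upwards [h𝒰1 (eventually_gt_atTop 0)] with n hn
    have hn' : (0 : ℝ) < n := by exact_mod_cast hn
    have hL' : (0 : ℝ) < L := by exact_mod_cast hL
    rw [zPT_card, zPT_sum L hL (fun r => avg (win n) (fun x => psi q A' Q (x ^ L * r)))]
    have e1 : ∀ r ∈ Finset.range L, avg (win n) (fun x => psi q A' Q (x ^ L * io r)) =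
        (∑ w ∈ Finset.range n, psi q A' Q (io (L * w + r))) / n := by
      intro r _
      rw [avg_win]
      simp only [io_pow, io_mul]
    rw [Finset.sum_congr rfl e1, ← Finset.sum_div,
      sum_range_mul L n (fun v => psi q A' Q (io v)), hψsum]
    push_cast
    field_simp
  have hI : 1 + ε ≤ ((zPT ℓ hℓ).R.card : ℝ)⁻¹ * ∑ r ∈ (zPT ℓ hℓ).R,
        m.M (fun x => psi q A' Q (x ^ ℓ * r)) +
      ((zPT k hk).R.card : ℝ)⁻¹ * ∑ r ∈ (zPT k hk).R,
        m.M (fun x => psi q A' Q (x ^ k * r)) :=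
    ge_of_tendsto ((hside ℓ hℓ).add (hside k hk)) h𝒰2
  have : NeZero q := ⟨hq.ne'⟩
  set g : Zm := io 1 with hg
  have hgen : ∀ a : Zm, a ∈ Subgroup.zpowers g := by
    intro a
    rw [Subgroup.mem_zpowers_iff]
    refine ⟨Multiplicative.toAdd a, ?_⟩
    apply Multiplicative.toAdd.injective
    rw [toAdd_zpow]
    show Multiplicative.toAdd a • ((1 : ℕ) : ℤ) = _
    simp
  have hgs : ∀ s : ℕ, Multiplicative.toAdd (g ^ s) = (s : ℤ) := by
    intro s
    rw [hg, io_pow]
    show ((s * 1 : ℕ) : ℤ) = s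
    simp
  obtain ⟨S, p, hS, hp⟩ := exists_good m (zPT ℓ hℓ) (zPT k hk) (zPT (ℓ + k) (by omega))
    (zPT (k + ℓ) (by omega)) g hgen A' Pos Q hPos1 q hq
    (by
      intro u hu s hs
      have h1 : (q : ℤ) ∣ Multiplicative.toAdd u := hu
      have h2 : (q : ℤ) ∣ Multiplicative.toAdd (g ^ s * u) := hs
      rw [toAdd_mul, hgs] at h2
      have h3 : (q : ℤ) ∣ (s : ℤ) := (Int.dvd_add_left h1).mp h2
      exact_mod_cast h3)
    (fun x : Zm => ((Multiplicative.toAdd x : ℤ) : ZMod q))
    (by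
      intro x b hxb
      have h0 : ((ℓ + k : ℕ) : ZMod q) = 0 := (ZMod.natCast_eq_zero_iff _ _).mpr hdvd
      push_cast at h0
      constructor
      · show (q : ℤ) ∣ Multiplicative.toAdd (b ^ k * x ^ ℓ)
        rw [← ZMod.intCast_zmod_eq_zero_iff_dvd, toAdd_mul, toAdd_pow, toAdd_pow]
        simp only [nsmul_eq_mul]
        push_cast
        rw [hxb, ← add_mul, add_comm, h0, zero_mul]
      · show (q : ℤ) ∣ Multiplicative.toAdd (b ^ ℓ * x ^ k)
        rw [← ZMod.intCast_zmod_eq_zero_iff_dvd, toAdd_mul, toAdd_pow, toAdd_pow]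
        simp only [nsmul_eq_mul]
        push_cast
        rw [hxb, ← add_mul, h0, zero_mul])
    (by linarith)
  obtain ⟨b, s, hsS, hbinj, hbPos, hb⟩ := extract A' Pos g ℓ k S p hp
  have hbn : ∀ i, ∃ c : ℕ, 0 < c ∧ b i = io c := by
    intro i
    have h1 : 0 < Multiplicative.toAdd (b i) := hbPos i
    refine ⟨(Multiplicative.toAdd (b i)).toNat, by omega, ?_⟩
    show b i = Multiplicative.ofAdd (((Multiplicative.toAdd (b i)).toNat : ℕ) : ℤ)
    rw [Int.toNat_of_nonneg h1.le]
    rfl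
  choose c hc0 hc using hbn
  have hcinj : Function.Injective c := by
    intro i j hij
    apply hbinj
    rw [hc, hc, hij]
  refine ⟨Set.range c, s, Set.infinite_range_of_injective hcinj, ?_, hS s hsS, ?_⟩
  · rintro _ ⟨i, rfl⟩
    exact hc0 i
  · have hmem : ∀ v : ℕ, io v ∈ A' → v ∈ A := by
      rintro v ⟨a, ha, hav⟩
      rwa [← io_inj hav]
    rintro _ ⟨i, rfl⟩ _ ⟨j, rfl⟩ hne
    have hij : i ≠ j := fun h => hne (by rw [h])
    rcases lt_or_gt_of_ne hij with h | h
    · have h1 := (hb i j h).1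
      rw [hc i, hc j, hg, io_pow, io_pow, io_pow, io_mul, io_mul] at h1
      have := hmem _ h1
      have e : s * 1 + (k * c i + ℓ * c j) = k * c i + ℓ * c j + s := by ring
      rwa [e] at this
    · have h1 := (hb j i h).2
      rw [hc i, hc j, hg, io_pow, io_pow, io_pow, io_mul, io_mul] at h1
      have := hmem _ h1
      have e : s * 1 + (ℓ * c j + k * c i) = k * c i + ℓ * c j + s := by ring
      rwa [e] at this

end Pool.Agent.N477
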