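import Mathlib
import Pool.Agent.N477.ZMain

set_option autoImplicit false
set_option linter.unusedSectionVars false

open Filter Topology

namespace Pool.Agent.N477

open Classical in
/-- `|A ∩ {1,…,N}|` -/
noncomputable def cI (A : Set ℕ) (N : ℕ) : ℕ := ((Finset.Icc 1 N).filter (fun v => v ∈ A)).card

theorem cI_le (A : Set ℕ) (N : ℕ) : cI A N ≤ N := by
  classical
  unfold cI
  refine (Finset.card_filter_le _ _).trans ?_
  simp

theorem card_mult (q L : ℕ) (hq : 0 < q) :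
    (L : ℝ) / q ≤ (((Finset.range L).filter (fun v => q ∣ v)).card : ℝ) := by
  have hq' : (0 : ℝ) < q := by exact_mod_cast hq
  rw [div_le_iff₀ hq']
  -- every element of range L is q*j + r with j-multiple in the filter
  have h : (Finset.range L).card ≤ ((Finset.range L).filter (fun v => q ∣ v)).card * q := by
    have hmaps : ∀ v ∈ Finset.range L, v - v % q ∈ (Finset.range L).filter (fun v => q ∣ v) := by
      intro v hv
      rw [Finset.mem_filter, Finset.mem_range]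
      rw [Finset.mem_range] at hv
      exact ⟨by omega, Nat.dvd_sub_mod v⟩
    refine Finset.card_le_mul_card_image_of_maps_to hmaps q (fun w _ => ?_) |>.trans (le_of_eq (mul_comm _ _))
    have hsub : (Finset.range L).filter (fun v => v - v % q = w) ⊆
        (Finset.range q).image (fun r => w + r) := by
      intro v hv
      rw [Finset.mem_filter] at hv
      rw [Finset.mem_image]
      refine ⟨v % q, Finset.mem_range.mpr (Nat.mod_lt _ hq), ?_⟩
      have := Nat.mod_le v q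
      omega
    exact (Finset.card_le_card hsub).trans (Finset.card_image_le.trans (by simp))
  rw [Finset.card_range] at h
  exact_mod_cast h

theorem cnt_ge (A : Set ℕ) (q L N : ℕ) (hq : 0 < q) (hNL : N < L) :
    (L : ℝ) / q - L + cI A N ≤ cnt A q L := by
  classical
  have h1 := card_mult q L hq
  have h2 : ((Finset.range L).filter (fun v => q ∣ v)).card ≤
      cnt A q L + ((Finset.range L).filter (fun v => ¬ v ∈ A)).card := by
    unfold cnt
    rw [← Finset.card_union_of_disjoint]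
    · apply Finset.card_le_card
      intro v hv
      rw [Finset.mem_filter] at hv
      rw [Finset.mem_union, Finset.mem_filter, Finset.mem_filter]
      by_cases hA : v ∈ A
      · exact Or.inl ⟨hv.1, hA, hv.2⟩
      · exact Or.inr ⟨hv.1, hA⟩
    · rw [Finset.disjoint_filter]
      intro v _ h3 h4
      exact h4 h3.1
  have h3 : ((Finset.range L).filter (fun v => ¬ v ∈ A)).card + cI A N ≤ L := by
    have h4 := Finset.card_filter_add_card_filter_not (s := Finset.range L) (fun v => v ∈ A)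
    rw [Finset.card_range] at h4
    have h5 : cI A N ≤ ((Finset.range L).filter (fun v => v ∈ A)).card := by
      unfold cI
      apply Finset.card_le_card
      intro v hv
      rw [Finset.mem_filter, Finset.mem_Icc] at hv
      rw [Finset.mem_filter, Finset.mem_range]
      exact ⟨by omega, hv.2⟩
    omega
  have h2' : (((Finset.range L).filter (fun v => q ∣ v)).card : ℝ) ≤
      cnt A q L + (((Finset.range L).filter (fun v => ¬ v ∈ A)).card : ℝ) := by exact_mod_cast h2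
  have h3' : (((Finset.range L).filter (fun v => ¬ v ∈ A)).card : ℝ) + cI A N ≤ L := by
    exact_mod_cast h3
  linarith

theorem card_mult_Ico (q a b : ℕ) (hq : 0 < q) (hab : a ≤ b) :
    (((Finset.Ico a b).filter (fun v => q ∣ v)).card : ℝ) ≤ ((b : ℝ) - a) / q + 1 := by
  have hq' : (0 : ℝ) < q := by exact_mod_cast hq
  have h1 : ((Finset.Ico a b).filter (fun v => q ∣ v)).card ≤ (b - a) / q + 1 := by
    rcases ((Finset.Ico a b).filter (fun v => q ∣ v)).eq_empty_or_nonempty with h | h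
    · rw [h]; simp
    · set v0 := ((Finset.Ico a b).filter (fun v => q ∣ v)).min' h with hv0
      have hv0m := Finset.min'_mem _ h
      rw [← hv0, Finset.mem_filter, Finset.mem_Ico] at hv0m
      have hsub : (Finset.Ico a b).filter (fun v => q ∣ v) ⊆
          (Finset.range ((b - a) / q + 1)).image (fun j => v0 + q * j) := by
        intro v hv
        have hle : v0 ≤ v := Finset.min'_le _ v hv
        rw [Finset.mem_filter, Finset.mem_Ico] at hv
        obtain ⟨c, hc⟩ : q ∣ v - v0 := Nat.dvd_sub hv.2 hv0m.2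
        rw [Finset.mem_image]
        refine ⟨c, ?_, by omega⟩
        rw [Finset.mem_range]
        have : c ≤ (b - a) / q := by
          rw [Nat.le_div_iff_mul_le hq, mul_comm]
          omega
        omega
      exact (Finset.card_le_card hsub).trans (Finset.card_image_le.trans (by simp))
  have h2 : (((b - a) / q : ℕ) : ℝ) ≤ ((b : ℝ) - a) / q := by
    have := @Nat.cast_div_le ℝ _ _ _ (b - a) q
    rw [Nat.cast_sub hab] at this
    exact this
  have h3 : (((Finset.Ico a b).filter (fun v => q ∣ v)).card : ℝ) ≤ (((b - a) / q : ℕ) : ℝ) + 1 := by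
    exact_mod_cast h1
  linarith

theorem cnt_diff (A : Set ℕ) (q a b : ℕ) (hq : 0 < q) (hab : a ≤ b) :
    (cnt A q b : ℝ) ≤ cnt A q a + (((b : ℝ) - a) / q + 1) := by
  classical
  have h1 := card_mult_Ico q a b hq hab
  have h2 : cnt A q b ≤ cnt A q a + ((Finset.Ico a b).filter (fun v => q ∣ v)).card := by
    unfold cnt
    have hsub : (Finset.range b).filter (fun v => v ∈ A ∧ q ∣ v) ⊆
        (Finset.range a).filter (fun v => v ∈ A ∧ q ∣ v) ∪
          (Finset.Ico a b).filter (fun v => q ∣ v) := by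
      intro v hv
      rw [Finset.mem_filter, Finset.mem_range] at hv
      rw [Finset.mem_union, Finset.mem_filter, Finset.mem_filter, Finset.mem_range, Finset.mem_Ico]
      rcases lt_or_ge v a with h | h
      · exact Or.inl ⟨h, hv.2⟩
      · exact Or.inr ⟨⟨h, hv.1⟩, hv.2.2⟩
    exact (Finset.card_le_card hsub).trans (Finset.card_union_le _ _)
  have h2' : (cnt A q b : ℝ) ≤ cnt A q a + (((Finset.Ico a b).filter (fun v => q ∣ v)).card : ℝ) := by
    exact_mod_cast h2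
  linarith

/-- upper density thresholds -/
theorem upper_case (ℓ k q : ℕ) (hk : 0 < k) (hkℓ : k < ℓ) (hq : 0 < q) (hdvd : q ∣ ℓ + k)
    (A : Set ℕ) (δ : ℝ) (hδ : 1 - (k : ℝ) / ((ℓ + k) * q) < δ)
    (hA : ∃ᶠ N : ℕ in atTop, δ < (cI A N : ℝ) / N) :
    ∃ (B : Set ℕ) (s : ℕ), B.Infinite ∧ (∀ b ∈ B, 0 < b) ∧ q ∣ s ∧
      ∀ b₁ ∈ B, ∀ b₂ ∈ B, b₁ ≠ b₂ → k * b₁ + ℓ * b₂ + s ∈ A := by
  have hℓ : 0 < ℓ := hk.trans hkℓ
  have hk' : (0 : ℝ) < k := by exact_mod_cast hk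
  have hℓ' : (0 : ℝ) < ℓ := by exact_mod_cast hℓ
  have hq' : (0 : ℝ) < q := by exact_mod_cast hq
  have hkℓ' : (k : ℝ) < ℓ := by exact_mod_cast hkℓ
  set η : ℝ := δ - (1 - (k : ℝ) / ((ℓ + k) * q)) with hη
  have hηp : 0 < η := by rw [hη]; linarith
  -- target excess
  set ε : ℝ := q * η * (ℓ + k) / (4 * k) with hε
  have hεp : 0 < ε := by positivity
  refine main_nat ℓ k q hℓ hk hq hdvd A ε hεp ?_
  rw [Filter.frequently_atTop] at hA ⊢
  intro n0
  -- choose N large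
  obtain ⟨n1, hn1⟩ := exists_nat_gt (max ((q : ℝ) / (k * ε)) (4 * ℓ * (|δ| + 1) / η))
  have hn1a : (q : ℝ) / (k * ε) < n1 := (le_max_left _ _).trans_lt hn1
  have hn1b : 4 * ℓ * (|δ| + 1) / η < n1 := (le_max_right _ _).trans_lt hn1
  obtain ⟨N, hN, hNd⟩ := hA (max (ℓ * n0) (max (ℓ * (n1 + 1)) 1))
  have hN0 : ℓ * n0 ≤ N := (le_max_left _ _).trans hN
  have hN1 : ℓ * (n1 + 1) ≤ N := ((le_max_left _ _).trans (le_max_right _ _)).trans hN
  have hNpos : 0 < N := ((le_max_right _ _).trans (le_max_right _ _)).trans hN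
  have hNpos' : (0 : ℝ) < N := by exact_mod_cast hNpos
  set n : ℕ := N / ℓ + 1 with hn
  have hnN : N < ℓ * n := by
    rw [hn, Nat.mul_succ]
    exact Nat.lt_mul_div_succ N hℓ
  have hnN2 : ℓ * n ≤ N + ℓ := by
    rw [hn, Nat.mul_succ]
    have := Nat.mul_div_le N ℓ
    omega
  have hnn0 : n0 ≤ n := by
    have : n0 ≤ N / ℓ := by rw [Nat.le_div_iff_mul_le hℓ, mul_comm]; exact hN0
    omega
  have hnn1 : n1 ≤ n := by
    have : n1 + 1 ≤ N / ℓ := by rw [Nat.le_div_iff_mul_le hℓ, mul_comm]; exact hN1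
    omega
  have hnpos : 0 < n := by rw [hn]; exact Nat.succ_pos _
  have hnpos' : (0 : ℝ) < n := by exact_mod_cast hnpos
  refine ⟨n, hnn0, ?_⟩
  have hLr : ((ℓ * n : ℕ) : ℝ) = ℓ * n := by push_cast; ring
  have hkr : ((k * n : ℕ) : ℝ) = k * n := by push_cast; ring
  have c1 := cnt_ge A q (ℓ * n) N hq hnN
  have c2 := cnt_diff A q (k * n) (ℓ * n) hq (Nat.mul_le_mul_right _ hkℓ.le)
  rw [hLr] at c1
  rw [hLr, hkr] at c2
  rw [hLr, hkr]
  have hNd' : δ * N < cI A N := by rwa [lt_div_iff₀ hNpos'] at hNd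
  -- lower bound for cI in terms of ℓ n
  have hNl : (ℓ : ℝ) * n ≤ N + ℓ := by
    have : ((ℓ * n : ℕ) : ℝ) ≤ ((N + ℓ : ℕ) : ℝ) := by exact_mod_cast hnN2
    rw [hLr] at this
    push_cast at this
    exact this
  have hNl2 : (N : ℝ) ≤ ℓ * n := by
    have : (N : ℝ) ≤ ((ℓ * n : ℕ) : ℝ) := by exact_mod_cast hnN.le
    rwa [hLr] at this
  have hcI : (δ - η / 4) * (ℓ * n) ≤ cI A N := by
    have h1 : δ * (ℓ * n) - |δ| * ℓ ≤ δ * N := by
      have h2 : δ * (ℓ * n - N) ≤ |δ| * ℓ := by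
        calc δ * (ℓ * n - N) ≤ |δ| * (ℓ * n - N) :=
              mul_le_mul_of_nonneg_right (le_abs_self _) (by linarith)
          _ ≤ |δ| * ℓ := mul_le_mul_of_nonneg_left (by linarith) (abs_nonneg _)
      linarith [mul_sub δ (ℓ * n : ℝ) N]
    have h3 : |δ| * ℓ ≤ η / 4 * (ℓ * n) := by
      rw [div_lt_iff₀ hηp] at hn1b
      have hnn1' : (n1 : ℝ) ≤ n := by exact_mod_cast hnn1
      have h4 : 4 * ℓ * (|δ| + 1) ≤ n * η := hn1b.le.trans (mul_le_mul_of_nonneg_right hnn1' hηp.le)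
      have hℓ1 : (1 : ℝ) ≤ ℓ := by exact_mod_cast hℓ
      have h5 : |δ| ≤ η / 4 * n := by
        have h6 : 4 * 1 * (|δ| + 1) ≤ 4 * ℓ * (|δ| + 1) := by
          have : (0 : ℝ) ≤ |δ| + 1 := by positivity
          nlinarith
        nlinarith [abs_nonneg δ]
      calc |δ| * ℓ ≤ (η / 4 * n) * ℓ := mul_le_mul_of_nonneg_right h5 hℓ'.le
        _ = _ := by ring
    linarith [sub_mul δ (η / 4) (ℓ * n : ℝ)]
  -- X
  set X : ℝ := q * (cnt A q (ℓ * n) : ℝ) / (ℓ * n) with hX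
  have hLn : (0 : ℝ) < ℓ * n := by positivity
  have hXge : (ℓ : ℝ) / (ℓ + k) + q * (3 * η / 4) ≤ X := by
    rw [hX, le_div_iff₀ hLn]
    have h1 : q * (((ℓ : ℝ) * n) / q - ℓ * n + cI A N) ≤ q * (cnt A q (ℓ * n) : ℝ) :=
      mul_le_mul_of_nonneg_left c1 hq'.le
    have h2 : q * (((ℓ : ℝ) * n) / q - ℓ * n + cI A N) = ℓ * n - q * (ℓ * n) + q * cI A N := by
      field_simp
    have h3 : q * ((δ - η / 4) * (ℓ * n)) ≤ q * (cI A N : ℝ) := mul_le_mul_of_nonneg_left hcI hq'.le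
    have h4 : δ - η / 4 = (1 - (k : ℝ) / ((ℓ + k) * q)) + 3 * η / 4 := by rw [hη]; ring
    rw [h4] at h3
    have h5 : q * (((1 - (k : ℝ) / ((ℓ + k) * q)) + 3 * η / 4) * (ℓ * n)) =
        (q - k / (ℓ + k) + q * (3 * η / 4)) * (ℓ * n) := by
      field_simp
    rw [h5] at h3
    have h6 : (ℓ : ℝ) / (ℓ + k) = 1 - k / (ℓ + k) := by field_simp; ring
    rw [h6]
    nlinarith
  -- second term
  have hY : X * (ℓ / k) - (ℓ / k - 1) - q / (k * n) ≤ q * (cnt A q (k * n) : ℝ) / (k * n) := by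
    have hkn : (0 : ℝ) < k * n := by positivity
    rw [le_div_iff₀ hkn]
    have h1 : q * (cnt A q (ℓ * n) : ℝ) ≤ q * ((cnt A q (k * n) : ℝ) +
        (((ℓ : ℝ) * n - k * n) / q + 1)) := mul_le_mul_of_nonneg_left c2 hq'.le
    have h2 : q * ((cnt A q (k * n) : ℝ) + (((ℓ : ℝ) * n - k * n) / q + 1)) =
        q * (cnt A q (k * n) : ℝ) + (ℓ * n - k * n) + q := by
      field_simp
      ring
    rw [h2] at h1
    have h3 : (X * (ℓ / k) - (ℓ / k - 1) - q / (k * n)) * (k * n) =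
        q * (cnt A q (ℓ * n) : ℝ) - (ℓ * n - k * n) - q := by
      rw [hX]
      field_simp
    rw [h3]
    linarith
  have hfin : q / (k * n) ≤ ε := by
    have hnn1' : (n1 : ℝ) ≤ n := by exact_mod_cast hnn1
    rw [div_lt_iff₀ (by positivity)] at hn1a
    rw [div_le_iff₀ (by positivity)]
    have : (n1 : ℝ) * (k * ε) ≤ n * (k * ε) := mul_le_mul_of_nonneg_right hnn1' (by positivity)
    calc (q : ℝ) ≤ n1 * (k * ε) := hn1a.le
      _ ≤ n * (k * ε) := this
      _ = ε * (k * n) := by ring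
  have hsum : 1 + 3 * ε ≤ X + (X * (ℓ / k) - (ℓ / k - 1)) := by
    have h1 : X + (X * (ℓ / k) - (ℓ / k - 1)) = X * ((ℓ + k) / k) + 1 - ℓ / k := by
      field_simp
      ring
    rw [h1]
    have h2 : ((ℓ : ℝ) / (ℓ + k) + q * (3 * η / 4)) * ((ℓ + k) / k) ≤ X * ((ℓ + k) / k) :=
      mul_le_mul_of_nonneg_right hXge (by positivity)
    have h3 : ((ℓ : ℝ) / (ℓ + k) + q * (3 * η / 4)) * ((ℓ + k) / k) = ℓ / k + 3 * ε := by
      rw [hε]
      field_simp
    linarith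
  linarith

/-- lower density thresholds -/
theorem lower_case (ℓ k q : ℕ) (hk : 0 < k) (hℓ : 0 < ℓ) (hq : 0 < q) (hdvd : q ∣ ℓ + k)
    (A : Set ℕ) (δ : ℝ) (hδ : 1 - 1 / (2 * (q : ℝ)) < δ)
    (hA : ∀ᶠ N : ℕ in atTop, δ < (cI A N : ℝ) / N) :
    ∃ (B : Set ℕ) (s : ℕ), B.Infinite ∧ (∀ b ∈ B, 0 < b) ∧ q ∣ s ∧
      ∀ b₁ ∈ B, ∀ b₂ ∈ B, b₁ ≠ b₂ → k * b₁ + ℓ * b₂ + s ∈ A := by
  have hk' : (0 : ℝ) < k := by exact_mod_cast hk
  have hℓ' : (0 : ℝ) < ℓ := by exact_mod_cast hℓ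
  have hq' : (0 : ℝ) < q := by exact_mod_cast hq
  set η : ℝ := δ - (1 - 1 / (2 * (q : ℝ))) with hη
  have hηp : 0 < η := by rw [hη]; linarith
  refine main_nat ℓ k q hℓ hk hq hdvd A (q * η) (by positivity) ?_
  apply Filter.Eventually.frequently
  rw [Filter.eventually_atTop] at hA ⊢
  obtain ⟨N0, hN0⟩ := hA
  obtain ⟨n1, hn1⟩ := exists_nat_gt (2 * (|δ| + 1) / η)
  have key : ∀ L : ℕ, N0 + 1 < L → n1 ≤ L → 1 / 2 + q * (η / 2) ≤ q * (cnt A q L : ℝ) / L := by
    intro L hL hL1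
    have hLpos : (0 : ℝ) < L := by
      have : 0 < L := by omega
      exact_mod_cast this
    have h1 := hN0 (L - 1) (by omega)
    have hL2 : (0 : ℝ) < ((L - 1 : ℕ) : ℝ) := by
      have : 0 < L - 1 := by omega
      exact_mod_cast this
    rw [lt_div_iff₀ hL2] at h1
    have hc : ((L - 1 : ℕ) : ℝ) = L - 1 := by
      rw [Nat.cast_sub (by omega)]; simp
    rw [hc] at h1
    have c1 := cnt_ge A q L (L - 1) hq (by omega)
    rw [le_div_iff₀ hLpos]
    have h2 : q * ((L : ℝ) / q - L + cI A (L - 1)) ≤ q * (cnt A q L : ℝ) :=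
      mul_le_mul_of_nonneg_left c1 hq'.le
    have h3 : q * ((L : ℝ) / q - L + cI A (L - 1)) = L - q * L + q * cI A (L - 1) := by
      field_simp
    have h4 : (δ - η / 2) * L ≤ cI A (L - 1) := by
      have h5 : δ ≤ η / 2 * L := by
        rw [div_lt_iff₀ hηp] at hn1
        have hL1' : (n1 : ℝ) ≤ L := by exact_mod_cast hL1
        have h6 : (n1 : ℝ) * η ≤ L * η := mul_le_mul_of_nonneg_right hL1' hηp.le
        have h7 := le_abs_self δ
        nlinarith
      nlinarith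
    have h5 : q * ((δ - η / 2) * L) ≤ q * (cI A (L - 1) : ℝ) := mul_le_mul_of_nonneg_left h4 hq'.le
    have h6 : δ - η / 2 = (1 - 1 / (2 * (q : ℝ))) + η / 2 := by rw [hη]; ring
    rw [h6] at h5
    have h7 : q * (((1 - 1 / (2 * (q : ℝ))) + η / 2) * L) = (q - 1 / 2 + q * (η / 2)) * L := by
      field_simp
    rw [h7] at h5
    nlinarith
  refine ⟨N0 + n1 + 2, fun n hn => ?_⟩
  have hL1 : n ≤ ℓ * n := Nat.le_mul_of_pos_left n hℓ
  have hL2 : n ≤ k * n := Nat.le_mul_of_pos_left n hk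
  have e1 := key (ℓ * n) (by omega) (by omega)
  have e2 := key (k * n) (by omega) (by omega)
  linarith

/-- from a shift to a positive shift -/
theorem pos_shift (ℓ k : ℕ) (hk : 0 < k) (A B : Set ℕ) (s : ℕ) (hB : B.Infinite)
    (h : ∀ b₁ ∈ B, ∀ b₂ ∈ B, b₁ ≠ b₂ → k * b₁ + ℓ * b₂ + s ∈ A) :
    ∃ (B' : Set ℕ) (t : ℕ), B'.Infinite ∧ (∀ b ∈ B', 1 ≤ b) ∧ 1 ≤ t ∧
      ∀ b₁ ∈ B', ∀ b₂ ∈ B', b₁ ≠ b₂ → k * b₁ + ℓ * b₂ + t ∈ A := by
  refine ⟨{b | 1 ≤ b ∧ b + 1 ∈ B}, s + ℓ + k, ?_, fun b hb => hb.1, by omega, ?_⟩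
  · rw [← Set.infinite_image_iff (f := fun b : ℕ => b + 1) (Function.Injective.injOn (by
      intro a b hab; simpa using hab))]
    have : (fun b : ℕ => b + 1) '' {b | 1 ≤ b ∧ b + 1 ∈ B} = B \ {0, 1} := by
      ext x
      simp only [Set.mem_image, Set.mem_ofPred_eq, Set.mem_sdiff, Set.mem_insert_iff,
        Set.mem_singleton_iff]
      constructor
      · rintro ⟨b, ⟨h1, h2⟩, rfl⟩
        exact ⟨h2, by omega⟩
      · rintro ⟨h1, h2⟩
        refine ⟨x - 1, ⟨by omega, ?_⟩, by omega⟩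
        have : x - 1 + 1 = x := by omega
        rwa [this]
    rw [this]
    exact hB.sdiff (Set.toFinite _)
  · rintro b₁ ⟨_, h1⟩ b₂ ⟨_, h2⟩ hne
    have := h _ h1 _ h2 (by simpa using hne)
    have e : k * (b₁ + 1) + ℓ * (b₂ + 1) + s = k * b₁ + ℓ * b₂ + (s + ℓ + k) := by ring
    rwa [e] at this

/-- absorbing a shift divisible by `ℓ + k` -/
theorem absorb_shift (ℓ k : ℕ) (A B : Set ℕ) (s : ℕ) (hs : ℓ + k ∣ s) (hB : B.Infinite)
    (hpos : ∀ b ∈ B, 0 < b)
    (h : ∀ b₁ ∈ B, ∀ b₂ ∈ B, b₁ ≠ b₂ → k * b₁ + ℓ * b₂ + s ∈ A) :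
    ∃ B' : Set ℕ, B'.Infinite ∧ (∀ b ∈ B', 1 ≤ b) ∧
      ∀ b₁ ∈ B', ∀ b₂ ∈ B', b₁ ≠ b₂ → k * b₁ + ℓ * b₂ ∈ A := by
  obtain ⟨j, rfl⟩ := hs
  refine ⟨(fun b => b + j) '' B, ?_, ?_, ?_⟩
  · exact hB.image (Function.Injective.injOn (by intro a b hab; simpa using hab))
  · rintro _ ⟨b, hb, rfl⟩
    have := hpos b hb
    show 1 ≤ b + j
    omega
  · rintro _ ⟨b₁, h1, rfl⟩ _ ⟨b₂, h2, rfl⟩ hne
    have := h _ h1 _ h2 (by rintro rfl; exact hne rfl)
    have e : k * (b₁ + j) + ℓ * (b₂ + j) = k * b₁ + ℓ * b₂ + (ℓ + k) * j := by ring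
    show k * (b₁ + j) + ℓ * (b₂ + j) ∈ A
    rwa [e]

end Pool.Agent.N477
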