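import Mathlib

set_option autoImplicit false

/-!
# Rows, extreme directions of pointed cones, and bases of rows
-/

namespace Pool.Agent.N477.MD

open Matrix

variable {n : ℕ}

/-- a functional on `ℝ^n` is a dot product -/
theorem dual_eq_dot (f : (Fin n → ℝ) →ₗ[ℝ] ℝ) : ∃ y : Fin n → ℝ, ∀ x, f x = y ⬝ᵥ x := by
  refine ⟨fun i => f (Pi.single i 1), fun x => ?_⟩
  have hx : x = ∑ i, x i • (Pi.single i (1:ℝ) : Fin n → ℝ) := by
    ext j
    simp [Finset.sum_apply, Pi.single_apply]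
  conv_lhs => rw [hx]
  rw [map_sum]
  simp [dotProduct, mul_comm]

/-- rows with trivial common kernel span -/
theorem span_eq_top {ι : Type*} (a : ι → Fin n → ℝ) (T : Set ι)
    (h : ∀ x : Fin n → ℝ, (∀ j ∈ T, a j ⬝ᵥ x = 0) → x = 0) :
    Submodule.span ℝ (a '' T) = ⊤ := by
  by_contra hne
  obtain ⟨f, hf0, hf⟩ := Submodule.exists_le_ker_of_lt_top _ (lt_top_iff_ne_top.2 hne)
  obtain ⟨y, hy⟩ := dual_eq_dot f
  have hy0 : y = 0 := by
    apply h
    intro j hj
    have h1 : a j ∈ LinearMap.ker f := hf (Submodule.subset_span ⟨j, hj, rfl⟩)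
    rw [LinearMap.mem_ker, hy, dotProduct_comm] at h1
    exact h1
  apply hf0
  ext i
  simp [hy, hy0]

/-- a basis of rows in a spanning set of rows, containing a given independent set of rows -/
theorem exists_basis_ext {ι : Type*} (a : ι → Fin n → ℝ) {I T : Set ι} (hIT : I ⊆ T)
    (hI : LinearIndepOn ℝ a I)
    (h : ∀ x : Fin n → ℝ, (∀ j ∈ T, a j ⬝ᵥ x = 0) → x = 0) :
    ∃ B : Fin n → ι, (∀ k, B k ∈ T) ∧ I ⊆ Set.range B ∧ Function.Injective B ∧
      LinearIndependent ℝ (fun k => a (B k)) := by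
  obtain ⟨s, hsT, hIs, hspan, hs⟩ := exists_linearIndepOn_extension hI hIT
  have htop : Submodule.span ℝ (a '' s) = ⊤ := by
    rw [eq_top_iff, ← span_eq_top a T h]
    exact Submodule.span_le.2 hspan
  have hli : LinearIndependent ℝ (fun k : s => a k) := hs
  let bs := Module.Basis.mk hli (by
    rw [← htop]
    apply Submodule.span_mono
    rintro _ ⟨j, hj, rfl⟩
    exact ⟨⟨j, hj⟩, rfl⟩)
  have hfin : Fintype s := by
    exact Module.Basis.fintypeIndexOfRankLtAleph0 bs (by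
      rw [← Module.finrank_eq_rank ℝ (Fin n → ℝ)]
      exact Cardinal.natCast_lt_aleph0)
  have hcard : Fintype.card s = n := by
    rw [← Module.finrank_eq_card_basis bs]; simp
  let e : Fin n ≃ s := (Fintype.equivFinOfCardEq hcard).symm
  refine ⟨fun k => (e k : ι), fun k => hsT (e k).2, ?_, ?_, ?_⟩
  · intro j hj
    exact ⟨e.symm ⟨j, hIs hj⟩, by simp⟩
  · intro k l hkl
    exact e.injective (Subtype.ext hkl)
  · exact hli.comp e e.injective

theorem exists_basis {ι : Type*} (a : ι → Fin n → ℝ) {T : Set ι}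
    (h : ∀ x : Fin n → ℝ, (∀ j ∈ T, a j ⬝ᵥ x = 0) → x = 0) :
    ∃ B : Fin n → ι, (∀ k, B k ∈ T) ∧ Function.Injective B ∧
      LinearIndependent ℝ (fun k => a (B k)) := by
  obtain ⟨B, h1, -, h2, h3⟩ := exists_basis_ext a (Set.empty_subset T)
    (linearIndepOn_empty ℝ a) h
  exact ⟨B, h1, h2, h3⟩

/-- `n` independent rows span -/
theorem exists_coords {ι : Type*} {a : ι → Fin n → ℝ} {B : Fin n → ι}
    (hB : LinearIndependent ℝ (fun k => a (B k))) (z : Fin n → ℝ) :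
    ∃ β : Fin n → ℝ, z = ∑ k, β k • a (B k) := by
  let bs := Module.Basis.mk hB (by
    rw [hB.span_eq_top_of_card_eq_finrank' (by simp)])
  refine ⟨fun k => bs.repr z k, ?_⟩
  have h := bs.sum_repr z
  simpa [bs] using h.symm

theorem eq_zero_of_basis {ι : Type*} {a : ι → Fin n → ℝ} {B : Fin n → ι}
    (hB : LinearIndependent ℝ (fun k => a (B k))) {x : Fin n → ℝ}
    (hx : ∀ k, a (B k) ⬝ᵥ x = 0) : x = 0 := by
  obtain ⟨β, hβ⟩ := exists_coords hB x
  have h1 : x ⬝ᵥ x = 0 := by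
    conv_lhs => lhs; rw [hβ]
    rw [sum_dotProduct]
    apply Finset.sum_eq_zero
    intro k _
    rw [smul_dotProduct, hx k, smul_zero]
  exact dotProduct_self_eq_zero.1 h1

/-- all rows are combinations, with coefficients at most `κ`, of the rows of any basis of rows -/
def Bal {ι : Type*} (a : ι → Fin n → ℝ) (κ : ℝ) : Prop :=
  ∀ (B : Fin n → ι) (l : ι) (β : Fin n → ℝ), LinearIndependent ℝ (fun k => a (B k)) →
    a l = ∑ k, β k • a (B k) → ∀ k, |β k| ≤ κ

/-- a pointed cone with a point where `u` is positive has an extreme direction where `u` is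
positive -/
theorem exists_extreme {J : Type*} [Fintype J] (q : J → Fin n → ℝ)
    (hpt : ∀ x : Fin n → ℝ, (∀ j, q j ⬝ᵥ x = 0) → x = 0)
    {u d : Fin n → ℝ} (hd : ∀ j, q j ⬝ᵥ d ≤ 0) (hu : 0 < u ⬝ᵥ d) :
    ∃ e : Fin n → ℝ, (∀ j, q j ⬝ᵥ e ≤ 0) ∧ 0 < u ⬝ᵥ e ∧
      ∀ f : Fin n → ℝ, (∀ j, q j ⬝ᵥ e = 0 → q j ⬝ᵥ f = 0) → ∃ t : ℝ, f = t • e := by
  classical
  let T : (Fin n → ℝ) → Finset J := fun e => Finset.univ.filter (fun j => q j ⬝ᵥ e = 0)
  let S : Set (Fin n → ℝ) := {e | (∀ j, q j ⬝ᵥ e ≤ 0) ∧ 0 < u ⬝ᵥ e}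
  have hwf := (measure (fun e : Fin n → ℝ => Fintype.card J - (T e).card)).wf
  obtain ⟨e, heS, hemin⟩ := hwf.has_min S ⟨d, hd, hu⟩
  have hmax : ∀ e' ∈ S, ¬ (T e ⊂ T e') := by
    intro e' he' hss
    have h1 := hemin e' he'
    apply h1
    show Fintype.card J - (T e').card < Fintype.card J - (T e).card
    have h2 := Finset.card_lt_card hss
    have h3 := Finset.card_le_univ (T e')
    omega
  obtain ⟨heQ, heu⟩ := heS
  have he0 : e ≠ 0 := by
    rintro rfl
    simp at heu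
  -- step α
  have hα : ∀ f : Fin n → ℝ, (∀ j, q j ⬝ᵥ e = 0 → q j ⬝ᵥ f = 0) → 0 ≤ u ⬝ᵥ f →
      ∀ j, q j ⬝ᵥ f ≤ 0 := by
    intro f hf huf
    by_contra hcon
    push Not at hcon
    obtain ⟨j0, hj0⟩ := hcon
    let A : Finset J := Finset.univ.filter (fun j => 0 < q j ⬝ᵥ f)
    have hA : A.Nonempty := ⟨j0, by simp [A, hj0]⟩
    obtain ⟨j1, hj1, hmin⟩ := Finset.exists_min_image A (fun j => (-(q j ⬝ᵥ e)) / (q j ⬝ᵥ f)) hA
    have hj1f : 0 < q j1 ⬝ᵥ f := by simpa [A] using hj1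
    have hj1e : q j1 ⬝ᵥ e < 0 := by
      refine lt_of_le_of_ne (heQ j1) (fun h => ?_)
      rw [hf j1 h] at hj1f
      exact lt_irrefl _ hj1f
    set t := (-(q j1 ⬝ᵥ e)) / (q j1 ⬝ᵥ f) with ht
    have htpos : 0 < t := div_pos (by linarith) hj1f
    have hin : ∀ j, q j ⬝ᵥ (e + t • f) ≤ 0 := by
      intro j
      rw [dotProduct_add, dotProduct_smul, smul_eq_mul]
      rcases le_or_gt (q j ⬝ᵥ f) 0 with h | h
      · have := mul_nonpos_of_nonneg_of_nonpos htpos.le h
        have := heQ j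
        linarith
      · have h2 := hmin j (by simp [A, h])
        have h3 : t * (q j ⬝ᵥ f) ≤ -(q j ⬝ᵥ e) := by
          rw [le_div_iff₀ h] at h2
          exact h2
        linarith
    have hzero : q j1 ⬝ᵥ (e + t • f) = 0 := by
      rw [dotProduct_add, dotProduct_smul, smul_eq_mul, ht, div_mul_cancel₀ _ hj1f.ne']
      ring
    have huS : 0 < u ⬝ᵥ (e + t • f) := by
      rw [dotProduct_add, dotProduct_smul, smul_eq_mul]
      have := mul_nonneg htpos.le huf
      linarith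
    apply hmax _ ⟨hin, huS⟩
    rw [Finset.ssubset_iff_of_subset]
    · exact ⟨j1, by simpa [T] using hzero, by simp [T]; exact hj1e.ne⟩
    · intro j hj
      simp only [T, Finset.mem_filter, Finset.mem_univ, true_and] at hj ⊢
      rw [dotProduct_add, dotProduct_smul, hj, hf j hj]
      simp
  have hβ : ∀ f : Fin n → ℝ, (∀ j, q j ⬝ᵥ e = 0 → q j ⬝ᵥ f = 0) → 0 ≤ u ⬝ᵥ f →
      ∃ t : ℝ, f = t • e := by
    intro f hf huf
    have hfQ := hα f hf huf
    let A : Finset J := Finset.univ.filter (fun j => q j ⬝ᵥ e < 0)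
    have hA : A.Nonempty := by
      by_contra hne
      rw [Finset.not_nonempty_iff_eq_empty] at hne
      apply he0
      apply hpt
      intro j
      by_contra h
      have : j ∈ A := by simp [A]; exact lt_of_le_of_ne (heQ j) h
      rw [hne] at this
      simp at this
    obtain ⟨j1, hj1, hmin⟩ := Finset.exists_min_image A (fun j => (q j ⬝ᵥ f) / (q j ⬝ᵥ e)) hA
    have hj1e : q j1 ⬝ᵥ e < 0 := by simpa [A] using hj1
    set s := (q j1 ⬝ᵥ f) / (q j1 ⬝ᵥ e) with hs
    set g := f - s • e with hg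
    have hgQ : ∀ j, q j ⬝ᵥ g ≤ 0 := by
      intro j
      rw [hg, dotProduct_sub, dotProduct_smul, smul_eq_mul]
      rcases eq_or_ne (q j ⬝ᵥ e) 0 with h | h
      · rw [h, hf j h]; simp
      · have h' : q j ⬝ᵥ e < 0 := lt_of_le_of_ne (heQ j) h
        have h2 := hmin j (by simp [A, h'])
        rw [le_div_iff_of_neg h'] at h2
        linarith
    have hgT : ∀ j, q j ⬝ᵥ e = 0 → q j ⬝ᵥ g = 0 := by
      intro j hj
      rw [hg, dotProduct_sub, dotProduct_smul, hj, hf j hj]; simp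
    have hg1 : q j1 ⬝ᵥ g = 0 := by
      rw [hg, dotProduct_sub, dotProduct_smul, smul_eq_mul, hs, div_mul_cancel₀ _ hj1e.ne]
      ring
    rcases lt_or_ge 0 (u ⬝ᵥ g) with h | h
    · exfalso
      apply hmax g ⟨hgQ, h⟩
      rw [Finset.ssubset_iff_of_subset]
      · exact ⟨j1, by simpa [T] using hg1, by simp [T]; exact hj1e.ne⟩
      · intro j hj
        simp only [T, Finset.mem_filter, Finset.mem_univ, true_and] at hj ⊢
        exact hgT j hj
    · have hneg := hα (-g) (fun j hj => by rw [dotProduct_neg, hgT j hj, neg_zero])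
        (by rw [dotProduct_neg]; linarith)
      have hg0 : g = 0 := by
        apply hpt
        intro j
        have h1 := hgQ j
        have h2 := hneg j
        rw [dotProduct_neg] at h2
        linarith
      exact ⟨s, by rw [hg] at hg0; exact sub_eq_zero.1 hg0⟩
  refine ⟨e, heQ, heu, fun f hf => ?_⟩
  rcases le_total 0 (u ⬝ᵥ f) with h | h
  · exact hβ f hf h
  · obtain ⟨t, ht⟩ := hβ (-f) (fun j hj => by rw [dotProduct_neg, hf j hj, neg_zero])
      (by rw [dotProduct_neg]; linarith)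
    exact ⟨-t, by rw [neg_smul, ← ht, neg_neg]⟩

/-- the ratios of the values of the rows at an elementary vector are at most `κ` -/
theorem ratio_le {ι : Type*} {a : ι → Fin n → ℝ} {κ : ℝ} (hκ : Bal a κ) {e : Fin n → ℝ}
    (he : ∀ f : Fin n → ℝ, (∀ j, a j ⬝ᵥ e = 0 → a j ⬝ᵥ f = 0) → ∃ t : ℝ, f = t • e)
    (k l : ι) (hk : a k ⬝ᵥ e ≠ 0) : |a l ⬝ᵥ e| ≤ κ * |a k ⬝ᵥ e| := by
  classical
  obtain ⟨B, hBT, hinj, hB⟩ := exists_basis a (T := {j | a j ⬝ᵥ e = 0} ∪ {k}) (by
    intro x hx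
    obtain ⟨t, ht⟩ := he x (fun j hj => hx j (Or.inl hj))
    have h1 := hx k (Or.inr rfl)
    rw [ht, dotProduct_smul, smul_eq_mul] at h1
    have : t = 0 := by
      rcases mul_eq_zero.1 h1 with h | h
      · exact h
      · exact absurd h hk
    rw [ht, this, zero_smul])
  have hex : ∃ i, B i = k := by
    by_contra hne
    push Not at hne
    have h0 : e = 0 := by
      apply eq_zero_of_basis hB
      intro i
      rcases hBT i with h | h
      · exact h
      · exact absurd h (hne i)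
    exact hk (by rw [h0]; simp)
  obtain ⟨i, hi⟩ := hex
  obtain ⟨β, hβ⟩ := exists_coords hB (a l)
  have hle := hκ B l β hB hβ i
  have hval : a l ⬝ᵥ e = β i * (a k ⬝ᵥ e) := by
    rw [hβ, sum_dotProduct, Finset.sum_eq_single i]
    · rw [smul_dotProduct, hi, smul_eq_mul]
    · intro j _ hji
      rw [smul_dotProduct]
      rcases hBT j with h | h
      · have h' : a (B j) ⬝ᵥ e = 0 := h
        rw [h', smul_zero]
      · exact absurd (hinj ((h : B j = k).trans hi.symm)) hji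
    · simp
  rw [hval, abs_mul]
  exact mul_le_mul_of_nonneg_right hle (abs_nonneg _)

/-- **Elementary vectors.** In a cone `a_j x ≤ 0` (`j ∈ M`), `a_j x ≥ 0` (`j ∈ P`) which is pointed,
there is a vector `e` with `u e > 0`, normalised such that all the nonzero numbers `|a_k e|` are
between `1` and `κ`. -/
theorem elem_vec {ι : Type*} [Fintype ι] {a : ι → Fin n → ℝ} {κ : ℝ} (hκ : Bal a κ)
    (M P : Set ι) (hpt : ∀ x : Fin n → ℝ, (∀ j ∈ M, a j ⬝ᵥ x = 0) → (∀ j ∈ P, a j ⬝ᵥ x = 0) →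
      x = 0) {u d : Fin n → ℝ} (hM : ∀ j ∈ M, a j ⬝ᵥ d ≤ 0) (hP : ∀ j ∈ P, 0 ≤ a j ⬝ᵥ d)
    (hu : 0 < u ⬝ᵥ d) :
    ∃ e : Fin n → ℝ, (∀ j ∈ M, a j ⬝ᵥ e ≤ 0) ∧ (∀ j ∈ P, 0 ≤ a j ⬝ᵥ e) ∧ 0 < u ⬝ᵥ e ∧
      (∀ k, a k ⬝ᵥ e ≠ 0 → 1 ≤ |a k ⬝ᵥ e|) ∧ ∀ k, |a k ⬝ᵥ e| ≤ κ := by
  classical
  let q : ι × Bool → Fin n → ℝ := fun p =>
    if p.2 then (if p.1 ∈ M then a p.1 else 0) else (if p.1 ∈ P then -a p.1 else 0)
  obtain ⟨e, he1, he2, he3⟩ := exists_extreme q (by
    intro x hx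
    apply hpt x
    · intro j hj
      have := hx (j, true)
      simpa [q, hj] using this
    · intro j hj
      have := hx (j, false)
      simpa [q, hj] using this) (u := u) (d := d) (by
    rintro ⟨j, s⟩
    cases s
    · by_cases hj : j ∈ P
      · have := hP j hj
        simpa [q, hj] using this
      · simp [q, hj]
    · by_cases hj : j ∈ M
      · have := hM j hj
        simpa [q, hj] using this
      · simp [q, hj]) hu
  have heM : ∀ j ∈ M, a j ⬝ᵥ e ≤ 0 := by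
    intro j hj
    have := he1 (j, true)
    simpa [q, hj] using this
  have heP : ∀ j ∈ P, 0 ≤ a j ⬝ᵥ e := by
    intro j hj
    have := he1 (j, false)
    simpa [q, hj] using this
  have hel : ∀ f : Fin n → ℝ, (∀ j, a j ⬝ᵥ e = 0 → a j ⬝ᵥ f = 0) → ∃ t : ℝ, f = t • e := by
    intro f hf
    apply he3
    rintro ⟨j, s⟩ hj
    cases s
    · by_cases hjP : j ∈ P
      · simp only [q, hjP, if_true, Bool.false_eq_true, if_false, neg_dotProduct, neg_eq_zero] at hj ⊢
        exact hf j hj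
      · simp [q, hjP]
    · by_cases hjM : j ∈ M
      · simp only [q, hjM, if_true] at hj ⊢
        exact hf j hj
      · simp [q, hjM]
  have he0 : e ≠ 0 := by
    rintro rfl
    simp at he2
  -- some row does not vanish at `e`
  have hex : ∃ k, a k ⬝ᵥ e ≠ 0 := by
    by_contra h
    push Not at h
    exact he0 (hpt e (fun j _ => h j) (fun j _ => h j))
  let A : Finset ι := Finset.univ.filter (fun k => a k ⬝ᵥ e ≠ 0)
  have hA : A.Nonempty := by
    obtain ⟨k, hk⟩ := hex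
    exact ⟨k, by simp [A, hk]⟩
  obtain ⟨k0, hk0, hmin⟩ := Finset.exists_min_image A (fun k => |a k ⬝ᵥ e|) hA
  have hk0' : a k0 ⬝ᵥ e ≠ 0 := by simpa [A] using hk0
  set τ := |a k0 ⬝ᵥ e| with hτ
  have hτ0 : 0 < τ := abs_pos.2 hk0'
  refine ⟨τ⁻¹ • e, ?_, ?_, ?_, ?_, ?_⟩
  · intro j hj
    rw [dotProduct_smul, smul_eq_mul]
    exact mul_nonpos_of_nonneg_of_nonpos (inv_pos.2 hτ0).le (heM j hj)
  · intro j hj
    rw [dotProduct_smul, smul_eq_mul]
    exact mul_nonneg (inv_pos.2 hτ0).le (heP j hj)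
  · rw [dotProduct_smul, smul_eq_mul]
    exact mul_pos (inv_pos.2 hτ0) he2
  · intro k hk
    have hk' : a k ⬝ᵥ e ≠ 0 := by
      intro h
      apply hk
      rw [dotProduct_smul, h, smul_zero]
    rw [dotProduct_smul, smul_eq_mul, abs_mul, abs_of_pos (inv_pos.2 hτ0)]
    have h1 := hmin k (by simp [A, hk'])
    rw [inv_mul_eq_div, le_div_iff₀ hτ0]
    linarith
  · intro k
    rw [dotProduct_smul, smul_eq_mul, abs_mul, abs_of_pos (inv_pos.2 hτ0)]
    have h1 := ratio_le hκ hel k0 k hk0'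
    rw [← hτ] at h1
    rw [inv_mul_eq_div, div_le_iff₀ hτ0]
    exact h1

end Pool.Agent.N477.MD
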