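import Pool.Agent.N477.MD1

set_option autoImplicit false

/-!
# Polytopes given by rows: vertices, faces, edges
-/

namespace Pool.Agent.N477.MD

open Matrix Set

variable {n : ℕ} {ι : Type*}

/-- the polyhedron `a_i x ≤ b_i` -/
def Poly (a : ι → Fin n → ℝ) (b : ι → ℝ) : Set (Fin n → ℝ) := {x | ∀ i, a i ⬝ᵥ x ≤ b i}

/-- the tight rows -/
def tight (a : ι → Fin n → ℝ) (b : ι → ℝ) (x : Fin n → ℝ) : Set ι := {i | a i ⬝ᵥ x = b i}

/-- `v` maximises `z` on `P` -/
def MaxAt (P : Set (Fin n → ℝ)) (z v : Fin n → ℝ) : Prop := v ∈ P ∧ ∀ x ∈ P, z ⬝ᵥ x ≤ z ⬝ᵥ v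

/-- `x ↦ z x` as a continuous linear functional -/
noncomputable def fnl (z : Fin n → ℝ) : (Fin n → ℝ) →L[ℝ] ℝ :=
  LinearMap.toContinuousLinearMap
    { toFun := fun x => z ⬝ᵥ x
      map_add' := fun x y => dotProduct_add z x y
      map_smul' := fun t x => by simp }

@[simp] theorem fnl_apply (z x : Fin n → ℝ) : fnl z x = z ⬝ᵥ x := rfl

theorem continuous_dot (z : Fin n → ℝ) : Continuous (fun x : Fin n → ℝ => z ⬝ᵥ x) :=
  (fnl z).continuous

theorem continuous_dot' (x : Fin n → ℝ) : Continuous (fun z : Fin n → ℝ => z ⬝ᵥ x) := by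
  simp_rw [dotProduct_comm _ x]
  exact continuous_dot x

variable {a : ι → Fin n → ℝ} {b : ι → ℝ}

theorem isClosed_poly : IsClosed (Poly a b) := by
  have h : Poly a b = ⋂ i, {x | a i ⬝ᵥ x ≤ b i} := by
    ext x; simp [Poly]
  rw [h]
  exact isClosed_iInter fun i => isClosed_le (continuous_dot (a i)) continuous_const

theorem convex_poly : Convex ℝ (Poly a b) := by
  intro x hx y hy s t hs ht hst i
  rw [dotProduct_add, dotProduct_smul, dotProduct_smul, smul_eq_mul, smul_eq_mul]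
  have h1 := mul_le_mul_of_nonneg_left (hx i) hs
  have h2 := mul_le_mul_of_nonneg_left (hy i) ht
  calc s * (a i ⬝ᵥ x) + t * (a i ⬝ᵥ y) ≤ s * b i + t * b i := add_le_add h1 h2
    _ = b i := by rw [← add_mul, hst, one_mul]

/-- small steps in a direction which does not increase the tight rows -/
theorem step_in [Finite ι] {x e : Fin n → ℝ} (hx : x ∈ Poly a b)
    (he : ∀ j ∈ tight a b x, a j ⬝ᵥ e ≤ 0) :
    ∃ s : ℝ, 0 < s ∧ ∀ t : ℝ, 0 ≤ t → t ≤ s → x + t • e ∈ Poly a b := by
  have h1 : ∀ i : ι, ∃ s : ℝ, 0 < s ∧ ∀ t : ℝ, 0 ≤ t → t ≤ s → a i ⬝ᵥ (x + t • e) ≤ b i := by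
    intro i
    rcases le_or_gt (a i ⬝ᵥ e) 0 with h | h
    · refine ⟨1, one_pos, fun t ht _ => ?_⟩
      rw [dotProduct_add, dotProduct_smul, smul_eq_mul]
      have := mul_nonpos_of_nonneg_of_nonpos ht h
      have := hx i
      linarith
    · have hlt : a i ⬝ᵥ x < b i := by
        refine lt_of_le_of_ne (hx i) (fun h' => ?_)
        have := he i h'
        linarith
      refine ⟨(b i - a i ⬝ᵥ x) / (a i ⬝ᵥ e), div_pos (by linarith) h, fun t ht hts => ?_⟩
      rw [dotProduct_add, dotProduct_smul, smul_eq_mul]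
      rw [le_div_iff₀ h] at hts
      linarith
  choose s hs0 hs using h1
  cases nonempty_fintype ι
  rcases isEmpty_or_nonempty ι with hι | hι
  · exact ⟨1, one_pos, fun t _ _ i => (hι.false i).elim⟩
  · obtain ⟨i0, -, hi0⟩ := Finset.exists_min_image Finset.univ s Finset.univ_nonempty
    refine ⟨s i0, hs0 i0, fun t ht hts i => hs i t ht (hts.trans (hi0 i (Finset.mem_univ i)))⟩

theorem ext_pointed [Finite ι] {v : Fin n → ℝ} (hv : v ∈ (Poly a b).extremePoints ℝ)
    {x : Fin n → ℝ} (hx : ∀ j ∈ tight a b v, a j ⬝ᵥ x = 0) : x = 0 := by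
  obtain ⟨s, hs, h1⟩ := step_in hv.1 (e := x) (fun j hj => (hx j hj).le)
  obtain ⟨s', hs', h2⟩ := step_in hv.1 (e := -x) (fun j hj => by
    rw [dotProduct_neg, hx j hj, neg_zero])
  set t := min s s' with ht
  have ht0 : 0 < t := lt_min hs hs'
  have hA := h1 t ht0.le (min_le_left _ _)
  have hB := h2 t ht0.le (min_le_right _ _)
  have h3 := hv.2 hA hB ⟨1/2, 1/2, by norm_num, by norm_num, by norm_num, by
    ext i
    simp
    ring⟩
  have h4 : t • x = 0 := by
    have : v + t • x = v := h3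
    simpa using this
  rcases smul_eq_zero.1 h4 with h | h
  · exact absurd h ht0.ne'
  · exact h

theorem ext_of_tight {v : Fin n → ℝ} (hv : v ∈ Poly a b)
    (h : ∀ x : Fin n → ℝ, (∀ j ∈ tight a b v, a j ⬝ᵥ x = 0) → x = 0) :
    v ∈ (Poly a b).extremePoints ℝ := by
  refine ⟨hv, fun x hx y hy hxy => ?_⟩
  obtain ⟨s, t, hs, ht, hst, hsum⟩ := hxy
  have h0 : x - v = 0 := by
    apply h
    intro j hj
    have hj' : a j ⬝ᵥ v = b j := hj
    have h1 := hx j
    have h2 := hy j
    have h3 : s * (a j ⬝ᵥ x) + t * (a j ⬝ᵥ y) = b j := by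
      rw [← hj', ← hsum, dotProduct_add, dotProduct_smul, dotProduct_smul, smul_eq_mul,
        smul_eq_mul]
    rw [dotProduct_sub, hj']
    have h4 : t * (a j ⬝ᵥ y) ≤ t * b j := mul_le_mul_of_nonneg_left h2 ht.le
    have h5 : s * b j ≤ s * (a j ⬝ᵥ x) := by
      have : b j = s * b j + t * b j := by rw [← add_mul, hst, one_mul]
      linarith
    have h6 := le_of_mul_le_mul_left h5 hs
    linarith
  have := sub_eq_zero.1 h0
  exact this

theorem ext_finite [Finite ι] : ((Poly a b).extremePoints ℝ).Finite := by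
  have hinj : Set.InjOn (tight a b) ((Poly a b).extremePoints ℝ) := by
    intro v hv w hw hvw
    have h0 : v - w = 0 := by
      apply ext_pointed hv
      intro j hj
      have h1 : a j ⬝ᵥ v = b j := hj
      have h2 : j ∈ tight a b w := by rw [← hvw]; exact hj
      have h3 : a j ⬝ᵥ w = b j := h2
      rw [dotProduct_sub, h1, h3, sub_self]
    exact sub_eq_zero.1 h0
  exact Set.Finite.of_finite_image (Set.toFinite _) hinj

/-- the set of the maximisers -/
def face (P : Set (Fin n → ℝ)) (z : Fin n → ℝ) : Set (Fin n → ℝ) :=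
  {x ∈ P | ∀ y ∈ P, z ⬝ᵥ y ≤ z ⬝ᵥ x}

theorem isExposed_face (P : Set (Fin n → ℝ)) (z : Fin n → ℝ) : IsExposed ℝ P (face P z) := by
  intro _
  exact ⟨fnl z, rfl⟩

theorem mem_face {P : Set (Fin n → ℝ)} {z x : Fin n → ℝ} : x ∈ face P z ↔ MaxAt P z x := Iff.rfl

theorem face_nonempty {P : Set (Fin n → ℝ)} (hP : IsCompact P) (hne : P.Nonempty)
    (z : Fin n → ℝ) : (face P z).Nonempty := by
  obtain ⟨x, hx, hmax⟩ := hP.exists_isMaxOn hne (continuous_dot z).continuousOn
  exact ⟨x, hx, fun y hy => hmax hy⟩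

theorem face_ext {P : Set (Fin n → ℝ)} {z v : Fin n → ℝ} :
    v ∈ (face P z).extremePoints ℝ ↔ v ∈ P.extremePoints ℝ ∧ MaxAt P z v := by
  have h := (isExposed_face P z).isExtreme
  rw [h.extremePoints_eq]
  constructor
  · rintro ⟨h1, h2⟩
    exact ⟨h2, h1⟩
  · rintro ⟨h1, h2⟩
    exact ⟨h2, h1⟩

/-- there is a vertex maximising `z` -/
theorem exists_maxAt {P : Set (Fin n → ℝ)} (hP : IsCompact P) (hne : P.Nonempty)
    (z : Fin n → ℝ) : ∃ v ∈ P.extremePoints ℝ, MaxAt P z v := by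
  have hF : IsCompact (face P z) := (isExposed_face P z).isCompact hP
  obtain ⟨v, hv⟩ := hF.extremePoints_nonempty (face_nonempty hP hne z)
  have := face_ext.1 hv
  exact ⟨v, this.1, this.2⟩

theorem face_eq_hull [Finite ι] (hP : IsCompact (Poly a b)) (z : Fin n → ℝ) :
    face (Poly a b) z = convexHull ℝ {v | v ∈ (Poly a b).extremePoints ℝ ∧
      MaxAt (Poly a b) z v} := by
  have hF : IsCompact (face (Poly a b) z) := (isExposed_face _ z).isCompact hP
  have hc : Convex ℝ (face (Poly a b) z) := (isExposed_face _ z).convex convex_poly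
  have h := closure_convexHull_extremePoints hF hc
  have hset : (face (Poly a b) z).extremePoints ℝ = {v | v ∈ (Poly a b).extremePoints ℝ ∧
      MaxAt (Poly a b) z v} := by
    ext v
    exact face_ext
  rw [hset] at h
  have hfin : {v | v ∈ (Poly a b).extremePoints ℝ ∧ MaxAt (Poly a b) z v}.Finite :=
    ext_finite.subset (fun v hv => hv.1)
  rw [(hfin.isClosed_convexHull ℝ).closure_eq] at h
  exact h.symm

/-- a step of the simplex method -/
def Step (P : Set (Fin n → ℝ)) (c x y : Fin n → ℝ) : Prop :=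
  x ∈ P.extremePoints ℝ ∧ y ∈ P.extremePoints ℝ ∧ IsExposed ℝ P (segment ℝ x y) ∧
    c ⬝ᵥ x < c ⬝ᵥ y

/-- paths with `N` steps -/
inductive Path {α : Type*} (R : α → α → Prop) : ℕ → α → α → Prop
  | nil (x : α) : Path R 0 x x
  | cons {N : ℕ} {x y z : α} (h : R x y) (p : Path R N y z) : Path R (N + 1) x z

theorem Path.trans {α : Type*} {R : α → α → Prop} {N M : ℕ} {x y z : α} (p : Path R N x y)
    (q : Path R M y z) : Path R (N + M) x z := by
  induction p with
  | nil x => simpa using q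
  | cons h _ ih => rw [Nat.add_right_comm]; exact Path.cons h (ih q)

theorem Path.mono {α : Type*} {R S : α → α → Prop} (hRS : ∀ x y, R x y → S x y) {N : ℕ}
    {x y : α} (p : Path R N x y) : Path S N x y := by
  induction p with
  | nil x => exact Path.nil x
  | cons h _ ih => exact Path.cons (hRS _ _ h) ih

end Pool.Agent.N477.MD
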