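import Pool.Agent.N477.MD2

set_option autoImplicit false

/-!
# Shadow paths for generic start objectives
-/

namespace Pool.Agent.N477.MD

open Matrix Set Filter Topology

variable {n : ℕ} {ι : Type*}

/-- genericity of `z` with respect to `c` -/
def Gen (P : Set (Fin n → ℝ)) (c z : Fin n → ℝ) : Prop :=
  (∀ v ∈ P.extremePoints ℝ, ∀ w ∈ P.extremePoints ℝ, v ≠ w → z ⬝ᵥ (v - w) ≠ 0) ∧
  ∀ u ∈ P.extremePoints ℝ, ∀ v ∈ P.extremePoints ℝ, ∀ w ∈ P.extremePoints ℝ,
    (c ⬝ᵥ (w - u)) • (v - u) - (c ⬝ᵥ (v - u)) • (w - u) ≠ 0 →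
      z ⬝ᵥ ((c ⬝ᵥ (w - u)) • (v - u) - (c ⬝ᵥ (v - u)) • (w - u)) ≠ 0

/-- three different collinear points are not all extreme -/
theorem not_collinear {P : Set (Fin n → ℝ)} {u v w : Fin n → ℝ} (hu : u ∈ P.extremePoints ℝ)
    (hv : v ∈ P.extremePoints ℝ) (hw : w ∈ P.extremePoints ℝ) (huv : u ≠ v) (huw : u ≠ w)
    (hvw : v ≠ w) (s : ℝ) (hs : w - u = s • (v - u)) : False := by
  have hw' : w = u + s • (v - u) := by rw [← hs]; abel
  have hs0 : s ≠ 0 := by
    rintro rfl
    apply huw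
    rw [hw']; simp
  have hs1 : s ≠ 1 := by
    rintro rfl
    apply hvw
    rw [hw']; simp
  rcases lt_trichotomy s 0 with h | h | h
  · -- u between v and w
    have hmem : u ∈ openSegment ℝ v w := by
      refine ⟨-s / (1 - s), 1 / (1 - s), div_pos (by linarith) (by linarith),
        div_pos one_pos (by linarith), ?_, ?_⟩
      · rw [← add_div, div_eq_one_iff_eq (by linarith)]; ring
      · ext i
        have h1 : (1 - s) ≠ 0 := by linarith
        simp only [hw', Pi.add_apply, Pi.smul_apply, smul_eq_mul, Pi.sub_apply]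
        field_simp
        ring
    exact huv (hu.2 hv.1 hw.1 hmem).symm
  · exact hs0 h
  · rcases lt_trichotomy s 1 with h' | h' | h'
    · have hmem : w ∈ openSegment ℝ u v := by
        refine ⟨1 - s, s, by linarith, h, by ring, ?_⟩
        ext i
        simp only [hw', Pi.add_apply, Pi.smul_apply, smul_eq_mul, Pi.sub_apply]
        ring
      exact huw (hw.2 hu.1 hv.1 hmem)
    · exact hs1 h'
    · have hmem : v ∈ openSegment ℝ u w := by
        refine ⟨1 - 1 / s, 1 / s, ?_, by positivity, by ring, ?_⟩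
        · rw [sub_pos, div_lt_one (by linarith)]; exact h'
        · ext i
          simp only [hw', Pi.add_apply, Pi.smul_apply, smul_eq_mul, Pi.sub_apply]
          field_simp
          ring
      exact huv (hv.2 hu.1 hw.1 hmem)

theorem maxAt_eq {P : Set (Fin n → ℝ)} {z v w : Fin n → ℝ} (hv : MaxAt P z v)
    (hw : MaxAt P z w) : z ⬝ᵥ (v - w) = 0 := by
  rw [dotProduct_sub]
  have h1 := hv.2 w hw.1
  have h2 := hw.2 v hv.1
  linarith

theorem gen_ne {P : Set (Fin n → ℝ)} {c z : Fin n → ℝ} (hg : Gen P c z) {s : ℝ}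
    {v w : Fin n → ℝ} (hv : v ∈ P.extremePoints ℝ) (hw : w ∈ P.extremePoints ℝ) (hvw : v ≠ w)
    (h1 : MaxAt P (z + s • c) v) (h2 : MaxAt P (z + s • c) w) : c ⬝ᵥ (v - w) ≠ 0 := by
  intro h
  apply hg.1 v hv w hw hvw
  have h3 := maxAt_eq h1 h2
  rw [add_dotProduct, smul_dotProduct, h, smul_zero, add_zero] at h3
  exact h3

theorem gen_two {P : Set (Fin n → ℝ)} {c z : Fin n → ℝ} (hg : Gen P c z) {s : ℝ}
    {u v w : Fin n → ℝ} (hu : u ∈ P.extremePoints ℝ) (hv : v ∈ P.extremePoints ℝ)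
    (hw : w ∈ P.extremePoints ℝ) (huv : u ≠ v) (huw : u ≠ w) (hvw : v ≠ w)
    (h0 : MaxAt P (z + s • c) u) (h1 : MaxAt P (z + s • c) v) (h2 : MaxAt P (z + s • c) w) :
    False := by
  have e1 := maxAt_eq h1 h0
  have e2 := maxAt_eq h2 h0
  rw [add_dotProduct, smul_dotProduct, smul_eq_mul] at e1 e2
  have hr : (c ⬝ᵥ (w - u)) • (v - u) - (c ⬝ᵥ (v - u)) • (w - u) = 0 := by
    by_contra hne
    apply hg.2 u hu v hv w hw hne
    rw [dotProduct_sub, dotProduct_smul, dotProduct_smul, smul_eq_mul, smul_eq_mul]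
    have e1' : z ⬝ᵥ (v - u) = - (s * c ⬝ᵥ (v - u)) := by linarith
    have e2' : z ⬝ᵥ (w - u) = - (s * c ⬝ᵥ (w - u)) := by linarith
    rw [e1', e2']
    ring
  have hc1 := gen_ne hg hv hu huv.symm h1 h0
  apply not_collinear hu hv hw huv huw hvw ((c ⬝ᵥ (w - u)) / (c ⬝ᵥ (v - u)))
  have h3 : (c ⬝ᵥ (v - u)) • (w - u) = (c ⬝ᵥ (w - u)) • (v - u) := (sub_eq_zero.1 hr).symm
  rw [div_eq_inv_mul, mul_smul, ← h3, smul_smul, inv_mul_cancel₀ hc1, one_smul]

section

variable {a : ι → Fin n → ℝ} {b : ι → ℝ}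

/-- near `s` there are no new maximisers -/
theorem near [Finite ι] (c z : Fin n → ℝ) (s : ℝ) :
    ∀ᶠ t in 𝓝 s, ∀ v ∈ (Poly a b).extremePoints ℝ,
      MaxAt (Poly a b) (z + t • c) v → MaxAt (Poly a b) (z + s • c) v := by
  rw [Filter.eventually_all_finite ext_finite]
  intro v hv
  by_cases h : MaxAt (Poly a b) (z + s • c) v
  · exact Filter.Eventually.of_forall fun t _ => h
  · have h' : ∃ x ∈ Poly a b, (z + s • c) ⬝ᵥ v < (z + s • c) ⬝ᵥ x := by
      by_contra hne
      push Not at hne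
      exact h ⟨hv.1, hne⟩
    obtain ⟨x, hx, hlt⟩ := h'
    have hcont : ∀ y : Fin n → ℝ, Continuous (fun t : ℝ => (z + t • c) ⬝ᵥ y) := by
      intro y
      exact (continuous_dot' y).comp (by fun_prop)
    have hev : ∀ᶠ t in 𝓝 s, (z + t • c) ⬝ᵥ v < (z + t • c) ⬝ᵥ x :=
      (hcont v).continuousAt.eventually_lt (hcont x).continuousAt hlt
    filter_upwards [hev] with t ht hm
    exact absurd (hm.2 x hx) (not_le.2 ht)

theorem lebesgue [Finite ι] (c z : Fin n → ℝ) (K : ℝ) :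
    ∃ δ : ℝ, 0 < δ ∧ ∀ s ∈ Icc 0 K, ∀ t : ℝ, |t - s| < δ → ∃ l : ℝ,
      ∀ v ∈ (Poly a b).extremePoints ℝ,
      (MaxAt (Poly a b) (z + s • c) v ∨ MaxAt (Poly a b) (z + t • c) v) →
        MaxAt (Poly a b) (z + l • c) v := by
  let U : ℝ → Set ℝ := fun l => interior {t | ∀ v ∈ (Poly a b).extremePoints ℝ,
      MaxAt (Poly a b) (z + t • c) v → MaxAt (Poly a b) (z + l • c) v}
  obtain ⟨δ, hδ, h⟩ := lebesgue_number_lemma_of_metric (s := Icc (0:ℝ) K) (c := U) isCompact_Icc
    (fun l => isOpen_interior) (fun l _ => by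
      rw [mem_iUnion]
      exact ⟨l, mem_interior_iff_mem_nhds.2 (near c z l)⟩)
  refine ⟨δ, hδ, fun s hs t hst => ?_⟩
  obtain ⟨l, hl⟩ := h s hs
  refine ⟨l, fun v hv hor => ?_⟩
  rcases hor with h1 | h1
  · exact interior_subset (hl (Metric.mem_ball_self hδ)) v hv h1
  · exact interior_subset (hl (by rw [Metric.mem_ball, Real.dist_eq]; exact hst)) v hv h1

/-- consecutive maximisers are equal or joined by an edge -/
theorem step_of_near [Finite ι] (hP : IsCompact (Poly a b)) {c z : Fin n → ℝ}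
    (hg : Gen (Poly a b) c z) {s t l : ℝ} (hst : s < t) {v w : Fin n → ℝ}
    (hv : v ∈ (Poly a b).extremePoints ℝ) (hw : w ∈ (Poly a b).extremePoints ℝ)
    (h1 : MaxAt (Poly a b) (z + s • c) v) (h2 : MaxAt (Poly a b) (z + t • c) w)
    (hl : ∀ v ∈ (Poly a b).extremePoints ℝ,
      (MaxAt (Poly a b) (z + s • c) v ∨ MaxAt (Poly a b) (z + t • c) v) →
        MaxAt (Poly a b) (z + l • c) v) (hvw : v ≠ w) : Step (Poly a b) c v w := by
  have l1 := hl v hv (Or.inl h1)
  have l2 := hl w hw (Or.inr h2)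
  refine ⟨hv, hw, ?_, ?_⟩
  · have hset : {x | x ∈ (Poly a b).extremePoints ℝ ∧ MaxAt (Poly a b) (z + l • c) x} =
        {v, w} := by
      ext x
      constructor
      · rintro ⟨hx1, hx2⟩
        by_contra hne
        rw [mem_insert_iff, mem_singleton_iff, not_or] at hne
        exact gen_two hg hv hw hx1 hvw (Ne.symm hne.1) (Ne.symm hne.2) l1 l2 hx2
      · rintro (h | h)
        · rw [h]; exact ⟨hv, l1⟩
        · rw [mem_singleton_iff] at h
          rw [h]; exact ⟨hw, l2⟩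
    have hf := face_eq_hull hP (z + l • c)
    rw [hset, convexHull_pair] at hf
    rw [← hf]
    exact isExposed_face _ _
  · have hne := gen_ne hg hv hw hvw l1 l2
    have e1 := h1.2 w hw.1
    have e2 := h2.2 v hv.1
    rw [add_dotProduct, smul_dotProduct, smul_eq_mul, add_dotProduct, smul_dotProduct,
      smul_eq_mul] at e1 e2
    rw [dotProduct_sub] at hne
    have h3 : 0 ≤ (t - s) * (c ⬝ᵥ w - c ⬝ᵥ v) := by nlinarith
    have h4 : 0 ≤ c ⬝ᵥ w - c ⬝ᵥ v := by
      by_contra hneg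
      push Not at hneg
      have := mul_neg_of_pos_of_neg (sub_pos.2 hst) hneg
      linarith
    rcases h4.lt_or_eq with h5 | h5
    · linarith
    · exact absurd (by linarith) hne

/-- the relation: an improving edge whose end points are visited by the shadow path -/
def Rel (P : Set (Fin n → ℝ)) (c z : Fin n → ℝ) (K : ℝ) (x y : Fin n → ℝ) : Prop :=
  Step P c x y ∧ (∃ s ∈ Icc (0:ℝ) K, MaxAt P (z + s • c) x) ∧
    ∃ s ∈ Icc (0:ℝ) K, MaxAt P (z + s • c) y

/-- between the times `t` and `t + ε` some maximiser is lost -/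
def Loss (P : Set (Fin n → ℝ)) (c z : Fin n → ℝ) (t ε : ℝ) : Prop :=
  ∃ v ∈ P.extremePoints ℝ, MaxAt P (z + t • c) v ∧ ¬ MaxAt P (z + (t + ε) • c) v

open Classical in
/-- the number of losses on a grid -/
noncomputable def losses (P : Set (Fin n → ℝ)) (c z : Fin n → ℝ) (ε : ℝ) (q : ℕ) : ℕ :=
  ((Finset.range q).filter (fun i : ℕ => Loss P c z (i * ε) ε)).card

theorem losses_succ (P : Set (Fin n → ℝ)) (c z : Fin n → ℝ) (ε : ℝ) (q : ℕ) :
    losses P c z ε q ≤ losses P c z ε (q + 1) := by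
  classical
  unfold losses
  apply Finset.card_le_card
  apply Finset.filter_subset_filter
  exact Finset.range_mono (Nat.le_succ q)

theorem losses_succ' {P : Set (Fin n → ℝ)} {c z : Fin n → ℝ} {ε : ℝ} {q : ℕ}
    (h : Loss P c z (q * ε) ε) : losses P c z ε q + 1 ≤ losses P c z ε (q + 1) := by
  classical
  unfold losses
  rw [Finset.range_add_one, Finset.filter_insert, if_pos h, Finset.card_insert_of_notMem]
  simp

/-- **The path.** If the grid is fine, the number of edges is at most the number of losses. -/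
theorem exists_path [Finite ι] (hP : IsCompact (Poly a b)) {c z : Fin n → ℝ}
    (hg : Gen (Poly a b) c z) {K : ℝ} (hK : 0 ≤ K) {v : Fin n → ℝ}
    (hv : v ∈ (Poly a b).extremePoints ℝ) (h0 : MaxAt (Poly a b) z v) :
    ∃ δ : ℝ, 0 < δ ∧ ∀ q : ℕ, 0 < q → K / q < δ → 0 < K / q →
      ∃ N w, N ≤ losses (Poly a b) c z (K / q) q ∧ w ∈ (Poly a b).extremePoints ℝ ∧
        Path (Rel (Poly a b) c z K) N v w ∧ MaxAt (Poly a b) (z + K • c) w := by
  obtain ⟨δ, hδ, hL⟩ := lebesgue (a := a) (b := b) c z K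
  refine ⟨δ, hδ, fun q hq hqδ hq0 => ?_⟩
  have hqR : (0:ℝ) < q := by exact_mod_cast hq
  have key : ∀ j : ℕ, j ≤ q → ∃ N w, N ≤ losses (Poly a b) c z (K / q) j ∧
      w ∈ (Poly a b).extremePoints ℝ ∧ Path (Rel (Poly a b) c z K) N v w ∧
      MaxAt (Poly a b) (z + (j * (K / q)) • c) w := by
    intro j
    induction j with
    | zero =>
      intro _
      exact ⟨0, v, Nat.zero_le _, hv, Path.nil v, by simpa using h0⟩
    | succ j ih =>
      intro hj
      obtain ⟨N, w, hN, hw, hp, hm⟩ := ih (by omega)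
      have hcast : ((j + 1 : ℕ) : ℝ) * (K / q) = j * (K / q) + K / q := by push_cast; ring
      by_cases hstay : MaxAt (Poly a b) (z + (((j + 1 : ℕ) : ℝ) * (K / q)) • c) w
      · exact ⟨N, w, hN.trans (losses_succ _ _ _ _ _), hw, hp, hstay⟩
      · obtain ⟨w', hw', hm'⟩ := exists_maxAt hP ⟨v, hv.1⟩ (z + (((j + 1 : ℕ) : ℝ) * (K / q)) • c)
        have hne : w ≠ w' := by
          rintro rfl
          exact hstay hm'
        have hjK : (j:ℝ) * (K / q) ∈ Icc (0:ℝ) K := by
          refine ⟨by positivity, ?_⟩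
          rw [mul_div_assoc', div_le_iff₀ hqR, mul_comm]
          have : (j:ℝ) ≤ q := by exact_mod_cast (by omega : j ≤ q)
          exact mul_le_mul_of_nonneg_left this hK
        have hjK' : ((j + 1 : ℕ) : ℝ) * (K / q) ∈ Icc (0:ℝ) K := by
          refine ⟨by positivity, ?_⟩
          rw [mul_div_assoc', div_le_iff₀ hqR, mul_comm]
          have : ((j + 1 : ℕ):ℝ) ≤ q := by exact_mod_cast hj
          exact mul_le_mul_of_nonneg_left this hK
        obtain ⟨l, hl⟩ := hL _ hjK (((j + 1 : ℕ) : ℝ) * (K / q)) (by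
          rw [hcast, add_sub_cancel_left, abs_of_pos hq0]; exact hqδ)
        have hstep : Step (Poly a b) c w w' :=
          step_of_near hP hg (by rw [hcast]; linarith) hw hw' hm hm' hl hne
        refine ⟨N + 1, w', ?_, hw', ?_, hm'⟩
        · refine le_trans (Nat.add_le_add_right hN 1) (losses_succ' ?_)
          exact ⟨w, hw, hm, by rw [← hcast]; exact hstay⟩
        · exact hp.trans (Path.cons ⟨hstep, ⟨_, hjK, hm⟩, ⟨_, hjK', hm'⟩⟩ (Path.nil _))
  obtain ⟨N, w, h1, h2, h3, h4⟩ := key q le_rfl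
  refine ⟨N, w, h1, h2, h3, ?_⟩
  have : (q:ℝ) * (K / q) = K := by field_simp
  rwa [this] at h4

end

end Pool.Agent.N477.MD
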