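import Pool.Agent.N477.MD3

set_option autoImplicit false

/-!
# Averaging over the start objective
-/

namespace Pool.Agent.N477.MD

open Matrix Set Filter Topology MeasureTheory ENNReal

variable {n : ℕ} {ι : Type*}

/-- the start objective `∑ (R_k + μ_k) a_{B k}` -/
noncomputable def zz (a : ι → Fin n → ℝ) (B : Fin n → ι) (R μ : Fin n → ℝ) : Fin n → ℝ :=
  ∑ k, (R k + μ k) • a (B k)

section

variable {a : ι → Fin n → ℝ} {b : ι → ℝ} {B : Fin n → ι} {R : Fin n → ℝ}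

theorem zz_add {j : ι} {β : Fin n → ℝ} (hβ : a j = ∑ k, β k • a (B k)) (μ : Fin n → ℝ) (s : ℝ) :
    zz a B R (μ + s • β) = zz a B R μ + s • a j := by
  unfold zz
  rw [hβ, Finset.smul_sum, ← Finset.sum_add_distrib]
  refine Finset.sum_congr rfl fun k _ => ?_
  rw [Pi.add_apply, Pi.smul_apply, smul_eq_mul, smul_smul, ← add_smul]
  congr 1
  ring

theorem zz_dot (μ p : Fin n → ℝ) :
    zz a B R μ ⬝ᵥ p = ∑ k, (R k + μ k) * (a (B k) ⬝ᵥ p) := by
  unfold zz
  rw [sum_dotProduct]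
  exact Finset.sum_congr rfl fun k _ => by rw [smul_dotProduct, smul_eq_mul]

theorem continuous_zz : Continuous (zz a B R) := by
  unfold zz
  fun_prop

theorem null_zz (hB : LinearIndependent ℝ (fun k => a (B k))) (w : Fin n → ℝ)
    {p : Fin n → ℝ} (hp : p ≠ 0) : volume {μ : Fin n → ℝ | (zz a B R μ + w) ⬝ᵥ p = 0} = 0 := by
  set g : Fin n → ℝ := fun k => a (B k) ⬝ᵥ p with hg
  have hg0 : g ≠ 0 := by
    intro h
    apply hp
    apply eq_zero_of_basis hB
    intro k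
    exact congrFun h k
  have hform : ∀ μ : Fin n → ℝ, (zz a B R μ + w) ⬝ᵥ p = g ⬝ᵥ μ + (g ⬝ᵥ R + w ⬝ᵥ p) := by
    intro μ
    have e1 : zz a B R μ ⬝ᵥ p = g ⬝ᵥ μ + g ⬝ᵥ R := by
      rw [zz_dot]
      show _ = (∑ k, g k * μ k) + ∑ k, g k * R k
      rw [← Finset.sum_add_distrib]
      exact Finset.sum_congr rfl (fun k _ => by rw [hg]; ring)
    rw [add_dotProduct, e1, add_assoc]
  rcases eq_empty_or_nonempty {μ : Fin n → ℝ | (zz a B R μ + w) ⬝ᵥ p = 0} with h | ⟨μ0, hμ0⟩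
  · rw [h]; exact measure_empty
  · have hsub : {μ : Fin n → ℝ | (zz a B R μ + w) ⬝ᵥ p = 0} ⊆
        ((AffineSubspace.mk' μ0 (LinearMap.ker ((fnl g : (Fin n → ℝ) →L[ℝ] ℝ) :
          (Fin n → ℝ) →ₗ[ℝ] ℝ)) : AffineSubspace ℝ (Fin n → ℝ)) : Set (Fin n → ℝ)) := by
      intro μ hμ
      rw [SetLike.mem_coe, AffineSubspace.mem_mk', LinearMap.mem_ker]
      rw [mem_ofPred_eq, hform] at hμ hμ0
      show (fnl g) (μ -ᵥ μ0) = 0
      rw [fnl_apply, vsub_eq_sub, dotProduct_sub]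
      linarith
    refine measure_mono_null hsub ?_
    apply Measure.addHaar_affineSubspace
    intro htop
    have hdir : (AffineSubspace.mk' μ0 (LinearMap.ker ((fnl g : (Fin n → ℝ) →L[ℝ] ℝ) : (Fin n → ℝ) →ₗ[ℝ] ℝ))).direction = ⊤ := by
      rw [htop, AffineSubspace.direction_top]
    rw [AffineSubspace.direction_mk'] at hdir
    apply hg0
    have h1 : g ∈ LinearMap.ker ((fnl g : (Fin n → ℝ) →L[ℝ] ℝ) : (Fin n → ℝ) →ₗ[ℝ] ℝ) := by rw [hdir]; trivial
    rw [LinearMap.mem_ker] at h1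
    have h2 : g ⬝ᵥ g = 0 := h1
    exact dotProduct_self_eq_zero.1 h2

theorem ae_gen [Finite ι] (hB : LinearIndependent ℝ (fun k => a (B k))) (c : Fin n → ℝ) :
    ∀ᵐ μ : Fin n → ℝ, Gen (Poly a b) c (zz a B R μ) := by
  have hc : ((Poly a b).extremePoints ℝ).Countable := ext_finite.countable
  unfold Gen
  refine Filter.Eventually.and ?_ ?_
  · rw [ae_ball_iff hc]
    intro v hv
    rw [ae_ball_iff hc]
    intro w hw
    by_cases hvw : v = w
    · exact Filter.Eventually.of_forall fun μ h => absurd hvw h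
    · have h := null_zz (R := R) hB 0 (sub_ne_zero.2 hvw)
      have h' : ∀ᵐ μ : Fin n → ℝ, ¬ ((zz a B R μ + 0) ⬝ᵥ (v - w) = 0) := by
        rw [ae_iff]
        simpa using h
      filter_upwards [h'] with μ hμ _
      simpa using hμ
  · rw [ae_ball_iff hc]
    intro u hu
    rw [ae_ball_iff hc]
    intro v hv
    rw [ae_ball_iff hc]
    intro w hw
    by_cases hr : (c ⬝ᵥ (w - u)) • (v - u) - (c ⬝ᵥ (v - u)) • (w - u) = 0
    · exact Filter.Eventually.of_forall fun μ h => absurd hr h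
    · have h := null_zz (R := R) hB 0 hr
      have h' : ∀ᵐ μ : Fin n → ℝ, ¬ ((zz a B R μ + 0) ⬝ᵥ
          ((c ⬝ᵥ (w - u)) • (v - u) - (c ⬝ᵥ (v - u)) • (w - u)) = 0) := by
        rw [ae_iff]
        simpa using h
      filter_upwards [h'] with μ hμ _
      simpa using hμ

theorem isClosed_maxAt {P : Set (Fin n → ℝ)} {v : Fin n → ℝ} (w : Fin n → ℝ) :
    IsClosed {μ : Fin n → ℝ | MaxAt P (zz a B R μ + w) v} := by
  by_cases hv : v ∈ P
  · have h : {μ : Fin n → ℝ | MaxAt P (zz a B R μ + w) v} =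
        ⋂ x ∈ P, {μ | (zz a B R μ + w) ⬝ᵥ x ≤ (zz a B R μ + w) ⬝ᵥ v} := by
      ext μ
      simp [MaxAt, hv]
    rw [h]
    refine isClosed_biInter fun x _ => isClosed_le ?_ ?_
    · exact (continuous_dot' x).comp (continuous_zz.add continuous_const)
    · exact (continuous_dot' v).comp (continuous_zz.add continuous_const)
  · have h : {μ : Fin n → ℝ | MaxAt P (zz a B R μ + w) v} = ∅ := by
      ext μ
      simp [MaxAt, hv]
    rw [h]
    exact isClosed_empty

theorem maxAt_add {z v : Fin n → ℝ} (h : MaxAt (Poly a b) z v) {j : ι} (hj : j ∈ tight a b v)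
    {s : ℝ} (hs : 0 ≤ s) : MaxAt (Poly a b) (z + s • a j) v := by
  refine ⟨h.1, fun x hx => ?_⟩
  rw [add_dotProduct, add_dotProduct, smul_dotProduct, smul_dotProduct, smul_eq_mul, smul_eq_mul]
  have h1 := h.2 x hx
  have hj' : a j ⬝ᵥ v = b j := hj
  rw [hj']
  have h2 := mul_le_mul_of_nonneg_left (hx j) hs
  linarith

/-- the small box -/
def box0 (n : ℕ) : Set (Fin n → ℝ) := Icc (fun _ => (1:ℝ)) (fun _ => 2)

/-- the large box -/
def box1 (n : ℕ) (θ : ℝ) : Set (Fin n → ℝ) := Icc (fun _ => 1 - θ) (fun _ => 2 + θ)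

/-- translates of the set where `v` is lost after a small step in the direction `-a_j` -/
theorem shift_bound {v : Fin n → ℝ} {j : ι} (hj : j ∈ tight a b v) {β : Fin n → ℝ}
    (hβ : a j = ∑ k, β k • a (B k)) {κ θ η : ℝ} (hβκ : ∀ k, |β k| ≤ κ) (hη : 0 < η) (w : Fin n → ℝ)
    (r : ℕ) (hr : r * η * κ ≤ θ) :
    (r : ℝ≥0∞) * volume {μ : Fin n → ℝ | μ ∈ box0 n ∧ MaxAt (Poly a b) (zz a B R μ + w) v ∧
        ¬ MaxAt (Poly a b) (zz a B R μ + (w - η • a j)) v} ≤
      volume (box1 n θ ∩ {μ : Fin n → ℝ | MaxAt (Poly a b) (zz a B R μ + w) v}) := by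
  set D := {μ : Fin n → ℝ | μ ∈ box0 n ∧ MaxAt (Poly a b) (zz a B R μ + w) v ∧
        ¬ MaxAt (Poly a b) (zz a B R μ + (w - η • a j)) v} with hD
  have hDm : MeasurableSet D := by
    have e : D = box0 n ∩ ({μ : Fin n → ℝ | MaxAt (Poly a b) (zz a B R μ + w) v} ∩
        {μ : Fin n → ℝ | MaxAt (Poly a b) (zz a B R μ + (w - η • a j)) v}ᶜ) := by
      ext μ
      constructor
      · rintro ⟨h1, h2, h3⟩
        exact ⟨h1, h2, h3⟩
      · rintro ⟨h1, h2, h3⟩
        exact ⟨h1, h2, h3⟩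
    rw [e]
    exact isClosed_Icc.measurableSet.inter ((isClosed_maxAt w).measurableSet.inter
      (isClosed_maxAt _).measurableSet.compl)
  let F : ℕ → Set (Fin n → ℝ) := fun i => (fun μ => μ + (-((i:ℝ) * η) • β)) ⁻¹' D
  have hvol : ∀ i, volume (F i) = volume D := fun i => measure_preimage_add_right _ _ _
  have hFm : ∀ i, MeasurableSet (F i) := fun i => (measurable_add_const _) hDm
  have hzF : ∀ (i : ℕ) (μ : Fin n → ℝ), zz a B R (μ + (-((i:ℝ) * η) • β)) =
      zz a B R μ - ((i:ℝ) * η) • a j := by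
    intro i μ
    rw [zz_add hβ, neg_smul, sub_eq_add_neg]
  have hdisj : ∀ i1 i2 : ℕ, i1 < i2 → Disjoint (F i1) (F i2) := by
    intro i1 i2 hlt
    rw [Set.disjoint_left]
    intro μ h1 h2
    have h1' : μ + (-((i1:ℝ) * η) • β) ∈ D := h1
    have h2' : μ + (-((i2:ℝ) * η) • β) ∈ D := h2
    apply h1'.2.2
    have h3 := h2'.2.1
    rw [hzF] at h3 ⊢
    have h4 := maxAt_add h3 hj (s := ((i2:ℝ) - i1 - 1) * η) (by
      have : (i1:ℝ) + 1 ≤ i2 := by exact_mod_cast hlt
      apply mul_nonneg _ hη.le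
      linarith)
    have e : zz a B R μ - ((i2:ℝ) * η) • a j + w + (((i2:ℝ) - i1 - 1) * η) • a j =
        zz a B R μ - ((i1:ℝ) * η) • a j + (w - η • a j) := by
      ext k
      simp only [Pi.add_apply, Pi.sub_apply, Pi.smul_apply, smul_eq_mul]
      ring
    rwa [e] at h4
  have hsub : (⋃ i ∈ Finset.range r, F i) ⊆
      box1 n θ ∩ {μ : Fin n → ℝ | MaxAt (Poly a b) (zz a B R μ + w) v} := by
    intro μ hμ
    rw [mem_iUnion₂] at hμ
    obtain ⟨i, hi, hμi⟩ := hμ
    have hir : (i:ℝ) ≤ r := by exact_mod_cast (Finset.mem_range.1 hi).le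
    have h1' : μ + (-((i:ℝ) * η) • β) ∈ D := hμi
    constructor
    · have hb := h1'.1
      have hsmall : ∀ k, |(i:ℝ) * η * β k| ≤ θ := by
        intro k
        rw [abs_mul, abs_of_nonneg (by positivity)]
        have hκ0 : 0 ≤ κ := (abs_nonneg _).trans (hβκ k)
        calc (i:ℝ) * η * |β k| ≤ (i:ℝ) * η * κ := by
              apply mul_le_mul_of_nonneg_left (hβκ k) (by positivity)
          _ ≤ r * η * κ := by gcongr
          _ ≤ θ := hr
      refine ⟨fun k => ?_, fun k => ?_⟩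
      · have h2 := hb.1 k
        have h3 := hsmall k
        rw [abs_le] at h3
        simp only [Pi.add_apply, Pi.smul_apply, smul_eq_mul] at h2
        show 1 - θ ≤ μ k
        linarith [h3.1]
      · have h2 := hb.2 k
        have h3 := hsmall k
        rw [abs_le] at h3
        simp only [Pi.add_apply, Pi.smul_apply, smul_eq_mul] at h2
        show μ k ≤ 2 + θ
        linarith [h3.2]
    · have h3 := h1'.2.1
      rw [hzF] at h3
      have h4 := maxAt_add h3 hj (s := (i:ℝ) * η) (by positivity)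
      have e : zz a B R μ - ((i:ℝ) * η) • a j + w + ((i:ℝ) * η) • a j = zz a B R μ + w := by
        abel
      rw [e] at h4
      exact h4
  have hsum : volume (⋃ i ∈ Finset.range r, F i) = ∑ i ∈ Finset.range r, volume (F i) := by
    apply measure_biUnion_finset
    · intro i1 _ i2 _ hne
      rcases lt_or_gt_of_ne hne with h | h
      · exact hdisj i1 i2 h
      · exact (hdisj i2 i1 h).symm
    · intro i _
      exact hFm i
  calc (r : ℝ≥0∞) * volume D = ∑ i ∈ Finset.range r, volume (F i) := by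
        rw [Finset.sum_congr rfl fun i _ => hvol i, Finset.sum_const, Finset.card_range,
          nsmul_eq_mul]
    _ = volume (⋃ i ∈ Finset.range r, F i) := hsum.symm
    _ ≤ _ := measure_mono hsub

/-- if `v` is lost in the direction `c`, it is nearly lost in the direction `-a_j` for a row
of any basis of tight rows -/
theorem exit_row [Fintype ι] {κ Γ : ℝ} (hκ : Bal a κ) {c : Fin n → ℝ}
    (hΓ : ∀ e : Fin n → ℝ, (∀ k, |a k ⬝ᵥ e| ≤ κ) → |c ⬝ᵥ e| ≤ Γ) {ε : ℝ} (hε : 0 < ε)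
    {v z : Fin n → ℝ} (hv : v ∈ (Poly a b).extremePoints ℝ) {C : Fin n → ι}
    (hC : LinearIndependent ℝ (fun k => a (C k))) (hCv : ∀ k, C k ∈ tight a b v)
    (h1 : MaxAt (Poly a b) z v) (h2 : ¬ MaxAt (Poly a b) (z + ε • c) v) :
    ∃ k, ¬ MaxAt (Poly a b) (z - (ε * Γ) • a (C k)) v := by
  have h3 : ∃ x ∈ Poly a b, (z + ε • c) ⬝ᵥ v < (z + ε • c) ⬝ᵥ x := by
    by_contra hne
    push Not at hne
    exact h2 ⟨hv.1, hne⟩
  obtain ⟨x, hx, hlt⟩ := h3
  obtain ⟨e, he1, -, he2, he3, he4⟩ := elem_vec hκ (tight a b v) ∅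
    (fun y hy _ => ext_pointed hv hy) (u := z + ε • c) (d := x - v)
    (fun j hj => by
      have hj' : a j ⬝ᵥ v = b j := hj
      rw [dotProduct_sub, hj']
      linarith [hx j])
    (fun j hj => absurd hj (Set.notMem_empty j))
    (by rw [dotProduct_sub]; linarith)
  obtain ⟨s, hs, hin⟩ := step_in hv.1 he1
  have hve : v + s • e ∈ Poly a b := hin s hs.le le_rfl
  have hze : z ⬝ᵥ e ≤ 0 := by
    have := h1.2 _ hve
    rw [dotProduct_add, dotProduct_smul, smul_eq_mul] at this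
    by_contra hpos
    push Not at hpos
    have := mul_pos hs hpos
    linarith
  rw [add_dotProduct, smul_dotProduct, smul_eq_mul] at he2
  have hce := hΓ e he4
  have hce' : c ⬝ᵥ e ≤ Γ := (le_abs_self _).trans hce
  have hlow : -(ε * Γ) < z ⬝ᵥ e := by
    have := mul_le_mul_of_nonneg_left hce' hε.le
    linarith
  have hΓ0 : 0 ≤ Γ := (abs_nonneg _).trans hce
  have he0 : e ≠ 0 := by
    rintro rfl
    simp at he2
  have hex : ∃ k, a (C k) ⬝ᵥ e ≠ 0 := by
    by_contra hne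
    push Not at hne
    exact he0 (eq_zero_of_basis hC hne)
  obtain ⟨k, hje⟩ := hex
  refine ⟨k, fun hm => ?_⟩
  set j := C k with hj
  have h4 : a j ⬝ᵥ e ≤ -1 := by
    have h5 := he3 j hje
    have h6 := he1 j (hCv k)
    rw [abs_of_nonpos h6] at h5
    linarith
  have h7 := hm.2 _ hve
  rw [dotProduct_add, dotProduct_smul, smul_eq_mul, sub_dotProduct, smul_dotProduct,
    smul_eq_mul, sub_dotProduct, smul_dotProduct, smul_eq_mul] at h7
  have h8 : z ⬝ᵥ e - ε * Γ * (a j ⬝ᵥ e) ≤ 0 := by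
    by_contra hpos
    push Not at hpos
    have := mul_pos hs hpos
    linarith
  have h9 : 0 ≤ ε * Γ * (-(a j ⬝ᵥ e) - 1) := by
    apply mul_nonneg (by positivity)
    linarith
  nlinarith

/-- the vertex cones cover the large box essentially once -/
theorem sum_cones_le [Fintype ι] (hB : LinearIndependent ℝ (fun k => a (B k))) (w : Fin n → ℝ)
    (θ : ℝ) :
    ∑ v ∈ (ext_finite (a := a) (b := b)).toFinset,
        volume (box1 n θ ∩ {μ : Fin n → ℝ | MaxAt (Poly a b) (zz a B R μ + w) v}) ≤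
      volume (box1 n θ) := by
  rw [← measure_biUnion_finset₀]
  · exact measure_mono (by
      intro μ hμ
      rw [mem_iUnion₂] at hμ
      obtain ⟨v, -, h⟩ := hμ
      exact h.1)
  · intro v _ v' _ hne
    refine measure_mono_null ?_ (null_zz (R := R) hB w (sub_ne_zero.2 hne))
    rintro μ ⟨⟨-, h1⟩, -, h2⟩
    exact maxAt_eq h1 h2
  · intro v _
    exact (isClosed_Icc.measurableSet.inter (isClosed_maxAt w).measurableSet).nullMeasurableSet

/-- **The probability of a loss in a short time.** -/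
theorem loss_bound [Fintype ι] (hB : LinearIndependent ℝ (fun k => a (B k))) {κ Γ : ℝ}
    (hκ : Bal a κ) {c : Fin n → ℝ}
    (hΓ : ∀ e : Fin n → ℝ, (∀ k, |a k ⬝ᵥ e| ≤ κ) → |c ⬝ᵥ e| ≤ Γ) (hΓ0 : 0 < Γ) {ε θ t : ℝ}
    (hε : 0 < ε) (r : ℕ) (hr : r * (ε * Γ) * κ ≤ θ) :
    (r : ℝ≥0∞) * volume {μ : Fin n → ℝ | μ ∈ box0 n ∧ Loss (Poly a b) c (zz a B R μ) t ε} ≤
      (n : ℝ≥0∞) * volume (box1 n θ) := by
  classical
  set W := (ext_finite (a := a) (b := b)).toFinset with hW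
  have hWext : ∀ v : W, (v : Fin n → ℝ) ∈ (Poly a b).extremePoints ℝ := fun v =>
    (Set.Finite.mem_toFinset _).1 v.2
  have hbas : ∀ v : W, ∃ C : Fin n → ι, (∀ k, C k ∈ tight a b (v : Fin n → ℝ)) ∧
      LinearIndependent ℝ (fun k => a (C k)) := by
    intro v
    obtain ⟨C, h1, -, h2⟩ := exists_basis a (T := tight a b (v : Fin n → ℝ))
      (fun x hx => ext_pointed (hWext v) hx)
    exact ⟨C, h1, h2⟩
  choose C hC1 hC2 using hbas
  let D : W → Fin n → Set (Fin n → ℝ) := fun v k => {μ : Fin n → ℝ | μ ∈ box0 n ∧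
      MaxAt (Poly a b) (zz a B R μ + t • c) v ∧
        ¬ MaxAt (Poly a b) (zz a B R μ + (t • c - (ε * Γ) • a (C v k))) v}
  have hsub : {μ : Fin n → ℝ | μ ∈ box0 n ∧ Loss (Poly a b) c (zz a B R μ) t ε} ⊆
      ⋃ v ∈ W.attach, ⋃ k ∈ (Finset.univ : Finset (Fin n)), D v k := by
    rintro μ ⟨hμ, v, hv, h1, h2⟩
    have h2' : ¬ MaxAt (Poly a b) (zz a B R μ + t • c + ε • c) v := by
      rw [add_assoc, ← add_smul]; exact h2
    let v' : W := ⟨v, by rw [hW, Set.Finite.mem_toFinset]; exact hv⟩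
    obtain ⟨k, h3⟩ := exit_row hκ hΓ hε hv (hC2 v') (hC1 v') h1 h2'
    rw [mem_iUnion₂]
    refine ⟨v', Finset.mem_attach _ _, ?_⟩
    rw [mem_iUnion₂]
    refine ⟨k, Finset.mem_univ k, hμ, h1, ?_⟩
    rw [add_sub_assoc] at h3
    exact h3
  have hD : ∀ v ∈ W.attach, ∀ k : Fin n, (r : ℝ≥0∞) * volume (D v k) ≤
      volume (box1 n θ ∩ {μ : Fin n → ℝ | MaxAt (Poly a b) (zz a B R μ + t • c) v}) := by
    intro v _ k
    obtain ⟨β, hβ⟩ := exists_coords hB (a (C v k))
    exact shift_bound (hC1 v k) hβ (hκ B (C v k) β hB hβ) (mul_pos hε hΓ0) _ r hr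
  calc (r : ℝ≥0∞) * volume {μ : Fin n → ℝ | μ ∈ box0 n ∧ Loss (Poly a b) c (zz a B R μ) t ε}
      ≤ r * ∑ v ∈ W.attach, ∑ k ∈ (Finset.univ : Finset (Fin n)), volume (D v k) := by
        gcongr
        refine (measure_mono hsub).trans ((measure_biUnion_finset_le _ _).trans ?_)
        exact Finset.sum_le_sum fun v _ => measure_biUnion_finset_le _ _
    _ = ∑ v ∈ W.attach, ∑ k ∈ (Finset.univ : Finset (Fin n)), r * volume (D v k) := by
        rw [Finset.mul_sum]
        exact Finset.sum_congr rfl fun v _ => Finset.mul_sum _ _ _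
    _ ≤ ∑ v ∈ W.attach, ∑ k ∈ (Finset.univ : Finset (Fin n)),
          volume (box1 n θ ∩ {μ : Fin n → ℝ | MaxAt (Poly a b) (zz a B R μ + t • c) v}) :=
        Finset.sum_le_sum fun v hv => Finset.sum_le_sum fun k _ => hD v hv k
    _ = (n : ℝ≥0∞) * ∑ v ∈ W.attach,
          volume (box1 n θ ∩ {μ : Fin n → ℝ | MaxAt (Poly a b) (zz a B R μ + t • c) v}) := by
        rw [Finset.mul_sum]
        refine Finset.sum_congr rfl fun v _ => ?_
        rw [Finset.sum_const, Finset.card_univ, Fintype.card_fin, nsmul_eq_mul]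
    _ = (n : ℝ≥0∞) * ∑ v ∈ W,
          volume (box1 n θ ∩ {μ : Fin n → ℝ | MaxAt (Poly a b) (zz a B R μ + t • c) v}) := by
        rw [Finset.sum_attach W (fun v => volume (box1 n θ ∩
          {μ : Fin n → ℝ | MaxAt (Poly a b) (zz a B R μ + t • c) v}))]
    _ ≤ _ := by
        gcongr
        exact sum_cones_le hB _ θ

end

end Pool.Agent.N477.MD
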