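import Pool.Agent.N477.MD4

set_option autoImplicit false

/-!
# The number of steps of a random shadow path
-/

namespace Pool.Agent.N477.MD

open Matrix Set Filter Topology MeasureTheory ENNReal

variable {n : ℕ} {ι : Type*}

theorem volume_box0 : volume (box0 n) = 1 := by
  unfold box0
  rw [Real.volume_Icc_pi]
  have h : ENNReal.ofReal ((2:ℝ) - 1) = 1 := by norm_num
  rw [Finset.prod_congr rfl fun i _ => h, Finset.prod_const_one]

theorem volume_box1 {θ : ℝ} (hθ : 0 ≤ θ) :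
    volume (box1 n θ) = ENNReal.ofReal ((1 + 2 * θ) ^ n) := by
  unfold box1
  rw [Real.volume_Icc_pi]
  have h : ∀ i : Fin n, ENNReal.ofReal ((2 + θ) - (1 - θ)) = ENNReal.ofReal (1 + 2 * θ) :=
    fun _ => by congr 1; ring
  rw [Finset.prod_congr rfl fun i _ => h i, Finset.prod_const, Finset.card_univ, Fintype.card_fin,
    ENNReal.ofReal_pow (by linarith)]

section

variable {a : ι → Fin n → ℝ} {b : ι → ℝ} {B : Fin n → ι} {R : Fin n → ℝ}

theorem measurable_loss [Finite ι] (c : Fin n → ℝ) (t ε : ℝ) :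
    MeasurableSet {μ : Fin n → ℝ | Loss (Poly a b) c (zz a B R μ) t ε} := by
  have h : {μ : Fin n → ℝ | Loss (Poly a b) c (zz a B R μ) t ε} =
      ⋃ v ∈ (Poly a b).extremePoints ℝ,
        ({μ : Fin n → ℝ | MaxAt (Poly a b) (zz a B R μ + t • c) v} ∩
          {μ : Fin n → ℝ | MaxAt (Poly a b) (zz a B R μ + (t + ε) • c) v}ᶜ) := by
    ext μ
    rw [mem_iUnion₂]
    constructor
    · rintro ⟨v, hv, h1, h2⟩
      exact ⟨v, hv, h1, h2⟩
    · rintro ⟨v, hv, h1, h2⟩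
      exact ⟨v, hv, h1, h2⟩
  rw [h]
  refine ext_finite.measurableSet_biUnion fun v _ => ?_
  exact (isClosed_maxAt _).measurableSet.inter (isClosed_maxAt _).measurableSet.compl

theorem losses_eq (P : Set (Fin n → ℝ)) (c z : Fin n → ℝ) (ε : ℝ) (q : ℕ) :
    (losses P c z ε q : ℝ≥0∞) = ∑ i ∈ Finset.range q,
      {x : Fin n → ℝ | Loss P c x ((i:ℕ) * ε) ε}.indicator (fun _ => (1:ℝ≥0∞)) z := by
  classical
  unfold losses
  rw [Finset.card_filter, Nat.cast_sum]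
  refine Finset.sum_congr rfl fun i _ => ?_
  by_cases h : Loss P c z ((i:ℕ) * ε) ε
  · rw [Set.indicator_of_mem (by exact h)]; simp [h]
  · rw [Set.indicator_of_notMem (by exact h)]; simp [h]

theorem measurable_losses [Finite ι] (c : Fin n → ℝ) (ε : ℝ) (q : ℕ) :
    Measurable fun μ : Fin n → ℝ => (losses (Poly a b) c (zz a B R μ) ε q : ℝ≥0∞) := by
  simp_rw [losses_eq]
  refine Finset.measurable_sum _ fun i _ => ?_
  have h : (fun μ : Fin n → ℝ => {x : Fin n → ℝ | Loss (Poly a b) c x ((i:ℕ) * ε) ε}.indicator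
      (fun _ => (1:ℝ≥0∞)) (zz a B R μ)) =
      {μ : Fin n → ℝ | Loss (Poly a b) c (zz a B R μ) ((i:ℕ) * ε) ε}.indicator (fun _ => 1) := by
    ext μ
    rfl
  rw [h]
  exact measurable_const.indicator (measurable_loss c _ _)

theorem lintegral_losses [Finite ι] (c : Fin n → ℝ) (ε : ℝ) (q : ℕ) :
    ∫⁻ μ in box0 n, (losses (Poly a b) c (zz a B R μ) ε q : ℝ≥0∞) =
      ∑ i ∈ Finset.range q,
        volume {μ : Fin n → ℝ | μ ∈ box0 n ∧ Loss (Poly a b) c (zz a B R μ) (i * ε) ε} := by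
  simp_rw [losses_eq]
  have h : ∀ i : ℕ, (fun μ : Fin n → ℝ =>
      {x : Fin n → ℝ | Loss (Poly a b) c x ((i:ℕ) * ε) ε}.indicator
      (fun _ => (1:ℝ≥0∞)) (zz a B R μ)) =
      {μ : Fin n → ℝ | Loss (Poly a b) c (zz a B R μ) ((i:ℕ) * ε) ε}.indicator (fun _ => 1) :=
    fun i => rfl
  rw [lintegral_finsetSum]
  · refine Finset.sum_congr rfl fun i _ => ?_
    rw [h i, lintegral_indicator (measurable_loss c _ _), lintegral_one, Measure.restrict_restrict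
      (measurable_loss c _ _), Measure.restrict_apply MeasurableSet.univ, univ_inter]
    congr 1
    ext μ
    exact ⟨fun h => ⟨h.2, h.1⟩, fun h => ⟨h.2, h.1⟩⟩
  · intro i _
    rw [h i]
    exact measurable_const.indicator (measurable_loss c _ _)

/-- the mean number of losses -/
theorem mean_losses [Fintype ι] (hB : LinearIndependent ℝ (fun k => a (B k))) {κ Γ K θ : ℝ}
    (hκ : Bal a κ) {c : Fin n → ℝ}
    (hΓ : ∀ e : Fin n → ℝ, (∀ k, |a k ⬝ᵥ e| ≤ κ) → |c ⬝ᵥ e| ≤ Γ) (hΓ0 : 0 < Γ) (hκ0 : 0 < κ)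
    (hK : 0 < K) (hθ : 0 < θ) {q : ℕ} (hq : 2 ≤ q * (θ / (K * Γ * κ))) :
    ∫⁻ μ in box0 n, (losses (Poly a b) c (zz a B R μ) (K / q) q : ℝ≥0∞) ≤
      ENNReal.ofReal (2 * (n:ℝ) * (1 + 2 * θ) ^ n * (K * Γ * κ / θ)) := by
  rw [lintegral_losses]
  set ρ := θ / (K * Γ * κ) with hρ
  have hρ0 : 0 < ρ := by positivity
  have hq0 : 0 < (q:ℝ) := by
    by_contra h
    push Not at h
    have : (q:ℝ) * ρ ≤ 0 := mul_nonpos_of_nonpos_of_nonneg h hρ0.le
    linarith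
  have hε : 0 < K / q := by positivity
  set r := ⌊(q:ℝ) * ρ⌋₊ with hr
  have hr1 : (r:ℝ) ≤ q * ρ := Nat.floor_le (by positivity)
  have hr2 : (q:ℝ) * ρ / 2 ≤ r := by
    have := Nat.lt_floor_add_one ((q:ℝ) * ρ)
    rw [← hr] at this
    linarith
  have hrle : (r:ℝ) * (K / q * Γ) * κ ≤ θ := by
    calc (r:ℝ) * (K / q * Γ) * κ ≤ (q * ρ) * (K / q * Γ) * κ := by gcongr
      _ = θ := by
        rw [hρ]
        field_simp
  have hb : ∀ i ∈ Finset.range q, (r : ℝ≥0∞) *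
      volume {μ : Fin n → ℝ | μ ∈ box0 n ∧
        Loss (Poly a b) c (zz a B R μ) (i * (K / q)) (K / q)} ≤
      (n : ℝ≥0∞) * volume (box1 n θ) := fun i _ =>
    loss_bound hB hκ hΓ hΓ0 hε r hrle
  set S := ∑ i ∈ Finset.range q,
        volume {μ : Fin n → ℝ | μ ∈ box0 n ∧
          Loss (Poly a b) c (zz a B R μ) (i * (K / q)) (K / q)} with hS
  have h1 : (r : ℝ≥0∞) * S ≤ q * ((n : ℝ≥0∞) * volume (box1 n θ)) := by
    rw [hS, Finset.mul_sum]
    refine (Finset.sum_le_sum hb).trans ?_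
    rw [Finset.sum_const, Finset.card_range, nsmul_eq_mul]
  have h2 : ENNReal.ofReal ((q:ℝ) * ρ / 2) ≤ (r : ℝ≥0∞) := by
    rw [← ENNReal.ofReal_natCast]
    exact ENNReal.ofReal_le_ofReal hr2
  have h3 : S * ENNReal.ofReal ((q:ℝ) * ρ / 2) ≤
      ENNReal.ofReal (q * ((n:ℝ) * (1 + 2 * θ) ^ n)) := by
    calc S * ENNReal.ofReal ((q:ℝ) * ρ / 2) ≤ (r : ℝ≥0∞) * S := by
          rw [mul_comm]; gcongr
      _ ≤ q * ((n : ℝ≥0∞) * volume (box1 n θ)) := h1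
      _ = ENNReal.ofReal (q * ((n:ℝ) * (1 + 2 * θ) ^ n)) := by
          rw [volume_box1 hθ.le, ENNReal.ofReal_mul hq0.le, ENNReal.ofReal_mul (by positivity),
            ENNReal.ofReal_natCast, ENNReal.ofReal_natCast]
  have hpos : 0 < (q:ℝ) * ρ / 2 := by positivity
  have h4 : S ≤ ENNReal.ofReal (q * ((n:ℝ) * (1 + 2 * θ) ^ n)) /
      ENNReal.ofReal ((q:ℝ) * ρ / 2) := by
    rw [ENNReal.le_div_iff_mul_le (Or.inl (by simpa using hpos)) (Or.inl ENNReal.ofReal_ne_top)]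
    exact h3
  rw [← ENNReal.ofReal_div_of_pos hpos] at h4
  refine h4.trans (ENNReal.ofReal_le_ofReal (le_of_eq ?_))
  rw [hρ]
  field_simp

/-- **Fatou and Markov.** -/
theorem many_losses [Fintype ι] (hB : LinearIndependent ℝ (fun k => a (B k))) {κ Γ K θ : ℝ}
    (hκ : Bal a κ) {c : Fin n → ℝ}
    (hΓ : ∀ e : Fin n → ℝ, (∀ k, |a k ⬝ᵥ e| ≤ κ) → |c ⬝ᵥ e| ≤ Γ) (hΓ0 : 0 < Γ) (hκ0 : 0 < κ)
    (hK : 0 < K) (hθ : 0 < θ) (T : ℕ) :
    (T : ℝ≥0∞) * volume {μ : Fin n → ℝ | μ ∈ box0 n ∧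
        ∀ᶠ q : ℕ in atTop, T ≤ losses (Poly a b) c (zz a B R μ) (K / q) q} ≤
      ENNReal.ofReal (2 * (n:ℝ) * (1 + 2 * θ) ^ n * (K * Γ * κ / θ)) := by
  set f : ℕ → (Fin n → ℝ) → ℝ≥0∞ := fun q μ =>
    (losses (Poly a b) c (zz a B R μ) (K / q) q : ℝ≥0∞) with hf
  have hfm : ∀ q, Measurable (f q) := fun q => measurable_losses c _ _
  set g : (Fin n → ℝ) → ℝ≥0∞ := fun μ => liminf (fun q => f q μ) atTop with hg
  have hgm : Measurable g := Measurable.liminf hfm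
  have h1 : ∫⁻ μ in box0 n, g μ ≤
      ENNReal.ofReal (2 * (n:ℝ) * (1 + 2 * θ) ^ n * (K * Γ * κ / θ)) := by
    refine (lintegral_liminf_le hfm).trans ?_
    refine le_trans liminf_le_limsup ?_
    apply limsup_le_of_le
    · isBoundedDefault
    · have hρ0 : 0 < θ / (K * Γ * κ) := by positivity
      filter_upwards [eventually_ge_atTop (⌈2 / (θ / (K * Γ * κ))⌉₊)] with q hq
      apply mean_losses hB hκ hΓ hΓ0 hκ0 hK hθ
      have h2 : 2 / (θ / (K * Γ * κ)) ≤ q := (Nat.le_ceil _).trans (by exact_mod_cast hq)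
      rwa [div_le_iff₀ hρ0] at h2
  have h2 := mul_meas_ge_le_lintegral (μ := volume.restrict (box0 n)) hgm (T : ℝ≥0∞)
  refine le_trans (mul_le_mul' le_rfl ?_) (h2.trans h1)
  rw [Measure.restrict_apply (measurableSet_le measurable_const hgm)]
  apply measure_mono
  rintro μ ⟨hμ, hev⟩
  refine ⟨?_, hμ⟩
  show (T : ℝ≥0∞) ≤ liminf (fun q => f q μ) atTop
  apply le_liminf_of_le
  · isBoundedDefault
  · filter_upwards [hev] with q hq
    show (T : ℝ≥0∞) ≤ (losses (Poly a b) c (zz a B R μ) (K / q) q : ℝ≥0∞)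
    exact_mod_cast hq

/-- the vertex `v` maximises the start objectives -/
theorem maxAt_zz {v : Fin n → ℝ} (hv : v ∈ Poly a b) (hBv : ∀ k, B k ∈ tight a b v)
    {μ : Fin n → ℝ} (hμ : ∀ k, 0 ≤ R k + μ k) : MaxAt (Poly a b) (zz a B R μ) v := by
  refine ⟨hv, fun x hx => ?_⟩
  rw [zz_dot, zz_dot]
  refine Finset.sum_le_sum fun k _ => mul_le_mul_of_nonneg_left ?_ (hμ k)
  have h : a (B k) ⬝ᵥ v = b (B k) := hBv k
  rw [h]
  exact hx (B k)

/-- **Random shadow paths are short.** -/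
theorem stage [Fintype ι] (hP : IsCompact (Poly a b))
    (hB : LinearIndependent ℝ (fun k => a (B k))) {κ Γ K θ : ℝ}
    (hκ : Bal a κ) {c : Fin n → ℝ}
    (hΓ : ∀ e : Fin n → ℝ, (∀ k, |a k ⬝ᵥ e| ≤ κ) → |c ⬝ᵥ e| ≤ Γ) (hΓ0 : 0 < Γ) (hκ0 : 0 < κ)
    (hK : 0 < K) (hθ : 0 < θ) {v : Fin n → ℝ} (hv : v ∈ (Poly a b).extremePoints ℝ)
    (hBv : ∀ k, B k ∈ tight a b v) (hR : ∀ k, 0 ≤ R k) (T : ℕ) :
    (T : ℝ≥0∞) * volume {μ : Fin n → ℝ | μ ∈ box0 n ∧ ¬ ∃ N w, N < T ∧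
        w ∈ (Poly a b).extremePoints ℝ ∧ Path (Rel (Poly a b) c (zz a B R μ) K) N v w ∧
        MaxAt (Poly a b) (zz a B R μ + K • c) w} ≤
      ENNReal.ofReal (2 * (n:ℝ) * (1 + 2 * θ) ^ n * (K * Γ * κ / θ)) := by
  refine le_trans (mul_le_mul' le_rfl ?_)
    (many_losses hB hκ hΓ hΓ0 hκ0 hK hθ (b := b) (R := R) T)
  have hae := ae_gen (b := b) (R := R) hB c
  have h0 : volume {μ : Fin n → ℝ | ¬ Gen (Poly a b) c (zz a B R μ)} = 0 := by
    rwa [ae_iff] at hae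
  refine (measure_mono (t := {μ : Fin n → ℝ | ¬ Gen (Poly a b) c (zz a B R μ)} ∪
    {μ : Fin n → ℝ | μ ∈ box0 n ∧
        ∀ᶠ q : ℕ in atTop, T ≤ losses (Poly a b) c (zz a B R μ) (K / q) q}) ?_).trans
    ((measure_union_le _ _).trans (by rw [h0, zero_add]))
  rintro μ ⟨hμ, hno⟩
  by_cases hg : Gen (Poly a b) c (zz a B R μ)
  · right
    refine ⟨hμ, ?_⟩
    by_contra hev
    rw [Filter.not_eventually] at hev
    have hmax : MaxAt (Poly a b) (zz a B R μ) v := maxAt_zz hv.1 hBv (fun k => by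
      have h1 : (1:ℝ) ≤ μ k := hμ.1 k
      linarith [hR k])
    obtain ⟨δ, hδ, hpath⟩ := exists_path hP hg hK.le hv hmax
    have hev2 : ∀ᶠ q : ℕ in atTop, 0 < q ∧ K / q < δ := by
      filter_upwards [eventually_gt_atTop (⌈K / δ⌉₊)] with q hq
      have hq0 : 0 < q := lt_of_le_of_lt (Nat.zero_le _) hq
      refine ⟨hq0, ?_⟩
      have h1 : K / δ < q := lt_of_le_of_lt (Nat.le_ceil _) (by exact_mod_cast hq)
      have hq0' : (0:ℝ) < q := by exact_mod_cast hq0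
      rw [div_lt_iff₀ hδ] at h1
      rw [div_lt_iff₀ hq0']
      linarith
    obtain ⟨q, hq1, hq2, hq3⟩ := (hev.and_eventually hev2).exists
    have hq0' : (0:ℝ) < q := by exact_mod_cast hq2
    obtain ⟨N, w, hN, hw, hp, hm⟩ := hpath q hq2 hq3 (by positivity)
    exact hno ⟨N, w, lt_of_le_of_lt hN (not_le.1 hq1), hw, hp, hm⟩
  · left
    exact hg

end

end Pool.Agent.N477.MD
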