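import Pool.Agent.N477.MD5
import Pool.Agent.H575R2.Farkas

set_option autoImplicit false

/-!
# Reaching the facets of an optimal vertex one after the other
-/

namespace Pool.Agent.N477.MD

open Matrix Set Filter Topology MeasureTheory ENNReal

variable {n : ℕ} {ι : Type*}

/-- Carathéodory for cones -/
theorem cone_indep (a : ι → Fin n → ℝ) (c : Fin n → ℝ) :
    ∀ (m : ℕ) (T : Finset ι) (y : ι → ℝ), T.card = m → (∀ j ∈ T, 0 ≤ y j) →
      c = ∑ j ∈ T, y j • a j →
      ∃ s ⊆ T, LinearIndepOn ℝ a (s : Set ι) ∧ ∃ y' : ι → ℝ, (∀ j ∈ s, 0 ≤ y' j) ∧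
        c = ∑ j ∈ s, y' j • a j := by
  classical
  intro m
  induction m with
  | zero =>
    intro T y hT hy hc
    rw [Finset.card_eq_zero] at hT
    subst hT
    refine ⟨∅, subset_rfl, ?_, y, by simp, hc⟩
    simp
  | succ m ih =>
    intro T y hT hy hc
    by_cases hli : LinearIndepOn ℝ a (T : Set ι)
    · exact ⟨T, subset_rfl, hli, y, hy, hc⟩
    · rw [linearIndepOn_finset_iff] at hli
      push Not at hli
      obtain ⟨g0, hg0, j0, hj0, hne⟩ := hli
      have hg : ∃ g : ι → ℝ, ∑ j ∈ T, g j • a j = 0 ∧ ∃ j ∈ T, 0 < g j := by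
        rcases lt_or_gt_of_ne hne with h | h
        · refine ⟨fun j => - g0 j, ?_, j0, hj0, by simpa using h⟩
          simp only [neg_smul, Finset.sum_neg_distrib, hg0, neg_zero]
        · exact ⟨g0, hg0, j0, hj0, h⟩
      obtain ⟨g, hgs, j1, hj1, hgj1⟩ := hg
      let A := T.filter (fun j => 0 < g j)
      have hA : A.Nonempty := ⟨j1, by simp [A, hj1, hgj1]⟩
      obtain ⟨j2, hj2, hmin⟩ := Finset.exists_min_image A (fun j => y j / g j) hA
      have hj2T : j2 ∈ T := (Finset.mem_filter.1 hj2).1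
      have hj2g : 0 < g j2 := (Finset.mem_filter.1 hj2).2
      set t := y j2 / g j2 with ht
      have ht0 : 0 ≤ t := div_nonneg (hy j2 hj2T) hj2g.le
      have hy' : ∀ j ∈ T, 0 ≤ y j - t * g j := by
        intro j hj
        rcases le_or_gt (g j) 0 with h | h
        · have := mul_nonpos_of_nonneg_of_nonpos ht0 h
          have := hy j hj
          linarith
        · have h2 := hmin j (by simp [A, hj, h])
          rw [le_div_iff₀ h] at h2
          linarith
      have hzero : y j2 - t * g j2 = 0 := by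
        rw [ht, div_mul_cancel₀ _ hj2g.ne', sub_self]
      have hc' : c = ∑ j ∈ T.erase j2, (y j - t * g j) • a j := by
        rw [← Finset.sum_erase_add _ _ hj2T] at hc
        have h1 : ∑ j ∈ T, (y j - t * g j) • a j = c := by
          rw [← Finset.sum_erase_add _ _ hj2T, hc]
          have h2 : ∑ j ∈ T, (y j - t * g j) • a j =
              ∑ j ∈ T, y j • a j - t • ∑ j ∈ T, g j • a j := by
            rw [Finset.smul_sum, ← Finset.sum_sub_distrib]
            exact Finset.sum_congr rfl fun j _ => by rw [sub_smul, smul_smul]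
          rw [hgs, smul_zero, sub_zero, ← Finset.sum_erase_add _ _ hj2T,
            ← Finset.sum_erase_add T (fun j => y j • a j) hj2T] at h2
          exact h2
        rw [← h1, ← Finset.sum_erase_add _ _ hj2T, hzero, zero_smul, add_zero]
      obtain ⟨s, hs, h1, h2⟩ := ih (T.erase j2) (fun j => y j - t * g j)
        (by rw [Finset.card_erase_of_mem hj2T, hT]; rfl)
        (fun j hj => hy' j (Finset.mem_of_mem_erase hj)) hc'
      exact ⟨s, hs.trans (Finset.erase_subset _ _), h1, h2⟩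

section

variable {a : ι → Fin n → ℝ} {b : ι → ℝ}

/-- **An optimal basis.** -/
theorem optimal_basis [Fintype ι] {c w : Fin n → ℝ} (hw : w ∈ (Poly a b).extremePoints ℝ)
    (hmax : MaxAt (Poly a b) c w) :
    ∃ (S : Fin n → ι) (y : Fin n → ℝ), LinearIndependent ℝ (fun k => a (S k)) ∧
      (∀ k, S k ∈ tight a b w) ∧ (∀ k, 0 ≤ y k) ∧ c = ∑ k, y k • a (S k) := by
  classical
  let φ : ι ≃ Fin (Fintype.card ι) := Fintype.equivFin ι
  let T : Finset ι := Finset.univ.filter (fun j => j ∈ tight a b w)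
  let ℓ : Fin (Fintype.card ι) → ((Fin n → ℝ) →ₗ[ℝ] ℝ) := fun i =>
    if φ.symm i ∈ tight a b w then ((fnl (a (φ.symm i)) : (Fin n → ℝ) →L[ℝ] ℝ) :
      (Fin n → ℝ) →ₗ[ℝ] ℝ) else 0
  obtain ⟨wt, hwt, hsum⟩ := H575R2.farkas_lin _ ℓ ((fnl c : (Fin n → ℝ) →L[ℝ] ℝ) :
      (Fin n → ℝ) →ₗ[ℝ] ℝ) (by
    intro d hd
    have hd' : ∀ j ∈ tight a b w, a j ⬝ᵥ d ≤ 0 := by
      intro j hj
      have h := hd (φ j)
      simp only [ℓ, Equiv.symm_apply_apply, hj, if_true] at h
      exact h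
    obtain ⟨s, hs, hin⟩ := step_in hw.1 hd'
    have h1 := hmax.2 _ (hin s hs.le le_rfl)
    rw [dotProduct_add, dotProduct_smul, smul_eq_mul] at h1
    show c ⬝ᵥ d ≤ 0
    by_contra hpos
    push Not at hpos
    have := mul_pos hs hpos
    linarith)
  have hc : c = ∑ j ∈ T, wt (φ j) • a j := by
    have h1 : ∀ x : Fin n → ℝ, c ⬝ᵥ x = (∑ j ∈ T, wt (φ j) • a j) ⬝ᵥ x := by
      intro x
      have h2 := hsum x
      have h3 : c ⬝ᵥ x = ∑ i, wt i * ℓ i x := h2
      rw [h3, sum_dotProduct, ← Equiv.sum_comp φ, Finset.sum_filter]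
      refine Finset.sum_congr rfl fun j _ => ?_
      by_cases hj : j ∈ tight a b w
      · simp only [ℓ, Equiv.symm_apply_apply, hj, if_true, smul_dotProduct, smul_eq_mul]
        rfl
      · simp [ℓ, hj]
    ext i
    have h4 := h1 (Pi.single i 1)
    simpa using h4
  obtain ⟨s, hsT, hli, y', hy', hc'⟩ := cone_indep a c _ T (fun j => wt (φ j)) rfl
    (fun j _ => hwt _) hc
  obtain ⟨S, hS1, hS2, hS3, hS4⟩ := exists_basis_ext a (I := (s : Set ι)) (T := tight a b w)
    (fun j hj => by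
      have := hsT hj
      simpa [T] using this) hli (fun x hx => ext_pointed hw hx)
  refine ⟨S, fun k => if S k ∈ s then y' (S k) else 0, hS4, hS1, ?_, ?_⟩
  · intro k
    by_cases hk : S k ∈ s
    · simp only [hk, if_true]
      exact hy' _ hk
    · simp [hk]
  · rw [hc']
    have h1 : s = (Finset.univ.filter (fun k => S k ∈ s)).image S := by
      ext j
      simp only [Finset.mem_image, Finset.mem_filter, Finset.mem_univ, true_and]
      constructor
      · intro hj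
        obtain ⟨k, hk⟩ := hS2 hj
        exact ⟨k, by rw [hk]; exact hj, hk⟩
      · rintro ⟨k, hk, rfl⟩
        exact hk
    conv_lhs => rw [h1]
    rw [Finset.sum_image (fun x _ y _ h => hS3 h), Finset.sum_filter]
    refine Finset.sum_congr rfl fun k _ => ?_
    by_cases hk : S k ∈ s
    · simp [hk]
    · simp [hk]

/-- at a maximiser of `z`, directions which do not decrease the tight rows do not decrease `z` -/
theorem nonneg_of_maxAt [Finite ι] {z x e : Fin n → ℝ} (h : MaxAt (Poly a b) z x)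
    (he : ∀ j ∈ tight a b x, 0 ≤ a j ⬝ᵥ e) : 0 ≤ z ⬝ᵥ e := by
  obtain ⟨s, hs, hin⟩ := step_in h.1 (e := -e) (fun j hj => by
    rw [dotProduct_neg]; linarith [he j hj])
  have h1 := h.2 _ (hin s hs.le le_rfl)
  rw [dotProduct_add, dotProduct_smul, dotProduct_neg, smul_eq_mul] at h1
  by_contra hneg
  push Not at hneg
  have := mul_pos hs (neg_pos.2 hneg)
  linarith

theorem one_le_kappa {κ : ℝ} (hκ : Bal a κ) {S : Fin n → ι}
    (hS : LinearIndependent ℝ (fun k => a (S k))) (i : Fin n) : 1 ≤ κ := by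
  classical
  have h := hκ S (S i) (Pi.single i 1) hS (by
    rw [Finset.sum_eq_single i]
    · simp
    · intro j _ hj
      rw [Pi.single_eq_of_ne hj, zero_smul]
    · simp) i
  simpa using h

/-- the constant `L` -/
noncomputable def Lc (n : ℕ) (κ : ℝ) : ℕ := ⌊36 * (n:ℝ) ^ 4 * κ ^ 3⌋₊

theorem exp_bound {n : ℕ} (hn : 0 < n) : (1 + 2 * (1 / (2 * (n:ℝ)))) ^ n ≤ 3 := by
  have hn' : (0:ℝ) < n := by exact_mod_cast hn
  have h1 : 1 + 2 * (1 / (2 * (n:ℝ))) ≤ Real.exp (1 / n) := by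
    have := Real.add_one_le_exp (1 / (n:ℝ))
    have e : 2 * (1 / (2 * (n:ℝ))) = 1 / n := by field_simp
    rw [e]; linarith
  calc (1 + 2 * (1 / (2 * (n:ℝ)))) ^ n ≤ (Real.exp (1 / n)) ^ n :=
        pow_le_pow_left₀ (by positivity) h1 n
    _ = Real.exp 1 := by
        rw [← Real.exp_nat_mul]
        congr 1
        field_simp
    _ ≤ 3 := by linarith [Real.exp_one_lt_d9]

/-- the scaled objective of a stage -/
noncomputable def stageObj (a : ι → Fin n → ℝ) (S : Fin n → ι) (y : Fin n → ℝ)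
    (I : Finset (Fin n)) (i : Fin n) : Fin n → ℝ :=
  ∑ k, (if k ∈ I then 0 else y k / y i) • a (S k)

open Classical in
/-- the offsets of a stage -/
noncomputable def stageOff (κ : ℝ) (S B : Fin n → ι) (I : Finset (Fin n)) : Fin n → ℝ :=
  fun k => if B k ∈ S '' (I : Set (Fin n)) then (2 * n * κ + 1) * (n * κ) else 0

/-- an edge which is improving for `c` and whose end points are visited by the shadow path -/
def RelC (P : Set (Fin n → ℝ)) (c c' z : Fin n → ℝ) (K : ℝ) (x y : Fin n → ℝ) : Prop :=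
  Step P c x y ∧ (∃ s ∈ Icc (0:ℝ) K, MaxAt P (z + s • c') x) ∧
    ∃ s ∈ Icc (0:ℝ) K, MaxAt P (z + s • c') y

/-- **One stage**: for most `μ` the random shadow path goes from a vertex on the facets `S k`,
`k ∈ I`, of an optimal vertex to a vertex on one more of its facets. -/
theorem one_stage_prob [Fintype ι] (hP : IsCompact (Poly a b)) {κ : ℝ} (hκ : Bal a κ)
    {S : Fin n → ι} (hS : LinearIndependent ℝ (fun k => a (S k))) {y : Fin n → ℝ}
    {w : Fin n → ℝ} (hw : w ∈ Poly a b) (hSw : ∀ k, S k ∈ tight a b w)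
    (I : Finset (Fin n)) {i : Fin n} (hi : i ∉ I) (hyi : 0 < y i)
    (hy : ∀ k, k ∉ I → 0 ≤ y k ∧ y k ≤ y i) {v : Fin n → ℝ}
    (hv : v ∈ (Poly a b).extremePoints ℝ) (hvI : ∀ k ∈ I, S k ∈ tight a b v)
    {B : Fin n → ι} (hB1 : ∀ k, B k ∈ tight a b v) (hB2 : S '' (I : Set (Fin n)) ⊆ Set.range B)
    (hB4 : LinearIndependent ℝ (fun k => a (B k))) (T : ℕ) :
    (T : ℝ≥0∞) * volume {μ : Fin n → ℝ | μ ∈ box0 n ∧ ¬ ∃ N w', N < T ∧
        w' ∈ (Poly a b).extremePoints ℝ ∧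
        Path (RelC (Poly a b) (∑ k, y k • a (S k)) (stageObj a S y I i)
          (zz a B (stageOff κ S B I) μ) (2 * n * κ + 1)) N v w' ∧
        MaxAt (Poly a b) (zz a B (stageOff κ S B I) μ + (2 * n * κ + 1) • stageObj a S y I i) w' ∧
        ∀ k ∈ insert i I, S k ∈ tight a b w'} ≤
      ENNReal.ofReal (36 * (n:ℝ) ^ 4 * κ ^ 3) := by
  classical
  have hn : 0 < n := Fin.pos i
  have hn' : (1:ℝ) ≤ n := by exact_mod_cast hn
  have hκ1 : 1 ≤ κ := one_le_kappa hκ hS i
  have hκ0 : 0 < κ := by linarith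
  -- the scaled objective
  set y' : Fin n → ℝ := fun k => if k ∈ I then 0 else y k / y i with hy'
  have hy'0 : ∀ k, 0 ≤ y' k := by
    intro k
    by_cases hk : k ∈ I
    · simp [hy', hk]
    · simp only [hy', hk, if_false]
      exact div_nonneg (hy k hk).1 hyi.le
  have hy'1 : ∀ k, y' k ≤ 1 := by
    intro k
    by_cases hk : k ∈ I
    · simp [hy', hk]
    · simp only [hy', hk, if_false]
      exact (div_le_one hyi).2 (hy k hk).2
  have hy'i : y' i = 1 := by
    simp only [hy', hi, if_false]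
    exact div_self hyi.ne'
  have hobj : stageObj a S y I i = ∑ k, y' k • a (S k) := rfl
  set c' : Fin n → ℝ := ∑ k, y' k • a (S k) with hc'
  set Γ : ℝ := n * κ with hΓdef
  have hΓ0 : 0 < Γ := by positivity
  have hΓ : ∀ e : Fin n → ℝ, (∀ k, |a k ⬝ᵥ e| ≤ κ) → |c' ⬝ᵥ e| ≤ Γ := by
    intro e he
    rw [hc', sum_dotProduct]
    calc |∑ k, (y' k • a (S k)) ⬝ᵥ e| ≤ ∑ k, |(y' k • a (S k)) ⬝ᵥ e| :=
          Finset.abs_sum_le_sum_abs _ _
      _ ≤ ∑ _k : Fin n, κ := by
          refine Finset.sum_le_sum fun k _ => ?_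
          rw [smul_dotProduct, smul_eq_mul, abs_mul, abs_of_nonneg (hy'0 k)]
          calc y' k * |a (S k) ⬝ᵥ e| ≤ 1 * κ :=
                mul_le_mul (hy'1 k) (he _) (abs_nonneg _) zero_le_one
            _ = κ := one_mul κ
      _ = Γ := by rw [Finset.sum_const, Finset.card_univ, Fintype.card_fin, nsmul_eq_mul]
  set K : ℝ := 2 * n * κ + 1 with hK
  have hK0 : 0 < K := by positivity
  have hoff : stageOff κ S B I = fun k => if B k ∈ S '' (I : Set (Fin n)) then K * Γ else 0 := by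
    unfold stageOff
    ext k
    by_cases hk : B k ∈ S '' (I : Set (Fin n))
    · simp only [hk, if_true]; rfl
    · simp only [hk, if_false]
  set R : Fin n → ℝ := fun k => if B k ∈ S '' (I : Set (Fin n)) then K * Γ else 0 with hR
  have hR0 : ∀ k, 0 ≤ R k := by
    intro k
    by_cases hk : B k ∈ S '' (I : Set (Fin n))
    · simp only [hR, hk, if_true]; positivity
    · simp only [hR, hk, if_false]; exact le_refl _
  -- stay
  have hstay : ∀ μ ∈ box0 n, ∀ s ∈ Icc (0:ℝ) K, ∀ x,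
      MaxAt (Poly a b) (zz a B R μ + s • c') x → ∀ k ∈ I, S k ∈ tight a b x := by
    intro μ hμ s hs x hx k hk
    by_contra hne
    have hlt : a (S k) ⬝ᵥ x < b (S k) := lt_of_le_of_ne (hx.1 _) hne
    have hkv : a (S k) ⬝ᵥ v = b (S k) := hvI k hk
    obtain ⟨e, he1, he2, he3, he4, he5⟩ := elem_vec hκ (Set.range B) (tight a b x)
      (fun x hx _ => eq_zero_of_basis hB4 (fun k => hx _ ⟨k, rfl⟩))
      (u := -a (S k)) (d := x - v)
      (by
        rintro _ ⟨j, rfl⟩
        have hj : a (B j) ⬝ᵥ v = b (B j) := hB1 j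
        rw [dotProduct_sub, hj]
        linarith [hx.1 (B j)])
      (fun j hj => by
        have hj' : a j ⬝ᵥ x = b j := hj
        rw [dotProduct_sub, hj']
        linarith [hv.1 j])
      (by rw [neg_dotProduct, dotProduct_sub, hkv]; linarith)
    have h1 := nonneg_of_maxAt hx he2
    rw [neg_dotProduct] at he3
    have h2 : a (S k) ⬝ᵥ e ≤ -1 := by
      have h3 := he4 (S k) (by linarith)
      rw [abs_of_neg (by linarith)] at h3
      linarith
    obtain ⟨j0, hj0⟩ := hB2 (mem_image_of_mem S (Finset.mem_coe.2 hk))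
    rw [add_dotProduct, smul_dotProduct, smul_eq_mul, zz_dot] at h1
    have h3 : ∑ j, (R j + μ j) * (a (B j) ⬝ᵥ e) ≤ -(K * Γ) - 1 := by
      rw [← Finset.add_sum_erase _ _ (Finset.mem_univ j0)]
      have h4 : ∑ j ∈ Finset.univ.erase j0, (R j + μ j) * (a (B j) ⬝ᵥ e) ≤ 0 := by
        apply Finset.sum_nonpos
        intro j _
        have hμj : (1:ℝ) ≤ μ j := hμ.1 j
        exact mul_nonpos_of_nonneg_of_nonpos (by linarith [hR0 j]) (he1 _ ⟨j, rfl⟩)
      have h5 : R j0 = K * Γ := by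
        simp only [hR]
        rw [if_pos]
        rw [hj0]
        exact mem_image_of_mem S (Finset.mem_coe.2 hk)
      have hμj : (1:ℝ) ≤ μ j0 := hμ.1 j0
      rw [h5, hj0]
      have h6 : 0 < K * Γ := by positivity
      nlinarith
    have h7 : s * (c' ⬝ᵥ e) ≤ K * Γ := by
      have h8 := hΓ e he5
      calc s * (c' ⬝ᵥ e) ≤ s * |c' ⬝ᵥ e| := mul_le_mul_of_nonneg_left (le_abs_self _) hs.1
        _ ≤ K * Γ := mul_le_mul hs.2 h8 (abs_nonneg _) hK0.le
    linarith
  -- hit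
  have hhit : ∀ μ ∈ box0 n, ∀ x, MaxAt (Poly a b) (zz a B R μ + K • c') x →
      S i ∈ tight a b x := by
    intro μ hμ x hx
    by_contra hne
    have hlt : a (S i) ⬝ᵥ x < b (S i) := lt_of_le_of_ne (hx.1 _) hne
    have hiw : a (S i) ⬝ᵥ w = b (S i) := hSw i
    obtain ⟨e, he1, he2, he3, he4, he5⟩ := elem_vec hκ (Set.range S) (tight a b x)
      (fun x hx _ => eq_zero_of_basis hS (fun k => hx _ ⟨k, rfl⟩))
      (u := -a (S i)) (d := x - w)
      (by
        rintro _ ⟨j, rfl⟩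
        have hj : a (S j) ⬝ᵥ w = b (S j) := hSw j
        rw [dotProduct_sub, hj]
        linarith [hx.1 (S j)])
      (fun j hj => by
        have hj' : a j ⬝ᵥ x = b j := hj
        rw [dotProduct_sub, hj']
        linarith [hw j])
      (by rw [neg_dotProduct, dotProduct_sub, hiw]; linarith)
    have h1 := nonneg_of_maxAt hx he2
    rw [neg_dotProduct] at he3
    have h2 : a (S i) ⬝ᵥ e ≤ -1 := by
      have h3 := he4 (S i) (by linarith)
      rw [abs_of_neg (by linarith)] at h3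
      linarith
    rw [add_dotProduct, smul_dotProduct, smul_eq_mul, zz_dot] at h1
    have h3 : ∑ j, (R j + μ j) * (a (B j) ⬝ᵥ e) ≤ n * (2 * κ) := by
      have h4 : ∀ j ∈ (Finset.univ : Finset (Fin n)), (R j + μ j) * (a (B j) ⬝ᵥ e) ≤ 2 * κ := by
        intro j _
        have hμj : (1:ℝ) ≤ μ j := hμ.1 j
        have hμj2 : μ j ≤ (2:ℝ) := hμ.2 j
        by_cases hj : B j ∈ S '' (I : Set (Fin n))
        · obtain ⟨k, -, hk⟩ := hj
          have h5 : a (B j) ⬝ᵥ e ≤ 0 := by rw [← hk]; exact he1 _ ⟨k, rfl⟩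
          have h6 := mul_nonpos_of_nonneg_of_nonpos (by linarith [hR0 j] : 0 ≤ R j + μ j) h5
          linarith
        · have h5 : R j = 0 := by simp only [hR, hj, if_false]
          rw [h5, zero_add]
          calc μ j * (a (B j) ⬝ᵥ e) ≤ μ j * |a (B j) ⬝ᵥ e| :=
                mul_le_mul_of_nonneg_left (le_abs_self _) (by linarith)
            _ ≤ 2 * κ := mul_le_mul hμj2 (he5 _) (abs_nonneg _) (by norm_num)
      refine (Finset.sum_le_sum h4).trans ?_
      rw [Finset.sum_const, Finset.card_univ, Fintype.card_fin, nsmul_eq_mul]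
    have h7 : c' ⬝ᵥ e ≤ -1 := by
      rw [hc', sum_dotProduct, ← Finset.add_sum_erase _ _ (Finset.mem_univ i), smul_dotProduct,
        hy'i, one_smul]
      have h8 : ∑ k ∈ Finset.univ.erase i, (y' k • a (S k)) ⬝ᵥ e ≤ 0 := by
        apply Finset.sum_nonpos
        intro k _
        rw [smul_dotProduct, smul_eq_mul]
        exact mul_nonpos_of_nonneg_of_nonpos (hy'0 k) (he1 _ ⟨k, rfl⟩)
      linarith
    have h9 : K * (c' ⬝ᵥ e) ≤ -K := by nlinarith
    rw [hK] at h9 h1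
    nlinarith
  -- the probability
  set θ : ℝ := 1 / (2 * n) with hθ
  have hθ0 : 0 < θ := by positivity
  have hst := stage hP hB4 hκ (c := c') hΓ hΓ0 hκ0 hK0 hθ0 hv hB1 hR0 T
  have hΛ : 2 * (n:ℝ) * (1 + 2 * θ) ^ n * (K * Γ * κ / θ) ≤
      36 * (n:ℝ) ^ 4 * κ ^ 3 := by
    have h1 : (1 + 2 * θ) ^ n ≤ 3 := exp_bound hn
    have h2 : K ≤ 3 * n * κ := by
      have : 1 ≤ (n:ℝ) * κ := by nlinarith
      rw [hK]; nlinarith
    have h3 : K * Γ * κ / θ ≤ 6 * (n:ℝ) ^ 3 * κ ^ 3 := by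
      rw [hθ, div_div_eq_mul_div, div_one]
      calc K * Γ * κ * (2 * n) ≤ (3 * n * κ) * Γ * κ * (2 * n) := by gcongr
        _ = 6 * (n:ℝ) ^ 3 * κ ^ 3 := by rw [hΓdef]; ring
    calc 2 * (n:ℝ) * (1 + 2 * θ) ^ n * (K * Γ * κ / θ)
        ≤ 2 * (n:ℝ) * 3 * (6 * (n:ℝ) ^ 3 * κ ^ 3) := by gcongr
      _ = _ := by ring
  refine le_trans (mul_le_mul' le_rfl (measure_mono ?_))
    (hst.trans (ENNReal.ofReal_le_ofReal hΛ))
  rintro μ ⟨hμ, hno⟩
  refine ⟨hμ, fun hex => hno ?_⟩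
  obtain ⟨N, w', hN, hw', hp, hm⟩ := hex
  rw [hobj, hoff]
  refine ⟨N, w', hN, hw', ?_, hm, ?_⟩
  · refine hp.mono ?_
    rintro x1 x2 ⟨⟨hx1, hx2, hx3, hx4⟩, ⟨s1, hs1, hm1⟩, ⟨s2, hs2, hm2⟩⟩
    refine ⟨⟨hx1, hx2, hx3, ?_⟩, ⟨s1, hs1, hm1⟩, ⟨s2, hs2, hm2⟩⟩
    have ht1 := hstay μ hμ s1 hs1 x1 hm1
    have ht2 := hstay μ hμ s2 hs2 x2 hm2
    have hsplit : ∀ x : Fin n → ℝ, (∀ k ∈ I, S k ∈ tight a b x) →
        (∑ k, y k • a (S k)) ⬝ᵥ x = y i * (c' ⬝ᵥ x) + ∑ k ∈ I, y k * b (S k) := by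
      intro x hx
      rw [hc', sum_dotProduct, sum_dotProduct, Finset.mul_sum]
      have e1 : ∑ k ∈ I, y k * b (S k) = ∑ k, if k ∈ I then y k * b (S k) else 0 := by
        rw [Finset.sum_ite_mem, Finset.univ_inter]
      rw [e1, ← Finset.sum_add_distrib]
      refine Finset.sum_congr rfl fun k _ => ?_
      by_cases hk : k ∈ I
      · have h1 : a (S k) ⬝ᵥ x = b (S k) := hx k hk
        simp only [hy', hk, if_true, smul_dotProduct, smul_eq_mul, zero_mul, mul_zero, zero_add, h1]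
      · simp only [hy', hk, if_false, smul_dotProduct, smul_eq_mul, add_zero]
        field_simp
    rw [hsplit x1 ht1, hsplit x2 ht2]
    have := mul_lt_mul_of_pos_left hx4 hyi
    linarith
  · intro k hk
    rcases Finset.mem_insert.1 hk with h | h
    · rw [h]; exact hhit μ hμ w' hm
    · exact hstay μ hμ K ⟨hK0.le, le_rfl⟩ w' hm k h

/-- a basis of tight rows at `v` which contains the rows `S k`, `k ∈ I` -/
theorem stage_basis [Finite ι] {S : Fin n → ι} (hS : LinearIndependent ℝ (fun k => a (S k)))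
    (I : Finset (Fin n)) {v : Fin n → ℝ} (hv : v ∈ (Poly a b).extremePoints ℝ)
    (hvI : ∀ k ∈ I, S k ∈ tight a b v) :
    ∃ B : Fin n → ι, (∀ k, B k ∈ tight a b v) ∧ S '' (I : Set (Fin n)) ⊆ Set.range B ∧
      LinearIndependent ℝ (fun k => a (B k)) := by
  have hIli : LinearIndepOn ℝ a (S '' (I : Set (Fin n))) := by
    have h1 : LinearIndepOn ℝ (fun k => a (S k)) (I : Set (Fin n)) :=
      hS.linearIndepOn _
    exact LinearIndepOn.image_of_comp S a h1
  obtain ⟨B, hB1, hB2, hB3, hB4⟩ := exists_basis_ext a (I := S '' (I : Set (Fin n)))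
    (T := tight a b v) (by rintro _ ⟨k, hk, rfl⟩; exact hvI k hk) hIli
    (fun x hx => ext_pointed hv hx)
  exact ⟨B, hB1, hB2, hB4⟩

theorem volume_lt_of_mul_le {s : Set (Fin n → ℝ)} {T : ℕ} {C x : ℝ} (hx : 0 < x)
    (h : (T : ℝ≥0∞) * volume s ≤ ENNReal.ofReal C) (hT : C < x * T) (hC : 0 ≤ C) :
    volume s < ENNReal.ofReal x := by
  by_contra hge
  push Not at hge
  have h1 : ENNReal.ofReal (x * T) ≤ ENNReal.ofReal C := by
    calc ENNReal.ofReal (x * T) = (T : ℝ≥0∞) * ENNReal.ofReal x := by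
          rw [mul_comm, ENNReal.ofReal_mul (Nat.cast_nonneg T), ENNReal.ofReal_natCast]
      _ ≤ (T : ℝ≥0∞) * volume s := mul_le_mul' le_rfl hge
      _ ≤ _ := h
  rw [ENNReal.ofReal_le_ofReal_iff hC] at h1
  linarith

/-- **One stage**, existence. -/
theorem one_stage [Fintype ι] (hP : IsCompact (Poly a b)) {κ : ℝ} (hκ : Bal a κ)
    {S : Fin n → ι} (hS : LinearIndependent ℝ (fun k => a (S k))) {y : Fin n → ℝ}
    {w : Fin n → ℝ} (hw : w ∈ Poly a b) (hSw : ∀ k, S k ∈ tight a b w)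
    (I : Finset (Fin n)) {i : Fin n} (hi : i ∉ I) (hyi : 0 < y i)
    (hy : ∀ k, k ∉ I → 0 ≤ y k ∧ y k ≤ y i) {v : Fin n → ℝ}
    (hv : v ∈ (Poly a b).extremePoints ℝ) (hvI : ∀ k ∈ I, S k ∈ tight a b v) :
    ∃ N w', N ≤ Lc n κ ∧ w' ∈ (Poly a b).extremePoints ℝ ∧
      Path (Step (Poly a b) (∑ k, y k • a (S k))) N v w' ∧
      ∀ k ∈ insert i I, S k ∈ tight a b w' := by
  obtain ⟨B, hB1, hB2, hB4⟩ := stage_basis hS I hv hvI
  have h := one_stage_prob hP hκ hS hw hSw I hi hyi hy hv hvI hB1 hB2 hB4 (Lc n κ + 1)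
  have hκ1 : 1 ≤ κ := one_le_kappa hκ hS i
  have hlt := volume_lt_of_mul_le one_pos h (by
    unfold Lc
    push_cast
    have := Nat.lt_floor_add_one (36 * (n:ℝ) ^ 4 * κ ^ 3)
    linarith) (by positivity)
  have hns : ¬ (box0 n ⊆ {μ : Fin n → ℝ | μ ∈ box0 n ∧ ¬ ∃ N w', N < Lc n κ + 1 ∧
        w' ∈ (Poly a b).extremePoints ℝ ∧
        Path (RelC (Poly a b) (∑ k, y k • a (S k)) (stageObj a S y I i)
          (zz a B (stageOff κ S B I) μ) (2 * n * κ + 1)) N v w' ∧
        MaxAt (Poly a b) (zz a B (stageOff κ S B I) μ + (2 * n * κ + 1) • stageObj a S y I i) w' ∧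
        ∀ k ∈ insert i I, S k ∈ tight a b w'}) := by
    intro hsub
    have h1 := (measure_mono (μ := volume) hsub).trans_lt hlt
    rw [volume_box0, ENNReal.ofReal_one] at h1
    exact lt_irrefl _ h1
  rw [Set.not_subset] at hns
  obtain ⟨μ, hμ, hnb⟩ := hns
  have hex : ∃ N w', N < Lc n κ + 1 ∧
        w' ∈ (Poly a b).extremePoints ℝ ∧
        Path (RelC (Poly a b) (∑ k, y k • a (S k)) (stageObj a S y I i)
          (zz a B (stageOff κ S B I) μ) (2 * n * κ + 1)) N v w' ∧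
        MaxAt (Poly a b) (zz a B (stageOff κ S B I) μ + (2 * n * κ + 1) • stageObj a S y I i) w' ∧
        ∀ k ∈ insert i I, S k ∈ tight a b w' := by
    by_contra hne
    exact hnb ⟨hμ, hne⟩
  obtain ⟨N, w', hN, hw', hp, -, ht⟩ := hex
  exact ⟨N, w', by omega, hw', hp.mono (fun _ _ h => h.1), ht⟩

end

end Pool.Agent.N477.MD
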