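import Pool.Agent.N477.MD6

set_option autoImplicit false

/-!
# Short improving paths on polytopes, and the truncation of polyhedra
-/

namespace Pool.Agent.N477.MD

open Matrix Set Filter Topology MeasureTheory ENNReal

variable {n : ℕ} {ι : Type*} {a : ι → Fin n → ℝ} {b : ι → ℝ}

theorem stages [Fintype ι] (hP : IsCompact (Poly a b)) {κ : ℝ} (hκ : Bal a κ)
    {S : Fin n → ι} (hS : LinearIndependent ℝ (fun k => a (S k))) {y : Fin n → ℝ}
    (hy : ∀ k, 0 ≤ y k) {w : Fin n → ℝ} (hw : w ∈ Poly a b) (hSw : ∀ k, S k ∈ tight a b w) :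
    ∀ (j : ℕ) (I : Finset (Fin n)), Iᶜ.card = j → ∀ v ∈ (Poly a b).extremePoints ℝ,
      (∀ k ∈ I, S k ∈ tight a b v) →
      ∃ N w', N ≤ j * Lc n κ ∧ w' ∈ (Poly a b).extremePoints ℝ ∧
        Path (Step (Poly a b) (∑ k, y k • a (S k))) N v w' ∧
        MaxAt (Poly a b) (∑ k, y k • a (S k)) w' := by
  classical
  intro j
  induction j with
  | zero =>
    intro I hI v hv hvI
    refine ⟨0, v, Nat.zero_le _, hv, Path.nil v, hv.1, fun x hx => ?_⟩
    rw [sum_dotProduct, sum_dotProduct]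
    refine Finset.sum_le_sum fun k _ => ?_
    rw [smul_dotProduct, smul_dotProduct, smul_eq_mul, smul_eq_mul]
    have hk : k ∈ I := by
      by_contra hne
      rw [Finset.card_eq_zero] at hI
      have : k ∈ Iᶜ := Finset.mem_compl.2 hne
      rw [hI] at this
      simp at this
    have h : a (S k) ⬝ᵥ v = b (S k) := hvI k hk
    rw [h]
    exact mul_le_mul_of_nonneg_left (hx _) (hy k)
  | succ j ih =>
    intro I hI v hv hvI
    by_cases hall : ∀ k, k ∉ I → y k = 0
    · refine ⟨0, v, Nat.zero_le _, hv, Path.nil v, hv.1, fun x hx => ?_⟩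
      rw [sum_dotProduct, sum_dotProduct]
      refine Finset.sum_le_sum fun k _ => ?_
      rw [smul_dotProduct, smul_dotProduct, smul_eq_mul, smul_eq_mul]
      by_cases hk : k ∈ I
      · have h : a (S k) ⬝ᵥ v = b (S k) := hvI k hk
        rw [h]
        exact mul_le_mul_of_nonneg_left (hx _) (hy k)
      · rw [hall k hk, zero_mul, zero_mul]
    · push Not at hall
      obtain ⟨k0, hk0, hyk0⟩ := hall
      obtain ⟨i, hi, hmax⟩ := Finset.exists_max_image Iᶜ y ⟨k0, Finset.mem_compl.2 hk0⟩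
      have hyi : 0 < y i :=
        lt_of_lt_of_le (lt_of_le_of_ne (hy k0) (Ne.symm hyk0)) (hmax k0 (Finset.mem_compl.2 hk0))
      obtain ⟨N1, w1, hN1, hw1, hp1, ht1⟩ := one_stage hP hκ hS hw hSw I
        (Finset.mem_compl.1 hi) hyi (fun k hk => ⟨hy k, hmax k (Finset.mem_compl.2 hk)⟩) hv hvI
      obtain ⟨N2, w2, hN2, hw2, hp2, hm2⟩ := ih (insert i I) (by
        rw [Finset.compl_insert, Finset.card_erase_of_mem hi, hI]; rfl) w1 hw1 ht1
      refine ⟨N1 + N2, w2, ?_, hw2, hp1.trans hp2, hm2⟩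
      rw [Nat.succ_mul]
      omega

/-- **Short improving paths on polytopes.** -/
theorem compact_path [Fintype ι] (hP : IsCompact (Poly a b)) {κ : ℝ} (hκ : Bal a κ)
    (c : Fin n → ℝ) {v : Fin n → ℝ} (hv : v ∈ (Poly a b).extremePoints ℝ) :
    ∃ N w, N ≤ n * Lc n κ ∧ w ∈ (Poly a b).extremePoints ℝ ∧
      Path (Step (Poly a b) c) N v w ∧ MaxAt (Poly a b) c w := by
  obtain ⟨w0, hw0, hmax⟩ := exists_maxAt hP ⟨v, hv.1⟩ c
  obtain ⟨S, y, hS, hSw, hy, hc⟩ := optimal_basis hw0 hmax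
  rw [hc]
  exact stages hP hκ hS hy hw0.1 hSw n ∅ (by simp) v hv (by simp)

/-! ### Truncation -/

/-- the rows of the truncated system -/
def rowsT (a : ι → Fin n → ℝ) (σ : Fin n → ℝ) : ι ⊕ Fin n → Fin n → ℝ :=
  Sum.elim a (fun j => Pi.single j (σ j))

/-- the right hand sides of the truncated system -/
def rhsT (b : ι → ℝ) (σ : Fin n → ℝ) (M : ℝ) : ι ⊕ Fin n → ℝ := Sum.elim b (fun j => σ j * M)

variable {σ : Fin n → ℝ}

theorem mem_polyT (hσ : ∀ j, 0 < σ j) {M : ℝ} {x : Fin n → ℝ} :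
    x ∈ Poly (rowsT a σ) (rhsT b σ M) ↔ x ∈ Poly a b ∧ ∀ j, x j ≤ M := by
  constructor
  · intro h
    refine ⟨fun i => h (Sum.inl i), fun j => ?_⟩
    have h1 : Pi.single j (σ j) ⬝ᵥ x ≤ σ j * M := h (Sum.inr j)
    rw [single_dotProduct] at h1
    exact le_of_mul_le_mul_left h1 (hσ j)
  · rintro ⟨h1, h2⟩ (i | j)
    · exact h1 i
    · show Pi.single j (σ j) ⬝ᵥ x ≤ σ j * M
      rw [single_dotProduct]
      exact mul_le_mul_of_nonneg_left (h2 j) (hσ j).le

/-- a point of the polyhedron with coordinates below `M` can be moved inside the truncation -/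
theorem move_in (hσ : ∀ j, 0 < σ j) {M : ℝ} {x y : Fin n → ℝ} (hx : x ∈ Poly a b) (hxM : ∀ j, x j < M)
    (hy : y ∈ Poly a b) : ∃ t : ℝ, 0 < t ∧ t ≤ 1 ∧
      x + t • (y - x) ∈ Poly (rowsT a σ) (rhsT b σ M) := by
  have h1 : ∀ j : Fin n, ∃ s : ℝ, 0 < s ∧ ∀ t : ℝ, 0 ≤ t → t ≤ s → x j + t * (y j - x j) ≤ M := by
    intro j
    rcases le_or_gt (y j - x j) 0 with h | h
    · refine ⟨1, one_pos, fun t ht _ => ?_⟩
      have := mul_nonpos_of_nonneg_of_nonpos ht h
      linarith [hxM j]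
    · refine ⟨(M - x j) / (y j - x j), div_pos (by linarith [hxM j]) h, fun t ht hts => ?_⟩
      rw [le_div_iff₀ h] at hts
      linarith
  choose s hs0 hs using h1
  have hfin : ∃ t : ℝ, 0 < t ∧ t ≤ 1 ∧ ∀ j, t ≤ s j := by
    rcases isEmpty_or_nonempty (Fin n) with hι | hι
    · exact ⟨1, one_pos, le_rfl, fun j => (hι.false j).elim⟩
    · obtain ⟨i0, -, hi0⟩ := Finset.exists_min_image Finset.univ s Finset.univ_nonempty
      exact ⟨min 1 (s i0), lt_min one_pos (hs0 i0), min_le_left _ _,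
        fun j => (min_le_right _ _).trans (hi0 j (Finset.mem_univ j))⟩
  obtain ⟨t, ht0, ht1, hts⟩ := hfin
  refine ⟨t, ht0, ht1, (mem_polyT hσ).2 ⟨?_, fun j => ?_⟩⟩
  · have hconv := convex_poly (a := a) (b := b) hx hy (by linarith : 0 ≤ 1 - t) ht0.le (by ring)
    have e : x + t • (y - x) = (1 - t) • x + t • y := by
      rw [smul_sub, sub_smul, one_smul]; abel
    rw [e]; exact hconv
  · have := hs j t ht0.le (hts j)
    simpa using this

theorem max_of_trunc (hσ : ∀ j, 0 < σ j) {M : ℝ} {l x : Fin n → ℝ} (hxM : ∀ j, x j < M)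
    (h : MaxAt (Poly (rowsT a σ) (rhsT b σ M)) l x) : MaxAt (Poly a b) l x := by
  have hx := ((mem_polyT hσ).1 h.1).1
  refine ⟨hx, fun y hy => ?_⟩
  obtain ⟨t, ht0, -, hin⟩ := move_in hσ hx hxM hy
  have h1 := h.2 _ hin
  rw [dotProduct_add, dotProduct_smul, smul_eq_mul, dotProduct_sub] at h1
  by_contra hneg
  push Not at hneg
  have := mul_pos ht0 (sub_pos.2 hneg)
  linarith

theorem ext_of_trunc [Finite ι] (hσ : ∀ j, 0 < σ j) {M : ℝ} {x : Fin n → ℝ} (hxM : ∀ j, x j < M)
    (h : x ∈ (Poly (rowsT a σ) (rhsT b σ M)).extremePoints ℝ) : x ∈ (Poly a b).extremePoints ℝ := by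
  refine ext_of_tight ((mem_polyT hσ).1 h.1).1 fun f hf => ext_pointed h ?_
  rintro (i | j) hj
  · exact hf i hj
  · have h1 : Pi.single j (σ j) ⬝ᵥ x = σ j * M := hj
    rw [single_dotProduct] at h1
    exact absurd (mul_left_cancel₀ (hσ j).ne' h1) (hxM j).ne

theorem trunc_of_ext (hσ : ∀ j, 0 < σ j) {M : ℝ} {x : Fin n → ℝ} (hxM : ∀ j, x j ≤ M)
    (h : x ∈ (Poly a b).extremePoints ℝ) : x ∈ (Poly (rowsT a σ) (rhsT b σ M)).extremePoints ℝ := by
  refine ⟨(mem_polyT hσ).2 ⟨h.1, hxM⟩, fun y hy z hz hyz => ?_⟩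
  exact h.2 ((mem_polyT hσ).1 hy).1 ((mem_polyT hσ).1 hz).1 hyz

/-- the functional which exposes a set, as a vector -/
theorem exposed_vec {P C : Set (Fin n → ℝ)} (h : IsExposed ℝ P C) (hne : C.Nonempty) :
    ∃ l : Fin n → ℝ, C = face P l := by
  obtain ⟨f, hf⟩ := h hne
  obtain ⟨l, hl⟩ := dual_eq_dot ((f : (Fin n → ℝ) →L[ℝ] ℝ) : (Fin n → ℝ) →ₗ[ℝ] ℝ)
  refine ⟨l, ?_⟩
  rw [hf]
  ext x
  have e : ∀ y, f y = l ⬝ᵥ y := hl
  simp only [face, mem_ofPred_eq, e]

/-- points of the polyhedron maximising `l` lie on the line -/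
theorem on_line (hσ : ∀ j, 0 < σ j) {M : ℝ} {l x y z : Fin n → ℝ} (hxM : ∀ j, x j < M)
    (hseg : segment ℝ x y = face (Poly (rowsT a σ) (rhsT b σ M)) l)
    (hz : MaxAt (Poly a b) l z) : ∃ s : ℝ, z = x + s • (y - x) := by
  have hx : x ∈ face (Poly (rowsT a σ) (rhsT b σ M)) l := by
    rw [← hseg]; exact left_mem_segment ℝ x y
  have hxP := ((mem_polyT hσ).1 hx.1).1
  have hxmax := max_of_trunc hσ hxM (mem_face.1 hx)
  obtain ⟨t, ht0, -, hin⟩ := move_in hσ hxP hxM hz.1
  have hval : l ⬝ᵥ (x + t • (z - x)) = l ⬝ᵥ x := by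
    have := maxAt_eq hz hxmax
    rw [dotProduct_add, dotProduct_smul, this, smul_zero, add_zero]
  have hmem : x + t • (z - x) ∈ segment ℝ x y := by
    rw [hseg]
    refine ⟨hin, fun u hu => ?_⟩
    rw [hval]
    exact hx.2 u hu
  rw [segment_eq_image'] at hmem
  obtain ⟨s, -, hs⟩ := hmem
  refine ⟨s / t, ?_⟩
  have h1 : t • (z - x) = s • (y - x) := by
    have h2 : x + s • (y - x) = x + t • (z - x) := hs
    exact (add_left_cancel h2).symm
  have h3 : z - x = (s / t) • (y - x) := by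
    rw [div_eq_inv_mul, mul_smul, ← h1, smul_smul, inv_mul_cancel₀ ht0.ne', one_smul]
  rw [← h3]; abel

/-- a step between two vertices of the polyhedron -/
theorem step_of_trunc [Finite ι] (hσ : ∀ j, 0 < σ j) {M : ℝ} {c x y : Fin n → ℝ} (hxM : ∀ j, x j < M)
    (hyM : ∀ j, y j < M) (h : Step (Poly (rowsT a σ) (rhsT b σ M)) c x y) :
    Step (Poly a b) c x y := by
  obtain ⟨hx, hy, hexp, hc⟩ := h
  have hx' := ext_of_trunc hσ hxM hx
  have hy' := ext_of_trunc hσ hyM hy
  refine ⟨hx', hy', ?_, hc⟩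
  obtain ⟨l, hl⟩ := exposed_vec hexp ⟨x, left_mem_segment ℝ x y⟩
  have hxy : x ≠ y := by rintro rfl; exact lt_irrefl _ hc
  have hface : segment ℝ x y = face (Poly a b) l := by
    ext z
    constructor
    · intro hz
      have hz1 : z ∈ face (Poly (rowsT a σ) (rhsT b σ M)) l := by rw [← hl]; exact hz
      have hxf : x ∈ face (Poly (rowsT a σ) (rhsT b σ M)) l := by
        rw [← hl]; exact left_mem_segment ℝ x y
      have hxm := max_of_trunc hσ hxM (mem_face.1 hxf)
      refine ⟨((mem_polyT hσ).1 hz1.1).1, fun u hu => (hxm.2 u hu).trans ?_⟩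
      exact hz1.2 x hxf.1
    · intro hz
      obtain ⟨s, hs⟩ := on_line hσ hxM hl (mem_face.1 hz)
      rcases lt_or_ge s 0 with h0 | h0
      · -- `x` is between `z` and `y`
        exfalso
        have hmem : x ∈ openSegment ℝ z y := by
          refine ⟨1 / (1 - s), -s / (1 - s), div_pos one_pos (by linarith),
            div_pos (by linarith) (by linarith), ?_, ?_⟩
          · rw [← add_div, div_eq_one_iff_eq (by linarith)]; ring
          · ext i
            have h1 : (1 - s) ≠ 0 := by linarith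
            simp only [hs, Pi.add_apply, Pi.smul_apply, smul_eq_mul, Pi.sub_apply]
            field_simp
            ring
        have h1 := hx'.2 hz.1 hy'.1 hmem
        have h2 : s • (y - x) = 0 := by
          have : x + s • (y - x) = x := by rw [← hs]; exact h1
          simpa using this
        rcases smul_eq_zero.1 h2 with h3 | h3
        · exact h0.ne h3
        · exact hxy (sub_eq_zero.1 h3).symm
      · rcases le_or_gt s 1 with h1 | h1
        · rw [segment_eq_image']
          exact ⟨s, ⟨h0, h1⟩, hs.symm⟩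
        · exfalso
          have hmem : y ∈ openSegment ℝ x z := by
            refine ⟨1 - 1 / s, 1 / s, ?_, by positivity, by ring, ?_⟩
            · rw [sub_pos, div_lt_one (by linarith)]; exact h1
            · ext i
              have h2 : s ≠ 0 := by linarith
              simp only [hs, Pi.add_apply, Pi.smul_apply, smul_eq_mul, Pi.sub_apply]
              field_simp
              ring
          exact hxy (hy'.2 hx'.1 hz.1 hmem)
  rw [hface]
  exact isExposed_face _ _

/-- a step to a vertex of the truncation which is not a vertex of the polyhedron belongs to an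
unbounded edge -/
theorem ray_of_trunc [Finite ι] (hσ : ∀ j, 0 < σ j) {M : ℝ} (hM : ∀ x ∈ (Poly a b).extremePoints ℝ, ∀ j, x j < M)
    {c x y : Fin n → ℝ} (hxM : ∀ j, x j < M)
    (hyM : ∃ j, M ≤ y j) (h : Step (Poly (rowsT a σ) (rhsT b σ M)) c x y) :
    IsExposed ℝ (Poly a b) {z | ∃ t : ℝ, 0 ≤ t ∧ z = x + t • (y - x)} ∧ 0 < c ⬝ᵥ (y - x) := by
  obtain ⟨hx, hy, hexp, hc⟩ := h
  have hx' := ext_of_trunc hσ hxM hx
  refine ⟨?_, by rw [dotProduct_sub]; linarith⟩
  obtain ⟨l, hl⟩ := exposed_vec hexp ⟨x, left_mem_segment ℝ x y⟩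
  have hxy : x ≠ y := by rintro rfl; exact lt_irrefl _ hc
  have hxf : x ∈ face (Poly (rowsT a σ) (rhsT b σ M)) l := by
    rw [← hl]; exact left_mem_segment ℝ x y
  have hyf : y ∈ face (Poly (rowsT a σ) (rhsT b σ M)) l := by
    rw [← hl]; exact right_mem_segment ℝ x y
  have hyP := ((mem_polyT hσ).1 hyf.1).1
  have hxm := max_of_trunc hσ hxM (mem_face.1 hxf)
  have hlxy : l ⬝ᵥ (y - x) = 0 := maxAt_eq (mem_face.1 hyf) (mem_face.1 hxf)
  -- the midpoint
  set p : Fin n → ℝ := x + (1/2 : ℝ) • (y - x) with hp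
  have hpseg : p ∈ segment ℝ x y := by
    rw [segment_eq_image']
    exact ⟨1/2, ⟨by norm_num, by norm_num⟩, rfl⟩
  have hpf : p ∈ face (Poly (rowsT a σ) (rhsT b σ M)) l := by rw [← hl]; exact hpseg
  have hpM : ∀ j, p j < M := by
    intro j
    have h1 := ((mem_polyT hσ).1 hyf.1).2 j
    have h2 := hxM j
    simp only [hp, Pi.add_apply, Pi.smul_apply, smul_eq_mul, Pi.sub_apply]
    linarith
  -- the rows tight at the midpoint have kernel spanned by `y - x`
  have hker : ∀ f : Fin n → ℝ, (∀ i ∈ tight a b p, a i ⬝ᵥ f = 0) → ∃ s : ℝ, f = s • (y - x) := by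
    intro f hf
    have hft : ∀ i ∈ tight (rowsT a σ) (rhsT b σ M) p, rowsT a σ i ⬝ᵥ f = 0 := by
      rintro (i | j) hj
      · exact hf i hj
      · have h1 : Pi.single j (σ j) ⬝ᵥ p = σ j * M := hj
        rw [single_dotProduct] at h1
        exact absurd (mul_left_cancel₀ (hσ j).ne' h1) (hpM j).ne
    obtain ⟨s1, hs1, hin1⟩ := step_in hpf.1 (e := f) (fun j hj => (hft j hj).le)
    obtain ⟨s2, hs2, hin2⟩ := step_in hpf.1 (e := -f) (fun j hj => by
      rw [dotProduct_neg, hft j hj, neg_zero])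
    have e1 := hpf.2 _ (hin1 s1 hs1.le le_rfl)
    have e2 := hpf.2 _ (hin2 s2 hs2.le le_rfl)
    rw [dotProduct_add, dotProduct_smul, smul_eq_mul] at e1 e2
    rw [dotProduct_neg] at e2
    have hlf : l ⬝ᵥ f = 0 := by
      have h3 : l ⬝ᵥ f ≤ 0 := by
        by_contra hneg
        push Not at hneg
        have := mul_pos hs1 hneg
        linarith
      have h4 : 0 ≤ l ⬝ᵥ f := by
        by_contra hneg
        push Not at hneg
        have := mul_pos hs2 (neg_pos.2 hneg)
        linarith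
      linarith
    have hmem : p + s1 • f ∈ segment ℝ x y := by
      rw [hl]
      refine ⟨hin1 s1 hs1.le le_rfl, fun u hu => ?_⟩
      rw [dotProduct_add, dotProduct_smul, hlf, smul_zero, add_zero]
      exact hpf.2 u hu
    rw [segment_eq_image'] at hmem
    obtain ⟨s, -, hs⟩ := hmem
    have hs' : x + s • (y - x) = p + s1 • f := hs
    refine ⟨(s - 1/2) / s1, ?_⟩
    have h5 : s1 • f = (s - 1/2) • (y - x) := by
      rw [sub_smul]
      have : s1 • f = x + s • (y - x) - p := by rw [hs']; abel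
      rw [this, hp]; abel
    rw [div_eq_inv_mul, mul_smul, ← h5, smul_smul, inv_mul_cancel₀ hs1.ne', one_smul]
  -- the ray is contained in the polyhedron
  have hdir : ∀ i, a i ⬝ᵥ (y - x) ≤ 0 := by
    by_contra hcon
    push Not at hcon
    obtain ⟨i0, hi0⟩ := hcon
    cases nonempty_fintype ι
    classical
    let A : Finset ι := Finset.univ.filter (fun i => 0 < a i ⬝ᵥ (y - x))
    obtain ⟨i1, hi1, hmin⟩ := Finset.exists_min_image A
      (fun i => (b i - a i ⬝ᵥ x) / (a i ⬝ᵥ (y - x)))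
      ⟨i0, by simp only [A, Finset.mem_filter, Finset.mem_univ, true_and]; exact hi0⟩
    have hi1' : 0 < a i1 ⬝ᵥ (y - x) := by
      simpa only [A, Finset.mem_filter, Finset.mem_univ, true_and] using hi1
    set t := (b i1 - a i1 ⬝ᵥ x) / (a i1 ⬝ᵥ (y - x)) with ht
    have ht1 : 1 ≤ t := by
      rw [ht, le_div_iff₀ hi1', one_mul, dotProduct_sub]
      linarith [hyP i1]
    set q : Fin n → ℝ := x + t • (y - x) with hq
    have hqP : q ∈ Poly a b := by
      intro i
      rw [hq, dotProduct_add, dotProduct_smul, smul_eq_mul]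
      rcases le_or_gt (a i ⬝ᵥ (y - x)) 0 with h | h
      · have := mul_nonpos_of_nonneg_of_nonpos (by linarith : 0 ≤ t) h
        linarith [hx'.1 i]
      · have h2 := hmin i (by simp only [A, Finset.mem_filter, Finset.mem_univ, true_and]; exact h)
        rw [le_div_iff₀ h] at h2
        linarith
    have hqext : q ∈ (Poly a b).extremePoints ℝ := by
      refine ext_of_tight hqP fun f hf => ?_
      obtain ⟨s, hs⟩ := hker f (fun i hi => by
        apply hf
        -- rows tight at the midpoint vanish on the direction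
        have hi' : a i ⬝ᵥ p = b i := hi
        rw [hp, dotProduct_add, dotProduct_smul, smul_eq_mul] at hi'
        have h1 := hx'.1 i
        have h2 := hyP i
        have h3 : a i ⬝ᵥ (y - x) = 0 := by
          have h4 : a i ⬝ᵥ (y - x) = a i ⬝ᵥ y - a i ⬝ᵥ x := dotProduct_sub _ _ _
          linarith
        show a i ⬝ᵥ q = b i
        rw [hq, dotProduct_add, dotProduct_smul, h3, smul_zero, add_zero]
        rw [h3] at hi'
        linarith)
      have h1 : i1 ∈ tight a b q := by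
        show a i1 ⬝ᵥ q = b i1
        rw [hq, dotProduct_add, dotProduct_smul, smul_eq_mul, ht, div_mul_cancel₀ _ hi1'.ne']
        ring
      have h2 := hf i1 h1
      rw [hs, dotProduct_smul, smul_eq_mul] at h2
      rcases mul_eq_zero.1 h2 with h3 | h3
      · rw [hs, h3, zero_smul]
      · exact absurd h3 hi1'.ne'
    obtain ⟨j, hj⟩ := hyM
    have h1 := hM q hqext j
    have h2 := hxM j
    simp only [hq, Pi.add_apply, Pi.smul_apply, smul_eq_mul, Pi.sub_apply] at h1
    nlinarith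
  have hray : {z | ∃ t : ℝ, 0 ≤ t ∧ z = x + t • (y - x)} = face (Poly a b) l := by
    ext z
    constructor
    · rintro ⟨t, ht, rfl⟩
      refine ⟨fun i => ?_, fun u hu => ?_⟩
      · rw [dotProduct_add, dotProduct_smul, smul_eq_mul]
        have := mul_nonpos_of_nonneg_of_nonpos ht (hdir i)
        linarith [hx'.1 i]
      · rw [dotProduct_add, dotProduct_smul, hlxy, smul_zero, add_zero]
        exact hxm.2 u hu
    · intro hz
      obtain ⟨s, hs⟩ := on_line hσ hxM hl (mem_face.1 hz)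
      refine ⟨s, ?_, hs⟩
      by_contra h0
      push Not at h0
      have hmem : x ∈ openSegment ℝ z y := by
        refine ⟨1 / (1 - s), -s / (1 - s), div_pos one_pos (by linarith),
          div_pos (by linarith) (by linarith), ?_, ?_⟩
        · rw [← add_div, div_eq_one_iff_eq (by linarith)]; ring
        · ext i
          have h1 : (1 - s) ≠ 0 := by linarith
          simp only [hs, Pi.add_apply, Pi.smul_apply, smul_eq_mul, Pi.sub_apply]
          field_simp
          ring
      have h1 := hx'.2 hz.1 hyP hmem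
      have h2 : s • (y - x) = 0 := by
        have : x + s • (y - x) = x := by rw [← hs]; exact h1
        simpa using this
      rcases smul_eq_zero.1 h2 with h3 | h3
      · exact h0.ne h3
      · exact hxy (sub_eq_zero.1 h3).symm
  rw [hray]
  exact isExposed_face _ _

/-- from a path on the truncation to a path on the polyhedron -/
theorem path_of_trunc [Finite ι] (hσ : ∀ j, 0 < σ j) {M : ℝ} (hM : ∀ x ∈ (Poly a b).extremePoints ℝ, ∀ j, x j < M)
    {c : Fin n → ℝ} {N : ℕ} {v w : Fin n → ℝ}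
    (p : Path (Step (Poly (rowsT a σ) (rhsT b σ M)) c) N v w)
    (hw : MaxAt (Poly (rowsT a σ) (rhsT b σ M)) c w) (hv : v ∈ (Poly a b).extremePoints ℝ) :
    ∃ N' w', N' ≤ N ∧ w' ∈ (Poly a b).extremePoints ℝ ∧ Path (Step (Poly a b) c) N' v w' ∧
      (MaxAt (Poly a b) c w' ∨ ∃ d, IsExposed ℝ (Poly a b) {z | ∃ t : ℝ, 0 ≤ t ∧ z = w' + t • d} ∧
        0 < c ⬝ᵥ d) := by
  induction p with
  | nil x => exact ⟨0, x, le_rfl, hv, Path.nil x, Or.inl (max_of_trunc hσ (hM x hv) hw)⟩
  | @cons N x y z h p ih =>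
    by_cases hy : ∀ j, y j < M
    · have hstep := step_of_trunc hσ (hM x hv) hy h
      obtain ⟨N', w', h1, h2, h3, h4⟩ := ih hw hstep.2.1
      exact ⟨N' + 1, w', by omega, h2, Path.cons hstep h3, h4⟩
    · push Not at hy
      exact ⟨0, x, Nat.zero_le _, hv, Path.nil x,
        Or.inr ⟨_, ray_of_trunc hσ hM (hM x hv) hy h⟩⟩

end Pool.Agent.N477.MD
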