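import Pool.Agent.N477.MD7

set_option autoImplicit false

/-!
# Linear programs `A x ≤ b`, `x ≥ 0`: circuit imbalance, subdeterminants
-/

namespace Pool.Agent.N477.MD

open Matrix Set Filter Topology

variable {n : ℕ} {ι : Type*}

/-- signs and repetitions of rows do not matter -/
theorem bal_of_signs {ι' : Type*} {a : ι → Fin n → ℝ} {a' : ι' → Fin n → ℝ} {κ : ℝ}
    (hκ : Bal a κ) (f : ι' → ι) (s : ι' → ℝ) (hs : ∀ i, s i * s i = 1)
    (ha : ∀ i, a' i = s i • a (f i)) : Bal a' κ := by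
  intro B l β hB hβ k
  have ha2 : ∀ i, a (f i) = s i • a' i := by
    intro i
    rw [ha i, smul_smul, hs i, one_smul]
  have habs : ∀ i, |s i| = 1 := by
    intro i
    have h := hs i
    have h2 : |s i| * |s i| = 1 := by rw [← abs_mul, h, abs_one]
    nlinarith [abs_nonneg (s i)]
  have hB' : LinearIndependent ℝ (fun k => a (f (B k))) := by
    rw [Fintype.linearIndependent_iff] at hB ⊢
    intro g hg i
    have h1 : ∑ k, (g k * s (B k)) • a' (B k) = 0 := by
      rw [← hg]
      refine Finset.sum_congr rfl fun k _ => ?_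
      rw [ha2 (B k), smul_smul]
    have h2 := hB _ h1 i
    have h3 : s (B i) ≠ 0 := by
      intro h
      have := hs (B i)
      rw [h] at this
      simp at this
    exact (mul_eq_zero.1 h2).resolve_right h3
  have h := hκ (fun k => f (B k)) (f l) (fun k => s l * β k * s (B k)) hB' (by
    rw [ha2 l, hβ, Finset.smul_sum]
    refine Finset.sum_congr rfl fun k _ => ?_
    rw [ha (B k), smul_smul, smul_smul]) k
  simp only [abs_mul, habs, one_mul, mul_one] at h
  exact h

/-- the rows of `A` and of the identity matrix, scaled -/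
def stack {m : ℕ} (ρ : Fin m → ℝ) (σ : Fin n → ℝ) (A : Matrix (Fin m) (Fin n) ℝ) :
    Fin m ⊕ Fin n → Fin n → ℝ :=
  Sum.elim (fun i => ρ i • A i) (fun j => Pi.single j (σ j))

/-- rows of the system `A x ≤ b`, `-x ≤ 0`, scaled -/
def rowsP {m : ℕ} (ρ : Fin m → ℝ) (σ : Fin n → ℝ) (A : Matrix (Fin m) (Fin n) ℝ) :
    Fin m ⊕ Fin n → Fin n → ℝ :=
  Sum.elim (fun i => ρ i • A i) (fun j => -Pi.single j (σ j))

def rhsP {m : ℕ} (ρ : Fin m → ℝ) (b : Fin m → ℝ) : Fin m ⊕ Fin n → ℝ :=
  Sum.elim (fun i => ρ i * b i) (fun _ => 0)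

theorem mem_polyP {m : ℕ} {ρ : Fin m → ℝ} {σ : Fin n → ℝ} (hρ : ∀ i, 0 < ρ i) (hσ : ∀ j, 0 < σ j)
    {A : Matrix (Fin m) (Fin n) ℝ} {b : Fin m → ℝ} {x : Fin n → ℝ} :
    x ∈ Poly (rowsP ρ σ A) (rhsP ρ b) ↔ (∀ i, ∑ j, A i j * x j ≤ b i) ∧ ∀ j, 0 ≤ x j := by
  constructor
  · intro h
    refine ⟨fun i => ?_, fun j => ?_⟩
    · have h1 : (ρ i • A i) ⬝ᵥ x ≤ ρ i * b i := h (Sum.inl i)
      rw [smul_dotProduct, smul_eq_mul] at h1
      exact le_of_mul_le_mul_left h1 (hρ i)
    · have h1 : (-Pi.single j (σ j)) ⬝ᵥ x ≤ 0 := h (Sum.inr j)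
      rw [neg_dotProduct, single_dotProduct] at h1
      have h2 : 0 ≤ σ j * x j := by linarith
      exact nonneg_of_mul_nonneg_right h2 (hσ j)
  · rintro ⟨h1, h2⟩ (i | j)
    · show (ρ i • A i) ⬝ᵥ x ≤ ρ i * b i
      rw [smul_dotProduct, smul_eq_mul]
      exact mul_le_mul_of_nonneg_left (h1 i) (hρ i).le
    · show (-Pi.single j (σ j)) ⬝ᵥ x ≤ 0
      rw [neg_dotProduct, single_dotProduct]
      have := mul_nonneg (hσ j).le (h2 j)
      linarith

/-- **Short improving paths for linear programs of bounded circuit imbalance.** -/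
theorem lp_path {m : ℕ} {ρ : Fin m → ℝ} {σ : Fin n → ℝ} (hρ : ∀ i, 0 < ρ i) (hσ : ∀ j, 0 < σ j)
    (A : Matrix (Fin m) (Fin n) ℝ) {κ : ℝ} (hκ : Bal (stack ρ σ A) κ)
    (b : Fin m → ℝ) (c : Fin n → ℝ) {v : Fin n → ℝ}
    (hv : v ∈ (Poly (rowsP ρ σ A) (rhsP ρ b)).extremePoints ℝ) :
    ∃ N w, N ≤ n * Lc n κ ∧ w ∈ (Poly (rowsP ρ σ A) (rhsP ρ b)).extremePoints ℝ ∧
      Path (Step (Poly (rowsP ρ σ A) (rhsP ρ b)) c) N v w ∧
      (MaxAt (Poly (rowsP ρ σ A) (rhsP ρ b)) c w ∨ ∃ d,
        IsExposed ℝ (Poly (rowsP ρ σ A) (rhsP ρ b)) {z | ∃ t : ℝ, 0 ≤ t ∧ z = w + t • d} ∧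
        0 < c ⬝ᵥ d) := by
  obtain ⟨C, hC⟩ := (ext_finite (a := rowsP ρ σ A) (b := rhsP ρ b)).isBounded.exists_norm_le
  have hM : ∀ x ∈ (Poly (rowsP ρ σ A) (rhsP ρ b)).extremePoints ℝ, ∀ j, x j < C + 1 := by
    intro x hx j
    have h1 : |x j| ≤ ‖x‖ := norm_le_pi_norm x j
    have h2 := hC x hx
    have h3 := le_abs_self (x j)
    linarith
  have hcomp : IsCompact (Poly (rowsT (rowsP ρ σ A) σ) (rhsT (rhsP ρ b) σ (C + 1))) := by
    apply IsCompact.of_isClosed_subset (isCompact_Icc (a := (fun _ : Fin n => (0:ℝ)))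
      (b := fun _ => C + 1)) isClosed_poly
    intro x hx
    have h1 := (mem_polyT hσ).1 hx
    have h2 := (mem_polyP hρ hσ).1 h1.1
    exact ⟨fun j => h2.2 j, fun j => h1.2 j⟩
  have hbal : Bal (rowsT (rowsP ρ σ A) σ) κ := by
    refine bal_of_signs hκ (Sum.elim id Sum.inr)
      (Sum.elim (Sum.elim (fun _ => 1) (fun _ => -1)) (fun _ => 1)) ?_ ?_
    · rintro ((i | j) | j) <;> simp
    · rintro ((i | j) | j) <;> simp [rowsT, rowsP, stack]
  obtain ⟨N, w, hN, hw, hp, hm⟩ := compact_path hcomp hbal c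
    (trunc_of_ext hσ (fun j => (hM v hv j).le) hv)
  obtain ⟨N', w', h1, h2, h3, h4⟩ := path_of_trunc hσ hM hp hm hv
  exact ⟨N', w', h1.trans hN, h2, h3, h4⟩

/-! ### Subdeterminants -/

/-- determinants of square matrices whose rows are rows of a submatrix of `A` or have at most one
nonzero entry, at most `1` in absolute value -/
theorem det_le {m : ℕ} (A : Matrix (Fin m) (Fin n) ℤ) {Δ : ℤ}
    (hA : ∀ (k : ℕ) (f : Fin k → Fin m) (g : Fin k → Fin n), |(A.submatrix f g).det| ≤ Δ) :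
    ∀ (k : ℕ) (g : Fin k → Fin n) (M : Matrix (Fin k) (Fin k) ℤ),
      (∀ i, (∃ r, ∀ j, M i j = A r (g j)) ∨
        ∃ (j0 : Fin k) (s : ℤ), |s| ≤ 1 ∧ ∀ j, M i j = if j = j0 then s else 0) →
      |M.det| ≤ Δ := by
  intro k
  induction k with
  | zero =>
    intro g M _
    have h := hA 0 Fin.elim0 Fin.elim0
    simpa using h
  | succ k ih =>
    intro g M hM
    by_cases hall : ∀ i, ∃ r, ∀ j, M i j = A r (g j)
    · choose r hr using hall
      have : M = A.submatrix r g := by
        ext i j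
        exact hr i j
      rw [this]
      exact hA _ _ _
    · push Not at hall
      obtain ⟨i, hi⟩ := hall
      have hi2 : ∃ (j0 : Fin (k + 1)) (s : ℤ), |s| ≤ 1 ∧ ∀ j, M i j = if j = j0 then s else 0 := by
        rcases hM i with ⟨r, hr⟩ | h
        · obtain ⟨j, hj⟩ := hi r
          exact absurd (hr j) hj
        · exact h
      obtain ⟨j0, s, hs, hMi⟩ := hi2
      rw [Matrix.det_succ_row M i, Finset.sum_eq_single j0]
      · rw [hMi j0, if_pos rfl, abs_mul, abs_mul, abs_pow, abs_neg, abs_one, one_pow, one_mul]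
        have hminor : |(M.submatrix i.succAbove j0.succAbove).det| ≤ Δ := by
          apply ih (fun j => g (j0.succAbove j))
          intro i'
          rcases hM (i.succAbove i') with ⟨r, hr⟩ | ⟨j1, s', hs', hj1⟩
          · left
            exact ⟨r, fun j => hr _⟩
          · right
            by_cases hj : j1 = j0
            · refine ⟨i', 0, by simp, fun j => ?_⟩
              rw [Matrix.submatrix_apply, hj1, if_neg]
              · simp
              · rw [hj]; exact Fin.succAbove_ne j0 j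
            · obtain ⟨j1', hj1'⟩ := Fin.exists_succAbove_eq hj
              refine ⟨j1', s', hs', fun j => ?_⟩
              rw [Matrix.submatrix_apply, hj1, ← hj1']
              by_cases hjj : j = j1'
              · rw [if_pos (by rw [hjj]), if_pos hjj]
              · rw [if_neg (fun h => hjj (Fin.succAbove_right_injective h)), if_neg hjj]
        have h0 : 0 ≤ |(M.submatrix i.succAbove j0.succAbove).det| := abs_nonneg _
        calc |s| * |(M.submatrix i.succAbove j0.succAbove).det|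
            ≤ 1 * |(M.submatrix i.succAbove j0.succAbove).det| :=
              mul_le_mul_of_nonneg_right hs h0
          _ ≤ Δ := by rw [one_mul]; exact hminor
      · intro j _ hj
        rw [hMi j, if_neg hj, mul_zero, zero_mul]
      · intro h; exact absurd (Finset.mem_univ _) h

/-- integer matrices with bounded subdeterminants have bounded circuit imbalance -/
theorem bal_of_det {m : ℕ} (A : Matrix (Fin m) (Fin n) ℤ) {Δ : ℤ}
    (hA : ∀ (k : ℕ) (f : Fin k → Fin m) (g : Fin k → Fin n), |(A.submatrix f g).det| ≤ Δ) :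
    Bal (stack (fun _ => 1) (fun _ => 1) (A.map (fun z : ℤ => (z:ℝ)))) (Δ:ℝ) := by
  classical
  intro B l β hB hβ k
  let Z : Fin m ⊕ Fin n → Fin n → ℤ := Sum.elim (fun i => A i) (fun j => Pi.single j 1)
  have hZ : ∀ p j, stack (fun _ => 1) (fun _ => 1) (A.map (fun z : ℤ => (z:ℝ))) p j = (Z p j : ℝ) := by
    rintro (i | i) j
    · simp [stack, Z]
    · simp only [stack, Z, Sum.elim_inr]
      by_cases h : j = i
      · subst h; simp
      · rw [Pi.single_eq_of_ne h, Pi.single_eq_of_ne h]; simp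
  have hdet : ∀ g : Fin n → Fin m ⊕ Fin n, |(Matrix.of fun i => Z (g i)).det| ≤ Δ := by
    intro g
    apply det_le A hA n id
    intro i
    rcases hgi : g i with r | j0
    · left
      exact ⟨r, fun j => by simp [Z, hgi]⟩
    · right
      refine ⟨j0, 1, by simp, fun j => ?_⟩
      simp only [Matrix.of_apply, Z, hgi, Sum.elim_inr, Pi.single_apply]
  set Mr : Matrix (Fin n) (Fin n) ℝ :=
    Matrix.of fun i => stack (fun _ => 1) (fun _ => 1) (A.map (fun z : ℤ => (z:ℝ))) (B i) with hMr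
  have hcast : ∀ g : Fin n → Fin m ⊕ Fin n,
      (Matrix.of fun i => stack (fun _ => 1) (fun _ => 1) (A.map (fun z : ℤ => (z:ℝ))) (g i)).det =
        (((Matrix.of fun i => Z (g i)).det : ℤ) : ℝ) := by
    intro g
    have h := (Int.castRingHom ℝ).map_det (Matrix.of fun i => Z (g i))
    have e : (Int.castRingHom ℝ).mapMatrix (Matrix.of fun i => Z (g i)) =
        Matrix.of fun i => stack (fun _ => 1) (fun _ => 1) (A.map (fun z : ℤ => (z:ℝ))) (g i) := by
      ext i j
      simp [hZ]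
    rw [e] at h
    rw [← h]
    simp
  have hne : Mr.det ≠ 0 := by
    have h1 : LinearIndependent ℝ Mr.row := hB
    rw [Matrix.linearIndependent_rows_iff_isUnit] at h1
    exact ((Matrix.isUnit_iff_isUnit_det _).1 h1).ne_zero
  have hge : 1 ≤ |Mr.det| := by
    rw [hMr, hcast] at hne ⊢
    have h1 : (Matrix.of fun i => Z (B i)).det ≠ 0 := by
      intro h
      rw [h] at hne
      simp at hne
    have h2 : 1 ≤ |(Matrix.of fun i => Z (B i)).det| := Int.one_le_abs h1
    exact_mod_cast h2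
  have hup : (Mr.updateRow k (stack (fun _ => 1) (fun _ => 1) (A.map (fun z : ℤ => (z:ℝ))) l)).det = β k * Mr.det := by
    have h1 : stack (fun _ => 1) (fun _ => 1) (A.map (fun z : ℤ => (z:ℝ))) l = ∑ i, β i • Mr i := hβ
    rw [h1, Matrix.det_updateRow_sum, smul_eq_mul]
  have hup2 : Mr.updateRow k (stack (fun _ => 1) (fun _ => 1) (A.map (fun z : ℤ => (z:ℝ))) l) =
      Matrix.of fun i => stack (fun _ => 1) (fun _ => 1) (A.map (fun z : ℤ => (z:ℝ))) (Function.update B k l i) := by
    ext i j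
    by_cases h : i = k
    · subst h; simp
    · rw [Matrix.updateRow_ne h]
      simp [hMr, Function.update_of_ne h]
  have hle : |(Mr.updateRow k (stack (fun _ => 1) (fun _ => 1) (A.map (fun z : ℤ => (z:ℝ))) l)).det| ≤ (Δ:ℝ) := by
    rw [hup2, hcast]
    have := hdet (Function.update B k l)
    exact_mod_cast this
  rw [hup, abs_mul] at hle
  have h0 : 0 ≤ |β k| := abs_nonneg _
  nlinarith

/-- from paths to sequences -/
theorem Path.exists_seq {α : Type*} {R : α → α → Prop} {N : ℕ} {x y : α} (p : Path R N x y) :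
    ∃ f : ℕ → α, f 0 = x ∧ f N = y ∧ ∀ k < N, R (f k) (f (k + 1)) := by
  induction p with
  | nil x => exact ⟨fun _ => x, rfl, rfl, fun k hk => absurd hk (Nat.not_lt_zero k)⟩
  | @cons N x y z h p ih =>
    obtain ⟨f, h1, h2, h3⟩ := ih
    refine ⟨fun k => if k = 0 then x else f (k - 1), by simp, by simp [h2], fun k hk => ?_⟩
    rcases Nat.eq_zero_or_pos k with rfl | hk0
    · simpa [h1] using h
    · have hk1 : k ≠ 0 := by omega
      have := h3 (k - 1) (by omega)
      have e : k - 1 + 1 = k := by omega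
      rw [e] at this
      simpa [hk1] using this

end Pool.Agent.N477.MD
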