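import Pool.Agent.N477.MD6

set_option autoImplicit false

/-!
# The mean number of losses of the whole random shadow path
-/

namespace Pool.Agent.N477.RS

open Matrix Set Filter Topology MeasureTheory ENNReal
open Pool.Agent.N477.MD

variable {n : ℕ} {ι : Type*} {a : ι → Fin n → ℝ} {b : ι → ℝ}

/-- late maximisers are tight on the rows of an optimal basis -/
theorem hit [Fintype ι] {κ : ℝ} (hκ : Bal a κ) {S : Fin n → ι}
    (hS : LinearIndependent ℝ (fun k => a (S k))) {y : Fin n → ℝ} (hy : ∀ k, 0 ≤ y k)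
    {w : Fin n → ℝ} (hw : w ∈ Poly a b) (hSw : ∀ k, S k ∈ tight a b w)
    {B : Fin n → ι} {μ : Fin n → ℝ} (hμ : μ ∈ box0 n) {t : ℝ} (ht0 : 0 ≤ t) {i : Fin n}
    (ht : 2 * n * κ + 1 ≤ t * y i) {x : Fin n → ℝ}
    (hx : MaxAt (Poly a b) (zz a B 0 μ + t • (∑ k, y k • a (S k))) x) :
    S i ∈ tight a b x := by
  by_contra hne
  have hlt : a (S i) ⬝ᵥ x < b (S i) := lt_of_le_of_ne (hx.1 _) hne
  have hiw : a (S i) ⬝ᵥ w = b (S i) := hSw i
  obtain ⟨e, he1, he2, he3, he4, he5⟩ := elem_vec hκ (Set.range S) (tight a b x)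
    (fun x hx _ => eq_zero_of_basis hS (fun k => hx _ ⟨k, rfl⟩))
    (u := -a (S i)) (d := x - w)
    (by
      rintro _ ⟨j, rfl⟩
      have hj : a (S j) ⬝ᵥ w = b (S j) := hSw j
      rw [dotProduct_sub, hj]
      linarith [hx.1 (S j)])
    (fun j hj => by
      have hj' : a j ⬝ᵥ x = b j := hj
      rw [dotProduct_sub, hj']
      linarith [hw j])
    (by rw [neg_dotProduct, dotProduct_sub, hiw]; linarith)
  have h1 := nonneg_of_maxAt hx he2
  rw [neg_dotProduct] at he3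
  have h2 : a (S i) ⬝ᵥ e ≤ -1 := by
    have h3 := he4 (S i) (by linarith)
    rw [abs_of_neg (by linarith)] at h3
    linarith
  rw [add_dotProduct, smul_dotProduct, smul_eq_mul, zz_dot] at h1
  have h3 : ∑ j, ((0 : Fin n → ℝ) j + μ j) * (a (B j) ⬝ᵥ e) ≤ n * (2 * κ) := by
    have h4 : ∀ j ∈ (Finset.univ : Finset (Fin n)),
        ((0 : Fin n → ℝ) j + μ j) * (a (B j) ⬝ᵥ e) ≤ 2 * κ := by
      intro j _
      have hμj : (1:ℝ) ≤ μ j := hμ.1 j
      have hμj2 : μ j ≤ (2:ℝ) := hμ.2 j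
      rw [Pi.zero_apply, zero_add]
      calc μ j * (a (B j) ⬝ᵥ e) ≤ μ j * |a (B j) ⬝ᵥ e| :=
            mul_le_mul_of_nonneg_left (le_abs_self _) (by linarith)
        _ ≤ 2 * κ := mul_le_mul hμj2 (he5 _) (abs_nonneg _) (by norm_num)
    refine (Finset.sum_le_sum h4).trans ?_
    rw [Finset.sum_const, Finset.card_univ, Fintype.card_fin, nsmul_eq_mul]
  have h7 : (∑ k, y k • a (S k)) ⬝ᵥ e ≤ - y i := by
    rw [sum_dotProduct, ← Finset.add_sum_erase _ _ (Finset.mem_univ i), smul_dotProduct,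
      smul_eq_mul]
    have h8 : ∑ k ∈ Finset.univ.erase i, (y k • a (S k)) ⬝ᵥ e ≤ 0 := by
      apply Finset.sum_nonpos
      intro k _
      rw [smul_dotProduct, smul_eq_mul]
      exact mul_nonpos_of_nonneg_of_nonpos (hy k) (he1 _ ⟨k, rfl⟩)
    have h9 : y i * (a (S i) ⬝ᵥ e) ≤ y i * (-1) := mul_le_mul_of_nonneg_left h2 (hy i)
    linarith
  have h9 : t * ((∑ k, y k • a (S k)) ⬝ᵥ e) ≤ t * (- y i) := mul_le_mul_of_nonneg_left h7 ht0
  nlinarith

/-- if `v` is lost in the direction `c`, it is nearly lost in the direction `-a_j` for a row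
of any basis of tight rows; the rows in `F` do not count -/
theorem exit_row' [Fintype ι] {κ Γ : ℝ} (hκ : Bal a κ) {c : Fin n → ℝ} {F : Set ι}
    (hΓ : ∀ e : Fin n → ℝ, (∀ k, |a k ⬝ᵥ e| ≤ κ) → (∀ j ∈ F, a j ⬝ᵥ e = 0) → c ⬝ᵥ e ≤ Γ)
    (hΓ0 : 0 ≤ Γ) {ε : ℝ} (hε : 0 < ε)
    {v z x : Fin n → ℝ} (hv : v ∈ (Poly a b).extremePoints ℝ) (hFv : F ⊆ tight a b v)
    (hx : MaxAt (Poly a b) (z + ε • c) x) (hFx : F ⊆ tight a b x) {C : Fin n → ι}
    (hC : LinearIndependent ℝ (fun k => a (C k))) (hCv : ∀ k, C k ∈ tight a b v)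
    (h1 : MaxAt (Poly a b) z v) (h2 : ¬ MaxAt (Poly a b) (z + ε • c) v) :
    ∃ k, ¬ MaxAt (Poly a b) (z - (ε * Γ) • a (C k)) v := by
  have hlt : (z + ε • c) ⬝ᵥ v < (z + ε • c) ⬝ᵥ x := by
    refine lt_of_le_of_ne (hx.2 v hv.1) fun h => h2 ⟨hv.1, fun y hy => ?_⟩
    rw [h]
    exact hx.2 y hy
  obtain ⟨e, he1, he1', he2, he3, he4⟩ := elem_vec hκ (tight a b v) F
    (fun y hy _ => ext_pointed hv hy) (u := z + ε • c) (d := x - v)
    (fun j hj => by
      have hj' : a j ⬝ᵥ v = b j := hj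
      rw [dotProduct_sub, hj']
      linarith [hx.1 j])
    (fun j hj => by
      have hj' : a j ⬝ᵥ v = b j := hFv hj
      have hj2 : a j ⬝ᵥ x = b j := hFx hj
      rw [dotProduct_sub, hj', hj2, sub_self])
    (by rw [dotProduct_sub]; linarith)
  obtain ⟨s, hs, hin⟩ := step_in hv.1 he1
  have hve : v + s • e ∈ Poly a b := hin s hs.le le_rfl
  have hze : z ⬝ᵥ e ≤ 0 := by
    have := h1.2 _ hve
    rw [dotProduct_add, dotProduct_smul, smul_eq_mul] at this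
    by_contra hpos
    push Not at hpos
    have := mul_pos hs hpos
    linarith
  rw [add_dotProduct, smul_dotProduct, smul_eq_mul] at he2
  have hce : c ⬝ᵥ e ≤ Γ := hΓ e he4 fun j hj => le_antisymm (he1 j (hFv hj)) (he1' j hj)
  have hlow : -(ε * Γ) < z ⬝ᵥ e := by
    have := mul_le_mul_of_nonneg_left hce hε.le
    linarith
  have he0 : e ≠ 0 := by
    rintro rfl
    simp at he2
  have hex : ∃ k, a (C k) ⬝ᵥ e ≠ 0 := by
    by_contra hne
    push Not at hne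
    exact he0 (eq_zero_of_basis hC hne)
  obtain ⟨k, hje⟩ := hex
  refine ⟨k, fun hm => ?_⟩
  set j := C k with hj
  have h4 : a j ⬝ᵥ e ≤ -1 := by
    have h5 := he3 j hje
    have h6 := he1 j (hCv k)
    rw [abs_of_nonpos h6] at h5
    linarith
  have h7 := hm.2 _ hve
  rw [dotProduct_add, dotProduct_smul, smul_eq_mul, sub_dotProduct, smul_dotProduct,
    smul_eq_mul, sub_dotProduct, smul_dotProduct, smul_eq_mul] at h7
  have h8 : z ⬝ᵥ e - ε * Γ * (a j ⬝ᵥ e) ≤ 0 := by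
    by_contra hpos
    push Not at hpos
    have := mul_pos hs hpos
    linarith
  have h9 : 0 ≤ ε * Γ * (-(a j ⬝ᵥ e) - 1) := by
    apply mul_nonneg (by positivity)
    linarith
  nlinarith

variable {B : Fin n → ι} {R : Fin n → ℝ}

/-- **The probability of a loss in a short time.** -/
theorem loss_bound' [Fintype ι] (hP : IsCompact (Poly a b))
    (hB : LinearIndependent ℝ (fun k => a (B k))) {κ Γ : ℝ}
    (hκ : Bal a κ) {c : Fin n → ℝ} {F : Set ι} {ε θ t : ℝ}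
    (hF : ∀ μ ∈ box0 n, ∀ s, t ≤ s → ∀ x, MaxAt (Poly a b) (zz a B R μ + s • c) x →
      F ⊆ tight a b x)
    (hΓ : ∀ e : Fin n → ℝ, (∀ k, |a k ⬝ᵥ e| ≤ κ) → (∀ j ∈ F, a j ⬝ᵥ e = 0) → c ⬝ᵥ e ≤ Γ)
    (hΓ0 : 0 < Γ) (hε : 0 < ε) (r : ℕ) (hr : r * (ε * Γ) * κ ≤ θ) :
    (r : ℝ≥0∞) * volume {μ : Fin n → ℝ | μ ∈ box0 n ∧ Loss (Poly a b) c (zz a B R μ) t ε} ≤
      (n : ℝ≥0∞) * volume (box1 n θ) := by
  classical
  set W := (ext_finite (a := a) (b := b)).toFinset with hW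
  have hWext : ∀ v : W, (v : Fin n → ℝ) ∈ (Poly a b).extremePoints ℝ := fun v =>
    (Set.Finite.mem_toFinset _).1 v.2
  have hbas : ∀ v : W, ∃ C : Fin n → ι, (∀ k, C k ∈ tight a b (v : Fin n → ℝ)) ∧
      LinearIndependent ℝ (fun k => a (C k)) := by
    intro v
    obtain ⟨C, h1, -, h2⟩ := exists_basis a (T := tight a b (v : Fin n → ℝ))
      (fun x hx => ext_pointed (hWext v) hx)
    exact ⟨C, h1, h2⟩
  choose C hC1 hC2 using hbas
  let D : W → Fin n → Set (Fin n → ℝ) := fun v k => {μ : Fin n → ℝ | μ ∈ box0 n ∧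
      MaxAt (Poly a b) (zz a B R μ + t • c) v ∧
        ¬ MaxAt (Poly a b) (zz a B R μ + (t • c - (ε * Γ) • a (C v k))) v}
  have hsub : {μ : Fin n → ℝ | μ ∈ box0 n ∧ Loss (Poly a b) c (zz a B R μ) t ε} ⊆
      ⋃ v ∈ W.attach, ⋃ k ∈ (Finset.univ : Finset (Fin n)), D v k := by
    rintro μ ⟨hμ, v, hv, h1, h2⟩
    have h2' : ¬ MaxAt (Poly a b) (zz a B R μ + t • c + ε • c) v := by
      rw [add_assoc, ← add_smul]; exact h2
    obtain ⟨x, hx, hxm⟩ := exists_maxAt hP ⟨v, hv.1⟩ (zz a B R μ + (t + ε) • c)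
    have hxm' : MaxAt (Poly a b) (zz a B R μ + t • c + ε • c) x := by
      rw [add_assoc, ← add_smul]; exact hxm
    let v' : W := ⟨v, by rw [hW, Set.Finite.mem_toFinset]; exact hv⟩
    obtain ⟨k, h3⟩ := exit_row' hκ hΓ hΓ0.le hε hv (hF μ hμ t le_rfl v h1) hxm'
      (hF μ hμ (t + ε) (by linarith) x hxm) (hC2 v') (hC1 v') h1 h2'
    rw [mem_iUnion₂]
    refine ⟨v', Finset.mem_attach _ _, ?_⟩
    rw [mem_iUnion₂]
    refine ⟨k, Finset.mem_univ k, hμ, h1, ?_⟩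
    rw [add_sub_assoc] at h3
    exact h3
  have hD : ∀ v ∈ W.attach, ∀ k : Fin n, (r : ℝ≥0∞) * volume (D v k) ≤
      volume (box1 n θ ∩ {μ : Fin n → ℝ | MaxAt (Poly a b) (zz a B R μ + t • c) v}) := by
    intro v _ k
    obtain ⟨β, hβ⟩ := exists_coords hB (a (C v k))
    exact shift_bound (hC1 v k) hβ (hκ B (C v k) β hB hβ) (mul_pos hε hΓ0) _ r hr
  calc (r : ℝ≥0∞) * volume {μ : Fin n → ℝ | μ ∈ box0 n ∧ Loss (Poly a b) c (zz a B R μ) t ε}
      ≤ r * ∑ v ∈ W.attach, ∑ k ∈ (Finset.univ : Finset (Fin n)), volume (D v k) := by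
        gcongr
        refine (measure_mono hsub).trans ((measure_biUnion_finset_le _ _).trans ?_)
        exact Finset.sum_le_sum fun v _ => measure_biUnion_finset_le _ _
    _ = ∑ v ∈ W.attach, ∑ k ∈ (Finset.univ : Finset (Fin n)), r * volume (D v k) := by
        rw [Finset.mul_sum]
        exact Finset.sum_congr rfl fun v _ => Finset.mul_sum _ _ _
    _ ≤ ∑ v ∈ W.attach, ∑ k ∈ (Finset.univ : Finset (Fin n)),
          volume (box1 n θ ∩ {μ : Fin n → ℝ | MaxAt (Poly a b) (zz a B R μ + t • c) v}) :=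
        Finset.sum_le_sum fun v hv => Finset.sum_le_sum fun k _ => hD v hv k
    _ = (n : ℝ≥0∞) * ∑ v ∈ W.attach,
          volume (box1 n θ ∩ {μ : Fin n → ℝ | MaxAt (Poly a b) (zz a B R μ + t • c) v}) := by
        rw [Finset.mul_sum]
        refine Finset.sum_congr rfl fun v _ => ?_
        rw [Finset.sum_const, Finset.card_univ, Fintype.card_fin, nsmul_eq_mul]
    _ = (n : ℝ≥0∞) * ∑ v ∈ W,
          volume (box1 n θ ∩ {μ : Fin n → ℝ | MaxAt (Poly a b) (zz a B R μ + t • c) v}) := by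
        rw [Finset.sum_attach W (fun v => volume (box1 n θ ∩
          {μ : Fin n → ℝ | MaxAt (Poly a b) (zz a B R μ + t • c) v}))]
    _ ≤ _ := by
        gcongr
        exact sum_cones_le hB _ θ

/-- the probability of a loss, as a real bound -/
theorem loss_rate [Fintype ι] (hP : IsCompact (Poly a b))
    (hB : LinearIndependent ℝ (fun k => a (B k))) {κ Γ : ℝ} (hκ0 : 0 < κ)
    (hκ : Bal a κ) {c : Fin n → ℝ} {F : Set ι} {ε θ t : ℝ} (hθ : 0 < θ)
    (hF : ∀ μ ∈ box0 n, ∀ s, t ≤ s → ∀ x, MaxAt (Poly a b) (zz a B R μ + s • c) x →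
      F ⊆ tight a b x)
    (hΓ : ∀ e : Fin n → ℝ, (∀ k, |a k ⬝ᵥ e| ≤ κ) → (∀ j ∈ F, a j ⬝ᵥ e = 0) → c ⬝ᵥ e ≤ Γ)
    (hΓ0 : 0 < Γ) (hε : 0 < ε) {X : ℝ} (hX : ε * Γ * κ / θ ≤ X) (hX1 : X < 1) :
    volume {μ : Fin n → ℝ | μ ∈ box0 n ∧ Loss (Poly a b) c (zz a B R μ) t ε} ≤
      ENNReal.ofReal (n * (1 + 2 * θ) ^ n / (1 - X) * (κ / θ) * (ε * Γ)) := by
  set x := ε * Γ * κ / θ with hx
  have hx0 : 0 < x := by positivity
  have hx1 : x < 1 := lt_of_le_of_lt hX hX1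
  set r := ⌊1 / x⌋₊ with hr
  have hr1 : (r:ℝ) ≤ 1 / x := Nat.floor_le (by positivity)
  have hr2 : (1 - x) / x ≤ r := by
    have := Nat.lt_floor_add_one (1 / x)
    rw [← hr] at this
    have e : (1 - x) / x = 1 / x - 1 := by field_simp
    rw [e]
    linarith
  have hrle : (r:ℝ) * (ε * Γ) * κ ≤ θ := by
    calc (r:ℝ) * (ε * Γ) * κ ≤ (1 / x) * (ε * Γ) * κ := by gcongr
      _ = θ := by
        rw [hx]
        field_simp
  have hb := loss_bound' hP hB hκ hF hΓ hΓ0 hε r hrle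
  set S := volume {μ : Fin n → ℝ | μ ∈ box0 n ∧ Loss (Poly a b) c (zz a B R μ) t ε} with hS
  have hpos : 0 < (1 - x) / x := div_pos (by linarith) hx0
  have h2 : ENNReal.ofReal ((1 - x) / x) ≤ (r : ℝ≥0∞) := by
    rw [← ENNReal.ofReal_natCast]
    exact ENNReal.ofReal_le_ofReal hr2
  have h3 : S * ENNReal.ofReal ((1 - x) / x) ≤ ENNReal.ofReal (n * (1 + 2 * θ) ^ n) := by
    calc S * ENNReal.ofReal ((1 - x) / x) ≤ (r : ℝ≥0∞) * S := by
          rw [mul_comm]; gcongr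
      _ ≤ (n : ℝ≥0∞) * volume (box1 n θ) := hb
      _ = ENNReal.ofReal (n * (1 + 2 * θ) ^ n) := by
          rw [volume_box1 hθ.le, ENNReal.ofReal_mul (by positivity), ENNReal.ofReal_natCast]
  have h4 : S ≤ ENNReal.ofReal (n * (1 + 2 * θ) ^ n) / ENNReal.ofReal ((1 - x) / x) := by
    rw [ENNReal.le_div_iff_mul_le (Or.inl (by simpa using hpos)) (Or.inl ENNReal.ofReal_ne_top)]
    exact h3
  rw [← ENNReal.ofReal_div_of_pos hpos] at h4
  refine h4.trans (ENNReal.ofReal_le_ofReal ?_)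
  have h5 : 0 < 1 - X := by linarith
  have h6 : 0 < 1 - x := by linarith
  have e1 : (n * (1 + 2 * θ) ^ n) / ((1 - x) / x) = (n * (1 + 2 * θ) ^ n) * x / (1 - x) := by
    field_simp
  have e2 : n * (1 + 2 * θ) ^ n / (1 - X) * (κ / θ) * (ε * Γ) =
      (n * (1 + 2 * θ) ^ n) * x / (1 - X) := by
    rw [hx]; field_simp
  rw [e1, e2]
  apply div_le_div_of_nonneg_left _ h5 (by linarith)
  positivity

/-- Riemann sums of a truncated constant -/
theorem riem {K ε y : ℝ} (hK : 0 ≤ K) (hε : 0 ≤ ε) (hy : 0 ≤ y) (q : ℕ) :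
    ∑ i ∈ Finset.range q, ε * (if (i * ε) * y < K then y else 0) ≤ K + ε * y := by
  have h : ∑ i ∈ Finset.range q, ε * (if ((i:ℕ) * ε) * y < K then y else 0) ≤ (q * ε) * y ∧
      ∑ i ∈ Finset.range q, ε * (if ((i:ℕ) * ε) * y < K then y else 0) ≤ K + ε * y := by
    induction q with
    | zero =>
      simp only [Finset.range_zero, Finset.sum_empty, Nat.cast_zero, zero_mul]
      exact ⟨le_refl _, by positivity⟩
    | succ q ih =>
      rw [Finset.sum_range_succ]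
      obtain ⟨h1, h2⟩ := ih
      push_cast
      split_ifs with h
      · constructor <;> nlinarith
      · have h3 : 0 ≤ ε * y := by positivity
        constructor <;> nlinarith
  exact h.2

/-- the rate at time `t` -/
noncomputable def rate (κ K : ℝ) (y : Fin n → ℝ) (t : ℝ) : ℝ :=
  κ * ∑ k, if t * y k < K then y k else 0

theorem rate_nonneg {κ K : ℝ} {y : Fin n → ℝ} (hκ : 0 ≤ κ) (hy : ∀ k, 0 ≤ y k) (t : ℝ) :
    0 ≤ rate κ K y t := by
  unfold rate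
  refine mul_nonneg hκ (Finset.sum_nonneg fun k _ => ?_)
  split_ifs
  · exact hy k
  · exact le_rfl

theorem rate_le {κ K : ℝ} {y : Fin n → ℝ} (hκ : 0 ≤ κ) (hy : ∀ k, 0 ≤ y k) (t : ℝ) :
    rate κ K y t ≤ κ * ∑ k, y k := by
  unfold rate
  refine mul_le_mul_of_nonneg_left (Finset.sum_le_sum fun k _ => ?_) hκ
  split_ifs
  · exact le_rfl
  · exact hy k

theorem sum_rate {κ K ε : ℝ} {y : Fin n → ℝ} (hκ : 0 ≤ κ) (hK : 0 ≤ K) (hε : 0 ≤ ε)
    (hy : ∀ k, 0 ≤ y k) (q : ℕ) :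
    ∑ i ∈ Finset.range q, ε * (rate κ K y (i * ε) + ε) ≤
      κ * (n * K + ε * ∑ k, y k) + q * ε * ε := by
  have e : ∀ i ∈ Finset.range q, ε * (rate κ K y ((i:ℕ) * ε) + ε) =
      κ * (∑ k, ε * (if ((i:ℕ) * ε) * y k < K then y k else 0)) + ε * ε := by
    intro i _
    unfold rate
    rw [← Finset.mul_sum]
    ring
  rw [Finset.sum_congr rfl e, Finset.sum_add_distrib, ← Finset.mul_sum, Finset.sum_comm,
    Finset.sum_const, Finset.card_range, nsmul_eq_mul]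
  have h1 : ∑ k, ∑ i ∈ Finset.range q, ε * (if ((i:ℕ) * ε) * y k < K then y k else 0) ≤
      n * K + ε * ∑ k, y k := by
    calc ∑ k, ∑ i ∈ Finset.range q, ε * (if ((i:ℕ) * ε) * y k < K then y k else 0)
        ≤ ∑ k : Fin n, (K + ε * y k) := Finset.sum_le_sum fun k _ => riem hK hε (hy k) q
      _ = n * K + ε * ∑ k, y k := by
          rw [Finset.sum_add_distrib, Finset.sum_const, Finset.card_univ, Fintype.card_fin,
            nsmul_eq_mul, Finset.mul_sum]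
  have h2 := mul_le_mul_of_nonneg_left h1 hκ
  linarith

end Pool.Agent.N477.RS
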