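import Pool.Agent.N477.RS9
import Pool.Agent.Y644.QW.PolyWFinal

set_option autoImplicit false

/-!
# The random shadow vertex rule runs in polynomial time
-/

namespace Pool.Agent.NPC.N477RS

open Pool.Agent.N477.RS Pool.Agent.Y644.QS Pool.Agent.Y644.QW Pool.Agent.H687R2.LLL
  Pool.Agent.NPC.H532.RP Pool.Agent.NPC.Y644

variable {α : Type} [TEnc α]

theorem poly_zl {r : α → List ℤ} (hr : Poly r) : Poly (fun a => zl (r a)) := by
  unfold zl
  fun_prop

attribute [fun_prop] poly_zl

theorem poly_eqr {c : α → List ℤ} (hc : Poly c) : Poly (fun a => eqr (c a)) := by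
  unfold eqr
  fun_prop

attribute [fun_prop] poly_eqr

theorem poly_dirJ {c u : α → List ℤ} {J : α → List (List ℤ)} (hc : Poly c) (hJ : Poly J)
    (hu : Poly u) : Poly (fun a => dirJ (c a) (J a) (u a)) := by
  unfold dirJ
  have h1 : Poly (fun a => tight (J a) (u a)) := by fun_prop
  have h2 : Poly (fun a => (tight (J a) (u a)).map zl) :=
    Poly.map (F := fun _ r => zl r) h1 (by fun_prop)
  fun_prop

attribute [fun_prop] poly_dirJ

theorem poly_dirV {p c u : α → List ℤ} {J : α → List (List ℤ)} (hp : Poly p) (hc : Poly c)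
    (hJ : Poly J) (hu : Poly u) : Poly (fun a => dirV (p a) (c a) (J a) (u a)) := by
  unfold dirV
  have h1 : Poly (fun a => [eqr (c a)]) := by fun_prop
  exact poly_optw hp h1 (by fun_prop)

attribute [fun_prop] poly_dirV

theorem poly_nxt {p c u : α → List ℤ} {J : α → List (List ℤ)} (hp : Poly p) (hc : Poly c)
    (hJ : Poly J) (hu : Poly u) : Poly (fun a => nxt (p a) (c a) (J a) (u a)) := by
  unfold nxt
  have h0 : Poly (fun a => improve (c a) [] (J a) (u a)) :=
    poly_improve hc (Poly.const _) hJ hu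
  have h1 : Poly (fun a => dirV (p a) (c a) (J a) (u a)) := by fun_prop
  have h2 : Poly (fun a => other (J a) (u a) (zl (dirV (p a) (c a) (J a) (u a)))) := by fun_prop
  have h3 : Poly (fun a => normV (c a) [] (J a)
      (other (J a) (u a) (zl (dirV (p a) (c a) (J a) (u a))))) :=
    poly_normV hc (Poly.const _) hJ h2
  have h4 : Poly (fun a => decide (0 < dot (tau (c a)) (dirV (p a) (c a) (J a) (u a)))) := by
    fun_prop
  have h5 : Poly (fun q : α × List ℤ =>
      if 0 < dot (tau (c q.1)) (dirV (p q.1) (c q.1) (J q.1) (u q.1)) then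
        normV (c q.1) [] (J q.1)
          (other (J q.1) (u q.1) (zl (dirV (p q.1) (c q.1) (J q.1) (u q.1)))) else q.2) :=
    Poly.ite (h4.comp (Poly.fst Poly.id)) (h3.comp (Poly.fst Poly.id)) (Poly.snd Poly.id)
  exact Poly.optMap_fp (h := fun a w =>
      if 0 < dot (tau (c a)) (dirV (p a) (c a) (J a) (u a)) then
        normV (c a) [] (J a) (other (J a) (u a) (zl (dirV (p a) (c a) (J a) (u a)))) else w)
    h0 h5

attribute [fun_prop] poly_nxt

theorem poly_pstep {p c : α → List ℤ} {J P : α → List (List ℤ)} (hp : Poly p) (hc : Poly c)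
    (hJ : Poly J) (hP : Poly P) : Poly (fun a => N477.RS.pstep (p a) (c a) (J a) (P a)) := by
  unfold N477.RS.pstep
  have h1 : Poly (fun a => hdp (P a)) := by fun_prop
  have h2 : Poly (fun a => nxt (p a) (c a) (J a) (hdp (P a))) := by fun_prop
  exact Poly.optElim (h := fun a w => w :: P a) h2 hP (by fun_prop)

attribute [fun_prop] poly_pstep

/-- new vertices are small -/
theorem nxt_small {p c u w : List ℤ} {J : List (List ℤ)} {β : ℕ}
    (hβ : ∀ w, sz (normV c [] J w) ≤ β) (h : nxt p c J u = some w) : sz w ≤ β := by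
  unfold nxt at h
  rw [Option.map_eq_some_iff] at h
  obtain ⟨w0, hw0, hw⟩ := h
  split_ifs at hw with hpos
  · rw [← hw]
    exact hβ _
  · rw [← hw]
    unfold improve at hw0
    split_ifs at hw0 with hf
    rw [Option.some.injEq] at hw0
    rw [← hw0]
    exact hβ _

theorem pth_small {p c v : List ℤ} {J : List (List ℤ)} {β : ℕ}
    (hβ : ∀ w, sz (normV c [] J w) ≤ β) (k : ℕ) :
    sz ((N477.RS.pstep p c J)^[k] [v]) ≤ sz [v] + k * (β + 1) := by
  induction k with
  | zero => simp
  | succ k ih =>
    rw [Function.iterate_succ_apply']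
    generalize (N477.RS.pstep p c J)^[k] [v] = P at ih
    unfold N477.RS.pstep
    rw [Nat.succ_mul]
    cases h : nxt p c J (hdp P) with
    | none =>
      rw [Option.elim_none]
      omega
    | some w =>
      rw [Option.elim_some, sz_list_cons]
      have := nxt_small hβ h
      omega

theorem poly_pth {p c v : α → List ℤ} {J : α → List (List ℤ)} {k : α → ℕ} (hp : Poly p)
    (hc : Poly c) (hJ : Poly J) (hv : Poly v) (hk : UPoly k) :
    Poly (fun a => pth (p a) (c a) (J a) (v a) (k a)) := by
  unfold pth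
  obtain ⟨r, hr⟩ := normV_bound
  obtain ⟨q1, hq1⟩ := hc.sz_le
  obtain ⟨q2, hq2⟩ := hJ.sz_le
  have hs : Poly (fun a => [v a]) := by fun_prop
  obtain ⟨q3, hq3⟩ := hs.sz_le
  obtain ⟨w, hw⟩ := Poly.sz_le (show Poly (fun a => List.replicate (k a) ()) from hk)
  have hF : Poly (fun q : α × List (List ℤ) => N477.RS.pstep (p q.1) (c q.1) (J q.1) q.2) := by fun_prop
  refine Poly.iterU (F := fun a P => N477.RS.pstep (p a) (c a) (J a) P) hk hs hF
    (q3 + w * (r.comp (q1 + 1 + q2) + 1)) ?_
  intro a i hi
  have hβ : ∀ w, sz (normV (c a) [] (J a) w) ≤ (r.comp (q1 + 1 + q2)).eval (sz a) := by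
    intro w
    refine (hr (c a) [] (J a) w).trans ?_
    rw [Polynomial.eval_comp]
    refine eval_mono r ?_
    have h1 := hq1 a
    have h2 := hq2 a
    simp only [Polynomial.eval_add, Polynomial.eval_one, sz_list_nil]
    omega
  refine (pth_small hβ i).trans ?_
  have h5 : k a ≤ w.eval (sz a) := by
    have := length_lt_sz (List.replicate (k a) ())
    rw [List.length_replicate] at this
    have := hw a
    omega
  rw [Polynomial.eval_add, Polynomial.eval_mul, Polynomial.eval_add, Polynomial.eval_one]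
  exact Nat.add_le_add (hq3 a) (Nat.mul_le_mul (hi.trans h5) le_rfl)

/-! ### The start objective -/

theorem poly_dA : Poly dA := by
  unfold dA
  have h1 : Poly (fun x : Inp => x.1.flatten) := by fun_prop
  exact Poly_prodN (Poly.map (F := fun _ q => Rat.den q) h1 (Poly_den (Poly.snd Poly.id)))

theorem poly_prsA : Poly prsA := by
  unfold prsA
  have h1 : Poly (fun x : Inp => x.1.zip x.2.1) := by fun_prop
  have h2 : Poly (fun p : Inp × (List ℚ × ℚ) => zrow (p.2.1 ++ [-p.2.2])) := by fun_prop
  have h3 : Poly (fun p : (Inp × (List ℚ × ℚ)) × ℚ => zq (dA p.1.1) p.2) :=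
    Poly_zq (poly_dA.comp (Poly.fst (Poly.fst Poly.id))) (Poly.snd Poly.id)
  have h4 : Poly (fun p : Inp × (List ℚ × ℚ) => (p.2.1 ++ [0]).map fun t => zq (dA p.1) t) :=
    Poly.map (F := fun (p : Inp × (List ℚ × ℚ)) t => zq (dA p.1) t) (by fun_prop) h3
  exact Poly.map (F := fun (x : Inp) (q : List ℚ × ℚ) =>
    (zrow (q.1 ++ [-q.2]), (q.1 ++ [0]).map fun t => zq (dA x) t)) h1 (Poly.pair h2 h4)

theorem poly_prsN : Poly prsN := by
  unfold prsN
  have h0 : UPoly (fun x : Inp => x.2.2.1.length) := by fun_prop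
  have h1 : Poly (fun p : Inp × ℕ => negV (unitV (p.1.2.2.1.length + 1) p.2)) := by
    fun_prop
  have h2 : Poly (fun p : Inp × ℕ => ((dA p.1 : ℕ) : ℤ)) :=
    Poly.natCast_int (poly_dA.comp (Poly.fst Poly.id))
  have h3 : Poly (fun p : Inp × ℕ => comb (-(dA p.1 : ℤ)) (unitV (p.1.2.2.1.length + 1) p.2) 0
      (unitV (p.1.2.2.1.length + 1) p.2)) :=
    Poly.comb (Poly.ineg h2) (by fun_prop) (Poly.const 0) (by fun_prop)
  exact Poly.map (F := fun (x : Inp) j => (negV (unitV (x.2.2.1.length + 1) j),
    comb (-(dA x : ℤ)) (unitV (x.2.2.1.length + 1) j) 0 (unitV (x.2.2.1.length + 1) j)))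
    h0.range (Poly.pair h1 h3)

theorem poly_cand : Poly cand := by
  unfold cand
  have h1 : Poly (fun x : Inp => prsA x ++ prsN x) := Poly.append poly_prsA poly_prsN
  have h2 : Poly (fun p : Inp × (List ℤ × List ℤ) => startV p.1) :=
    poly_startV.comp (Poly.fst Poly.id)
  have h3 : Poly (fun p : Inp × (List ℤ × List ℤ) => decide (dot p.2.1 (startV p.1) = 0)) := by
    fun_prop
  have h4 : Poly (fun x : Inp => (prsA x ++ prsN x).filter
      fun q => decide (dot q.1 (startV x) = 0)) :=
    Poly.filter (p := fun (x : Inp) (q : List ℤ × List ℤ) => decide (dot q.1 (startV x) = 0))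
      h1 h3
  exact Poly.map (F := fun (_ : Inp) (q : List ℤ × List ℤ) => q.2) h4 (by fun_prop)

theorem sz_indep (c : List ℤ) (L : List (List ℤ)) : sz (indep c L) ≤ sz L := by
  induction L with
  | nil => simp [indep]
  | cons r L ih =>
    have e : indep c (r :: L) = if feas c (indep c L) [] r = true then r :: indep c L
      else indep c L := rfl
    rw [e]
    split_ifs <;> simp only [sz_list_cons] <;> omega

theorem poly_indep {c : α → List ℤ} {L : α → List (List ℤ)} (hc : Poly c) (hL : Poly L) :
    Poly (fun a => indep (c a) (L a)) := by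
  unfold indep
  obtain ⟨q, hq⟩ := hL.sz_le
  have hf : Poly (fun p : α × List ℤ × List (List ℤ) => feas (c p.1) p.2.2 [] p.2.1) :=
    poly_feas (by fun_prop) (by fun_prop) (Poly.const _) (by fun_prop)
  have hF : Poly (fun p : α × List ℤ × List (List ℤ) =>
      if feas (c p.1) p.2.2 [] p.2.1 = true then p.2.1 :: p.2.2 else p.2.2) :=
    Poly.ite (Poly.decide_bool hf) (by fun_prop) (by fun_prop)
  refine Poly.foldr (l := L) (s := fun _ => ([] : List (List ℤ)))
    (F := fun a r G => if feas (c a) G [] r = true then r :: G else G) hL (Poly.const _) hF q ?_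
  intro a k _
  have h1 := sz_indep (c a) ((L a).drop k)
  have h2 := hq a
  have h3 := Poly.sz_drop_le (L a) k
  unfold indep at h1
  omega

/-- the fold of `wcomb` -/
theorem wfold_bound (N : ℕ) (Z : List (ℕ × List ℤ)) :
    nrm (Z.foldr (fun q acc => comb (q.1 : ℤ) q.2 (-1) acc) (List.replicate N 0)) < 2 ^ sz Z ∧
      (Z.foldr (fun q acc => comb (q.1 : ℤ) q.2 (-1) acc) (List.replicate N 0)).length ≤
        N + sz Z := by
  induction Z with
  | nil =>
    refine ⟨?_, by simp⟩
    rw [List.foldr_nil]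
    have : nrm (List.replicate N (0 : ℤ)) = 0 := by simp [nrm]
    rw [this]
    positivity
  | cons q Z ih =>
    obtain ⟨h1, h2⟩ := ih
    rw [List.foldr_cons]
    generalize Z.foldr (fun q acc => comb (q.1 : ℤ) q.2 (-1) acc) (List.replicate N 0) = R at h1 h2
    obtain ⟨w, r⟩ := q
    simp only [sz_list_cons, sz_pair]
    constructor
    · refine lt_of_le_of_lt (nrm_comb _ _ _ _) ?_
      rw [Int.natAbs_natCast, Int.natAbs_neg, Int.natAbs_one, one_mul]
      have h3 := nat_lt_two_pow w
      have h4 := nrm_lt r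
      have h5 : w * nrm r < 2 ^ (sz w + sz r) := by rw [pow_add]; exact Nat.mul_lt_mul'' h3 h4
      have h6 : 2 ^ (sz w + sz r) ≤ 2 ^ (sz w + sz r + 1 + sz Z) :=
        Nat.pow_le_pow_right (by norm_num) (by omega)
      have h7 : 2 ^ sz Z ≤ 2 ^ (sz w + sz r + 1 + sz Z) :=
        Nat.pow_le_pow_right (by norm_num) (by omega)
      rw [pow_succ]
      omega
    · refine (length_comb_le _ _ _ _).trans ?_
      have := length_lt_sz r
      omega

theorem poly_wcomb {N : α → ℕ} {w : α → List ℕ} {G : α → List (List ℤ)} (hN : UPoly N)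
    (hw : Poly w) (hG : Poly G) : Poly (fun a => wcomb (N a) (w a) (G a)) := by
  unfold wcomb
  have hZ : Poly (fun a => (w a).zip (G a)) := by fun_prop
  have hs : Poly (fun a => List.replicate (N a) (0 : ℤ)) := Poly.replicateU hN (Poly.const 0)
  obtain ⟨q, hq⟩ := hZ.sz_le
  obtain ⟨r, hr⟩ := Poly.sz_le (show Poly (fun a => List.replicate (N a) ()) from hN)
  have hF : Poly (fun p : α × (ℕ × List ℤ) × List ℤ =>
      comb ((p.2.1.1 : ℕ) : ℤ) p.2.1.2 (-1) p.2.2) :=
    Poly.comb (by fun_prop) (by fun_prop) (Poly.const _) (by fun_prop)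
  refine Poly.foldr (l := fun a => (w a).zip (G a)) (s := fun a => List.replicate (N a) (0 : ℤ))
    (F := fun _ (q : ℕ × List ℤ) acc => comb (q.1 : ℤ) q.2 (-1) acc) hZ hs hF
    ((r + q) * (4 * q + 6) + 1) ?_
  intro a k _
  obtain ⟨h1, h2⟩ := wfold_bound (N a) (((w a).zip (G a)).drop k)
  have h3 := sz_of_nrm h1
  have h4 := Poly.sz_drop_le ((w a).zip (G a)) k
  have h5 := hq a
  have h6 : N a ≤ r.eval (sz a) := by
    have := length_lt_sz (List.replicate (N a) ())
    rw [List.length_replicate] at this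
    have := hr a
    omega
  refine h3.trans ?_
  simp only [Polynomial.eval_add, Polynomial.eval_mul, Polynomial.eval_one,
    Polynomial.eval_ofNat]
  exact Nat.add_le_add_right (Nat.mul_le_mul (by omega) (by omega)) 1

theorem poly_pvec {x : α → Inp} {w : α → List ℕ} (hx : Poly x) (hw : Poly w) :
    Poly (fun a => pvec (x a) (w a)) := by
  unfold pvec
  have h1 : Poly (fun a => indep (crow (x a)) (cand (x a))) :=
    poly_indep (poly_crow.comp hx) (poly_cand.comp hx)
  exact poly_wcomb (by fun_prop) hw h1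

/-! ### One run -/

theorem poly_rowsJ {x : α → Inp} (hx : Poly x) : Poly (fun a => rowsJ (x a)) := by
  have h : Poly (fun x : Inp => jl (crow x) (rowsI x)) := by
    have h1 := poly_crow
    have h2 := poly_rowsI
    fun_prop
  exact h.comp hx

theorem poly_run1 {x : α → Inp} {T : α → ℕ} {w : α → List ℕ} (hx : Poly x) (hT : UPoly T)
    (hw : Poly w) : Poly (fun a => run1 (x a) (T a) (w a)) := by
  unfold run1
  have hc : Poly (fun a => crow (x a)) := poly_crow.comp hx
  have hJ : Poly (fun a => rowsJ (x a)) := poly_rowsJ hx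
  have hv : Poly (fun a => startV (x a)) := poly_startV.comp hx
  have hp : Poly (fun a => pvec (x a) (w a)) := poly_pvec hx hw
  have h1 : Poly (fun a => pth (pvec (x a) (w a)) (crow (x a)) (rowsJ (x a)) (startV (x a))
      (T a)) := poly_pth hp hc hJ hv hT
  have h2 : Poly (fun a => improve (crow (x a)) [] (rowsJ (x a))
      (hdp (pth (pvec (x a) (w a)) (crow (x a)) (rowsJ (x a)) (startV (x a)) (T a)))) :=
    poly_improve hc (Poly.const _) hJ (by fun_prop)
  have h3 : Poly (fun a => (improve (crow (x a)) [] (rowsJ (x a))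
      (hdp (pth (pvec (x a) (w a)) (crow (x a)) (rowsJ (x a)) (startV (x a)) (T a)))).isNone) :=
    (Poly.optElim (h := fun _ _ => false) h2 (Poly.const true) (Poly.const false)).congr
      fun a => by
        cases improve (crow (x a)) [] (rowsJ (x a))
          (hdp (pth (pvec (x a) (w a)) (crow (x a)) (rowsJ (x a)) (startV (x a)) (T a))) <;> rfl
  have h4 : Poly (fun a => lpOut (x a).2.2.1.length
      (pth (pvec (x a) (w a)) (crow (x a)) (rowsJ (x a)) (startV (x a)) (T a))) :=
    poly_lpOut (by fun_prop) h1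
  exact Poly.ite (Poly.decide_bool h3) (Poly.cons h4 (Poly.const _)) (Poly.const _)

theorem poly_runs {x : α → Inp} {T : α → ℕ} {W : α → List (List ℕ)} (hx : Poly x)
    (hT : UPoly T) (hW : Poly W) : Poly (fun a => runs (x a) (T a) (W a)) := by
  unfold runs
  have h1 : Poly (fun p : α × List ℕ => run1 (x p.1) (T p.1) p.2) :=
    poly_run1 (by fun_prop) (by fun_prop) (by fun_prop)
  have h2 : Poly (fun a => (W a).flatMap fun w => run1 (x a) (T a) w) :=
    Poly.flatMap (F := fun a w => run1 (x a) (T a) w) hW h1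
  exact Poly.head? h2

/-- the algorithm on bit strings -/
def solve (s : List Bool) : Option Outp :=
  (unbits (List Unit × List (List ℕ) × Inp) s).elim none
    fun q => runs q.2.2 q.1.length q.2.1

theorem poly_solve : PolyTime (fun s => bits (solve s)) := by
  refine polyTime_bits ?_
  unfold solve
  have h1 : Poly (fun p : List Bool × (List Unit × List (List ℕ) × Inp) =>
      runs p.2.2.2 p.2.1.length p.2.2.1) :=
    poly_runs (by fun_prop) (by fun_prop) (by fun_prop)
  exact Poly.optElim (h := fun (_ : List Bool) (q : List Unit × List (List ℕ) × Inp) =>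
    runs q.2.2 q.1.length q.2.1) poly_unbits (Poly.const _) h1

theorem solve_bits (T : ℕ) (W : List (List ℕ)) (x : Inp) :
    solve (bits (List.replicate T (), W, x)) = runs x T W := by
  unfold solve
  rw [unbits_bits, Option.elim_some, List.length_replicate]

end Pool.Agent.NPC.N477RS
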