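import Pool.Agent.N477.RS1

set_option autoImplicit false

/-!
# The number of vertices visited by a random shadow path
-/

namespace Pool.Agent.N477.RS

open Matrix Set Filter Topology MeasureTheory ENNReal
open Pool.Agent.N477.MD

variable {n : ℕ} {ι : Type*} {a : ι → Fin n → ℝ} {b : ι → ℝ} {B : Fin n → ι}

/-- the data of an optimal basis -/
structure Opt (a : ι → Fin n → ℝ) (b : ι → ℝ) (c : Fin n → ℝ) (S : Fin n → ι) (y w : Fin n → ℝ) :
    Prop where
  li : LinearIndependent ℝ (fun k => a (S k))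
  nn : ∀ k, 0 ≤ y k
  mem : w ∈ Poly a b
  ti : ∀ k, S k ∈ tight a b w
  eq : c = ∑ k, y k • a (S k)

theorem rate_spec {κ K t : ℝ} {c : Fin n → ℝ} {S : Fin n → ι} {y w : Fin n → ℝ}
    (ho : Opt a b c S y w) {e : Fin n → ℝ} (he : ∀ k, |a k ⬝ᵥ e| ≤ κ)
    (h0 : ∀ j ∈ S '' {k | K ≤ t * y k}, a j ⬝ᵥ e = 0) : c ⬝ᵥ e ≤ rate κ K y t := by
  rw [ho.eq, sum_dotProduct]
  unfold rate
  rw [Finset.mul_sum]
  refine Finset.sum_le_sum fun k _ => ?_
  rw [smul_dotProduct, smul_eq_mul]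
  split_ifs with h
  · have h1 : y k * (a (S k) ⬝ᵥ e) ≤ y k * κ :=
      mul_le_mul_of_nonneg_left ((le_abs_self _).trans (he _)) (ho.nn k)
    linarith
  · rw [h0 (S k) ⟨k, not_lt.1 h, rfl⟩, mul_zero, mul_zero]

/-- the mean number of losses on a fine grid -/
theorem mean_losses' [Fintype ι] (hP : IsCompact (Poly a b))
    (hB : LinearIndependent ℝ (fun k => a (B k))) {κ : ℝ} (hκ0 : 0 < κ)
    (hκ : Bal a κ) {c : Fin n → ℝ} {S : Fin n → ι} {y w : Fin n → ℝ} (ho : Opt a b c S y w)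
    {θ τ : ℝ} (hθ : 0 < θ) (hτ : 0 < τ) {q : ℕ} (hq : 0 < q)
    (hX1 : τ / q * (κ * (∑ k, y k) + τ / q) * κ / θ < 1) :
    ∫⁻ μ in box0 n, (losses (Poly a b) c (zz a B 0 μ) (τ / q) q : ℝ≥0∞) ≤
      ENNReal.ofReal (n * (1 + 2 * θ) ^ n / (1 - τ / q * (κ * (∑ k, y k) + τ / q) * κ / θ) *
        (κ / θ) * (κ * (n * (2 * n * κ + 1) + τ / q * ∑ k, y k) + τ * (τ / q))) := by
  set K : ℝ := 2 * n * κ + 1 with hK
  have hK0 : 0 < K := by positivity
  have hq0 : (0:ℝ) < q := by exact_mod_cast hq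
  set ε := τ / q with hε
  have hε0 : 0 < ε := by positivity
  set X := ε * (κ * (∑ k, y k) + ε) * κ / θ with hX
  have hY : 0 ≤ ∑ k, y k := Finset.sum_nonneg fun k _ => ho.nn k
  rw [lintegral_losses]
  have hb : ∀ i ∈ Finset.range q,
      volume {μ : Fin n → ℝ | μ ∈ box0 n ∧ Loss (Poly a b) c (zz a B 0 μ) ((i:ℕ) * ε) ε} ≤
        ENNReal.ofReal (n * (1 + 2 * θ) ^ n / (1 - X) * (κ / θ) *
          (ε * (rate κ K y (i * ε) + ε))) := by
    intro i _
    have hr0 := rate_nonneg (K := K) hκ0.le ho.nn ((i:ℝ) * ε)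
    refine loss_rate hP hB hκ0 hκ (F := S '' {k | K ≤ ((i:ℝ) * ε) * y k}) hθ ?_ ?_ (by linarith)
      hε0 ?_ hX1
    · rintro μ hμ s hs x hx _ ⟨k, hk, rfl⟩
      have hi0 : (0:ℝ) ≤ (i:ℝ) * ε := by positivity
      have hk' : K ≤ ((i:ℝ) * ε) * y k := hk
      refine hit hκ ho.li ho.nn ho.mem ho.ti hμ (t := s) (hi0.trans hs) ?_ (by
        rw [← ho.eq]; exact hx)
      have h1 := mul_le_mul_of_nonneg_right hs (ho.nn k)
      exact hk'.trans h1
    · intro e he h0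
      have := rate_spec ho he h0
      linarith
    · rw [hX]
      have h1 := rate_le (K := K) hκ0.le ho.nn ((i:ℝ) * ε)
      gcongr
  have hpos : 0 ≤ n * (1 + 2 * θ) ^ n / (1 - X) * (κ / θ) := by
    have : 0 < 1 - X := by linarith
    positivity
  refine (Finset.sum_le_sum hb).trans ?_
  rw [← ENNReal.ofReal_sum_of_nonneg (fun i _ => by
    have hr0 := rate_nonneg (K := K) hκ0.le ho.nn ((i:ℝ) * ε)
    exact mul_nonneg hpos (mul_nonneg hε0.le (by linarith)))]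
  apply ENNReal.ofReal_le_ofReal
  rw [← Finset.mul_sum]
  refine mul_le_mul_of_nonneg_left ?_ hpos
  have h2 := sum_rate (K := K) (q := q) hκ0.le hK0.le hε0.le ho.nn
  have h3 : (q:ℝ) * ε = τ := by rw [hε]; field_simp
  rw [h3] at h2
  exact h2

/-- **Fatou and Markov.** -/
theorem many_losses' [Fintype ι] (hP : IsCompact (Poly a b))
    (hB : LinearIndependent ℝ (fun k => a (B k))) {κ : ℝ} (hκ0 : 0 < κ)
    (hκ : Bal a κ) {c : Fin n → ℝ} {S : Fin n → ι} {y w : Fin n → ℝ} (ho : Opt a b c S y w)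
    {θ τ : ℝ} (hθ : 0 < θ) (hτ : 0 < τ) (T : ℕ) :
    (T : ℝ≥0∞) * volume {μ : Fin n → ℝ | μ ∈ box0 n ∧
        ∀ᶠ q : ℕ in atTop, T ≤ losses (Poly a b) c (zz a B 0 μ) (τ / q) q} ≤
      ENNReal.ofReal (n * (1 + 2 * θ) ^ n * (κ / θ) * (κ * (n * (2 * n * κ + 1)))) := by
  set f : ℕ → (Fin n → ℝ) → ℝ≥0∞ := fun q μ =>
    (losses (Poly a b) c (zz a B 0 μ) (τ / q) q : ℝ≥0∞) with hf
  have hfm : ∀ q, Measurable (f q) := fun q => measurable_losses c _ _
  set g : (Fin n → ℝ) → ℝ≥0∞ := fun μ => liminf (fun q => f q μ) atTop with hg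
  have hgm : Measurable g := Measurable.liminf hfm
  have hlim0 : Tendsto (fun q : ℕ => τ / (q:ℝ)) atTop (𝓝 0) :=
    tendsto_const_div_atTop_nhds_zero_nat τ
  have hX : Tendsto (fun q : ℕ => τ / (q:ℝ) * (κ * (∑ k, y k) + τ / q) * κ / θ) atTop (𝓝 0) := by
    have h1 : Tendsto (fun ε : ℝ => ε * (κ * (∑ k, y k) + ε) * κ / θ) (𝓝 0)
        (𝓝 (0 * (κ * (∑ k, y k) + 0) * κ / θ)) := by
      apply Continuous.tendsto
      fun_prop
    have e : (0 * (κ * (∑ k, y k) + 0) * κ / θ : ℝ) = 0 := by ring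
    rw [e] at h1
    exact h1.comp hlim0
  have hG : Tendsto (fun q : ℕ => n * (1 + 2 * θ) ^ n /
      (1 - τ / (q:ℝ) * (κ * (∑ k, y k) + τ / q) * κ / θ) *
        (κ / θ) * (κ * (n * (2 * n * κ + 1) + τ / q * ∑ k, y k) + τ * (τ / q))) atTop
      (𝓝 (n * (1 + 2 * θ) ^ n * (κ / θ) * (κ * (n * (2 * n * κ + 1))))) := by
    have h1 : Tendsto (fun q : ℕ => n * (1 + 2 * θ) ^ n /
      (1 - τ / (q:ℝ) * (κ * (∑ k, y k) + τ / q) * κ / θ)) atTop
      (𝓝 (n * (1 + 2 * θ) ^ n / (1 - 0))) :=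
      Tendsto.div tendsto_const_nhds (tendsto_const_nhds.sub hX) (by norm_num)
    have h2 : Tendsto (fun q : ℕ => κ * (n * (2 * n * κ + 1) + τ / (q:ℝ) * ∑ k, y k) +
        τ * (τ / q)) atTop (𝓝 (κ * (n * (2 * n * κ + 1) + 0 * ∑ k, y k) + τ * 0)) :=
      (tendsto_const_nhds.mul (tendsto_const_nhds.add (hlim0.mul tendsto_const_nhds))).add
        (tendsto_const_nhds.mul hlim0)
    have h3 := (h1.mul (tendsto_const_nhds (x := κ / θ))).mul h2
    have e : n * (1 + 2 * θ) ^ n / (1 - 0) * (κ / θ) *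
        (κ * (n * (2 * n * κ + 1) + 0 * ∑ k, y k) + τ * 0) =
        n * (1 + 2 * θ) ^ n * (κ / θ) * (κ * (n * (2 * n * κ + 1))) := by
      rw [sub_zero, div_one]; ring
    rw [e] at h3
    exact h3
  have h1 : ∫⁻ μ in box0 n, g μ ≤
      ENNReal.ofReal (n * (1 + 2 * θ) ^ n * (κ / θ) * (κ * (n * (2 * n * κ + 1)))) := by
    refine (lintegral_liminf_le hfm).trans ?_
    rw [← (ENNReal.tendsto_ofReal hG).liminf_eq]
    refine liminf_le_liminf ?_
    filter_upwards [eventually_gt_atTop 0, hX.eventually_lt_const one_pos] with q hq hq2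
    exact mean_losses' hP hB hκ0 hκ ho hθ hτ hq hq2
  have h2 := mul_meas_ge_le_lintegral (μ := volume.restrict (box0 n)) hgm (T : ℝ≥0∞)
  refine le_trans (mul_le_mul' le_rfl ?_) (h2.trans h1)
  rw [Measure.restrict_apply (measurableSet_le measurable_const hgm)]
  apply measure_mono
  rintro μ ⟨hμ, hev⟩
  refine ⟨?_, hμ⟩
  show (T : ℝ≥0∞) ≤ liminf (fun q => f q μ) atTop
  apply le_liminf_of_le
  · isBoundedDefault
  · filter_upwards [hev] with q hq
    show (T : ℝ≥0∞) ≤ (losses (Poly a b) c (zz a B 0 μ) (τ / q) q : ℝ≥0∞)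
    exact_mod_cast hq

/-- the vertices which are optimal for `z + t c` for some `t ≥ 0` -/
def Vis (P : Set (Fin n → ℝ)) (c z : Fin n → ℝ) : Set (Fin n → ℝ) :=
  {v | v ∈ P.extremePoints ℝ ∧ ∃ t : ℝ, 0 ≤ t ∧ MaxAt P (z + t • c) v}

theorem vis_finite [Finite ι] (c z : Fin n → ℝ) : (Vis (Poly a b) c z).Finite :=
  ext_finite.subset fun _ h => h.1

theorem isClosed_times (P : Set (Fin n → ℝ)) (c z v : Fin n → ℝ) :
    IsClosed {t : ℝ | MaxAt P (z + t • c) v} := by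
  by_cases hv : v ∈ P
  · have h : {t : ℝ | MaxAt P (z + t • c) v} =
        ⋂ x ∈ P, {t | (z + t • c) ⬝ᵥ x ≤ (z + t • c) ⬝ᵥ v} := by
      ext μ
      simp [MaxAt, hv]
    rw [h]
    refine isClosed_biInter fun x _ => isClosed_le ?_ ?_
    · exact (continuous_dot' x).comp (by fun_prop)
    · exact (continuous_dot' v).comp (by fun_prop)
  · have h : {t : ℝ | MaxAt P (z + t • c) v} = ∅ := by
      ext μ
      simp [MaxAt, hv]
    rw [h]
    exact isClosed_empty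

section

variable {c z : Fin n → ℝ}

/-- the last time at which a vertex which is not optimal for `c` is optimal -/
theorem exists_last {P : Set (Fin n → ℝ)} {τ : ℝ}
    (hend : ∀ t, τ ≤ t → ∀ x, MaxAt P (z + t • c) x → MaxAt P c x) {v : Fin n → ℝ}
    (hv : v ∈ Vis P c z) (hvc : ¬ MaxAt P c v) :
    ∃ t, IsGreatest {t : ℝ | 0 ≤ t ∧ MaxAt P (z + t • c) v} t ∧ t < τ := by
  obtain ⟨-, t0, ht0, ht0'⟩ := hv
  have hsub : ∀ t ∈ {t : ℝ | 0 ≤ t ∧ MaxAt P (z + t • c) v}, t < τ := by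
    rintro t ⟨-, ht⟩
    by_contra h
    exact hvc (hend t (not_lt.1 h) v ht)
  have hcl : IsClosed {t : ℝ | 0 ≤ t ∧ MaxAt P (z + t • c) v} := by
    have e : {t : ℝ | 0 ≤ t ∧ MaxAt P (z + t • c) v} = Ici 0 ∩ {t : ℝ | MaxAt P (z + t • c) v} := by
      ext t; rfl
    rw [e]
    exact isClosed_Ici.inter (isClosed_times P c z v)
  have hcomp : IsCompact {t : ℝ | 0 ≤ t ∧ MaxAt P (z + t • c) v} :=
    isCompact_Icc (a := (0:ℝ)) (b := τ) |>.of_isClosed_subset hcl
      fun t ht => ⟨ht.1, (hsub t ht).le⟩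
  obtain ⟨t, ht⟩ := hcomp.exists_isGreatest ⟨t0, ht0, ht0'⟩
  exact ⟨t, ht, hsub t ht.1⟩

/-- a vertex optimal just after the last time of `v` -/
theorem exists_next [Finite ι] (hP : IsCompact (Poly a b)) {v : Fin n → ℝ} {t δ : ℝ}
    (ht : IsGreatest {t : ℝ | 0 ≤ t ∧ MaxAt (Poly a b) (z + t • c) v} t) (hδ : 0 < δ) :
    ∃ t', t < t' ∧ t' < t + δ ∧ ∃ u ∈ (Poly a b).extremePoints ℝ,
      MaxAt (Poly a b) (z + t' • c) u ∧ u ≠ v := by
  refine ⟨t + δ / 2, by linarith, by linarith, ?_⟩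
  obtain ⟨u, hu, hum⟩ := exists_maxAt hP ⟨v, ht.1.2.1⟩ (z + (t + δ / 2) • c)
  refine ⟨u, hu, hum, ?_⟩
  rintro rfl
  have h1 := ht.2 ⟨by linarith [ht.1.1], hum⟩
  linarith

theorem last_ne [Finite ι] (hP : IsCompact (Poly a b)) (hg : Gen (Poly a b) c z)
    {v w : Fin n → ℝ} (hv : v ∈ (Poly a b).extremePoints ℝ) (hw : w ∈ (Poly a b).extremePoints ℝ)
    (hvw : v ≠ w) {t s : ℝ}
    (ht : IsGreatest {t : ℝ | 0 ≤ t ∧ MaxAt (Poly a b) (z + t • c) v} t)
    (hs : IsGreatest {t : ℝ | 0 ≤ t ∧ MaxAt (Poly a b) (z + t • c) w} s) : t ≠ s := by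
  rintro rfl
  obtain ⟨δ, hδ, hn⟩ := Metric.eventually_nhds_iff.1 (near (a := a) (b := b) c z t)
  obtain ⟨t', h1, h2, u, hu, hum, huv⟩ := exists_next hP ht hδ
  have huw : u ≠ w := by
    rintro rfl
    have := hs.2 ⟨by linarith [ht.1.1], hum⟩
    linarith
  have h3 := hn (y := t') (by rw [Real.dist_eq, abs_of_pos (by linarith)]; linarith) u hu hum
  exact gen_two hg hv hw hu hvw huv.symm huw.symm ht.1.2 hs.1.2 h3

theorem stay_left [Finite ι] (hP : IsCompact (Poly a b)) (hg : Gen (Poly a b) c z)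
    {v : Fin n → ℝ} (hv : v ∈ (Poly a b).extremePoints ℝ) {t : ℝ}
    (ht : IsGreatest {t : ℝ | 0 ≤ t ∧ MaxAt (Poly a b) (z + t • c) v} t) :
    ∃ δ : ℝ, 0 < δ ∧ ∀ s, t - δ < s → s ≤ t → MaxAt (Poly a b) (z + s • c) v := by
  obtain ⟨δ, hδ, hn⟩ := Metric.eventually_nhds_iff.1 (near (a := a) (b := b) c z t)
  refine ⟨δ, hδ, fun s hs hst => ?_⟩
  rcases hst.lt_or_eq with hst | rfl
  · by_contra hno
    obtain ⟨u, hu, hum⟩ := exists_maxAt hP ⟨v, hv.1⟩ (z + s • c)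
    have huv : u ≠ v := by
      rintro rfl
      exact hno hum
    obtain ⟨t', h1, h2, u', hu', hum', huv'⟩ := exists_next hP ht hδ
    have h3 := hn (y := t') (by rw [Real.dist_eq, abs_of_pos (by linarith)]; linarith) u' hu' hum'
    have h4 := hn (y := s) (by rw [Real.dist_eq, abs_of_neg (by linarith)]; linarith) u hu hum
    by_cases huu : u = u'
    · subst huu
      have e1 := maxAt_eq h4 ht.1.2
      have e2 := hum'.2 v hv.1
      have e3 : (z + s • c) ⬝ᵥ v < (z + s • c) ⬝ᵥ u := by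
        refine lt_of_le_of_ne (hum.2 v hv.1) fun h => hno ⟨hv.1, fun y hy => ?_⟩
        rw [h]
        exact hum.2 y hy
      rw [add_dotProduct, smul_dotProduct, smul_eq_mul, dotProduct_sub, dotProduct_sub] at e1
      rw [add_dotProduct, add_dotProduct, smul_dotProduct, smul_dotProduct, smul_eq_mul,
        smul_eq_mul] at e2 e3
      set p := z ⬝ᵥ u - z ⬝ᵥ v with hp
      set r := c ⬝ᵥ u - c ⬝ᵥ v with hr
      have f1 : p + t * r = 0 := by rw [hp, hr]; linarith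
      have f2 : 0 ≤ p + t' * r := by rw [hp, hr]; linarith
      have f3 : 0 < p + s * r := by rw [hp, hr]; linarith
      have f4 : 0 ≤ (t' - t) * r := by linarith
      have f5 : 0 < (s - t) * r := by linarith
      have f6 : 0 ≤ r := by
        by_contra hneg
        push Not at hneg
        have := mul_neg_of_pos_of_neg (sub_pos.2 h1) hneg
        linarith
      have f7 : (s - t) * r ≤ 0 := mul_nonpos_of_nonpos_of_nonneg (by linarith) f6
      linarith
    · exact gen_two hg hv hu hu' huv.symm huv'.symm huu ht.1.2 h4 h3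
  · exact ht.1.2

/-- the number of visited vertices is at most the number of losses plus one -/
theorem vis_le_losses [Fintype ι] (hP : IsCompact (Poly a b)) (hg : Gen (Poly a b) c z)
    {τ : ℝ} (hτ : 0 < τ)
    (hend : ∀ t, τ ≤ t → ∀ x, MaxAt (Poly a b) (z + t • c) x → MaxAt (Poly a b) c x) :
    ∀ᶠ q : ℕ in atTop, (Vis (Poly a b) c z).ncard ≤ losses (Poly a b) c z (τ / q) q + 1 := by
  classical
  set N : Set (Fin n → ℝ) := {v | v ∈ Vis (Poly a b) c z ∧ ¬ MaxAt (Poly a b) c v} with hN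
  set O : Set (Fin n → ℝ) := {v | v ∈ Vis (Poly a b) c z ∧ MaxAt (Poly a b) c v} with hO
  have hVfin := vis_finite (a := a) (b := b) c z
  have hNfin : N.Finite := hVfin.subset fun _ h => h.1
  have hO1 : O.ncard ≤ 1 := by
    rw [Set.ncard_le_one (hVfin.subset fun _ h => h.1)]
    rintro v ⟨⟨hv, t, ht0, ht⟩, hvc⟩ w ⟨⟨hw, s, hs0, hs⟩, hwc⟩
    by_contra hvw
    apply hg.1 v hv w hw hvw
    have e1 := maxAt_eq hvc hwc
    have e2 := ht.2 w hw.1
    have e3 := hs.2 v hv.1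
    rw [dotProduct_sub] at e1 ⊢
    rw [add_dotProduct, add_dotProduct, smul_dotProduct, smul_dotProduct, smul_eq_mul,
      smul_eq_mul] at e2 e3
    have e4 : c ⬝ᵥ v = c ⬝ᵥ w := by linarith
    rw [e4] at e2 e3
    linarith
  have hlast : ∀ v ∈ N, ∃ t, IsGreatest {t : ℝ | 0 ≤ t ∧ MaxAt (Poly a b) (z + t • c) v} t ∧
      t < τ := fun v hv => exists_last hend hv.1 hv.2
  choose! tt htt httτ using hlast
  have hleft : ∀ v ∈ N, ∃ δ : ℝ, 0 < δ ∧ ∀ s, tt v - δ < s → s ≤ tt v →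
      MaxAt (Poly a b) (z + s • c) v := fun v hv => stay_left hP hg hv.1.1 (htt v hv)
  choose! δ hδ0 hδ using hleft
  have hlim0 : Tendsto (fun q : ℕ => τ / (q:ℝ)) atTop (𝓝 0) :=
    tendsto_const_div_atTop_nhds_zero_nat τ
  have hev1 : ∀ᶠ q : ℕ in atTop, ∀ v ∈ N, τ / (q:ℝ) < δ v := by
    rw [Filter.eventually_all_finite hNfin]
    intro v hv
    exact hlim0.eventually_lt_const (hδ0 v hv)
  have hev2 : ∀ᶠ q : ℕ in atTop, ∀ v ∈ N, ∀ w ∈ N, v ≠ w → τ / (q:ℝ) < |tt v - tt w| := by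
    rw [Filter.eventually_all_finite hNfin]
    intro v hv
    rw [Filter.eventually_all_finite hNfin]
    intro w hw
    by_cases hvw : v = w
    · exact Filter.Eventually.of_forall fun q h => absurd hvw h
    · have h1 : 0 < |tt v - tt w| :=
        abs_pos.2 (sub_ne_zero.2 (last_ne hP hg hv.1.1 hw.1.1 hvw (htt v hv) (htt w hw)))
      filter_upwards [hlim0.eventually_lt_const h1] with q hq _ using hq
  filter_upwards [eventually_gt_atTop 0, hev1, hev2] with q hq0 hq1 hq2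
  have hqR : (0:ℝ) < q := by exact_mod_cast hq0
  set ε := τ / (q:ℝ) with hε
  have hε0 : 0 < ε := by positivity
  have hVis : Vis (Poly a b) c z = N ∪ O := by
    ext v
    constructor
    · intro hv
      by_cases h : MaxAt (Poly a b) c v
      · exact Or.inr ⟨hv, h⟩
      · exact Or.inl ⟨hv, h⟩
    · rintro (h | h)
      · exact h.1
      · exact h.1
  rw [hVis]
  refine (Set.ncard_union_le N O).trans (Nat.add_le_add ?_ hO1)
  have hcard : losses (Poly a b) c z ε q = Set.ncard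
      (((Finset.range q).filter (fun i : ℕ => Loss (Poly a b) c z (i * ε) ε) : Finset ℕ) :
        Set ℕ) := by
    rw [Set.ncard_coe_finset]
    unfold losses
    congr
  rw [hcard]
  refine Set.ncard_le_ncard_of_injOn (fun v => ⌊tt v / ε⌋₊) ?_ ?_ (Finset.finite_toSet _)
  · intro v hv
    have h0 : 0 ≤ tt v := (htt v hv).1.1
    have h1 := httτ v hv
    have h2 : ((⌊tt v / ε⌋₊ : ℕ) : ℝ) ≤ tt v / ε := Nat.floor_le (by positivity)
    have h3 : tt v / ε < ((⌊tt v / ε⌋₊ : ℕ) : ℝ) + 1 := Nat.lt_floor_add_one _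
    rw [le_div_iff₀ hε0] at h2
    rw [div_lt_iff₀ hε0, add_mul, one_mul] at h3
    rw [Finset.coe_filter, mem_ofPred_eq, Finset.mem_range]
    constructor
    · rw [Nat.floor_lt (by positivity), div_lt_iff₀ hε0, hε]
      have : (q:ℝ) * (τ / q) = τ := by field_simp
      rw [this]; exact h1
    · refine ⟨v, hv.1.1, hδ v hv _ ?_ h2, fun hm => ?_⟩
      · have := hq1 v hv
        linarith
      · have := (htt v hv).2 ⟨by positivity, hm⟩
        linarith
  · intro v hv w hw hvw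
    by_contra hne
    have h1 := hq2 v hv w hw hne
    have hv0 : 0 ≤ tt v := (htt v hv).1.1
    have hw0 : 0 ≤ tt w := (htt w hw).1.1
    have hvw' : ⌊tt v / ε⌋₊ = ⌊tt w / ε⌋₊ := hvw
    have a1 : ((⌊tt v / ε⌋₊ : ℕ) : ℝ) ≤ tt v / ε := Nat.floor_le (by positivity)
    have a2 : tt v / ε < ((⌊tt v / ε⌋₊ : ℕ) : ℝ) + 1 := Nat.lt_floor_add_one _
    have b1 : ((⌊tt w / ε⌋₊ : ℕ) : ℝ) ≤ tt w / ε := Nat.floor_le (by positivity)
    have b2 : tt w / ε < ((⌊tt w / ε⌋₊ : ℕ) : ℝ) + 1 := Nat.lt_floor_add_one _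
    rw [hvw'] at a1 a2
    rw [le_div_iff₀ hε0] at a1 b1
    rw [div_lt_iff₀ hε0, add_mul, one_mul] at a2 b2
    have h2 : |tt v - tt w| < ε := by
      rw [abs_lt]
      constructor <;> linarith
    linarith

end

/-- **A random shadow path visits few vertices.** -/
theorem vis_volume [Fintype ι] (hP : IsCompact (Poly a b)) {κ : ℝ} (hκ : Bal a κ)
    (hB : LinearIndependent ℝ (fun k => a (B k))) (hne : (Poly a b).Nonempty)
    (c : Fin n → ℝ) (T : ℕ) :
    (T : ℝ≥0∞) * volume {μ : Fin n → ℝ | μ ∈ box0 n ∧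
        T + 1 ≤ (Vis (Poly a b) c (zz a B 0 μ)).ncard} ≤
      ENNReal.ofReal (18 * (n:ℝ) ^ 4 * κ ^ 3) := by
  rcases Nat.eq_zero_or_pos n with hn | hn
  · subst hn
    rcases Nat.eq_zero_or_pos T with hT | hT
    · subst hT
      simp
    · have : {μ : Fin 0 → ℝ | μ ∈ box0 0 ∧
        T + 1 ≤ (Vis (Poly a b) c (zz a B 0 μ)).ncard} = ∅ := by
        ext μ
        simp only [mem_ofPred_eq, mem_empty_iff_false, iff_false, not_and, not_le]
        intro _
        have h1 : (Vis (Poly a b) c (zz a B 0 μ)).ncard ≤ 1 := by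
          rw [Set.ncard_le_one (vis_finite c _)]
          intro x _ y _
          exact Subsingleton.elim x y
        omega
      rw [this, measure_empty, mul_zero]
      exact zero_le
  have hn' : (1:ℝ) ≤ n := by exact_mod_cast hn
  obtain ⟨w, hw, hmax⟩ := exists_maxAt hP hne c
  obtain ⟨S, y, hS, hSw, hy, hc⟩ := optimal_basis hw hmax
  have ho : Opt a b c S y w := ⟨hS, hy, hw.1, hSw, hc⟩
  have hκ1 : 1 ≤ κ := one_le_kappa hκ hS ⟨0, hn⟩
  have hκ0 : 0 < κ := by linarith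
  set K : ℝ := 2 * n * κ + 1 with hK
  have hK0 : 0 < K := by positivity
  set τ : ℝ := (∑ k, if 0 < y k then K / y k else 0) + 1 with hτ
  have hnn : ∀ k ∈ (Finset.univ : Finset (Fin n)), 0 ≤ (if 0 < y k then K / y k else 0) := by
    intro k _
    split_ifs with h
    · positivity
    · exact le_rfl
  have hτ0 : 0 < τ := by
    have := Finset.sum_nonneg hnn
    linarith
  have hτy : ∀ k, 0 < y k → ∀ t, τ ≤ t → K ≤ t * y k := by
    intro k hk t ht
    have h1 := Finset.single_le_sum hnn (Finset.mem_univ k)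
    rw [if_pos hk] at h1
    have h2 : K / y k ≤ t := by linarith
    rw [div_le_iff₀ hk] at h2
    exact h2
  have hend : ∀ μ ∈ box0 n, ∀ t, τ ≤ t → ∀ x, MaxAt (Poly a b) (zz a B 0 μ + t • c) x →
      MaxAt (Poly a b) c x := by
    intro μ hμ t ht x hx
    refine ⟨hx.1, fun u hu => ?_⟩
    have htight : ∀ k, 0 < y k → a (S k) ⬝ᵥ x = b (S k) := fun k hk =>
      hit hκ hS hy hw.1 hSw hμ (hτ0.le.trans ht) (hτy k hk t ht) (by rw [← hc]; exact hx)
    rw [hc, sum_dotProduct, sum_dotProduct]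
    refine Finset.sum_le_sum fun k _ => ?_
    rw [smul_dotProduct, smul_dotProduct, smul_eq_mul, smul_eq_mul]
    rcases (hy k).lt_or_eq with hk | hk
    · rw [htight k hk]
      exact mul_le_mul_of_nonneg_left (hu _) hk.le
    · rw [← hk, zero_mul, zero_mul]
  set θ : ℝ := 1 / (2 * n) with hθ
  have hθ0 : 0 < θ := by positivity
  have hml := many_losses' hP hB hκ0 hκ ho hθ0 hτ0 T
  have hΛ : n * (1 + 2 * θ) ^ n * (κ / θ) * (κ * (n * (2 * n * κ + 1))) ≤
      18 * (n:ℝ) ^ 4 * κ ^ 3 := by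
    have h1 : (1 + 2 * θ) ^ n ≤ 3 := exp_bound hn
    have h2 : 2 * n * κ + 1 ≤ 3 * n * κ := by
      have : 1 ≤ (n:ℝ) * κ := by nlinarith
      nlinarith
    have h3 : κ / θ = 2 * n * κ := by rw [hθ]; field_simp
    rw [h3]
    calc n * (1 + 2 * θ) ^ n * (2 * n * κ) * (κ * (n * (2 * n * κ + 1)))
        ≤ n * 3 * (2 * n * κ) * (κ * (n * (3 * n * κ))) := by gcongr
      _ = _ := by ring
  refine le_trans (mul_le_mul' le_rfl ?_) (hml.trans (ENNReal.ofReal_le_ofReal hΛ))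
  have hae := ae_gen (b := b) (R := 0) hB c
  have h0 : volume {μ : Fin n → ℝ | ¬ Gen (Poly a b) c (zz a B 0 μ)} = 0 := by
    rwa [ae_iff] at hae
  refine (measure_mono (t := {μ : Fin n → ℝ | ¬ Gen (Poly a b) c (zz a B 0 μ)} ∪
    {μ : Fin n → ℝ | μ ∈ box0 n ∧
        ∀ᶠ q : ℕ in atTop, T ≤ losses (Poly a b) c (zz a B 0 μ) (τ / q) q}) ?_).trans
    ((measure_union_le _ _).trans (by rw [h0, zero_add]))
  rintro μ ⟨hμ, hT⟩
  by_cases hg : Gen (Poly a b) c (zz a B 0 μ)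
  · right
    refine ⟨hμ, ?_⟩
    filter_upwards [vis_le_losses hP hg hτ0 (hend μ hμ)] with q hq
    omega
  · left
    exact hg

end Pool.Agent.N477.RS
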