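import Pool.Agent.N477.RS2

set_option autoImplicit false

/-!
# Random start objectives with few random bits
-/

namespace Pool.Agent.N477.RS

open Matrix Set Filter Topology MeasureTheory ENNReal
open Pool.Agent.N477.MD

variable {n : ℕ} {ι : Type*} {a : ι → Fin n → ℝ} {b : ι → ℝ} {B : Fin n → ι}

/-! ### Sign conditions -/

/-- the visited vertices are determined by sign conditions -/
theorem vis_mono [Finite ι] (hP : IsCompact (Poly a b)) {c z z' : Fin n → ℝ}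
    (h1 : ∀ v ∈ (Poly a b).extremePoints ℝ, ∀ w ∈ (Poly a b).extremePoints ℝ,
      0 ≤ z ⬝ᵥ (v - w) → 0 ≤ z' ⬝ᵥ (v - w))
    (h2 : ∀ u ∈ (Poly a b).extremePoints ℝ, ∀ v ∈ (Poly a b).extremePoints ℝ,
      ∀ w ∈ (Poly a b).extremePoints ℝ,
      0 ≤ z ⬝ᵥ ((c ⬝ᵥ (w - u)) • (v - u) - (c ⬝ᵥ (v - u)) • (w - u)) →
      0 ≤ z' ⬝ᵥ ((c ⬝ᵥ (w - u)) • (v - u) - (c ⬝ᵥ (v - u)) • (w - u))) :
    Vis (Poly a b) c z ⊆ Vis (Poly a b) c z' := by
  classical
  rintro v ⟨hv, t, ht0, ht⟩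
  refine ⟨hv, ?_⟩
  set W := (ext_finite (a := a) (b := b)).toFinset with hW
  have hWm : ∀ u, u ∈ W ↔ u ∈ (Poly a b).extremePoints ℝ := fun u => Set.Finite.mem_toFinset _
  -- the inequalities for `z`
  have hz : ∀ u ∈ (Poly a b).extremePoints ℝ, 0 ≤ z ⬝ᵥ (v - u) + t * (c ⬝ᵥ (v - u)) := by
    intro u hu
    have h := ht.2 u hu.1
    rw [add_dotProduct, add_dotProduct, smul_dotProduct, smul_dotProduct, smul_eq_mul,
      smul_eq_mul] at h
    rw [dotProduct_sub, dotProduct_sub]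
    linarith
  -- the new time
  have key : ∃ t' : ℝ, 0 ≤ t' ∧ ∀ u ∈ (Poly a b).extremePoints ℝ,
      0 ≤ z' ⬝ᵥ (v - u) + t' * (c ⬝ᵥ (v - u)) := by
    by_cases hU : ∃ u ∈ W, 0 < c ⬝ᵥ (v - u) ∧ z' ⬝ᵥ (v - u) < 0
    · set U := W.filter (fun u => 0 < c ⬝ᵥ (v - u) ∧ z' ⬝ᵥ (v - u) < 0) with hUdef
      have hUne : U.Nonempty := by
        obtain ⟨u, hu, hu'⟩ := hU
        exact ⟨u, by rw [hUdef, Finset.mem_filter]; exact ⟨hu, hu'⟩⟩
      obtain ⟨u1, hu1, hmax⟩ := Finset.exists_max_image U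
        (fun u => -(z' ⬝ᵥ (v - u)) / (c ⬝ᵥ (v - u))) hUne
      rw [hUdef, Finset.mem_filter, hWm] at hu1
      obtain ⟨hu1e, hu1c, hu1z⟩ := hu1
      set t' := -(z' ⬝ᵥ (v - u1)) / (c ⬝ᵥ (v - u1)) with ht'
      have ht'0 : 0 < t' := div_pos (by linarith) hu1c
      refine ⟨t', ht'0.le, fun u hu => ?_⟩
      rcases lt_trichotomy (c ⬝ᵥ (v - u)) 0 with hc | hc | hc
      · have e1 := hz u hu
        have e2 := hz u1 hu1e
        have e3 : 0 ≤ z ⬝ᵥ ((c ⬝ᵥ (u1 - v)) • (u - v) - (c ⬝ᵥ (u - v)) • (u1 - v)) := by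
          rw [dotProduct_sub, dotProduct_smul, dotProduct_smul, smul_eq_mul, smul_eq_mul,
            ← neg_sub v u1, ← neg_sub v u, dotProduct_neg, dotProduct_neg, dotProduct_neg,
            dotProduct_neg]
          have f1 := mul_nonneg e1 hu1c.le
          have f2 := mul_nonneg e2 (neg_pos.2 hc).le
          nlinarith
        have e4 := h2 v hv u hu u1 hu1e e3
        rw [dotProduct_sub, dotProduct_smul, dotProduct_smul, smul_eq_mul, smul_eq_mul,
            ← neg_sub v u1, ← neg_sub v u, dotProduct_neg, dotProduct_neg, dotProduct_neg,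
            dotProduct_neg] at e4
        have e5 : t' * (c ⬝ᵥ (v - u1)) = -(z' ⬝ᵥ (v - u1)) := div_mul_cancel₀ _ hu1c.ne'
        have e6 : 0 ≤ (z' ⬝ᵥ (v - u) + t' * (c ⬝ᵥ (v - u))) * (c ⬝ᵥ (v - u1)) := by
          have : (z' ⬝ᵥ (v - u) + t' * (c ⬝ᵥ (v - u))) * (c ⬝ᵥ (v - u1)) =
              z' ⬝ᵥ (v - u) * (c ⬝ᵥ (v - u1)) + (t' * (c ⬝ᵥ (v - u1))) * (c ⬝ᵥ (v - u)) := by ring
          rw [this, e5]
          linarith
        exact nonneg_of_mul_nonneg_left e6 hu1c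
      · have e1 := hz u hu
        rw [hc, mul_zero, add_zero] at e1 ⊢
        exact h1 v hv u hu e1
      · by_cases hzu : z' ⬝ᵥ (v - u) < 0
        · have := hmax u (by rw [hUdef, Finset.mem_filter, hWm]; exact ⟨hu, hc, hzu⟩)
          rw [div_le_iff₀ hc] at this
          linarith
        · have := mul_pos ht'0 hc
          linarith
    · push Not at hU
      refine ⟨0, le_rfl, fun u hu => ?_⟩
      rw [zero_mul, add_zero]
      rcases lt_trichotomy (c ⬝ᵥ (v - u)) 0 with hc | hc | hc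
      · apply h1 v hv u hu
        have e1 := hz u hu
        have := mul_nonpos_of_nonneg_of_nonpos ht0 hc.le
        linarith
      · apply h1 v hv u hu
        have e1 := hz u hu
        rw [hc, mul_zero, add_zero] at e1
        exact e1
      · exact hU u ((hWm u).2 hu) hc
  obtain ⟨t', ht'0, ht'⟩ := key
  refine ⟨t', ht'0, hv.1, fun x hx => ?_⟩
  obtain ⟨u, hu, hum⟩ := exists_maxAt hP ⟨v, hv.1⟩ (z' + t' • c)
  refine (hum.2 x hx).trans ?_
  have h := ht' u hu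
  rw [dotProduct_sub, dotProduct_sub] at h
  rw [add_dotProduct, add_dotProduct, smul_dotProduct, smul_dotProduct, smul_eq_mul, smul_eq_mul]
  linarith

/-! ### Cubes -/

/-- the grid points -/
noncomputable def gpt (Q : ℕ) (g : Fin n → Fin Q) : Fin n → ℝ := fun k => 1 + ((g k : ℕ) : ℝ) / Q

/-- the closed cubes -/
def cube (Q : ℕ) (g : Fin n → Fin Q) : Set (Fin n → ℝ) :=
  {μ | ∀ k, 1 + ((g k : ℕ) : ℝ) / Q ≤ μ k ∧ μ k ≤ 1 + (((g k : ℕ) : ℝ) + 1) / Q}

/-- the half open cubes -/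
def ocube (Q : ℕ) (g : Fin n → Fin Q) : Set (Fin n → ℝ) :=
  Set.pi univ fun k => Ico (1 + ((g k : ℕ) : ℝ) / Q) (1 + (((g k : ℕ) : ℝ) + 1) / Q)

theorem ocube_sub {Q : ℕ} {g : Fin n → Fin Q} : ocube Q g ⊆ cube Q g := by
  intro μ hμ k
  have := hμ k (mem_univ k)
  exact ⟨this.1, this.2.le⟩

theorem gpt_mem {Q : ℕ} {g : Fin n → Fin Q} : gpt Q g ∈ cube Q g := by
  intro k
  refine ⟨le_refl _, ?_⟩
  show 1 + ((g k : ℕ) : ℝ) / Q ≤ 1 + (((g k : ℕ) : ℝ) + 1) / Q
  have : ((g k : ℕ) : ℝ) / Q ≤ (((g k : ℕ) : ℝ) + 1) / Q :=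
    div_le_div_of_nonneg_right (by linarith) (Nat.cast_nonneg Q)
  linarith

theorem cube_sub {Q : ℕ} {g : Fin n → Fin Q} : cube Q g ⊆ box0 n := by
  intro μ hμ
  refine ⟨fun k => ?_, fun k => ?_⟩
  · have h1 := (hμ k).1
    have h2 : (0:ℝ) ≤ ((g k : ℕ) : ℝ) / Q := by positivity
    show (1:ℝ) ≤ μ k
    linarith
  · have h1 := (hμ k).2
    have hQ : 0 < Q := Fin.pos (g k)
    have hQ' : (0:ℝ) < Q := by exact_mod_cast hQ
    have h2 : (((g k : ℕ) : ℝ) + 1) / Q ≤ 1 := by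
      rw [div_le_one hQ']
      have : (g k : ℕ) + 1 ≤ Q := (g k).2
      exact_mod_cast this
    show μ k ≤ (2:ℝ)
    linarith

theorem volume_ocube {Q : ℕ} (g : Fin n → Fin Q) :
    volume (ocube Q g) = ENNReal.ofReal ((1 / (Q:ℝ)) ^ n) := by
  unfold ocube
  rw [Real.volume_pi_Ico]
  have h : ∀ k : Fin n, ENNReal.ofReal ((1 + (((g k : ℕ) : ℝ) + 1) / Q) -
      (1 + ((g k : ℕ) : ℝ) / Q)) = ENNReal.ofReal (1 / (Q:ℝ)) := by
    intro k
    congr 1
    rw [add_div]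
    ring
  rw [Finset.prod_congr rfl fun k _ => h k, Finset.prod_const, Finset.card_univ, Fintype.card_fin,
    ENNReal.ofReal_pow (by positivity)]

theorem ocube_disj {Q : ℕ} {g h : Fin n → Fin Q} (hgh : g ≠ h) :
    Disjoint (ocube Q g) (ocube Q h) := by
  rw [Set.disjoint_left]
  intro μ h1 h2
  apply hgh
  ext k
  have hQ : 0 < Q := Fin.pos (g k)
  have hQ' : (0:ℝ) < Q := by exact_mod_cast hQ
  have a1 := h1 k (mem_univ k)
  have a2 := h2 k (mem_univ k)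
  have b1 : ((g k : ℕ) : ℝ) / Q < (((h k : ℕ) : ℝ) + 1) / Q := by linarith [a1.1, a2.2]
  have b2 : ((h k : ℕ) : ℝ) / Q < (((g k : ℕ) : ℝ) + 1) / Q := by linarith [a2.1, a1.2]
  rw [div_lt_div_iff_of_pos_right hQ'] at b1 b2
  have c1 : (g k : ℕ) < (h k : ℕ) + 1 := by exact_mod_cast b1
  have c2 : (h k : ℕ) < (g k : ℕ) + 1 := by exact_mod_cast b2
  omega

/-- a cube is cut by a hyperplane -/
def Cut (Q : ℕ) (α : Fin n → ℝ) (g : Fin n → Fin Q) : Prop :=
  ∃ μ ∈ cube Q g, ∑ k, α k * μ k = 0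

open Classical in
/-- a hyperplane cuts few cubes -/
theorem card_cut {Q : ℕ} {α : Fin n → ℝ} (hα : ∃ k, α k ≠ 0) :
    (Finset.univ.filter (fun g : Fin n → Fin Q => Cut Q α g)).card ≤ (n + 1) * Q ^ (n - 1) := by
  obtain ⟨k0, hk0⟩ := hα
  obtain ⟨i, -, hmax⟩ := Finset.exists_max_image (Finset.univ : Finset (Fin n)) (fun k => |α k|)
    ⟨k0, Finset.mem_univ k0⟩
  have hαi : 0 < |α i| := lt_of_lt_of_le (abs_pos.2 hk0) (hmax k0 (Finset.mem_univ _))
  set s := Finset.univ.filter (fun g : Fin n → Fin Q => Cut Q α g) with hs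
  let f : (Fin n → Fin Q) → ({j : Fin n // j ≠ i} → Fin Q) := fun g j => g j
  have himg : (s.image f).card ≤ Q ^ (n - 1) := by
    refine (Finset.card_le_univ _).trans ?_
    rw [Fintype.card_fun, Fintype.card_fin]
    have : Fintype.card {j : Fin n // j ≠ i} = n - 1 := by
      rw [Fintype.card_subtype_compl, Fintype.card_fin, Fintype.card_subtype_eq]
    rw [this]
  refine (Finset.card_le_mul_card_image s (n + 1) ?_).trans (Nat.mul_le_mul_left _ himg)
  intro h _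
  set t := s.filter (fun x => f x = h) with ht
  -- two members of the fiber are close
  have hclose : ∀ g ∈ t, ∀ g' ∈ t, (g' i : ℕ) ≤ (g i : ℕ) + n := by
    intro g hg g' hg'
    rw [ht, Finset.mem_filter, hs, Finset.mem_filter] at hg hg'
    obtain ⟨⟨-, μ, hμ, hμ0⟩, hgf⟩ := hg
    obtain ⟨⟨-, μ', hμ', hμ'0⟩, hgf'⟩ := hg'
    by_contra hlt
    push Not at hlt
    have hQ : 0 < Q := Fin.pos (g i)
    have hQ' : (0:ℝ) < Q := by exact_mod_cast hQ
    have hsame : ∀ j, j ≠ i → g j = g' j := by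
      intro j hj
      have := congrFun (hgf.trans hgf'.symm) ⟨j, hj⟩
      exact this
    have h0 : ∑ k, α k * (μ' k - μ k) = 0 := by
      simp only [mul_sub, Finset.sum_sub_distrib, hμ0, hμ'0, sub_zero]
    rw [← Finset.add_sum_erase _ _ (Finset.mem_univ i)] at h0
    have h1 : |∑ k ∈ Finset.univ.erase i, α k * (μ' k - μ k)| ≤ (n - 1) * (|α i| / Q) := by
      refine (Finset.abs_sum_le_sum_abs _ _).trans ?_
      have h2 : ∀ k ∈ Finset.univ.erase i, |α k * (μ' k - μ k)| ≤ |α i| / Q := by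
        intro k hk
        have hki := (Finset.mem_erase.1 hk).1
        rw [abs_mul, div_eq_mul_one_div]
        refine mul_le_mul (hmax k (Finset.mem_univ _)) ?_ (abs_nonneg _) (abs_nonneg _)
        have e1 := hμ k
        have e2 := hμ' k
        rw [← hsame k hki] at e2
        rw [add_div] at e1 e2
        rw [abs_le]
        constructor <;> linarith [e1.1, e1.2, e2.1, e2.2]
      refine (Finset.sum_le_sum h2).trans ?_
      rw [Finset.sum_const, Finset.card_erase_of_mem (Finset.mem_univ i), Finset.card_univ,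
        Fintype.card_fin, nsmul_eq_mul, Nat.cast_sub (Fin.pos i), Nat.cast_one]
    have h3 : (((g' i : ℕ) : ℝ) - ((g i : ℕ) : ℝ) - 1) / Q ≤ μ' i - μ i := by
      have e1 := (hμ i).2
      have e2 := (hμ' i).1
      rw [sub_div, sub_div]
      rw [add_div] at e1
      linarith
    have h4 : (n:ℝ) ≤ ((g' i : ℕ) : ℝ) - ((g i : ℕ) : ℝ) - 1 := by
      have : (g i : ℕ) + n + 1 ≤ (g' i : ℕ) := hlt
      have : (((g i : ℕ) + n + 1 : ℕ) : ℝ) ≤ ((g' i : ℕ) : ℝ) := by exact_mod_cast this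
      push_cast at this
      linarith
    have h5 : (n:ℝ) / Q ≤ μ' i - μ i := (div_le_div_of_nonneg_right h4 hQ'.le).trans h3
    have h6 : |α i * (μ' i - μ i)| ≤ (n - 1) * (|α i| / Q) := by
      have : α i * (μ' i - μ i) = -∑ k ∈ Finset.univ.erase i, α k * (μ' k - μ k) := by linarith
      rw [this, abs_neg]
      exact h1
    have h7 : 0 ≤ μ' i - μ i := le_trans (by positivity) h5
    rw [abs_mul, abs_of_nonneg h7] at h6
    have h8 : |α i| * (n / Q) ≤ |α i| * (μ' i - μ i) := mul_le_mul_of_nonneg_left h5 hαi.le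
    have h9 : |α i| * (n / Q) - (n - 1) * (|α i| / Q) = |α i| / Q := by ring
    have h10 : 0 < |α i| / Q := by positivity
    linarith
  have hinj : Set.InjOn (fun g : Fin n → Fin Q => (g i : ℕ)) t := by
    intro g hg g' hg' hgg
    rw [Finset.mem_coe, ht, Finset.mem_filter] at hg hg'
    funext j
    by_cases hj : j = i
    · rw [hj]; exact Fin.ext hgg
    · exact congrFun (hg.2.trans hg'.2.symm) ⟨j, hj⟩
  rw [← Finset.card_image_of_injOn hinj]
  rcases t.eq_empty_or_nonempty with he | hne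
  · rw [he]; simp
  · obtain ⟨g0, hg0, hmin⟩ := Finset.exists_min_image t (fun g => (g i : ℕ)) hne
    have hsub : t.image (fun g : Fin n → Fin Q => (g i : ℕ)) ⊆
        Finset.Icc (g0 i : ℕ) ((g0 i : ℕ) + n) := by
      intro m hm
      rw [Finset.mem_image] at hm
      obtain ⟨g, hg, rfl⟩ := hm
      rw [Finset.mem_Icc]
      exact ⟨hmin g hg, hclose g0 hg0 g hg⟩
    refine (Finset.card_le_card hsub).trans ?_
    rw [Nat.card_Icc]
    omega

/-- the start objectives are linear -/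
theorem zz0_dot (μ p : Fin n → ℝ) : zz a B 0 μ ⬝ᵥ p = ∑ k, (a (B k) ⬝ᵥ p) * μ k := by
  rw [zz_dot]
  refine Finset.sum_congr rfl fun k _ => ?_
  rw [Pi.zero_apply, zero_add, mul_comm]

/-- in an uncut cube the sign is constant -/
theorem sign_const {Q : ℕ} {g : Fin n → Fin Q} {p : Fin n → ℝ}
    (h : p ≠ 0 → ¬ Cut Q (fun k => a (B k) ⬝ᵥ p) g) {μ μ' : Fin n → ℝ} (hμ : μ ∈ cube Q g)
    (hμ' : μ' ∈ cube Q g) (h0 : 0 ≤ zz a B 0 μ ⬝ᵥ p) : 0 ≤ zz a B 0 μ' ⬝ᵥ p := by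
  by_cases hp : p = 0
  · rw [hp, dotProduct_zero]
  have hcut := h hp
  by_contra hneg
  push Not at hneg
  apply hcut
  rw [zz0_dot] at h0 hneg
  set x := ∑ k, (a (B k) ⬝ᵥ p) * μ k with hx
  set y := ∑ k, (a (B k) ⬝ᵥ p) * μ' k with hy
  have hxy : 0 < x - y := by linarith
  set s := x / (x - y) with hs
  have hs0 : 0 ≤ s := div_nonneg h0 hxy.le
  have hs1 : s ≤ 1 := (div_le_one hxy).2 (by linarith)
  refine ⟨fun k => μ k + s * (μ' k - μ k), fun k => ?_, ?_⟩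
  · have e1 := hμ k
    have e2 := hμ' k
    constructor
    · nlinarith [e1.1, e2.1]
    · nlinarith [e1.2, e2.2]
  · have e : ∑ k, (a (B k) ⬝ᵥ p) * (μ k + s * (μ' k - μ k)) = x + s * (y - x) := by
      rw [hx, hy, ← Finset.sum_sub_distrib, Finset.mul_sum, ← Finset.sum_add_distrib]
      exact Finset.sum_congr rfl fun k _ => by ring
    show ∑ k, (a (B k) ⬝ᵥ p) * (μ k + s * (μ' k - μ k)) = 0
    rw [e, hs]
    field_simp
    ring

open Classical in
/-- **Few grid points are bad.** -/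
theorem grid_count [Fintype ι] (hP : IsCompact (Poly a b)) {κ : ℝ} (hκ : Bal a κ)
    (hB : LinearIndependent ℝ (fun k => a (B k))) (hne : (Poly a b).Nonempty)
    (c : Fin n → ℝ) {T Q V : ℕ} (hV : ((Poly a b).extremePoints ℝ).ncard ≤ V)
    (hT : 72 * (n:ℝ) ^ 4 * κ ^ 3 ≤ T) (hT1 : 1 ≤ T)
    (hQ : 4 * ((n + 1) * (V ^ 2 + V ^ 3)) ≤ Q) :
    2 * (Finset.univ.filter (fun g : Fin n → Fin Q =>
      T + 1 ≤ (Vis (Poly a b) c (zz a B 0 (gpt Q g))).ncard)).card ≤ Q ^ n := by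
  rcases Nat.eq_zero_or_pos n with hn | hn
  · subst hn
    have : (Finset.univ.filter (fun g : Fin 0 → Fin Q =>
        T + 1 ≤ (Vis (Poly a b) c (zz a B 0 (gpt Q g))).ncard)) = ∅ := by
      rw [Finset.filter_eq_empty_iff]
      intro g _
      have h1 : (Vis (Poly a b) c (zz a B 0 (gpt Q g))).ncard ≤ 1 := by
        rw [Set.ncard_le_one (vis_finite c _)]
        intro x _ y _
        exact Subsingleton.elim x y
      omega
    rw [this]
    simp
  set W := (ext_finite (a := a) (b := b)).toFinset with hW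
  have hWm : ∀ u, u ∈ W ↔ u ∈ (Poly a b).extremePoints ℝ := fun u => Set.Finite.mem_toFinset _
  have hWc : W.card ≤ V := by
    rw [← Set.ncard_eq_toFinset_card _ (ext_finite (a := a) (b := b))]
    exact hV
  -- the forms
  set F : Finset (Fin n → ℝ) := ((W ×ˢ W).image fun p => p.1 - p.2) ∪
    ((W ×ˢ (W ×ˢ W)).image fun p => (c ⬝ᵥ (p.2.2 - p.1)) • (p.2.1 - p.1) -
      (c ⬝ᵥ (p.2.1 - p.1)) • (p.2.2 - p.1)) with hF
  have hFc : F.card ≤ V ^ 2 + V ^ 3 := by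
    refine (Finset.card_union_le _ _).trans (Nat.add_le_add ?_ ?_)
    · refine Finset.card_image_le.trans ?_
      rw [Finset.card_product, pow_two]
      exact Nat.mul_le_mul hWc hWc
    · refine Finset.card_image_le.trans ?_
      rw [Finset.card_product, Finset.card_product]
      have : V ^ 3 = V * (V * V) := by ring
      rw [this]
      exact Nat.mul_le_mul hWc (Nat.mul_le_mul hWc hWc)
  have hF1 : ∀ v ∈ (Poly a b).extremePoints ℝ, ∀ w ∈ (Poly a b).extremePoints ℝ, v - w ∈ F := by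
    intro v hv w hw
    rw [hF, Finset.mem_union]
    left
    exact Finset.mem_image.2 ⟨(v, w), Finset.mem_product.2 ⟨(hWm v).2 hv, (hWm w).2 hw⟩, rfl⟩
  have hF2 : ∀ u ∈ (Poly a b).extremePoints ℝ, ∀ v ∈ (Poly a b).extremePoints ℝ,
      ∀ w ∈ (Poly a b).extremePoints ℝ,
      (c ⬝ᵥ (w - u)) • (v - u) - (c ⬝ᵥ (v - u)) • (w - u) ∈ F := by
    intro u hu v hv w hw
    rw [hF, Finset.mem_union]
    right
    exact Finset.mem_image.2 ⟨(u, v, w), Finset.mem_product.2 ⟨(hWm u).2 hu,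
      Finset.mem_product.2 ⟨(hWm v).2 hv, (hWm w).2 hw⟩⟩, rfl⟩
  -- the cut cubes
  set G1 := (F.filter (fun p => p ≠ 0)).biUnion fun p =>
    Finset.univ.filter (fun g : Fin n → Fin Q => Cut Q (fun k => a (B k) ⬝ᵥ p) g) with hG1
  have hG1c : G1.card ≤ (V ^ 2 + V ^ 3) * ((n + 1) * Q ^ (n - 1)) := by
    refine (Finset.card_biUnion_le_card_mul _ _ ((n + 1) * Q ^ (n - 1)) ?_).trans
      (Nat.mul_le_mul_right _ ((Finset.card_filter_le _ _).trans hFc))
    intro p hp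
    apply card_cut
    by_contra hcon
    push Not at hcon
    exact (Finset.mem_filter.1 hp).2 (eq_zero_of_basis hB hcon)
  -- the bad uncut cubes
  set bad : Set (Fin n → ℝ) := {μ : Fin n → ℝ | μ ∈ box0 n ∧
        T + 1 ≤ (Vis (Poly a b) c (zz a B 0 μ)).ncard} with hbad
  set G := Finset.univ.filter (fun g : Fin n → Fin Q =>
      T + 1 ≤ (Vis (Poly a b) c (zz a B 0 (gpt Q g))).ncard) with hG
  set G2 := G \ G1 with hG2
  have hsub : ∀ g ∈ G2, ocube Q g ⊆ bad := by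
    intro g hg μ hμ
    rw [hG2, Finset.mem_sdiff, hG, Finset.mem_filter] at hg
    obtain ⟨⟨-, hg1⟩, hg2⟩ := hg
    have hunc : ∀ p ∈ F, p ≠ 0 → ¬ Cut Q (fun k => a (B k) ⬝ᵥ p) g := by
      intro p hp hp0 hcut
      apply hg2
      rw [hG1, Finset.mem_biUnion]
      exact ⟨p, Finset.mem_filter.2 ⟨hp, hp0⟩, Finset.mem_filter.2 ⟨Finset.mem_univ _, hcut⟩⟩
    refine ⟨cube_sub (ocube_sub hμ), hg1.trans ?_⟩
    refine Set.ncard_le_ncard (vis_mono hP (fun v hv w hw h => ?_) fun u hu v hv w hw h => ?_)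
      (vis_finite c _)
    · exact sign_const (hunc _ (hF1 v hv w hw)) gpt_mem (ocube_sub hμ) h
    · exact sign_const (hunc _ (hF2 u hu v hv w hw)) gpt_mem (ocube_sub hμ) h
  have hvol : (G2.card : ℝ≥0∞) * ENNReal.ofReal ((1 / (Q:ℝ)) ^ n) ≤ volume bad := by
    have h1 : volume (⋃ g ∈ G2, ocube Q g) = ∑ g ∈ G2, volume (ocube Q g) := by
      apply measure_biUnion_finset
      · intro g _ h _ hgh
        exact ocube_disj hgh
      · intro g _
        exact MeasurableSet.univ_pi fun k => measurableSet_Ico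
    have h2 : ∑ g ∈ G2, volume (ocube Q g) =
        (G2.card : ℝ≥0∞) * ENNReal.ofReal ((1 / (Q:ℝ)) ^ n) := by
      rw [Finset.sum_congr rfl fun g _ => volume_ocube g, Finset.sum_const, nsmul_eq_mul]
    rw [← h2, ← h1]
    exact measure_mono (iUnion₂_subset hsub)
  have hvis := vis_volume hP hκ hB hne c T
  rw [← hbad] at hvis
  have hT0 : (0:ℝ) < T := by exact_mod_cast hT1
  have hQ0 : 0 < Q := by
    have hV0 : 0 < V := by
      obtain ⟨w, hw, -⟩ := exists_maxAt hP hne c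
      refine lt_of_lt_of_le ?_ hV
      exact (Set.ncard_pos (ext_finite (a := a) (b := b))).2 ⟨w, hw⟩
    refine lt_of_lt_of_le ?_ hQ
    positivity
  have hQR : (0:ℝ) < Q := by exact_mod_cast hQ0
  have hreal : (T:ℝ) * (G2.card * (1 / (Q:ℝ)) ^ n) ≤ 18 * (n:ℝ) ^ 4 * κ ^ 3 := by
    have h1 : (T : ℝ≥0∞) * ((G2.card : ℝ≥0∞) * ENNReal.ofReal ((1 / (Q:ℝ)) ^ n)) ≤
        ENNReal.ofReal (18 * (n:ℝ) ^ 4 * κ ^ 3) := (mul_le_mul' le_rfl hvol).trans hvis
    have h2 : (T : ℝ≥0∞) * ((G2.card : ℝ≥0∞) * ENNReal.ofReal ((1 / (Q:ℝ)) ^ n)) =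
        ENNReal.ofReal ((T:ℝ) * (G2.card * (1 / (Q:ℝ)) ^ n)) := by
      rw [ENNReal.ofReal_mul (Nat.cast_nonneg T), ENNReal.ofReal_mul (Nat.cast_nonneg _),
        ENNReal.ofReal_natCast, ENNReal.ofReal_natCast]
    rw [h2] at h1
    have hpos : 0 ≤ 18 * (n:ℝ) ^ 4 * κ ^ 3 := by
      by_contra hneg
      push Not at hneg
      obtain ⟨w, hw, hmax⟩ := exists_maxAt hP hne c
      have hκ1 : 1 ≤ κ := one_le_kappa hκ hB ⟨0, hn⟩
      have : 0 ≤ 18 * (n:ℝ) ^ 4 * κ ^ 3 := by positivity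
      linarith
    rwa [ENNReal.ofReal_le_ofReal_iff hpos] at h1
  have hG2c : 4 * G2.card ≤ Q ^ n := by
    have h1 : (T:ℝ) * (4 * G2.card) ≤ T * (Q:ℝ) ^ n := by
      have h2 : (T:ℝ) * (G2.card * (1 / (Q:ℝ)) ^ n) * (4 * (Q:ℝ) ^ n) ≤
          18 * (n:ℝ) ^ 4 * κ ^ 3 * (4 * (Q:ℝ) ^ n) :=
        mul_le_mul_of_nonneg_right hreal (by positivity)
      have h3 : (T:ℝ) * (G2.card * (1 / (Q:ℝ)) ^ n) * (4 * (Q:ℝ) ^ n) = T * (4 * G2.card) := by
        rw [div_pow, one_pow]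
        field_simp
      have h4 : 18 * (n:ℝ) ^ 4 * κ ^ 3 * (4 * (Q:ℝ) ^ n) ≤ T * (Q:ℝ) ^ n := by
        have : 18 * (n:ℝ) ^ 4 * κ ^ 3 * (4 * (Q:ℝ) ^ n) =
            (72 * (n:ℝ) ^ 4 * κ ^ 3) * (Q:ℝ) ^ n := by ring
        rw [this]
        exact mul_le_mul_of_nonneg_right hT (by positivity)
      linarith
    have h5 := le_of_mul_le_mul_left h1 hT0
    exact_mod_cast h5
  have hG1c' : 4 * G1.card ≤ Q ^ n := by
    calc 4 * G1.card ≤ 4 * ((V ^ 2 + V ^ 3) * ((n + 1) * Q ^ (n - 1))) :=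
          Nat.mul_le_mul_left _ hG1c
      _ = (4 * ((n + 1) * (V ^ 2 + V ^ 3))) * Q ^ (n - 1) := by ring
      _ ≤ Q * Q ^ (n - 1) := Nat.mul_le_mul_right _ hQ
      _ = Q ^ n := by
          rw [← pow_succ']
          congr 1
          omega
  have hGle : G.card ≤ G1.card + G2.card := by
    have : G ⊆ G1 ∪ G2 := by
      intro g hg
      by_cases h : g ∈ G1
      · exact Finset.mem_union_left _ h
      · exact Finset.mem_union_right _ (Finset.mem_sdiff.2 ⟨hg, h⟩)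
    exact (Finset.card_le_card this).trans (Finset.card_union_le _ _)
  omega

end Pool.Agent.N477.RS
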