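import Pool.Agent.N477.RS3
import Pool.Agent.N477.MD8

set_option autoImplicit false

/-!
# Few grid points are bad, for linear programs `A x ≤ b`, `x ≥ 0`
-/

namespace Pool.Agent.N477.RS

open Matrix Set Filter Topology
open Pool.Agent.N477.MD

variable {m n : ℕ}

/-- the rows of the system `A x ≤ b`, `-x ≤ 0` -/
def arow (A : Fin m → Fin n → ℝ) : Fin m ⊕ Fin n → Fin n → ℝ :=
  Sum.elim A (fun j => -Pi.single j 1)

/-- the right hand sides -/
def arhs (b : Fin m → ℝ) : Fin m ⊕ Fin n → ℝ := Sum.elim b (fun _ => 0)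

theorem arow_eq (A : Fin m → Fin n → ℝ) :
    arow A = rowsP (fun _ => 1) (fun _ => 1) (Matrix.of A) := by
  funext p
  rcases p with i | j
  · show A i = (1:ℝ) • (Matrix.of A) i
    rw [one_smul]; rfl
  · rfl

theorem arhs_eq (b : Fin m → ℝ) : (arhs b : Fin m ⊕ Fin n → ℝ) = rhsP (fun _ => 1) b := by
  funext p
  rcases p with i | j
  · show b i = (1:ℝ) * b i
    rw [one_mul]
  · rfl

theorem mem_arow {A : Fin m → Fin n → ℝ} {b : Fin m → ℝ} {x : Fin n → ℝ} :
    x ∈ Poly (arow A) (arhs b) ↔ (∀ i, ∑ j, A i j * x j ≤ b i) ∧ ∀ j, 0 ≤ x j := by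
  rw [arow_eq, arhs_eq]
  exact mem_polyP (fun _ => one_pos) (fun _ => one_pos)

/-- the number of vertices -/
theorem ncard_ext_le {ι : Type*} [Fintype ι] {a : ι → Fin n → ℝ} {b : ι → ℝ} :
    ((Poly a b).extremePoints ℝ).ncard ≤ 2 ^ Fintype.card ι := by
  classical
  have hinj : Set.InjOn (tight a b) ((Poly a b).extremePoints ℝ) := by
    intro v hv w hw hvw
    have h0 : v - w = 0 := by
      apply ext_pointed hv
      intro j hj
      have h1 : a j ⬝ᵥ v = b j := hj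
      have h2 : j ∈ tight a b w := by rw [← hvw]; exact hj
      have h3 : a j ⬝ᵥ w = b j := h2
      rw [dotProduct_sub, h1, h3, sub_self]
    exact sub_eq_zero.1 h0
  have h := Set.ncard_le_ncard_of_injOn (t := (Set.univ : Set (Set ι))) (tight a b)
    (fun _ _ => Set.mem_univ _) hinj (Set.toFinite _)
  refine h.trans ?_
  rw [Set.ncard_univ, Nat.card_eq_fintype_card, Fintype.card_set]

open Classical in
/-- **Few grid points are bad.** -/
theorem grid_lp (A : Fin m → Fin n → ℝ) (b : Fin m → ℝ) {κ : ℝ} (hκ : Bal (arow A) κ)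
    {B : Fin n → Fin m ⊕ Fin n} (hB : LinearIndependent ℝ (fun k => arow A (B k)))
    (hne : (Poly (arow A) (arhs b)).Nonempty)
    (c : Fin n → ℝ) {T Q : ℕ}
    (hT : 72 * (n:ℝ) ^ 4 * κ ^ 3 ≤ T) (hT1 : 1 ≤ T)
    (hQ : 4 * ((n + 1) * ((2 ^ (m + n + n)) ^ 2 + (2 ^ (m + n + n)) ^ 3)) ≤ Q) :
    2 * (Finset.univ.filter (fun g : Fin n → Fin Q =>
      T + 1 ≤ (Vis (Poly (arow A) (arhs b)) c (zz (arow A) B 0 (gpt Q g))).ncard)).card ≤
        Q ^ n := by
  obtain ⟨C, hC⟩ := (ext_finite (a := arow A) (b := arhs b)).isBounded.exists_norm_le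
  obtain ⟨x0, hx0⟩ := hne
  set M : ℝ := max C ‖x0‖ + 1 with hMdef
  have hM : ∀ x ∈ (Poly (arow A) (arhs b)).extremePoints ℝ, ∀ j, x j < M := by
    intro x hx j
    have h1 : |x j| ≤ ‖x‖ := norm_le_pi_norm x j
    have h2 := hC x hx
    have h3 := le_abs_self (x j)
    have h4 := le_max_left C ‖x0‖
    linarith
  have hσ : ∀ j : Fin n, (0:ℝ) < (fun _ => (1:ℝ)) j := fun _ => one_pos
  have hcomp : IsCompact (Poly (rowsT (arow A) (fun _ => 1)) (rhsT (arhs b) (fun _ => 1) M)) := by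
    apply IsCompact.of_isClosed_subset (isCompact_Icc (a := (fun _ : Fin n => (0:ℝ)))
      (b := fun _ => M)) isClosed_poly
    intro x hx
    have h1 := (mem_polyT hσ).1 hx
    have h2 := mem_arow.1 h1.1
    exact ⟨fun j => h2.2 j, fun j => h1.2 j⟩
  have hbal : Bal (rowsT (arow A) (fun _ => 1)) κ := by
    refine bal_of_signs hκ (Sum.elim id Sum.inr)
      (Sum.elim (Sum.elim (fun _ => 1) (fun _ => 1)) (fun _ => -1)) ?_ ?_
    · rintro ((i | j) | j) <;> simp
    · rintro ((i | j) | j) <;> simp [rowsT, arow]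
  have hneT : (Poly (rowsT (arow A) (fun _ => 1)) (rhsT (arhs b) (fun _ => 1) M)).Nonempty := by
    refine ⟨x0, (mem_polyT hσ).2 ⟨hx0, fun j => ?_⟩⟩
    have h1 : |x0 j| ≤ ‖x0‖ := norm_le_pi_norm x0 j
    have h3 := le_abs_self (x0 j)
    have h4 := le_max_right C ‖x0‖
    linarith
  have hgc := grid_count (B := fun k => Sum.inl (B k)) hcomp hbal hB hneT c
    (V := 2 ^ (m + n + n)) (by
      refine ncard_ext_le.trans (le_of_eq ?_)
      rw [Fintype.card_sum, Fintype.card_sum, Fintype.card_fin, Fintype.card_fin]) hT hT1 hQ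
  refine le_trans (Nat.mul_le_mul_left _ (Finset.card_le_card ?_)) hgc
  intro g hg
  rw [Finset.mem_filter] at hg ⊢
  refine ⟨Finset.mem_univ _, hg.2.trans ?_⟩
  refine Set.ncard_le_ncard ?_ (vis_finite c _)
  rintro v ⟨hv, t, ht0, ht⟩
  refine ⟨trunc_of_ext hσ (fun j => (hM v hv j).le) hv, t, ht0,
    (mem_polyT hσ).2 ⟨hv.1, fun j => (hM v hv j).le⟩, fun x hx => ?_⟩
  exact ht.2 x ((mem_polyT hσ).1 hx).1

end Pool.Agent.N477.RS
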