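import Pool.Agent.Y644.QW.Opt

set_option autoImplicit false

/-!
# One step of the random shadow vertex rule
-/

namespace Pool.Agent.N477.RS

open scoped InnerProductSpace
open Pool.Agent.Y644.QS Pool.Agent.Y644.QW Pool.Agent.H687R2.LLL Pool.Agent.NPC

/-- the row with last entry zero -/
def zl (r : List ℤ) : List ℤ := comb 1 r (dot (tau r) r) (tau r)

/-- the equation `c x = τ` -/
def eqr (c : List ℤ) : List ℤ := comb 1 (zl c) 1 (tau c)

/-- the inequalities for the directions -/
def dirJ (c : List ℤ) (J : List (List ℤ)) (u : List ℤ) : List (List ℤ) :=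
  negV (tau c) :: (tight J u).map zl

/-- the direction `d` with `c d > 0` which maximises `p d / c d` -/
def dirV (p c : List ℤ) (J : List (List ℤ)) (u : List ℤ) : List ℤ :=
  optw p [eqr c] (dirJ c J u)

/-- the next vertex -/
def nxt (p c : List ℤ) (J : List (List ℤ)) (u : List ℤ) : Option (List ℤ) :=
  (improve c [] J u).map fun w =>
    if 0 < dot (tau c) (dirV p c J u) then normV c [] J (other J u (zl (dirV p c J u))) else w

theorem tau_eq {c r : List ℤ} (h : r.length = c.length) : tau r = tau c := by
  unfold tau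
  rw [h]

theorem length_zl (r : List ℤ) : (zl r).length = r.length :=
  length_comb rfl (length_tau r) _ _

theorem length_eqr (c : List ℤ) : (eqr c).length = c.length :=
  length_comb (length_zl c) (length_tau c) _ _

/-- the last unit vector -/
noncomputable def ev (c : List ℤ) : EuclideanSpace ℝ (Fin c.length) := lv c.length (tau c)

/-- the projection to `τ = 0` -/
noncomputable def pj (c : List ℤ) (x : EuclideanSpace ℝ (Fin c.length)) :
    EuclideanSpace ℝ (Fin c.length) := x - rf c.length (tau c) x • ev c

theorem tau_ev {c : List ℤ} (hc : 0 < c.length) : rf c.length (tau c) (ev c) = 1 := by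
  unfold ev tau
  rw [rf_unitV (show c.length - 1 < c.length by omega)]
  rw [lv_apply, getD_unitV (by omega)]
  simp

theorem tau_pj {c : List ℤ} (hc : 0 < c.length) (x : EuclideanSpace ℝ (Fin c.length)) :
    rf c.length (tau c) (pj c x) = 0 := by
  unfold pj
  rw [map_sub, map_smul, tau_ev hc, smul_eq_mul, mul_one, sub_self]

theorem rf_ev {c r : List ℤ} (hr : r.length = c.length) :
    rf c.length r (ev c) = ((dot (tau c) r : ℤ) : ℝ) := by
  unfold ev
  rw [rf_apply, real_inner_comm, ← rf_apply, rf_dot (length_tau c) hr]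

theorem rf_zl {c r : List ℤ} (hr : r.length = c.length)
    (x : EuclideanSpace ℝ (Fin c.length)) :
    rf c.length (zl r) x = rf c.length r (pj c x) := by
  unfold zl
  rw [tau_eq hr, rf_comb hr (length_tau c)]
  unfold pj
  rw [map_sub, map_smul, rf_ev hr, smul_eq_mul]
  push_cast
  ring

theorem lv_zl {c h : List ℤ} (hh : h.length = c.length) :
    lv c.length (zl h) = pj c (lv c.length h) := by
  unfold zl pj ev
  rw [tau_eq hh, lv_comb hh (length_tau c), rf_dot (length_tau c) hh]
  simp

theorem rf_eqr {c : List ℤ} (x : EuclideanSpace ℝ (Fin c.length)) :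
    rf c.length (eqr c) x = rf c.length c (pj c x) - rf c.length (tau c) x := by
  unfold eqr
  rw [rf_comb (length_zl c) (length_tau c), rf_zl rfl]
  push_cast
  ring

variable {p c : List ℤ} {J : List (List ℤ)} {u : List ℤ}

theorem len_dirJ (hJ : Len c.length J) : Len c.length (dirJ c J u) := by
  refine Len.cons ?_ (length_negV (length_tau c))
  intro r hr
  rw [List.mem_map] at hr
  obtain ⟨q, hq, rfl⟩ := hr
  rw [length_zl]
  exact hJ.tight u q hq

theorem mem_dirJ (hJ : Len c.length J) (hu : u.length = c.length) {q : List ℤ} (hq : q ∈ J)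
    (h0 : rf c.length q (lv c.length u) = 0) : zl q ∈ dirJ c J u := by
  refine List.mem_cons_of_mem _ (List.mem_map.2 ⟨q, ?_, rfl⟩)
  exact (mem_tight hJ hu).2 ⟨hq, h0⟩

/-- extreme rays of the direction cone with `τ > 0` are edge directions -/
theorem adj_of_ext (hc : 0 < c.length) (hJ : Len c.length J) (hu : u.length = c.length)
    (hτ : 0 < rf c.length (tau c) (lv c.length u)) {h : EuclideanSpace ℝ (Fin c.length)}
    (hext : Ext (rf c.length) [eqr c] (dirJ c J u) h) (ht : 0 < rf c.length (tau c) h) :
    Adj (rf c.length) [] J (lv c.length u) (pj c h) := by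
  intro x _ h2
  set s := rf c.length (tau c) x / rf c.length (tau c) (lv c.length u) with hs
  set x' := x - s • lv c.length u with hx'
  have hτx' : rf c.length (tau c) x' = 0 := by
    rw [hx', map_sub, map_smul, smul_eq_mul, hs, div_mul_cancel₀ _ hτ.ne', sub_self]
  set y := x' + (rf c.length c x') • ev c with hy
  have hτy : rf c.length (tau c) y = rf c.length c x' := by
    rw [hy, map_add, map_smul, tau_ev hc, hτx', smul_eq_mul]; ring
  have hpy : pj c y = x' := by
    unfold pj
    rw [hτy, hy, add_sub_cancel_right]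
  obtain ⟨k, hk⟩ := hext.ker y (by
    intro r hr
    rw [List.mem_singleton] at hr
    subst hr
    rw [rf_eqr, hpy, hτy, sub_self]) (by
    intro r hr h0
    rcases List.mem_cons.1 hr with rfl | hr
    · rw [rf_negV] at h0
      linarith
    · rw [List.mem_map] at hr
      obtain ⟨q, hq, rfl⟩ := hr
      obtain ⟨hqJ, hqu⟩ := (mem_tight hJ hu).1 hq
      have hql := hJ q hqJ
      rw [rf_zl hql] at h0 ⊢
      rw [hpy, hx', map_sub, map_smul, hqu, smul_zero, sub_zero]
      exact h2 q hqJ hqu h0)
  refine ⟨s, k, ?_⟩
  have h3 : x' = k • pj c h := by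
    rw [← hpy, hk]
    unfold pj
    rw [map_smul, smul_sub, smul_smul, smul_eq_mul]
  rw [← h3, hx']
  abel

/-- **Every step is an improving edge**, whatever `p` is. -/
theorem nxt_step (hc : 0 < c.length) (hJ : Len c.length J)
    (hu : u.length = c.length)
    (hτJ : negV (tau c) ∈ J) (hext : Ext (rf c.length) [] J (lv c.length u))
    (hτ : 0 < rf c.length (tau c) (lv c.length u)) {w : List ℤ} (h : nxt p c J u = some w)
    (hdl : (dirV p c J u).length = c.length)
    (hdir : 0 < rf c.length (tau c) (lv c.length (dirV p c J u)) →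
      Ext (rf c.length) [eqr c] (dirJ c J u) (lv c.length (dirV p c J u))) :
    Step c [] J u w := by
  unfold nxt at h
  rw [Option.map_eq_some_iff] at h
  obtain ⟨w0, hw0, hw⟩ := h
  have hstep := improve_some (fun r hr => by simp at hr) hJ hu hτJ hext hτ hw0
  split_ifs at hw with hpos
  · set d := dirV p c J u with hd
    have ht : 0 < rf c.length (tau c) (lv c.length d) := by
      rw [rf_dot (length_tau c) hdl]
      exact_mod_cast hpos
    have hE := hdir ht
    have hadj := adj_of_ext hc hJ hu hτ hE ht
    rw [← lv_zl hdl] at hadj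
    have hzl : (zl d).length = c.length := by rw [length_zl]; exact hdl
    have hcd : rf c.length c (lv c.length (zl d)) = rf c.length (tau c) (lv c.length d) := by
      have := hE.mem.1 (eqr c) (by simp)
      rw [rf_eqr] at this
      rw [lv_zl hdl]
      linarith
    have hτd : rf c.length (tau c) (lv c.length (zl d)) = 0 := by
      rw [lv_zl hdl, tau_pj hc]
    have hup : Up (rf c.length (tau c)) (rf c.length c) (lv c.length u) (lv c.length (zl d)) := by
      unfold Up
      rw [hτd, hcd, mul_zero]
      exact mul_pos ht hτ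
    have hxT : ∀ q ∈ J, rf c.length q (lv c.length u) = 0 →
        rf c.length q (lv c.length (zl d)) ≤ 0 := by
      intro q hq h0
      have := hE.mem.2 (zl q) (mem_dirJ hJ hu hq h0)
      rw [rf_zl (hJ q hq)] at this
      rw [lv_zl hdl]
      exact this
    have hex : ∃ r ∈ J, rf c.length r (lv c.length u) < 0 :=
      ⟨_, hτJ, by rw [rf_negV]; linarith⟩
    obtain ⟨o1, r, hr, hrv, o2, o3⟩ := other_spec hJ hu hzl hext.mem hxT hex
    obtain ⟨b1, b2⟩ := blocked_ext hext.mem.1 (fun r hr => by simp at hr) hup.not_smul hadj hr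
      hrv o3
    have b3 := blocked_up (b := rf c.length r (lv c.length (zl d))) (neg_pos.2 hrv) hup
    rw [← o2] at b1 b2 b3
    obtain ⟨n1, s, hs, n2⟩ := normV_spec (fun r hr => by simp at hr) hJ o1 b1
      (pos_or hτJ b1.mem b3 hτ).2
    rw [hw] at n1 n2
    exact ⟨n1, hτ, by rw [n2]; exact b1.smul hs, by rw [n2]; exact b2.smul_right hs.ne',
      by rw [n2]; exact b3.smul_right hs⟩
  · rw [← hw]
    exact hstep

/-- an integer representative of a real vertex -/
theorem exists_vx {c : List ℤ} {E J : List (List ℤ)} (hE : Len c.length E) (hJ : Len c.length J)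
    {w : EuclideanSpace ℝ (Fin c.length)} (hw : Ext (rf c.length) E J w)
    (hτ : 0 < rf c.length (tau c) w) : ∃ v, Vx c E J v := by
  classical
  obtain ⟨D, hD, -, h1, h2, s, hs, h3⟩ := proj_ext (T := J.filter fun r => rf c.length r w = 0)
    hE hJ (length_tau c) (fun r => by rw [List.mem_filter, decide_eq_true_iff]) hw hτ
  refine ⟨_, h1, ?_, ?_⟩
  · rw [h3]; exact hw.smul hs
  · rw [h3, map_smul, smul_eq_mul]; exact mul_pos hs hτ

/-- the direction cone has a vertex, if there is an improving direction -/
theorem dir_vx (hc : 0 < c.length) (hp : p.length = c.length) (hJ : Len c.length J)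
    (hu : u.length = c.length) (hext : Ext (rf c.length) [] J (lv c.length u))
    (hτ : 0 < rf c.length (tau c) (lv c.length u)) {w : List ℤ}
    (h : improve c [] J u = some w) : ∃ v, Vx p [eqr c] (dirJ c J u) v := by
  have hf : feas c [] (tight J u) (gain c u) = true := by
    unfold improve at h
    split_ifs at h with hf
    exact hf
  rw [feas_iff (fun r hr => by simp at hr) (hJ.tight _) (length_gain c u)] at hf
  obtain ⟨x, hx, hpos⟩ := hf
  rw [rf_gain hu] at hpos
  set s := rf c.length (tau c) x / rf c.length (tau c) (lv c.length u) with hs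
  set g := x - s • lv c.length u with hg
  have hτg : rf c.length (tau c) g = 0 := by
    rw [hg, map_sub, map_smul, smul_eq_mul, hs, div_mul_cancel₀ _ hτ.ne', sub_self]
  have hcg : 0 < rf c.length c g := by
    rw [hg, map_sub, map_smul, smul_eq_mul, hs, sub_pos, div_mul_eq_mul_div, div_lt_iff₀ hτ]
    linarith
  set y := g + (rf c.length c g) • ev c with hy
  have hτy : rf c.length (tau c) y = rf c.length c g := by
    rw [hy, map_add, map_smul, tau_ev hc, hτg, smul_eq_mul]; ring
  have hpy : pj c y = g := by
    unfold pj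
    rw [hτy, hy, add_sub_cancel_right]
  have hyC : InC (rf c.length) [eqr c] (dirJ c J u) y := by
    refine ⟨fun r hr => ?_, fun r hr => ?_⟩
    · rw [List.mem_singleton] at hr
      subst hr
      rw [rf_eqr, hpy, hτy, sub_self]
    · rcases List.mem_cons.1 hr with rfl | hr
      · rw [rf_negV, hτy]
        linarith
      · rw [List.mem_map] at hr
        obtain ⟨q, hq, rfl⟩ := hr
        obtain ⟨hqJ, hqu⟩ := (mem_tight hJ hu).1 hq
        rw [rf_zl (hJ q hqJ), hpy, hg, map_sub, map_smul, hqu, smul_zero, sub_zero]
        exact hx.2 q hq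
  obtain ⟨z, hz1, hz2⟩ := exists_ext (φ := rf c.length) (E := [eqr c]) (J := dirJ c J u)
    (g := rf c.length (tau c)) (by
      intro y y1 y2
      have h1 := y2 (negV (tau c)) (by unfold dirJ; simp)
      rw [rf_negV, neg_eq_zero] at h1
      have h2 : pj c y = y := by
        unfold pj
        rw [h1, zero_smul, sub_zero]
      obtain ⟨k, hk⟩ := hext.ker y (fun r hr => by simp at hr) (by
        intro q hq h0
        have := y2 (zl q) (mem_dirJ hJ hu hq h0)
        rw [rf_zl (hJ q hq), h2] at this
        exact this)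
      rw [hk, map_smul, smul_eq_mul] at h1
      rcases mul_eq_zero.1 h1 with h3 | h3
      · rw [hk, h3, zero_smul]
      · exact absurd h3 hτ.ne') hyC (by rw [hτy]; exact hcg)
  have hE : Len c.length [eqr c] := by
    intro r hr
    rw [List.mem_singleton] at hr
    rw [hr, length_eqr]
  have key : ∀ (N : ℕ) (hN : N = c.length), ∃ v, Vx p [eqr c] (dirJ c J u) v := by
    intro N hN
    obtain ⟨v, hv⟩ := exists_vx hE (len_dirJ hJ) hz1 hz2
    refine ⟨v, by rw [hv.len, hp], ?_, ?_⟩
    · rw [hp]; exact hv.ext
    · rw [tau_eq hp, hp]; exact hv.pos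
  exact key _ rfl

end Pool.Agent.N477.RS
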