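import Pool.Agent.N477.RS5

set_option autoImplicit false

/-!
# The random shadow vertex rule visits vertices which are optimal for `p + s c`
-/

namespace Pool.Agent.N477.RS

open scoped InnerProductSpace
open Pool.Agent.Y644.QS Pool.Agent.Y644.QW Pool.Agent.H687R2.LLL Pool.Agent.NPC

variable {p c : List ℤ} {J : List (List ℤ)} {u : List ℤ}

/-- `x` is optimal for `p + s c` -/
def VisH (p c : List ℤ) (J : List (List ℤ)) (x : EuclideanSpace ℝ (Fin c.length)) (s : ℝ) :
    Prop :=
  ∀ h, InC (rf c.length) [] J h →
    (rf c.length p h + s * rf c.length c h) * rf c.length (tau c) x ≤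
      (rf c.length p x + s * rf c.length c x) * rf c.length (tau c) h

/-- the specification of the direction -/
theorem dir_spec (hc : 0 < c.length) (hp : p.length = c.length) (hJ : Len c.length J)
    (hv : ∃ v, Vx p [eqr c] (dirJ c J u) v) :
    (dirV p c J u).length = c.length ∧
      Ext (rf c.length) [eqr c] (dirJ c J u) (lv c.length (dirV p c J u)) ∧
      (∀ h, InC (rf c.length) [eqr c] (dirJ c J u) h →
        rf c.length p h * rf c.length (tau c) (lv c.length (dirV p c J u)) ≤
          rf c.length p (lv c.length (dirV p c J u)) * rf c.length (tau c) h) ∧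
      (0 < rf c.length (tau c) (lv c.length (dirV p c J u)) ∨
        (rf c.length (tau c) (lv c.length (dirV p c J u)) = 0 ∧
          0 < rf c.length p (lv c.length (dirV p c J u)))) := by
  obtain ⟨v, hv⟩ := hv
  have hE : Len c.length [eqr c] := by
    intro r hr
    rw [List.mem_singleton] at hr
    rw [hr, length_eqr]
  have h := optw_spec (c := p) (E := [eqr c]) (J := dirJ c J u) (by rw [hp]; exact hc)
    (by rw [hp]; exact hE) (by rw [hp]; exact len_dirJ hJ)
    (by rw [tau_eq hp]; unfold dirJ; simp) hv
  unfold Y644.QS.Top at h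
  rw [tau_eq hp, hp] at h
  exact h

/-- optimality in terms of directions -/
theorem visH_tangent (hτJ : negV (tau c) ∈ J) {x : EuclideanSpace ℝ (Fin c.length)}
    (hx : InC (rf c.length) [] J x) (hτ : 0 < rf c.length (tau c) x) {s : ℝ}
    (h : VisH p c J x s) {g : EuclideanSpace ℝ (Fin c.length)}
    (hg : ∀ q ∈ J, rf c.length q x = 0 → rf c.length q g ≤ 0) :
    (rf c.length p g + s * rf c.length c g) * rf c.length (tau c) x ≤
      (rf c.length p x + s * rf c.length c x) * rf c.length (tau c) g := by
  obtain ⟨r, hr, hr1, hr2⟩ := exists_blocked hx hg ⟨_, hτJ, by rw [rf_negV]; linarith⟩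
  have h1 := h _ ⟨fun e he => by simp at he, hr2⟩
  simp only [map_add, map_smul, smul_eq_mul] at h1
  have h2 : 0 < -rf c.length r x := by linarith
  have h3 : (-rf c.length r x) * ((rf c.length p g + s * rf c.length c g) *
      rf c.length (tau c) x) ≤ (-rf c.length r x) * ((rf c.length p x + s * rf c.length c x) *
        rf c.length (tau c) g) := by linarith
  exact le_of_mul_le_mul_left h3 h2

theorem visH_max (hc : 0 < c.length) (hJ : Len c.length J) (hu : u.length = c.length)
    (hτJ : negV (tau c) ∈ J) (hx : InC (rf c.length) [] J (lv c.length u))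
    (hτ : 0 < rf c.length (tau c) (lv c.length u)) {s : ℝ}
    (hp0 : rf c.length p (ev c) = 0)
    (h : VisH p c J (lv c.length u) s) {d : EuclideanSpace ℝ (Fin c.length)}
    (hd : InC (rf c.length) [eqr c] (dirJ c J u) d) (ht : 0 < rf c.length (tau c) d)
    (hmax : ∀ h, InC (rf c.length) [eqr c] (dirJ c J u) h →
        rf c.length p h * rf c.length (tau c) d ≤ rf c.length p d * rf c.length (tau c) h) :
    ∃ s1, s ≤ s1 ∧ VisH p c J (lv c.length u) s1 ∧
      rf c.length p (pj c d) + s1 * rf c.length c (pj c d) = 0 := by
  set t := rf c.length (tau c) d with ht'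
  have hcd : rf c.length c (pj c d) = t := by
    have := hd.1 (eqr c) (by simp)
    rw [rf_eqr] at this
    linarith
  have hpd : rf c.length p (pj c d) = rf c.length p d := by
    unfold pj
    rw [map_sub, map_smul, hp0, smul_zero, sub_zero]
  have hdT : ∀ q ∈ J, rf c.length q (lv c.length u) = 0 → rf c.length q (pj c d) ≤ 0 := by
    intro q hq h0
    have := hd.2 (zl q) (mem_dirJ hJ hu hq h0)
    rwa [rf_zl (hJ q hq)] at this
  have h1 := visH_tangent hτJ hx hτ h hdT
  rw [tau_pj hc, mul_zero, hcd] at h1
  have h2 : rf c.length p (pj c d) + s * t ≤ 0 := by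
    by_contra hneg
    push Not at hneg
    have := mul_pos hneg hτ
    linarith
  refine ⟨-(rf c.length p (pj c d)) / t, ?_, ?_, ?_⟩
  · rw [le_div_iff₀ ht]
    linarith
  · set s1 := -(rf c.length p (pj c d)) / t with hs1
    have hs1t : s1 * t = -(rf c.length p (pj c d)) := div_mul_cancel₀ _ ht.ne'
    have hss : s ≤ s1 := by rw [hs1, le_div_iff₀ ht]; linarith
    intro x hxC
    set a := rf c.length (tau c) x / rf c.length (tau c) (lv c.length u) with ha
    set g := x - a • lv c.length u with hg
    have hτg : rf c.length (tau c) g = 0 := by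
      rw [hg, map_sub, map_smul, smul_eq_mul, ha, div_mul_cancel₀ _ hτ.ne', sub_self]
    have hgT : ∀ q ∈ J, rf c.length q (lv c.length u) = 0 → rf c.length q g ≤ 0 := by
      intro q hq h0
      rw [hg, map_sub, map_smul, h0, smul_zero, sub_zero]
      exact hxC.2 q hq
    have hkey : rf c.length p g + s1 * rf c.length c g ≤ 0 := by
      rcases le_or_gt (rf c.length c g) 0 with hcg | hcg
      · have h3 := visH_tangent hτJ hx hτ h hgT
        rw [hτg, mul_zero] at h3
        have h4 : rf c.length p g + s * rf c.length c g ≤ 0 := by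
          by_contra hneg
          push Not at hneg
          have := mul_pos hneg hτ
          linarith
        have h5 : (s1 - s) * rf c.length c g ≤ 0 :=
          mul_nonpos_of_nonneg_of_nonpos (by linarith) hcg
        linarith
      · set y := g + (rf c.length c g) • ev c with hy
        have hτy : rf c.length (tau c) y = rf c.length c g := by
          rw [hy, map_add, map_smul, tau_ev hc, hτg, smul_eq_mul]; ring
        have hpy : pj c y = g := by
          unfold pj
          rw [hτy, hy, add_sub_cancel_right]
        have hpy' : rf c.length p y = rf c.length p g := by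
          rw [hy, map_add, map_smul, hp0, smul_zero, add_zero]
        have hyC : InC (rf c.length) [eqr c] (dirJ c J u) y := by
          refine ⟨fun r hr => ?_, fun r hr => ?_⟩
          · rw [List.mem_singleton] at hr
            subst hr
            rw [rf_eqr, hpy, hτy, sub_self]
          · rcases List.mem_cons.1 hr with rfl | hr
            · rw [rf_negV, hτy]
              linarith
            · rw [List.mem_map] at hr
              obtain ⟨q, hq, rfl⟩ := hr
              obtain ⟨hqJ, hqu⟩ := (mem_tight hJ hu).1 hq
              rw [rf_zl (hJ q hqJ), hpy]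
              exact hgT q hqJ hqu
        have h3 := hmax y hyC
        rw [hτy, hpy', ← hpd] at h3
        have h4 : (rf c.length p g + s1 * rf c.length c g) * t ≤ 0 := by
          have : (rf c.length p g + s1 * rf c.length c g) * t =
              rf c.length p g * t + (s1 * t) * rf c.length c g := by ring
          rw [this, hs1t]
          linarith
        by_contra hneg
        push Not at hneg
        have := mul_pos hneg ht
        linarith
    have hx' : x = g + a • lv c.length u := by rw [hg]; abel
    have hτx : rf c.length (tau c) x = a * rf c.length (tau c) (lv c.length u) := by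
      rw [ha, div_mul_cancel₀ _ hτ.ne']
    rw [hτx]
    rw [hx']
    simp only [map_add, map_smul, smul_eq_mul]
    have := mul_nonpos_of_nonpos_of_nonneg hkey hτ.le
    linarith
  · rw [hcd, div_mul_cancel₀ _ ht.ne']
    ring

theorem visH_smul {x : EuclideanSpace ℝ (Fin c.length)} {s k : ℝ} (hk : 0 ≤ k)
    (h : VisH p c J x s) : VisH p c J (k • x) s := by
  intro y hy
  have h1 := mul_le_mul_of_nonneg_left (h y hy) hk
  simp only [map_smul, smul_eq_mul]
  linarith

/-- the next vertex is optimal for a later objective -/
theorem nxt_vis (hc : 0 < c.length) (hp : p.length = c.length) (hp0 : rf c.length p (ev c) = 0)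
    (hJ : Len c.length J) (hu : u.length = c.length)
    (hτJ : negV (tau c) ∈ J) (hext : Ext (rf c.length) [] J (lv c.length u))
    (hτ : 0 < rf c.length (tau c) (lv c.length u)) {s : ℝ} (hs : 0 ≤ s)
    (hvis : VisH p c J (lv c.length u) s) {w : List ℤ} (h : nxt p c J u = some w) :
    ∃ s1, 0 ≤ s1 ∧ VisH p c J (lv c.length w) s1 := by
  unfold nxt at h
  rw [Option.map_eq_some_iff] at h
  obtain ⟨w0, hw0, hw⟩ := h
  obtain ⟨hdl, hE, hmax, hor⟩ := dir_spec hc hp hJ (dir_vx hc hp hJ hu hext hτ hw0)
  set d := dirV p c J u with hd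
  have ht : 0 < rf c.length (tau c) (lv c.length d) := by
    rcases hor with ht | ⟨h0, h1⟩
    · exact ht
    · exfalso
      have hpj : pj c (lv c.length d) = lv c.length d := by
        unfold pj
        rw [h0, zero_smul, sub_zero]
      have hcd : rf c.length c (lv c.length d) = 0 := by
        have := hE.mem.1 (eqr c) (by simp)
        rw [rf_eqr, hpj, h0, sub_zero] at this
        exact this
      have hdT : ∀ q ∈ J, rf c.length q (lv c.length u) = 0 →
          rf c.length q (lv c.length d) ≤ 0 := by
        intro q hq hq0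
        have := hE.mem.2 (zl q) (mem_dirJ hJ hu hq hq0)
        rwa [rf_zl (hJ q hq), hpj] at this
      have h2 := visH_tangent hτJ hext.mem hτ hvis hdT
      rw [hcd, h0, mul_zero, mul_zero, add_zero] at h2
      have := mul_pos h1 hτ
      linarith
  have hpos : 0 < dot (tau c) d := by
    rw [rf_dot (length_tau c) hdl] at ht
    exact_mod_cast ht
  rw [if_pos hpos] at hw
  obtain ⟨s1, hss, hv1, hz⟩ := visH_max hc hJ hu hτJ hext.mem hτ hp0 hvis hE.mem ht hmax
  refine ⟨s1, hs.trans hss, ?_⟩
  -- the next vertex
  have hadj := adj_of_ext hc hJ hu hτ hE ht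
  rw [← lv_zl hdl] at hadj hz
  have hzl : (zl d).length = c.length := by rw [length_zl]; exact hdl
  have hcd : rf c.length c (lv c.length (zl d)) = rf c.length (tau c) (lv c.length d) := by
    have := hE.mem.1 (eqr c) (by simp)
    rw [rf_eqr] at this
    rw [lv_zl hdl]
    linarith
  have hτd : rf c.length (tau c) (lv c.length (zl d)) = 0 := by
    rw [lv_zl hdl, tau_pj hc]
  have hup : Up (rf c.length (tau c)) (rf c.length c) (lv c.length u) (lv c.length (zl d)) := by
    unfold Up
    rw [hτd, hcd, mul_zero]
    exact mul_pos ht hτ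
  have hxT : ∀ q ∈ J, rf c.length q (lv c.length u) = 0 →
      rf c.length q (lv c.length (zl d)) ≤ 0 := by
    intro q hq h0
    have := hE.mem.2 (zl q) (mem_dirJ hJ hu hq h0)
    rw [rf_zl (hJ q hq)] at this
    rw [lv_zl hdl]
    exact this
  have hex : ∃ r ∈ J, rf c.length r (lv c.length u) < 0 :=
    ⟨_, hτJ, by rw [rf_negV]; linarith⟩
  obtain ⟨o1, r, hr, hrv, o2, o3⟩ := other_spec hJ hu hzl hext.mem hxT hex
  obtain ⟨b1, b2⟩ := blocked_ext hext.mem.1 (fun r hr => by simp at hr) hup.not_smul hadj hr
    hrv o3
  have b3 := blocked_up (b := rf c.length r (lv c.length (zl d))) (neg_pos.2 hrv) hup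
  rw [← o2] at b1 b2 b3
  obtain ⟨n1, k, hk, n2⟩ := normV_spec (fun r hr => by simp at hr) hJ o1 b1
    (pos_or hτJ b1.mem b3 hτ).2
  rw [hw] at n2
  rw [n2]
  refine visH_smul hk.le ?_
  have hτo := tau_nonneg hτJ b1.mem
  rw [o2, map_add, map_smul, map_smul, hτd, smul_zero, zero_add, smul_eq_mul] at hτo
  set β := rf c.length r (lv c.length (zl d)) with hβ
  have hβ0 : 0 ≤ β := by
    by_contra hneg
    push Not at hneg
    have := mul_neg_of_neg_of_pos hneg hτ
    linarith
  intro y hy
  have h1 := mul_le_mul_of_nonneg_left (hv1 y hy) hβ0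
  rw [o2]
  simp only [map_add, map_smul, smul_eq_mul, hτd, mul_zero, zero_add]
  have e : (-rf c.length r (lv c.length u)) * rf c.length p (lv c.length (zl d)) +
      β * rf c.length p (lv c.length u) +
      s1 * ((-rf c.length r (lv c.length u)) * rf c.length c (lv c.length (zl d)) +
        β * rf c.length c (lv c.length u)) =
      β * (rf c.length p (lv c.length u) + s1 * rf c.length c (lv c.length u)) +
      (-rf c.length r (lv c.length u)) * (rf c.length p (lv c.length (zl d)) +
        s1 * rf c.length c (lv c.length (zl d))) := by ring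
  rw [e, hz, mul_zero, add_zero]
  linarith

/-! ### Iteration -/

/-- one pivot -/
def pstep (p c : List ℤ) (J P : List (List ℤ)) : List (List ℤ) :=
  (nxt p c J (hdp P)).elim P fun w => w :: P

/-- `k` pivots -/
def pth (p c : List ℤ) (J : List (List ℤ)) (v : List ℤ) (k : ℕ) : List (List ℤ) :=
  (pstep p c J)^[k] [v]

theorem nxt_none : nxt p c J u = none ↔ improve c [] J u = none := by
  unfold nxt
  rw [Option.map_eq_none_iff]

theorem hdp_cons (w : List ℤ) (P : List (List ℤ)) : hdp (w :: P) = w := rfl

/-- the state after `k` pivots: a good path; and unless the path is complete it has length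
`k + 1` and all its points are visited vertices -/
theorem pth_spec (hc : 0 < c.length) (hp : p.length = c.length) (hJ : Len c.length J)
    (hτJ : negV (tau c) ∈ J) {v : List ℤ} (hv : Vx c [] J v) (k : ℕ) :
    (∃ Q, pth p c J v k = Q ++ [v] ∧ Q.length ≤ k) ∧ Good c [] J (pth p c J v k) ∧
      (improve c [] J (hdp (pth p c J v k)) ≠ none → (pth p c J v k).length = k + 1) := by
  induction k with
  | zero => exact ⟨⟨[], rfl, le_rfl⟩, hv, fun _ => rfl⟩
  | succ k ih =>
    have e : pth p c J v (k + 1) = pstep p c J (pth p c J v k) := by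
      unfold pth
      rw [Function.iterate_succ_apply']
    rw [e]
    obtain ⟨⟨Q, hQ, hQk⟩, hG, hlen⟩ := ih
    set P := pth p c J v k with hP
    obtain ⟨w, P', hPw⟩ := good_cons hG
    unfold pstep
    cases hn : nxt p c J (hdp P) with
    | none =>
      rw [Option.elim_none]
      refine ⟨⟨Q, hQ, by omega⟩, hG, fun h => absurd (nxt_none.1 hn) h⟩
    | some x =>
      rw [Option.elim_some]
      have himp : improve c [] J (hdp P) ≠ none := fun h => by
        rw [nxt_none.2 h] at hn
        simp at hn
      have hhd : hdp P = w := by rw [hPw]; rfl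
      have hG' := hG
      rw [hPw] at hG'
      obtain ⟨hwl, hwE⟩ := hG'.head
      have hτw : 0 < rf c.length (tau c) (lv c.length w) := by
        rcases hG'.head_or hτJ with h | ⟨h1, h2⟩
        · exact h
        · exfalso
          apply himp
          rw [hhd]
          exact improve_ray (fun r hr => by simp at hr) hJ hwl hτJ h1 h2
      rw [hhd] at hn himp
      obtain ⟨w0, hw0⟩ := Option.ne_none_iff_exists'.1 himp
      obtain ⟨hdl, hE, -, -⟩ := dir_spec hc hp hJ (dir_vx hc hp hJ hwl hwE hτw hw0)
      have hst := nxt_step hc hJ hwl hτJ hwE hτw hn hdl fun _ => hE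
      refine ⟨⟨x :: Q, by rw [hQ]; rfl, by rw [List.length_cons]; omega⟩, ?_, fun _ => ?_⟩
      · rw [hPw]
        exact ⟨hst, hG'⟩
      · rw [List.length_cons, hlen (by rw [hhd]; exact himp)]

/-- all visited vertices are optimal for some `p + s c`, `s ≥ 0` -/
theorem pth_vis (hc : 0 < c.length) (hp : p.length = c.length)
    (hp0 : rf c.length p (ev c) = 0) (hJ : Len c.length J)
    (hτJ : negV (tau c) ∈ J) {v : List ℤ} (hv : Vx c [] J v)
    (hvis : VisH p c J (lv c.length v) 0) (k : ℕ) :
    ∀ w ∈ pth p c J v k, ∃ s, 0 ≤ s ∧ VisH p c J (lv c.length w) s := by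
  induction k with
  | zero =>
    intro w hw
    have : w = v := List.mem_singleton.1 hw
    rw [this]
    exact ⟨0, le_rfl, hvis⟩
  | succ k ih =>
    have e : pth p c J v (k + 1) = pstep p c J (pth p c J v k) := by
      unfold pth
      rw [Function.iterate_succ_apply']
    rw [e]
    obtain ⟨-, hG, -⟩ := pth_spec hc hp hJ hτJ hv k (p := p)
    set P := pth p c J v k with hP
    obtain ⟨w, P', hPw⟩ := good_cons hG
    unfold pstep
    cases hn : nxt p c J (hdp P) with
    | none =>
      rw [Option.elim_none]
      exact ih
    | some x =>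
      rw [Option.elim_some]
      intro y hy
      rcases List.mem_cons.1 hy with rfl | hy
      · have hhd : hdp P = w := by rw [hPw]; rfl
        have hG' := hG
        rw [hPw] at hG'
        obtain ⟨hwl, hwE⟩ := hG'.head
        rw [hhd] at hn
        have himp : improve c [] J w ≠ none := fun h => by
          rw [nxt_none.2 h] at hn
          simp at hn
        have hτw : 0 < rf c.length (tau c) (lv c.length w) := by
          rcases hG'.head_or hτJ with h | ⟨h1, h2⟩
          · exact h
          · exact absurd (improve_ray (fun r hr => by simp at hr) hJ hwl hτJ h1 h2) himp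
        obtain ⟨s, hs, hsv⟩ := ih w (by rw [hPw]; simp)
        exact nxt_vis hc hp hp0 hJ hwl hτJ hwE hτw hs hsv hn
      · exact ih y hy

end Pool.Agent.N477.RS
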