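import Pool.Agent.N477.RS4
import Pool.Agent.N477.RS6

set_option autoImplicit false

/-!
# The start objective, and unfinished paths
-/

namespace Pool.Agent.N477.RS

open scoped InnerProductSpace
open Pool.Agent.Y644.QS Pool.Agent.Y644.QW Pool.Agent.H687R2.LLL Pool.Agent.NPC.H532.RP
open Pool.Agent.NPC hiding inp

/-! ### Definitions -/

/-- a common denominator of the entries of `A` -/
def dA (x : Inp) : ℕ := (x.1.flatten.map Rat.den).prod

/-- the inequality, and the multiple of the row, without the right hand side -/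
def prsA (x : Inp) : List (List ℤ × List ℤ) :=
  (x.1.zip x.2.1).map fun q => (zrow (q.1 ++ [-q.2]), (q.1 ++ [0]).map fun t => zq (dA x) t)

def prsN (x : Inp) : List (List ℤ × List ℤ) :=
  (List.range x.2.2.1.length).map fun j => (negV (unitV (x.2.2.1.length + 1) j),
    comb (-(dA x : ℤ)) (unitV (x.2.2.1.length + 1) j) 0 (unitV (x.2.2.1.length + 1) j))

/-- the rows which are tight at the start vertex -/
def cand (x : Inp) : List (List ℤ) :=
  ((prsA x ++ prsN x).filter fun q => decide (dot q.1 (startV x) = 0)).map fun q => q.2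

/-- a maximal independent list of rows -/
def indep (c : List ℤ) (L : List (List ℤ)) : List (List ℤ) :=
  L.foldr (fun r G => if feas c G [] r = true then r :: G else G) []

/-- the combination of the rows with the given weights -/
def wcomb (N : ℕ) (w : List ℕ) (G : List (List ℤ)) : List ℤ :=
  (w.zip G).foldr (fun q acc => comb (q.1 : ℤ) q.2 (-1) acc) (List.replicate N 0)

/-- the start objective -/
def pvec (x : Inp) (w : List ℕ) : List ℤ :=
  wcomb (x.2.2.1.length + 1) w (indep (crow x) (cand x))

/-! ### Independent lists of rows -/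

/-- triangular lists -/
def Tri (N : ℕ) : List (List ℤ) → Prop
  | [] => True
  | r :: G => (∃ h, (∀ q ∈ G, rf N q h = 0) ∧ rf N r h ≠ 0) ∧ Tri N G

theorem indep_spec {c : List ℤ} (L : List (List ℤ)) (hL : Len c.length L) :
    (∀ r ∈ indep c L, r ∈ L) ∧ Tri c.length (indep c L) ∧
      ∀ h, (∀ r ∈ indep c L, rf c.length r h = 0) → ∀ r ∈ L, rf c.length r h = 0 := by
  induction L with
  | nil => exact ⟨fun r hr => by simp [indep] at hr, trivial, fun h _ r hr => by simp at hr⟩
  | cons a L ih =>
    obtain ⟨h1, h2, h3⟩ := ih fun r hr => hL r (by simp [hr])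
    have ha := hL a (by simp)
    have e : indep c (a :: L) = if feas c (indep c L) [] a = true then a :: indep c L
      else indep c L := rfl
    have hG : Len c.length (indep c L) := fun r hr => hL r (by simp [h1 r hr])
    have hfe := feas_iff (E := indep c L) (J := []) (g := a) hG (fun r hr => by simp at hr) ha
    rw [e]
    split_ifs with hf
    · rw [hfe] at hf
      obtain ⟨x, hx, hpos⟩ := hf
      refine ⟨fun r hr => ?_, ⟨⟨x, hx.1, hpos.ne'⟩, h2⟩, fun h hh r hr => ?_⟩
      · rcases List.mem_cons.1 hr with rfl | hr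
        · simp
        · simp [h1 r hr]
      · rcases List.mem_cons.1 hr with rfl | hr
        · exact hh _ (by simp)
        · exact h3 h (fun q hq => hh q (by simp [hq])) r hr
    · rw [hfe] at hf
      push Not at hf
      refine ⟨fun r hr => by simp [h1 r hr], h2, fun h hh r hr => ?_⟩
      rcases List.mem_cons.1 hr with rfl | hr
      · have e1 := hf h ⟨hh, fun q hq => by simp at hq⟩
        have e2 := hf (-h) ⟨fun q hq => by rw [map_neg, hh q hq, neg_zero],
          fun q hq => by simp at hq⟩
        rw [map_neg] at e2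
        linarith
      · exact h3 h hh r hr

theorem tri_get {N : ℕ} : ∀ {G : List (List ℤ)}, Tri N G → ∀ k (hk : k < G.length),
    ∃ h, rf N G[k] h ≠ 0 ∧ ∀ l (hl : l < G.length), k < l → rf N G[l] h = 0
  | [], _, k, hk => by simp at hk
  | r :: G, hT, 0, _ => by
    obtain ⟨⟨h, h1, h2⟩, -⟩ := hT
    refine ⟨h, h2, fun l hl h0 => ?_⟩
    obtain ⟨l, rfl⟩ := Nat.exists_eq_succ_of_ne_zero h0.ne'
    exact h1 _ (List.getElem_mem _)
  | r :: G, hT, k + 1, hk => by
    obtain ⟨h, h1, h2⟩ := tri_get hT.2 k (by simpa using hk)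
    refine ⟨h, h1, fun l hl h0 => ?_⟩
    obtain ⟨l, rfl⟩ := Nat.exists_eq_succ_of_ne_zero (show l ≠ 0 by omega)
    exact h2 l (by simpa using hl) (by omega)

theorem li_tri {n N : ℕ} (V : Fin N → Fin n → ℝ)
    (h : ∀ k, ∃ x : Fin n → ℝ, dotProduct (V k) x ≠ 0 ∧
      ∀ l, k < l → dotProduct (V l) x = 0) : LinearIndependent ℝ V := by
  rw [Fintype.linearIndependent_iff]
  intro g hg
  have key : ∀ (j : ℕ) (k : Fin N), (k : ℕ) = j → g k = 0 := by
    intro j
    induction j using Nat.strong_induction_on with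
    | _ j ih =>
      intro k hk
      obtain ⟨x, hx1, hx2⟩ := h k
      have h1 : dotProduct (∑ i, g i • V i) x = 0 := by rw [hg, zero_dotProduct]
      rw [sum_dotProduct, Finset.sum_eq_single k] at h1
      · rw [smul_dotProduct, smul_eq_mul] at h1
        exact (mul_eq_zero.1 h1).resolve_right hx1
      · intro l _ hlk
        rw [smul_dotProduct]
        rcases lt_or_gt_of_ne (fun h => hlk (Fin.ext h) : (l : ℕ) ≠ k) with hlt | hlt
        · rw [ih l (by omega) l rfl, zero_smul]
        · rw [hx2 l hlt, smul_zero]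
      · simp
  exact fun k => key k k rfl

/-! ### Weighted combinations -/

theorem wcomb_spec {N : ℕ} (w : List ℕ) (G : List (List ℤ)) (hG : Len N G) :
    (wcomb N w G).length = N ∧ ∀ h, rf N (wcomb N w G) h =
      ((w.zip G).map fun q => (q.1 : ℝ) * rf N q.2 h).sum := by
  unfold wcomb
  have hz : ∀ q ∈ w.zip G, q.2.length = N := fun q hq => hG _ (List.of_mem_zip hq).2
  generalize w.zip G = Z at hz
  induction Z with
  | nil =>
    refine ⟨by simp, fun h => ?_⟩
    simp only [List.foldr_nil, List.map_nil, List.sum_nil]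
    have : lv N (List.replicate N (0 : ℤ)) = 0 := by
      ext i
      rw [lv_apply]
      simp
    rw [rf_apply, this, inner_zero_left]
  | cons q Z ih =>
    obtain ⟨h1, h2⟩ := ih fun q hq => hz q (by simp [hq])
    have hq := hz q (by simp)
    refine ⟨length_comb hq h1 _ _, fun h => ?_⟩
    rw [List.foldr_cons, rf_comb hq h1, h2, List.map_cons, List.sum_cons]
    push_cast
    ring

variable {m n : ℕ} {A : Fin m → Fin n → ℚ} {b : Fin m → ℚ} {c v : Fin n → ℚ}

/-! ### The candidates -/

theorem dA_pos (x : Inp) : 0 < dA x := by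
  unfold dA
  refine Nat.pos_of_ne_zero fun h => ?_
  rw [List.prod_eq_zero_iff] at h
  obtain ⟨q, -, hq⟩ := List.mem_map.1 h
  exact q.den_nz hq

/-- the real data -/
noncomputable def Ar (A : Fin m → Fin n → ℚ) : Fin m → Fin n → ℝ := fun i j => (A i j : ℝ)
noncomputable def br (b : Fin m → ℚ) : Fin m → ℝ := fun i => (b i : ℝ)

theorem poly_eq : MD.Poly (arow (Ar A)) (arhs (br b)) = polyhedron A b := by
  ext x
  exact mem_arow

/-- the scaled rows -/
def grow (A : Fin m → Fin n → ℚ) (D : ℕ) : Fin m ⊕ Fin n → List ℤ :=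
  Sum.elim (fun i => (List.ofFn (A i) ++ [0]).map fun t => zq D t)
    (fun j => comb (-(D : ℤ)) (unitV (n + 1) j) 0 (unitV (n + 1) j))

theorem length_grow (D : ℕ) (p : Fin m ⊕ Fin n) : (grow A D p).length = n + 1 := by
  rcases p with i | j
  · simp [grow]
  · exact length_comb (length_unitV _ _) (length_unitV _ _) _ _

theorem rf_grow {N : ℕ} (hN : N = n + 1) {D : ℕ} (hD : ∀ i j, (A i j).den ∣ D)
    (p : Fin m ⊕ Fin n) (x : Fin n → ℝ) (t : ℝ) :
    rf N (grow A D p) (eN hN (x, t)) = D * (dotProduct (arow (Ar A) p) x) := by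
  subst hN
  rcases p with i | j
  · rw [rf_eN]
    show ∑ j : Fin n, (((List.ofFn (A i) ++ [0]).map fun t => zq D t).getD j 0 : ℝ) * x j +
      (((List.ofFn (A i) ++ [0]).map fun t => zq D t).getD n 0 : ℝ) * t =
        D * ∑ j, (A i j : ℝ) * x j
    have h1 : ∀ k, ((List.ofFn (A i) ++ [0]).map fun t => zq D t).getD k 0 =
        zq D ((List.ofFn (A i) ++ [0]).getD k 0) := by
      intro k
      rw [List.getD_eq_getElem?_getD, List.getD_eq_getElem?_getD, List.getElem?_map]
      cases (List.ofFn (A i) ++ [0])[k]? with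
      | none => simp [zq_zero]
      | some q => simp
    rw [h1 n, getD_ofFn_append_last, zq_zero, Int.cast_zero, zero_mul, add_zero, Finset.mul_sum]
    refine Finset.sum_congr rfl fun j _ => ?_
    rw [h1, getD_ofFn_append]
    have h2 : (((zq D (A i j) : ℤ) : ℚ) : ℝ) = ((D * (A i j) : ℚ) : ℝ) := by
      rw [zq_cast (hD i j)]
    push_cast at h2
    rw [h2]
    ring
  · show rf (n + 1) (comb (-(D : ℤ)) (unitV (n + 1) j) 0 (unitV (n + 1) j)) (eN rfl (x, t)) =
      D * dotProduct (-Pi.single j 1 : Fin n → ℝ) x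
    rw [rf_comb (length_unitV _ _) (length_unitV _ _), rf_unitV (by omega), neg_dotProduct,
      single_dotProduct]
    simp [eN]

theorem den_dvd_dA (i : Fin m) (j : Fin n) : (A i j).den ∣ dA (inp A b c v) := by
  unfold dA inp
  refine List.dvd_prod (List.mem_map.2 ⟨A i j, List.mem_flatten.2 ⟨List.ofFn (A i), ?_, ?_⟩, rfl⟩)
  · exact List.mem_ofFn.2 ⟨i, rfl⟩
  · exact List.mem_ofFn.2 ⟨j, rfl⟩

theorem mem_cand {r : List ℤ} : r ∈ cand (inp A b c v) ↔
    ∃ p, r = grow A (dA (inp A b c v)) p ∧
      p ∈ MD.tight (arow (Ar A)) (arhs (br b)) (re v) := by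
  have hsl : (startV (inp A b c v)).length = (crow (inp A b c v)).length := by
    simp [startV_inp, length_zrow, length_crow]
  have hs : lv (crow (inp A b c v)).length (startV (inp A b c v)) =
      ((startV (inp A b c v)).getD n 0 : ℝ) • eN length_crow (re v, 1) := by
    rw [lv_xq length_crow getD_startV, xq_startV]
  have hs0 : (0 : ℝ) < (startV (inp A b c v)).getD n 0 := by exact_mod_cast getD_startV
  have key : ∀ (r' : List ℤ) (y : ℝ), r'.length = (crow (inp A b c v)).length →
      (∃ k : ℝ, 0 < k ∧ rf (crow (inp A b c v)).length r' (eN length_crow (re v, 1)) = k * y) →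
      (dot r' (startV (inp A b c v)) = 0 ↔ y = 0) := by
    rintro r' y hr' ⟨k, hk, hk2⟩
    have h1 := rf_dot (N := (crow (inp A b c v)).length) hr' hsl
    rw [hs, map_smul, hk2, smul_eq_mul] at h1
    constructor
    · intro h
      rw [h, Int.cast_zero] at h1
      rcases mul_eq_zero.1 h1 with h2 | h2
      · exact absurd h2 hs0.ne'
      · exact (mul_eq_zero.1 h2).resolve_left hk.ne'
    · intro h
      rw [h, mul_zero, mul_zero] at h1
      exact_mod_cast h1.symm
  have hA : ∀ i : Fin m, dot (zrow (List.ofFn (A i) ++ [-b i])) (startV (inp A b c v)) = 0 ↔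
      (Sum.inl i : Fin m ⊕ Fin n) ∈ MD.tight (arow (Ar A)) (arhs (br b)) (re v) := by
    intro i
    rw [key _ (∑ j, (A i j : ℝ) * re v j - b i) (by simp [length_zrow, length_crow])
      ⟨(zden (List.ofFn (A i) ++ [-b i]) : ℝ), by exact_mod_cast zden_pos _, by
        rw [rf_zrow]; push_cast; ring⟩, sub_eq_zero]
    rfl
  have hN : ∀ j : Fin n, dot (negV (unitV (n + 1) j)) (startV (inp A b c v)) = 0 ↔
      (Sum.inr j : Fin m ⊕ Fin n) ∈ MD.tight (arow (Ar A)) (arhs (br b)) (re v) := by
    intro j
    rw [key _ (-(re v j)) (by rw [length_negV (length_unitV _ _), length_crow])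
      ⟨1, one_pos, by
        rw [rf_negV]
        have h1 : unitV (n + 1) j = unitV (crow (inp A b c v)).length j := by rw [length_crow]
        rw [h1, rf_unitV (by rw [length_crow]; omega)]
        simp [eN]⟩]
    show _ ↔ dotProduct (-Pi.single j 1 : Fin n → ℝ) (re v) = 0
    rw [neg_dotProduct, single_dotProduct, one_mul]
  unfold cand
  rw [List.mem_map]
  constructor
  · rintro ⟨q, hq, rfl⟩
    rw [List.mem_filter, decide_eq_true_iff, List.mem_append] at hq
    obtain ⟨hq | hq, h0⟩ := hq
    · unfold prsA at hq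
      rw [List.mem_map] at hq
      obtain ⟨z, hz, rfl⟩ := hq
      obtain ⟨i, hi, rfl⟩ := List.getElem_of_mem hz
      have hi' : i < m := by simpa [inp] using hi
      refine ⟨Sum.inl ⟨i, hi'⟩, by simp [grow, inp], (hA ⟨i, hi'⟩).1 ?_⟩
      simpa [inp] using h0
    · unfold prsN at hq
      rw [List.mem_map] at hq
      obtain ⟨j, hj, rfl⟩ := hq
      have hl : (inp A b c v).2.2.1.length = n := by simp [inp]
      rw [List.mem_range, hl] at hj
      refine ⟨Sum.inr ⟨j, hj⟩, by simp [grow, hl], (hN ⟨j, hj⟩).1 ?_⟩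
      simpa [hl] using h0
  · rintro ⟨p, rfl, hp⟩
    rcases p with i | j
    · refine ⟨(zrow (List.ofFn (A i) ++ [-b i]), grow A (dA (inp A b c v)) (Sum.inl i)), ?_, rfl⟩
      rw [List.mem_filter, decide_eq_true_iff]
      refine ⟨List.mem_append_left _ ?_, (hA i).2 hp⟩
      unfold prsA
      refine List.mem_map.2 ⟨(List.ofFn (A i), b i), ?_, rfl⟩
      rw [List.mem_iff_getElem]
      exact ⟨i, by simp [inp], by simp [inp]⟩
    · refine ⟨(negV (unitV (n + 1) j), grow A (dA (inp A b c v)) (Sum.inr j)), ?_, rfl⟩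
      rw [List.mem_filter, decide_eq_true_iff]
      refine ⟨List.mem_append_right _ ?_, (hN j).2 hp⟩
      unfold prsN
      have hl : (inp A b c v).2.2.1.length = n := by simp [inp]
      refine List.mem_map.2 ⟨j, by rw [List.mem_range, hl]; exact j.2, ?_⟩
      rw [hl]
      rfl

/-- the basis of the start objective -/
theorem exists_B (hv : re v ∈ Set.extremePoints ℝ (polyhedron A b)) :
    ∃ B : Fin n → Fin m ⊕ Fin n, LinearIndependent ℝ (fun k => arow (Ar A) (B k)) ∧
      (∀ k, B k ∈ MD.tight (arow (Ar A)) (arhs (br b)) (re v)) ∧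
      indep (crow (inp A b c v)) (cand (inp A b c v)) =
        List.ofFn (fun k => grow A (dA (inp A b c v)) (B k)) := by
  set C := crow (inp A b c v) with hC
  set G := indep C (cand (inp A b c v)) with hG
  set D := dA (inp A b c v) with hD
  have hCl : C.length = n + 1 := length_crow
  have hLc : Len C.length (cand (inp A b c v)) := by
    intro r hr
    obtain ⟨p, rfl, -⟩ := mem_cand.1 hr
    rw [length_grow, hCl]
  obtain ⟨g1, g2, g3⟩ := indep_spec (c := C) _ hLc
  rw [← hG] at g1 g2 g3
  have hdvd : ∀ i j, (A i j).den ∣ D := fun i j => den_dvd_dA i j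
  have hD0 : (0 : ℝ) < D := by exact_mod_cast dA_pos _
  have hB : ∀ k : Fin G.length, ∃ p, G[k] = grow A D p ∧
      p ∈ MD.tight (arow (Ar A)) (arhs (br b)) (re v) := fun k =>
    mem_cand.1 (g1 _ (List.getElem_mem _))
  choose B hB1 hB2 using hB
  have hli : LinearIndependent ℝ (fun k => arow (Ar A) (B k)) := by
    apply li_tri
    intro k
    obtain ⟨h, h1, h2⟩ := tri_get g2 k k.2
    obtain ⟨⟨x, t⟩, rfl⟩ := (eN hCl).surjective h
    refine ⟨x, fun h0 => h1 ?_, fun l hl => ?_⟩
    · have := hB1 k
      rw [Fin.getElem_fin] at this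
      rw [this, rf_grow hCl hdvd, h0, mul_zero]
    · have h3 := h2 l l.2 hl
      have := hB1 l
      rw [Fin.getElem_fin] at this
      rw [this, rf_grow hCl hdvd] at h3
      exact (mul_eq_zero.1 h3).resolve_left hD0.ne'
  have hle : G.length ≤ n := by
    have := hli.fintype_card_le_finrank
    simpa using this
  have hge : n ≤ G.length := by
    let φ : (Fin n → ℝ) →ₗ[ℝ] (Fin G.length → ℝ) :=
      { toFun := fun x k => dotProduct (arow (Ar A) (B k)) x
        map_add' := fun x y => by ext k; exact dotProduct_add _ _ _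
        map_smul' := fun s x => by ext k; exact dotProduct_smul _ _ _ }
    have hinj : Function.Injective φ := by
      rw [← LinearMap.ker_eq_bot, LinearMap.ker_eq_bot']
      intro x hx
      rw [← poly_eq] at hv
      apply MD.ext_pointed hv
      intro p hp
      have h1 : ∀ r ∈ G, rf C.length r (eN hCl (x, 0)) = 0 := by
        intro r hr
        obtain ⟨k, hk, rfl⟩ := List.getElem_of_mem hr
        have := hB1 ⟨k, hk⟩
        rw [Fin.getElem_fin] at this
        rw [this, rf_grow hCl hdvd]
        have h2 : dotProduct (arow (Ar A) (B ⟨k, hk⟩)) x = 0 := congrFun hx ⟨k, hk⟩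
        rw [h2, mul_zero]
      have h2 := g3 _ h1 (grow A D p) (mem_cand.2 ⟨p, rfl, hp⟩)
      rw [rf_grow hCl hdvd] at h2
      exact (mul_eq_zero.1 h2).resolve_left hD0.ne'
    have := LinearMap.finrank_le_finrank_of_injective hinj
    simpa using this
  have hlen : n = G.length := le_antisymm hge hle
  refine ⟨fun k => B (Fin.cast hlen k), ?_, fun k => hB2 _, ?_⟩
  · exact hli.comp _ (Fin.cast_injective hlen)
  · refine List.ext_getElem (by simp [hlen]) fun i h1 h2 => ?_
    rw [List.getElem_ofFn]
    have := hB1 ⟨i, h1⟩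
    rw [Fin.getElem_fin] at this
    exact this

/-- the start objective is a positive multiple of the weighted combination of rows -/
theorem rf_pvec {B : Fin n → Fin m ⊕ Fin n}
    (hB : indep (crow (inp A b c v)) (cand (inp A b c v)) =
        List.ofFn (fun k => grow A (dA (inp A b c v)) (B k))) {L : ℕ} (hL : n ≤ L)
    (W : Fin L → ℕ) :
    (pvec (inp A b c v) (List.ofFn W)).length = n + 1 ∧
    ∀ (x : Fin n → ℝ) (t : ℝ), rf (crow (inp A b c v)).length (pvec (inp A b c v) (List.ofFn W))
      (eN length_crow (x, t)) = dA (inp A b c v) *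
        dotProduct (∑ k, (W (Fin.castLE hL k) : ℝ) • arow (Ar A) (B k)) x := by
  have hl : (inp A b c v).2.2.1.length = n := by simp [inp]
  have hLen : Len (n + 1) (List.ofFn (fun k => grow A (dA (inp A b c v)) (B k))) := by
    intro r hr
    obtain ⟨k, rfl⟩ := List.mem_ofFn.1 hr
    exact length_grow _ _
  unfold pvec
  rw [hl, hB]
  obtain ⟨h1, h2⟩ := wcomb_spec (List.ofFn W) _ hLen
  refine ⟨h1, fun x t => ?_⟩
  have hz : (List.ofFn W).zip (List.ofFn (fun k => grow A (dA (inp A b c v)) (B k))) =
      List.ofFn (fun k : Fin n => (W (Fin.castLE hL k), grow A (dA (inp A b c v)) (B k))) := by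
    refine List.ext_getElem (by simp [hL]) fun i h3 h4 => ?_
    simp
  have key : ∀ (N : ℕ) (hN : N = n + 1), rf N (wcomb (n + 1) (List.ofFn W)
      (List.ofFn (fun k => grow A (dA (inp A b c v)) (B k)))) (eN hN (x, t)) =
      dA (inp A b c v) *
        dotProduct (∑ k, (W (Fin.castLE hL k) : ℝ) • arow (Ar A) (B k)) x := by
    intro N hN
    subst hN
    rw [h2, hz, List.map_ofFn, List.sum_ofFn, sum_dotProduct, Finset.mul_sum]
    refine Finset.sum_congr rfl fun k _ => ?_
    simp only [Function.comp_apply]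
    rw [rf_grow rfl (fun i j => den_dvd_dA i j), smul_dotProduct, smul_eq_mul]
    ring
  exact key _ length_crow

end Pool.Agent.N477.RS
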