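import Pool.Agent.N477.RS7

set_option autoImplicit false

/-!
# One run with given weights
-/

namespace Pool.Agent.N477.RS

open scoped InnerProductSpace
open Pool.Agent.Y644.QS Pool.Agent.Y644.QW Pool.Agent.H687R2.LLL Pool.Agent.NPC.H532.RP
open Pool.Agent.NPC hiding inp

/-- one run with the weights `w` and at most `T` pivots: the output, if the run is complete -/
def run1 (x : Inp) (T : ℕ) (w : List ℕ) : List Outp :=
  if (improve (crow x) [] (rowsJ x)
      (hdp (pth (pvec x w) (crow x) (rowsJ x) (startV x) T))).isNone = true then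
    [lpOut x.2.2.1.length (pth (pvec x w) (crow x) (rowsJ x) (startV x) T)] else []

/-- the first complete run -/
def runs (x : Inp) (T : ℕ) (W : List (List ℕ)) : Option Outp :=
  (W.flatMap fun w => run1 x T w).head?

variable {m n : ℕ} {A : Fin m → Fin n → ℚ} {b : Fin m → ℚ} {c v : Fin n → ℚ}

theorem length_pvec (w : List ℕ) : (pvec (inp A b c v) w).length = (crow (inp A b c v)).length := by
  have hl : (inp A b c v).2.2.1.length = n := by simp [inp]
  unfold pvec
  rw [hl, length_crow]
  refine (wcomb_spec w _ fun r hr => ?_).1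
  have hLc : Len (crow (inp A b c v)).length (cand (inp A b c v)) := by
    intro r hr
    obtain ⟨p, rfl, -⟩ := mem_cand.1 hr
    rw [length_grow, length_crow]
  have := hLc r ((indep_spec (c := crow (inp A b c v)) _ hLc).1 r hr)
  rw [this, length_crow]

/-- complete runs are correct -/
theorem run1_sound (hv : re v ∈ Set.extremePoints ℝ (polyhedron A b)) {T : ℕ} {w : List ℕ}
    {o : Outp} (ho : o ∈ run1 (inp A b c v) T w) :
    ∃ (N : ℕ) (x : ℕ → Fin n → ℚ) (d : Option (Fin n → ℚ)),
      o = ((List.range (N + 1)).map (fun k => List.ofFn (x k)), d.map List.ofFn) ∧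
      IsSimplexPath (polyhedron A b) c v N x d ∧ N ≤ T := by
  unfold run1 at ho
  split_ifs at ho with h
  · rw [List.mem_singleton] at ho
    rw [Option.isNone_iff_eq_none] at h
    have hvx := start_vx (c := c) hv
    have hJ : Len (crow (inp A b c v)).length (rowsJ (inp A b c v)) := Len.jl len_rowsI
    obtain ⟨⟨Q, hQ, hQT⟩, hG, -⟩ := pth_spec (p := pvec (inp A b c v) w)
      (by rw [length_crow]; omega) (length_pvec w) hJ (tau_mem_jl _ _) hvx T
    obtain ⟨w0, P', hPw⟩ := good_cons hG
    have hlen : (hdp (pth (pvec (inp A b c v) w) (crow (inp A b c v)) (rowsJ (inp A b c v))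
        (startV (inp A b c v)) T)).length = (crow (inp A b c v)).length := by
      rw [hPw]
      rw [hPw] at hG
      exact hG.head.1
    have ht := improve_none (fun r hr => by simp at hr) hJ hlen h
    obtain ⟨N, x, d, h1, h2, h3⟩ := lpOut_spec hQ hG ht
    have hl : (inp A b c v).2.2.1.length = n := by simp [inp]
    rw [hl] at ho
    exact ⟨N, x, d, ho.trans h1, h2, h3.trans hQT⟩
  · simp at ho

/-- complete runs stay complete with a larger budget -/
theorem run1_mono {x : Inp} {T T' : ℕ} (hTT : T ≤ T') {w : List ℕ} (h : run1 x T' w = []) :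
    run1 x T w = [] := by
  by_contra hne
  apply hne
  unfold run1 at h hne ⊢
  by_cases h0 : (improve (crow x) [] (rowsJ x)
      (hdp (pth (pvec x w) (crow x) (rowsJ x) (startV x) T))).isNone = true
  · exfalso
    have hfix : ∀ k, pth (pvec x w) (crow x) (rowsJ x) (startV x) (T + k) =
        pth (pvec x w) (crow x) (rowsJ x) (startV x) T := by
      intro k
      induction k with
      | zero => rfl
      | succ k ih =>
        have e : pth (pvec x w) (crow x) (rowsJ x) (startV x) (T + (k + 1)) =
            pstep (pvec x w) (crow x) (rowsJ x)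
              (pth (pvec x w) (crow x) (rowsJ x) (startV x) (T + k)) := by
          unfold pth
          rw [← add_assoc, Function.iterate_succ_apply']
        rw [e, ih]
        unfold pstep
        rw [Option.isNone_iff_eq_none] at h0
        rw [nxt_none.2 h0, Option.elim_none]
    obtain ⟨k, rfl⟩ := Nat.exists_eq_add_of_le hTT
    rw [hfix k, if_pos h0] at h
    simp at h
  · rw [if_neg h0]

/-- the last coordinate of the start objective is zero -/
theorem pvec_ev (hv : re v ∈ Set.extremePoints ℝ (polyhedron A b)) {L : ℕ} (hL : n ≤ L)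
    (W : Fin L → ℕ) : rf (crow (inp A b c v)).length (pvec (inp A b c v) (List.ofFn W))
      (ev (crow (inp A b c v))) = 0 := by
  obtain ⟨B, -, -, hB⟩ := exists_B (c := c) hv
  obtain ⟨⟨x, t⟩, hx⟩ := (eN (length_crow (A := A) (b := b) (c := c) (v := v))).surjective
    (ev (crow (inp A b c v)))
  rw [← hx, (rf_pvec hB hL W).2]
  have hx0 : x = 0 := by
    ext j
    have hcl := length_crow (A := A) (b := b) (c := c) (v := v)
    have hj := j.2
    have h1 : (eN (length_crow (A := A) (b := b) (c := c) (v := v))) (x, t)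
        ⟨j, by omega⟩ = x j := by simp [eN]
    rw [← h1, hx]
    unfold ev tau
    rw [lv_apply, getD_unitV (show (j : ℕ) < (crow (inp A b c v)).length by omega),
      if_neg (show ¬ (j : ℕ) = (crow (inp A b c v)).length - 1 by omega)]
    simp
  rw [hx0, dotProduct_zero, mul_zero]

/-- **Incomplete runs visit many vertices.** -/
theorem run1_complete (hv : re v ∈ Set.extremePoints ℝ (polyhedron A b)) :
    ∃ B : Fin n → Fin m ⊕ Fin n, LinearIndependent ℝ (fun k => arow (Ar A) (B k)) ∧
      ∀ (L Q : ℕ) (hL : n ≤ L) (ω : Fin L → Fin Q) (T : ℕ),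
        run1 (inp A b c v) T (List.ofFn fun i => Q + (ω i : ℕ)) = [] →
        T + 1 ≤ (Vis (MD.Poly (arow (Ar A)) (arhs (br b))) (fun j => (c j : ℝ))
          (MD.zz (arow (Ar A)) B 0 (gpt Q fun k => ω (Fin.castLE hL k)))).ncard := by
  obtain ⟨B, hB1, hB2, hB3⟩ := exists_B (c := c) hv
  refine ⟨B, hB1, fun L Q hL ω T hrun => ?_⟩
  set C := crow (inp A b c v) with hC
  set J := rowsJ (inp A b c v) with hJdef
  set W : Fin L → ℕ := fun i => Q + (ω i : ℕ) with hW
  set p := pvec (inp A b c v) (List.ofFn W) with hp
  set μ : Fin n → ℝ := gpt Q fun k => ω (Fin.castLE hL k) with hμ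
  set z := MD.zz (arow (Ar A)) B 0 μ with hz
  set D : ℝ := (dA (inp A b c v) : ℝ) with hD
  have hD0 : 0 < D := by rw [hD]; exact_mod_cast dA_pos _
  have hvx := start_vx (c := c) hv
  have hJ : Len C.length J := Len.jl len_rowsI
  have hc0 : 0 < C.length := by rw [hC, length_crow]; omega
  have hpl : p.length = C.length := length_pvec _
  have hp0 : rf C.length p (ev C) = 0 := pvec_ev hv hL W
  have hτJ : negV (tau C) ∈ J := tau_mem_jl _ _
  -- `Q = 0` is impossible unless `n = 0`
  have hDQ : ∃ K : ℝ, 0 < K ∧ ∀ (x : Fin n → ℝ) (t : ℝ),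
      rf C.length p (eN length_crow (x, t)) = K * dotProduct z x := by
    rcases Nat.eq_zero_or_pos n with hn | hn
    · refine ⟨1, one_pos, fun x t => ?_⟩
      rw [(rf_pvec hB3 hL W).2]
      subst hn
      simp [dotProduct]
    · have hQ : 0 < Q := Fin.pos (ω (Fin.castLE hL ⟨0, hn⟩))
      have hQR : (0 : ℝ) < Q := by exact_mod_cast hQ
      refine ⟨D * Q, mul_pos hD0 hQR, fun x t => ?_⟩
      rw [(rf_pvec hB3 hL W).2, mul_assoc, ← smul_eq_mul (Q : ℝ), ← smul_dotProduct]
      congr 2
      rw [hz]
      unfold MD.zz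
      rw [Finset.smul_sum]
      refine Finset.sum_congr rfl fun k _ => ?_
      rw [smul_smul]
      congr 1
      rw [hW, hμ, Pi.zero_apply, zero_add]
      unfold gpt
      push_cast
      field_simp
  obtain ⟨K, hK0, hK⟩ := hDQ
  -- the start
  have hvis0 : VisH p C J (lv C.length (startV (inp A b c v))) 0 := by
    intro h hh
    obtain ⟨⟨x, t⟩, rfl⟩ := (eN (length_crow (A := A) (b := b) (c := c) (v := v))).surjective h
    have h1 := (jl_nonpos_iff x t).1 hh.2
    rw [zero_mul, add_zero, zero_mul, add_zero, lv_xq length_crow getD_startV, xq_startV]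
    have hs0 : (0 : ℝ) < (startV (inp A b c v)).getD n 0 := by exact_mod_cast getD_startV
    rw [map_smul, map_smul, hK, hK, rf_tau, rf_tau, smul_eq_mul, smul_eq_mul, mul_one]
    have h2 : dotProduct z x ≤ dotProduct z (re v) * t := by
      rw [hz, MD.zz_dot, MD.zz_dot, Finset.sum_mul]
      refine Finset.sum_le_sum fun k _ => ?_
      have h3 : dotProduct (arow (Ar A) (B k)) (re v) = arhs (br b) (B k) := hB2 k
      rw [h3, mul_assoc]
      refine mul_le_mul_of_nonneg_left ?_ ?_
      · rcases hBk : B k with i | j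
        · exact h1.2.1 i
        · show dotProduct (-Pi.single j 1 : Fin n → ℝ) x ≤ 0 * t
          rw [neg_dotProduct, single_dotProduct, zero_mul, one_mul]
          linarith [h1.2.2 j]
      · rw [Pi.zero_apply, zero_add, hμ]
        unfold gpt
        positivity
    have h4 := mul_le_mul_of_nonneg_left h2 (mul_pos hK0 hs0).le
    linarith
  -- the path
  set P := pth p C J (startV (inp A b c v)) T with hP
  obtain ⟨-, hG, hlen⟩ := pth_spec hc0 hpl hJ hτJ hvx T
  have hvis := pth_vis hc0 hpl hp0 hJ hτJ hvx hvis0 T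
  rw [← hP] at hG hlen hvis
  have himp : improve C [] J (hdp P) ≠ none := by
    intro h
    unfold run1 at hrun
    have h' : (improve (crow (inp A b c v)) [] (rowsJ (inp A b c v))
        (hdp (pth (pvec (inp A b c v) (List.ofFn fun i => Q + (ω i : ℕ))) (crow (inp A b c v))
          (rowsJ (inp A b c v)) (startV (inp A b c v)) T))).isNone = true :=
      Option.isNone_iff_eq_none.2 h
    rw [if_pos h'] at hrun
    simp at hrun
  have hlen' := hlen himp
  obtain ⟨w0, P', hPw⟩ := good_cons hG
  have hhd : hdp P = w0 := by rw [hPw]; rfl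
  have hall : ∀ w ∈ P, 0 < w.getD n 0 := by
    intro w hw
    rw [hPw] at hw hG
    rcases List.mem_cons.1 hw with rfl | hw
    · rcases hG.head_or hτJ with h | ⟨h1, h2⟩
      · rw [rf_tau_lv length_crow] at h
        exact_mod_cast h
      · exfalso
        apply himp
        rw [hhd]
        exact improve_ray (fun r hr => by simp at hr) hJ hG.head.1 hτJ h1 h2
    · exact good_tail_pos hG w hw
  obtain ⟨s1, s2⟩ := good_seq hG hall
  have hPT : P.length - 1 = T := by omega
  rw [hPT] at s1 s2
  set f : ℕ → Fin n → ℝ := fun k => re (xq n (P.getD (T - k) [])) with hf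
  -- the objective increases
  have hmono : ∀ i j, i < j → j ≤ T → obj c (f i) < obj c (f j) := by
    intro i j hij hj
    induction j with
    | zero => omega
    | succ j ih =>
      have h1 := (s2 j (by omega)).2
      rcases Nat.lt_or_ge i j with h2 | h2
      · exact (ih h2 (by omega)).trans h1
      · have : i = j := by omega
        rw [this]
        exact h1
  have hinj : Set.InjOn f ((Finset.range (T + 1) : Finset ℕ) : Set ℕ) := by
    intro i hi j hj hij
    rw [Finset.mem_coe, Finset.mem_range] at hi hj
    rcases lt_trichotomy i j with h | h | h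
    · have := hmono i j h (by omega)
      rw [hij] at this
      exact absurd this (lt_irrefl _)
    · exact h
    · have := hmono j i h (by omega)
      rw [hij] at this
      exact absurd this (lt_irrefl _)
  have hmem : ∀ k ∈ ((Finset.range (T + 1) : Finset ℕ) : Set ℕ),
      f k ∈ Vis (MD.Poly (arow (Ar A)) (arhs (br b))) (fun j => (c j : ℝ)) z := by
    intro k hk
    rw [Finset.mem_coe, Finset.mem_range] at hk
    have hv1 := s1 k (by omega)
    have hlt : T - k < P.length := by omega
    have hgm : P.getD (T - k) [] ∈ P := by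
      rw [List.getD_eq_getElem _ _ hlt]
      exact List.getElem_mem _
    set w := P.getD (T - k) [] with hw
    have hwp := hall w hgm
    have hwR : (0 : ℝ) < w.getD n 0 := by exact_mod_cast hwp
    obtain ⟨s, hs0, hs⟩ := hvis w hgm
    set Dc : ℝ := (zden (List.ofFn c ++ [0]) : ℝ) with hDc
    have hDc0 : 0 ≤ Dc := Nat.cast_nonneg _
    have hcr : ∀ (x : Fin n → ℝ) (t : ℝ), rf C.length C (eN length_crow (x, t)) =
        Dc * obj c x := fun x t => rf_crow x t
    refine ⟨by rw [poly_eq]; exact hv1, s * Dc / K, by positivity, by rw [poly_eq]; exact hv1.1,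
      fun y hy => ?_⟩
    rw [poly_eq] at hy
    have h1 := hs (eN length_crow (y, 1)) ⟨by simp, (jl_nonpos_iff y 1).2
      ⟨zero_le_one, fun i => by rw [mul_one]; exact hy.1 i, hy.2⟩⟩
    rw [lv_xq length_crow hwp, map_smul, map_smul, map_smul, hK, hK, hcr, hcr,
      rf_tau, rf_tau, smul_eq_mul, smul_eq_mul, smul_eq_mul, mul_one, mul_one] at h1
    have h2 : (w.getD n 0 : ℝ) * (K * dotProduct z y + s * (Dc * obj c y)) ≤
        (w.getD n 0 : ℝ) * (K * dotProduct z (re (xq n w)) + s * (Dc * obj c (re (xq n w)))) := by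
      linarith
    have h3 := le_of_mul_le_mul_left h2 hwR
    have ho : ∀ x : Fin n → ℝ, dotProduct (z + (s * Dc / K) • fun j => (c j : ℝ)) x =
        (K * dotProduct z x + s * (Dc * obj c x)) / K := by
      intro x
      rw [add_dotProduct, smul_dotProduct, smul_eq_mul]
      have : dotProduct (fun j => (c j : ℝ)) x = obj c x := rfl
      rw [this]
      field_simp
    rw [ho, ho]
    exact div_le_div_of_nonneg_right h3 hK0.le
  have h := Set.ncard_le_ncard_of_injOn f hmem hinj (vis_finite _ _)
  rw [Set.ncard_coe_finset, Finset.card_range] at h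
  exact h

end Pool.Agent.N477.RS
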