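import Pool.Agent.N477.RS8
import Pool.Agent.Y644.QS.Final

set_option autoImplicit false

/-!
# One table of random numbers for all linear programs
-/

namespace Pool.Agent.N477.RS

open Pool.Agent.Y644.QS Pool.Agent.Y644.QW Pool.Agent.H687R2.LLL Pool.Agent.NPC.H532.RP
open Pool.Agent.NPC hiding inp

/-! ### Counting -/

open Classical in
/-- functions with a property depending on the first coordinates -/
theorem card_ext {n L Q : ℕ} (hL : n ≤ L) (p : (Fin n → Fin Q) → Prop) :
    (Finset.univ.filter (fun η : Fin L → Fin Q => p fun k => η (Fin.castLE hL k))).card ≤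
      Q ^ (L - n) * (Finset.univ.filter p).card := by
  set s := Finset.univ.filter (fun η : Fin L → Fin Q => p fun k => η (Fin.castLE hL k)) with hs
  let f : (Fin L → Fin Q) → (Fin n → Fin Q) := fun η k => η (Fin.castLE hL k)
  have himg : s.image f ⊆ Finset.univ.filter p := by
    intro g hg
    obtain ⟨η, hη, rfl⟩ := Finset.mem_image.1 hg
    rw [hs, Finset.mem_filter] at hη
    exact Finset.mem_filter.2 ⟨Finset.mem_univ _, hη.2⟩
  refine (Finset.card_le_mul_card_image (f := f) s (Q ^ (L - n)) fun g _ => ?_).trans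
    (Nat.mul_le_mul_left _ (Finset.card_le_card himg))
  let r : (Fin L → Fin Q) → (Fin (L - n) → Fin Q) := fun η i =>
    η ⟨n + (i : ℕ), by omega⟩
  have hinj : Set.InjOn r ((s.filter fun x => f x = g : Finset (Fin L → Fin Q)) :
      Set (Fin L → Fin Q)) := by
    intro η hη η' hη' hr
    rw [Finset.mem_coe, Finset.mem_filter] at hη hη'
    funext i
    by_cases hi : (i : ℕ) < n
    · have h1 := congrFun (hη.2.trans hη'.2.symm) ⟨i, hi⟩
      exact h1
    · have h1 := congrFun hr ⟨(i : ℕ) - n, by omega⟩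
      have e : (⟨n + ((i : ℕ) - n), by omega⟩ : Fin L) = i := Fin.ext (by simp; omega)
      simp only [r] at h1
      rw [e] at h1
      exact h1
  rw [← Finset.card_image_of_injOn hinj]
  refine (Finset.card_le_univ _).trans ?_
  rw [Fintype.card_fun, Fintype.card_fin, Fintype.card_fin]

/-- the bit strings of length at most `L` -/
def strs (L : ℕ) : Finset (List Bool) :=
  (Finset.range (L + 1)).biUnion fun l => Finset.univ.image (List.ofFn : (Fin l → Bool) → List Bool)

theorem mem_strs {L : ℕ} {s : List Bool} (h : s.length ≤ L) : s ∈ strs L := by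
  unfold strs
  rw [Finset.mem_biUnion]
  refine ⟨s.length, Finset.mem_range.2 (by omega), Finset.mem_image.2 ⟨s.get, Finset.mem_univ _, ?_⟩⟩
  exact List.ofFn_get s

theorem card_strs (L : ℕ) : (strs L).card ≤ 2 ^ (L + 1) := by
  unfold strs
  refine Finset.card_biUnion_le.trans ?_
  have h : ∀ l ∈ Finset.range (L + 1),
      (Finset.univ.image (List.ofFn : (Fin l → Bool) → List Bool)).card ≤ 2 ^ l := by
    intro l _
    refine Finset.card_image_le.trans ?_
    rw [Finset.card_univ, Fintype.card_fun, Fintype.card_bool, Fintype.card_fin]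
  refine (Finset.sum_le_sum h).trans ?_
  have h2 : ∀ k : ℕ, ∑ l ∈ Finset.range k, 2 ^ l + 1 = 2 ^ k := by
    intro k
    induction k with
    | zero => simp
    | succ k ih => rw [Finset.sum_range_succ, pow_succ]; omega
  have := h2 (L + 1)
  omega

/-! ### Bounded imbalance -/

/-- if a row of the system `A x ≤ b`, `-x ≤ 0` is a combination of `n` independent rows, then the
coefficients are at most `κ` -/
def Imb {m n : ℕ} (A : Fin m → Fin n → ℚ) (κ : ℝ) : Prop := MD.Bal (arow (Ar A)) κ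

/-- the number of bits -/
def kb (L : ℕ) : ℕ := 7 * L + 3

theorem kb_spec {m n L : ℕ} (h : m + n < L) :
    4 * ((n + 1) * ((2 ^ (m + n + n)) ^ 2 + (2 ^ (m + n + n)) ^ 3)) ≤ 2 ^ kb L := by
  have h1 : (2 : ℕ) ^ (m + n + n) ≤ 2 ^ (2 * L) := Nat.pow_le_pow_right (by norm_num) (by omega)
  have h2 : n + 1 ≤ 2 ^ L := by
    have : L < 2 ^ L := Nat.lt_two_pow_self
    omega
  have h3 : ((2 : ℕ) ^ (m + n + n)) ^ 2 ≤ (2 ^ (2 * L)) ^ 3 := by
    refine (Nat.pow_le_pow_left h1 2).trans (Nat.pow_le_pow_right (by positivity) (by norm_num))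
  have h4 : ((2 : ℕ) ^ (m + n + n)) ^ 3 ≤ (2 ^ (2 * L)) ^ 3 := Nat.pow_le_pow_left h1 3
  calc 4 * ((n + 1) * ((2 ^ (m + n + n)) ^ 2 + (2 ^ (m + n + n)) ^ 3))
      ≤ 4 * (2 ^ L * ((2 ^ (2 * L)) ^ 3 + (2 ^ (2 * L)) ^ 3)) := by gcongr
    _ = 2 ^ kb L := by
        unfold kb
        rw [← pow_mul, ← two_mul]
        have : (4 : ℕ) = 2 ^ 2 := by norm_num
        rw [this, ← mul_assoc, ← mul_assoc, mul_assoc (2 ^ 2 * 2 ^ L)]
        rw [← pow_succ', ← pow_add, ← pow_add]
        congr 1
        ring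

/-- the runs which have to succeed -/
def Valid (x : Inp) (T : ℕ) : Prop :=
  ∃ (m n : ℕ) (A : Fin m → Fin n → ℚ) (b : Fin m → ℚ) (c v : Fin n → ℚ) (κ : ℝ),
    x = inp A b c v ∧ re v ∈ Set.extremePoints ℝ (polyhedron A b) ∧ Imb A κ ∧
    72 * (n : ℝ) ^ 4 * κ ^ 3 ≤ T ∧ 1 ≤ T

open Classical in
/-- for one linear program at most half of the weights are bad -/
theorem card_one {x : Inp} {T L : ℕ} (hx : Valid x T) (hL : sz x ≤ L) :
    2 * (Finset.univ.filter (fun η : Fin L → Fin (2 ^ kb L) =>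
      run1 x T (List.ofFn fun i => 2 ^ kb L + (η i : ℕ)) = [])).card ≤ (2 ^ kb L) ^ L := by
  obtain ⟨m, n, A, b, c, v, κ, rfl, hv, hκ, hT, hT1⟩ := hx
  have hmn : m + n < L := lt_of_lt_of_le le_sz_inp hL
  have hnL : n ≤ L := by omega
  obtain ⟨B, hB, hrun⟩ := run1_complete (c := c) hv
  have hgrid := grid_lp (Ar A) (br b) hκ hB ⟨re v, by rw [poly_eq]; exact hv.1⟩
    (fun j => (c j : ℝ)) hT hT1 (kb_spec hmn)
  set Q := 2 ^ kb L with hQ
  let p : (Fin n → Fin Q) → Prop := fun g => T + 1 ≤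
    (Vis (MD.Poly (arow (Ar A)) (arhs (br b))) (fun j => (c j : ℝ))
      (MD.zz (arow (Ar A)) B 0 (gpt Q g))).ncard
  have h1 : (Finset.univ.filter (fun η : Fin L → Fin Q =>
      run1 (inp A b c v) T (List.ofFn fun i => Q + (η i : ℕ)) = [])).card ≤
      (Finset.univ.filter (fun η : Fin L → Fin Q => p fun k => η (Fin.castLE hnL k))).card := by
    apply Finset.card_le_card
    intro η hη
    rw [Finset.mem_filter] at hη ⊢
    exact ⟨Finset.mem_univ _, hrun L Q hnL η T hη.2⟩
  have h2 := card_ext hnL p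
  have h3 : 2 * (Finset.univ.filter p).card ≤ Q ^ n := by convert hgrid
  have h12 : (Finset.univ.filter (fun η : Fin L → Fin Q =>
      run1 (inp A b c v) T (List.ofFn fun i => Q + (η i : ℕ)) = [])).card ≤
      Q ^ (L - n) * (Finset.univ.filter p).card := h1.trans (by convert h2; rfl)
  refine (Nat.mul_le_mul_left 2 h12).trans ?_
  calc 2 * (Q ^ (L - n) * (Finset.univ.filter p).card)
      = Q ^ (L - n) * (2 * (Finset.univ.filter p).card) := by ring
    _ ≤ Q ^ (L - n) * Q ^ n := Nat.mul_le_mul_left _ h3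
    _ = Q ^ L := by rw [← pow_add]; congr 1; omega

theorem runs_none {x : Inp} {T : ℕ} {W : List (List ℕ)} (h : runs x T W = none) :
    ∀ w ∈ W, run1 x T w = [] := by
  unfold runs at h
  rw [List.head?_eq_none_iff, List.flatMap_eq_nil_iff] at h
  exact h

theorem runs_some {x : Inp} {T : ℕ} {W : List (List ℕ)} {o : Outp} (h : runs x T W = some o) :
    ∃ w ∈ W, o ∈ run1 x T w := by
  unfold runs at h
  exact List.mem_flatMap.1 (List.mem_of_head? h)

/-- the table of weights -/
def wtab {r L Q : ℕ} (ω : Fin r → Fin L → Fin Q) : List (List ℕ) :=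
  List.ofFn fun i => List.ofFn fun j => Q + (ω i j : ℕ)

open Classical in
/-- **Most tables are good for all linear programs.** -/
theorem card_all (L : ℕ) :
    2 ^ L * (Finset.univ.filter (fun ω : Fin (2 * L + 1) → Fin L → Fin (2 ^ kb L) =>
      ∃ (x : Inp) (T : ℕ), Valid x T ∧ sz x ≤ L ∧ runs x T (wtab ω) = none)).card ≤
      ((2 ^ kb L) ^ L) ^ (2 * L + 1) := by
  set Q := 2 ^ kb L with hQ
  -- the bad weights for a string
  let xs : List Bool → Inp := fun s => if h : ∃ x : Inp, bits x = s then h.choose else ([], [], [], [])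
  have hxs : ∀ x : Inp, xs (bits x) = x := by
    intro x
    have h : ∃ y : Inp, (bits y : List Bool) = bits x := ⟨x, rfl⟩
    have h1 : xs (bits x) = h.choose := dif_pos h
    have h2 := h.choose_spec
    have h3 := congrArg (unbits Inp) h2
    rw [unbits_bits, unbits_bits, Option.some.injEq] at h3
    rw [h1, h3]
  let bad : List Bool → Finset (Fin L → Fin Q) := fun s =>
    if h : ∃ T, Valid (xs s) T ∧ sz (xs s) ≤ L then
      Finset.univ.filter fun η => run1 (xs s) (Nat.find h) (List.ofFn fun i => Q + (η i : ℕ)) = []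
    else ∅
  have hbad : ∀ s, 2 * (bad s).card ≤ Q ^ L := by
    intro s
    by_cases h : ∃ T, Valid (xs s) T ∧ sz (xs s) ≤ L
    · have e : bad s = Finset.univ.filter fun η =>
        run1 (xs s) (Nat.find h) (List.ofFn fun i => Q + (η i : ℕ)) = [] := dif_pos h
      rw [e]
      exact card_one (Nat.find_spec h).1 (Nat.find_spec h).2
    · have e : bad s = ∅ := dif_neg h
      rw [e]
      simp
  have hsub : (Finset.univ.filter (fun ω : Fin (2 * L + 1) → Fin L → Fin Q =>
      ∃ (x : Inp) (T : ℕ), Valid x T ∧ sz x ≤ L ∧ runs x T (wtab ω) = none)) ⊆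
      (strs L).biUnion fun s => Fintype.piFinset fun _ : Fin (2 * L + 1) => bad s := by
    intro ω hω
    obtain ⟨-, x, T, hV, hsz, hrun⟩ := Finset.mem_filter.1 hω
    rw [Finset.mem_biUnion]
    refine ⟨bits x, mem_strs (by rw [bits_length]; exact hsz), Fintype.mem_piFinset.2 fun i => ?_⟩
    have h : ∃ T, Valid (xs (bits x)) T ∧ sz (xs (bits x)) ≤ L := by
      rw [hxs]
      exact ⟨T, hV, hsz⟩
    have e : bad (bits x) = Finset.univ.filter fun η =>
        run1 (xs (bits x)) (Nat.find h) (List.ofFn fun i => Q + (η i : ℕ)) = [] := dif_pos h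
    rw [e, Finset.mem_filter]
    refine ⟨Finset.mem_univ _, ?_⟩
    have h1 := runs_none hrun (List.ofFn fun j => Q + (ω i j : ℕ))
      (List.mem_ofFn.2 ⟨i, rfl⟩)
    have h2 : Nat.find h ≤ T := Nat.find_min' h (by rw [hxs]; exact ⟨hV, hsz⟩)
    rw [← hxs x] at h1
    exact run1_mono h2 h1
  have hcard : (Finset.univ.filter (fun ω : Fin (2 * L + 1) → Fin L → Fin Q =>
      ∃ (x : Inp) (T : ℕ), Valid x T ∧ sz x ≤ L ∧ runs x T (wtab ω) = none)).card * 2 ^ (2 * L + 1) ≤
      2 ^ (L + 1) * (Q ^ L) ^ (2 * L + 1) := by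
    refine (Nat.mul_le_mul_right _ ((Finset.card_le_card hsub).trans Finset.card_biUnion_le)).trans ?_
    rw [Finset.sum_mul]
    have hs : ∀ s ∈ strs L, (Fintype.piFinset fun _ : Fin (2 * L + 1) => bad s).card *
        2 ^ (2 * L + 1) ≤ (Q ^ L) ^ (2 * L + 1) := by
      intro s _
      rw [Fintype.card_piFinset_const, ← mul_pow, mul_comm]
      exact Nat.pow_le_pow_left (hbad s) _
    refine (Finset.sum_le_sum hs).trans ?_
    rw [Finset.sum_const, smul_eq_mul]
    exact Nat.mul_le_mul_right _ (card_strs L)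
  have h2 : (0 : ℕ) < 2 ^ (L + 1) := by positivity
  have h3 : (2 : ℕ) ^ (2 * L + 1) = 2 ^ (L + 1) * 2 ^ L := by
    rw [← pow_add]; congr 1; omega
  rw [h3] at hcard
  have h4 : 2 ^ (L + 1) * (2 ^ L * (Finset.univ.filter
      (fun ω : Fin (2 * L + 1) → Fin L → Fin Q =>
      ∃ (x : Inp) (T : ℕ), Valid x T ∧ sz x ≤ L ∧ runs x T (wtab ω) = none)).card) ≤
      2 ^ (L + 1) * (Q ^ L) ^ (2 * L + 1) := by
    refine le_trans (le_of_eq ?_) hcard
    ring
  exact Nat.le_of_mul_le_mul_left h4 h2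

end Pool.Agent.N477.RS
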